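import Pool.Agent.Work.MP_88b7aa_gt.Kc.Cel

/-!
# The three templates of the bulk
-/

set_option autoImplicit false

namespace Pool.Agent.Work.MP_88b7aa_gt.Kc

open Pool.Agent.Work.MP_88b7aa_gt.CH
open Pool.Agent.Work.MP_88b7aa_gt.PQ
open ComplexConjugate Complex Matrix

/-- The template of a cell. -/
def T000 : Tm where
  fes d := [d.c.getD 0 .gram, 
    d.c.getD 1 .gram, 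
    d.c.getD 2 .gram, 
    d.c.getD 3 .gram, 
    d.c.getD 4 .gram, 
    d.c.getD 5 .gram, 
    FEV 1 2 (d.f.getD 0 (.cst 0 0)) (ngS (UpS (.par (cpar 1 2)) 1)) (ngS (UpS (.par (cpar 1 2)) 2)), 
    FEV 1 2 (d.f.getD 0 (.cst 0 0)) (ngS (UpS (.par (cpar 1 2)) 2)) (ngS (UpS (.par (cpar 1 2)) 1)), 
    FEV 1 2 (d.f.getD 0 (.cst 0 0)) (UpS (.par (cpar 1 2)) 2) (UpS (.par (cpar 1 2)) 1), 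
    FEV 1 2 (d.f.getD 0 (.cst 0 0)) (UpS (.par (cpar 1 2)) 1) (UpS (.par (cpar 1 2)) 2), 
    FEV 2 0 (d.f.getD 1 (.cst 0 0)) (ngS (UpS (.par (cpar 2 0)) 1)) (ngS (UpS (.par (cpar 2 0)) 2)), 
    FEV 2 0 (d.f.getD 1 (.cst 0 0)) (ngS (UpS (.par (cpar 2 0)) 2)) (ngS (UpS (.par (cpar 2 0)) 1)), 
    FEV 2 0 (d.f.getD 1 (.cst 0 0)) (UpS (.par (cpar 2 0)) 2) (UpS (.par (cpar 2 0)) 1), 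
    FEV 2 0 (d.f.getD 1 (.cst 0 0)) (UpS (.par (cpar 2 0)) 1) (UpS (.par (cpar 2 0)) 2), 
    FEV 0 1 (d.f.getD 2 (.cst 0 0)) (ngS (UpS (.par (cpar 0 1)) 1)) (ngS (UpS (.par (cpar 0 1)) 2)), 
    FEV 0 1 (d.f.getD 2 (.cst 0 0)) (ngS (UpS (.par (cpar 0 1)) 2)) (ngS (UpS (.par (cpar 0 1)) 1)), 
    FEV 0 1 (d.f.getD 2 (.cst 0 0)) (UpS (.par (cpar 0 1)) 2) (UpS (.par (cpar 0 1)) 1), 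
    FEV 0 1 (d.f.getD 2 (.cst 0 0)) (UpS (.par (cpar 0 1)) 1) (UpS (.par (cpar 0 1)) 2)]
  is := [.form 0, .comp 0 0, .comp 1 0, .comp 1 2, .comp 2 3, .form 1, .comp 0 0, .comp 2 0, .comp 1 2, .comp 2 3, .form 2, .comp 0 0, .comp 1 1, .comp 0 0, .comp 2 3, .form 3, .comp 0 0, .comp 1 1, .comp 2 0, .comp 2 3, .form 4, .comp 0 0, .comp 1 1, .comp 2 2, .comp 0 0, .form 5, .comp 0 0, .comp 1 1, .comp 2 2, .comp 1 0, .form 6, .comp 0 0, .comp 2 1, .form 7, .comp 0 0, .comp 1 1, .form 8, .form 9, .form 10, .comp 0 0, .comp 1 1, .form 11, .comp 1 0, .comp 2 1, .form 12, .form 13, .form 14, .comp 1 0, .comp 2 1, .form 15, .comp 0 0, .comp 2 1, .form 16, .form 17]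
  pks := [53, 52, 50, 49, 48, 47, 45, 44, 43, 42, 41, 39, 38, 37, 36, 34, 33, 32, 31, 30, 28, 27, 26, 25, 23, 22, 21, 20, 19, 18, 17, 16, 15, 14, 13, 12, 11, 10, 9, 8, 7, 6, 5, 4, 3, 2, 1, 0]
  cn := [⟨1, 2, 2, 1, 0, 3, 3, 14⟩, ⟨1, 2, 2, 1, 1, 3, 7, 14⟩, ⟨1, 2, 2, 1, 14, 3, 42, 14⟩, ⟨1, 2, 2, 1, 11, 3, 37, 14⟩, ⟨1, 2, 0, 0, 0, 9, 0, 31⟩, ⟨1, 2, 0, 0, 1, 9, 4, 31⟩, ⟨1, 2, 0, 0, 14, 9, 40, 31⟩, ⟨1, 2, 0, 0, 11, 9, 35, 31⟩, ⟨2, 1, 2, 1, 0, 5, 2, 23⟩, ⟨2, 1, 2, 1, 1, 5, 6, 23⟩, ⟨2, 1, 2, 1, 14, 5, 41, 23⟩, ⟨2, 1, 2, 1, 11, 5, 36, 23⟩, ⟨2, 1, 0, 0, 0, 8, 0, 30⟩, ⟨2, 1, 0, 0, 1, 8, 4, 30⟩, ⟨2, 1, 0, 0, 14, 8, 40, 30⟩, ⟨2, 1, 0, 0, 11, 8, 35, 30⟩, ⟨2, 0, 2, 1, 3, 4, 13, 19⟩, ⟨2, 0, 2, 1, 2, 4, 9, 19⟩, ⟨2, 0, 2, 1, 6, 4, 25, 19⟩, ⟨2, 0, 2,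 1, 15, 4, 44, 19⟩, ⟨2, 0, 0, 0, 3, 13, 12, 39⟩, ⟨2, 0, 0, 0, 2, 13, 8, 39⟩, ⟨2, 0, 0, 0, 6, 13, 24, 39⟩, ⟨2, 0, 0, 0, 15, 13, 43, 39⟩, ⟨0, 2, 2, 1, 3, 1, 15, 5⟩, ⟨0, 2, 2, 1, 2, 1, 11, 5⟩, ⟨0, 2, 2, 1, 6, 1, 26, 5⟩, ⟨0, 2, 2, 1, 15, 1, 45, 5⟩, ⟨0, 2, 0, 0, 3, 12, 12, 38⟩, ⟨0, 2, 0, 0, 2, 12, 8, 38⟩, ⟨0, 2, 0, 0, 6, 12, 24, 38⟩, ⟨0, 2, 0, 0, 15, 12, 43, 38⟩, ⟨0, 1, 2, 1, 4, 0, 18, 1⟩, ⟨0, 1, 2, 1, 5, 0, 22, 1⟩, ⟨0, 1, 2, 1, 10, 0, 34, 1⟩, ⟨0, 1, 2, 1, 7, 0, 29, 1⟩, ⟨0, 1, 0, 0, 4, 17, 16, 47⟩, ⟨0, 1, 0, 0, 5, 17, 20, 47⟩, ⟨0, 1, 0, 0, 10, 17, 32, 47⟩, ⟨0, 1, 0, 0, 7, 17, 27, 47⟩, ⟨1, 0, 2, 1, 4, 2, 17, 10⟩, ⟨1, 0, 2, 1, 5, 2, 21, 10⟩, ⟨1, 0, 2, 1, 10, 2, 33, 10⟩, ⟨1, 0, 2, 1, 7, 2, 28, 10⟩, ⟨1, 0, 0, 0, 4, 16, 16, 46⟩, ⟨1, 0, 0, 0,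 5, 16, 20, 46⟩, ⟨1, 0, 0, 0, 10, 16, 32, 46⟩, ⟨1, 0, 0, 0, 7, 16, 27, 46⟩]
  pp := [⟨0, 1, 1, 0, 52⟩, ⟨1, 2, 1, 3, 36⟩, ⟨2, 0, 1, 4, 30⟩, ⟨0, 1, 2, 0, 51⟩, ⟨0, 1, 0, 17, 0⟩, ⟨0, 2, 2, 1, 46⟩, ⟨0, 2, 0, 12, 9⟩, ⟨1, 0, 2, 2, 40⟩, ⟨1, 0, 0, 16, 1⟩, ⟨1, 2, 2, 3, 35⟩, ⟨1, 2, 0, 9, 16⟩, ⟨2, 0, 2, 4, 29⟩, ⟨2, 0, 0, 13, 8⟩, ⟨2, 1, 2, 5, 24⟩, ⟨2, 1, 0, 8, 17⟩]
  pn := [⟨0, 1, 0, 0, 53⟩, ⟨0, 1, 0, 14, 7⟩, ⟨0, 2, 0, 1, 48⟩, ⟨0, 2, 0, 11, 12⟩, ⟨1, 0, 0, 2, 43⟩, ⟨1, 0, 0, 15, 4⟩, ⟨1, 2, 0, 3, 38⟩, ⟨1, 2, 0, 6, 23⟩, ⟨2, 0, 0, 4, 33⟩, ⟨2, 0, 0, 10, 15⟩, ⟨2, 1, 0, 5, 28⟩, ⟨2, 1, 0, 7, 20⟩]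
  st := [(0, 0), (1, 0), (2, 1), (3, 1), (4, 2), (5, 2), (6, 1), (7, 2), (10, 2), (11, 0), (14, 0), (15, 1)]
  sk _ := []
  sf := []
  vd d := fun i j => match i, j with
    | 0, 1 => .anti false (d.f.getD 2 (.cst 0 0)) 1 14 16 17
    | 0, 2 => .anti true (d.f.getD 1 (.cst 0 0)) 1 11 12 13
    | 1, 0 => .anti true (d.f.getD 2 (.cst 0 0)) 1 15 16 17
    | 1, 2 => .anti false (d.f.getD 0 (.cst 0 0)) 1 6 8 9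
    | 2, 0 => .anti false (d.f.getD 1 (.cst 0 0)) 1 10 12 13
    | 2, 1 => .anti true (d.f.getD 0 (.cst 0 0)) 1 7 8 9
    | _, _ => .small 0 0
  vx := fun i j => match i, j with
    | 0, 1 => .big 3 14 16 17
    | 0, 2 => .big 3 11 13 12
    | 1, 0 => .big 3 15 17 16
    | 1, 2 => .big 3 6 8 9
    | 2, 0 => .big 3 10 12 13
    | 2, 1 => .big 3 7 9 8
    | _, _ => .small 0 0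
  lb := fun _ _ => 0

/-- The template of a cell with a small vertex. -/
def T300 : Tm where
  fes d := [d.c.getD 0 .gram, 
    d.c.getD 1 .gram, 
    d.c.getD 2 .gram, 
    d.c.getD 3 .gram, 
    d.c.getD 4 .gram, 
    d.c.getD 5 .gram, 
    FEV 2 0 (d.f.getD 1 (.cst 0 0)) (ngS (UpS (.par (cpar 2 0)) 1)) (ngS (UpS (.par (cpar 2 0)) 2)), 
    FEV 2 0 (d.f.getD 1 (.cst 0 0)) (ngS (UpS (.par (cpar 2 0)) 2)) (ngS (UpS (.par (cpar 2 0)) 1)), 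
    FEV 2 0 (d.f.getD 1 (.cst 0 0)) (UpS (.par (cpar 2 0)) 2) (UpS (.par (cpar 2 0)) 1), 
    FEV 2 0 (d.f.getD 1 (.cst 0 0)) (UpS (.par (cpar 2 0)) 1) (UpS (.par (cpar 2 0)) 2), 
    FEV 0 1 (d.f.getD 2 (.cst 0 0)) (ngS (UpS (.par (cpar 0 1)) 1)) (ngS (UpS (.par (cpar 0 1)) 2)), 
    FEV 0 1 (d.f.getD 2 (.cst 0 0)) (ngS (UpS (.par (cpar 0 1)) 2)) (ngS (UpS (.par (cpar 0 1)) 1)), 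
    FEV 0 1 (d.f.getD 2 (.cst 0 0)) (UpS (.par (cpar 0 1)) 2) (UpS (.par (cpar 0 1)) 1), 
    FEV 0 1 (d.f.getD 2 (.cst 0 0)) (UpS (.par (cpar 0 1)) 1) (UpS (.par (cpar 0 1)) 2), 
    d.c.getD 6 .gram]
  is := [.form 0, .comp 0 0, .comp 1 0, .comp 1 2, .comp 2 0, .comp 1 0, .comp 2 5, .comp 1 0, .comp 2 0, .form 1, .comp 0 0, .comp 2 0, .comp 1 2, .comp 2 0, .comp 1 0, .comp 2 5, .comp 1 0, .comp 2 0, .form 2, .comp 0 0, .comp 1 1, .comp 0 0, .comp 2 3, .form 3, .comp 0 0, .comp 1 1, .comp 2 0, .comp 2 3, .form 4, .comp 0 0, .comp 1 1, .comp 2 2, .comp 0 0, .form 5, .comp 0 0, .comp 1 1, .comp 2 2, .comp 1 0, .form 6, .comp 0 0, .comp 1 1, .form 7, .comp 1 0, .comp 2 0, .comp 1 0, .comp 2 3, .comp 1 0, .comp 2 0, .form 8, .form 9,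 .form 10, .comp 1 0, .comp 2 0, .comp 1 0, .comp 2 3, .comp 1 0, .comp 2 0, .form 11, .comp 0 0, .comp 2 1, .form 12, .form 13, .form 14, .comp 1 0, .comp 2 0, .comp 1 0, .comp 2 3, .comp 1 0, .comp 2 0]
  pks := [67, 65, 62, 58, 56, 53, 50, 49, 48, 46, 45, 44, 43, 41, 40, 39, 38, 37, 35, 34, 33, 32, 30, 29, 28, 26, 23, 20, 19, 17, 14, 11, 10, 9, 8, 7]
  cn := [⟨1, 2, 2, 1, 0, 3, 2, 12⟩, ⟨1, 2, 2, 1, 1, 3, 5, 12⟩, ⟨1, 2, 2, 1, 10, 3, 30, 12⟩, ⟨1, 2, 2, 1, 7, 3, 26, 12⟩, ⟨2, 1, 2, 1, 0, 5, 1, 21⟩, ⟨2, 1, 2, 1, 1, 5, 4, 21⟩, ⟨2, 1, 2, 1, 10, 5, 29, 21⟩, ⟨2, 1, 2, 1, 7, 5, 25, 21⟩, ⟨2, 0, 2, 1, 3, 4, 11, 17⟩, ⟨2, 0, 2, 1, 2, 4, 7, 17⟩, ⟨2, 0, 2, 1, 11, 4, 32, 17⟩, ⟨2, 0, 0, 0, 3, 9, 10, 28⟩, ⟨2, 0, 0, 0, 2, 9, 6, 28⟩, ⟨2, 0, 0, 0, 11,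 9, 31, 28⟩, ⟨0, 2, 2, 1, 3, 1, 13, 3⟩, ⟨0, 2, 2, 1, 2, 1, 9, 3⟩, ⟨0, 2, 2, 1, 11, 1, 33, 3⟩, ⟨0, 2, 0, 0, 3, 8, 10, 27⟩, ⟨0, 2, 0, 0, 2, 8, 6, 27⟩, ⟨0, 2, 0, 0, 11, 8, 31, 27⟩, ⟨0, 1, 2, 1, 4, 0, 16, 0⟩, ⟨0, 1, 2, 1, 5, 0, 20, 0⟩, ⟨0, 1, 2, 1, 6, 0, 24, 0⟩, ⟨0, 1, 0, 0, 4, 13, 14, 35⟩, ⟨0, 1, 0, 0, 5, 13, 18, 35⟩, ⟨0, 1, 0, 0, 6, 13, 22, 35⟩, ⟨1, 0, 2, 1, 4, 2, 15, 8⟩, ⟨1, 0, 2, 1, 5, 2, 19, 8⟩, ⟨1, 0, 2, 1, 6, 2, 23, 8⟩, ⟨1, 0, 0, 0, 4, 12, 14, 34⟩, ⟨1, 0, 0, 0, 5, 12, 18, 34⟩, ⟨1, 0, 0, 0, 6, 12, 22, 34⟩]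
  pp := [⟨0, 1, 1, 0, 67⟩, ⟨1, 2, 1, 3, 43⟩, ⟨2, 0, 1, 4, 37⟩, ⟨0, 1, 2, 0, 66⟩, ⟨0, 1, 0, 13, 7⟩, ⟨0, 2, 2, 1, 57⟩, ⟨0, 2, 0, 8, 20⟩, ⟨1, 0, 2, 2, 47⟩, ⟨1, 0, 0, 12, 8⟩, ⟨1, 2, 2, 3, 42⟩, ⟨1, 2, 3, 14, 3⟩, ⟨2, 0, 2, 4, 36⟩, ⟨2, 0, 0, 9, 19⟩, ⟨2, 1, 2, 5, 31⟩, ⟨2, 1, 3, 14, 0⟩]
  pn := [⟨1, 2, 0, 14, 6⟩, ⟨1, 2, 3, 0, 63⟩, ⟨1, 2, 3, 10, 15⟩, ⟨1, 2, 3, 1, 54⟩, ⟨1, 2, 3, 7, 24⟩, ⟨2, 1, 3, 0, 60⟩, ⟨2, 1, 3, 10, 12⟩, ⟨2, 1, 3, 1, 51⟩, ⟨2, 1, 3, 7, 21⟩, ⟨0, 1, 0, 0, 68⟩, ⟨0, 1, 0, 10, 18⟩, ⟨0, 2, 0, 1, 59⟩, ⟨0, 2, 0, 7, 27⟩, ⟨1, 0, 0, 2, 50⟩, ⟨1, 0, 0, 11, 11⟩, ⟨1, 2, 0, 3, 45⟩, ⟨2, 0, 0, 4, 40⟩, ⟨2, 0, 0, 6, 30⟩, ⟨2, 1, 0, 5, 35⟩]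
  st := [(0, 0), (1, 0), (2, 1), (3, 1), (4, 2), (5, 2), (6, 2), (7, 0), (10, 0), (11, 1)]
  sk _ := []
  sf := []
  vd d := fun i j => match i, j with
    | 0, 1 => .anti false (d.f.getD 2 (.cst 0 0)) 1 10 12 13
    | 0, 2 => .anti true (d.f.getD 1 (.cst 0 0)) 1 7 8 9
    | 1, 0 => .anti true (d.f.getD 2 (.cst 0 0)) 1 11 12 13
    | 1, 2 => .small 3 14
    | 2, 0 => .anti false (d.f.getD 1 (.cst 0 0)) 1 6 8 9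
    | 2, 1 => .small 3 14
    | _, _ => .small 0 0
  vx := fun i j => match i, j with
    | 0, 1 => .big 3 10 12 13
    | 0, 2 => .big 3 7 9 8
    | 1, 0 => .big 3 11 13 12
    | 1, 2 => .small 3 14
    | 2, 0 => .big 3 6 8 9
    | 2, 1 => .small 3 14
    | _, _ => .small 0 0
  lb := fun _ _ => 0

/-- The template of a cell with two small vertices. -/
def T303 : Tm where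
  fes d := [d.c.getD 0 .gram, 
    d.c.getD 1 .gram, 
    d.c.getD 2 .gram, 
    d.c.getD 3 .gram, 
    d.c.getD 4 .gram, 
    d.c.getD 5 .gram, 
    FEV 2 0 (d.f.getD 1 (.cst 0 0)) (ngS (UpS (.par (cpar 2 0)) 1)) (ngS (UpS (.par (cpar 2 0)) 2)), 
    FEV 2 0 (d.f.getD 1 (.cst 0 0)) (ngS (UpS (.par (cpar 2 0)) 2)) (ngS (UpS (.par (cpar 2 0)) 1)), 
    FEV 2 0 (d.f.getD 1 (.cst 0 0)) (UpS (.par (cpar 2 0)) 2) (UpS (.par (cpar 2 0)) 1), 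
    FEV 2 0 (d.f.getD 1 (.cst 0 0)) (UpS (.par (cpar 2 0)) 1) (UpS (.par (cpar 2 0)) 2), 
    d.c.getD 6 .gram, 
    d.c.getD 7 .gram]
  is := [.form 0, .comp 0 0, .comp 1 0, .comp 1 2, .comp 2 0, .comp 1 0, .comp 2 5, .comp 1 0, .comp 2 0, .form 1, .comp 0 0, .comp 2 0, .comp 1 2, .comp 2 0, .comp 1 0, .comp 2 5, .comp 1 0, .comp 2 0, .form 2, .comp 0 0, .comp 1 1, .comp 0 0, .comp 2 3, .form 3, .comp 0 0, .comp 1 1, .comp 2 0, .comp 2 3, .form 4, .comp 0 0, .comp 1 0, .comp 0 0, .comp 1 3, .comp 0 0, .comp 1 0, .comp 2 6, .comp 0 0, .form 5, .comp 0 0, .comp 1 0, .comp 0 0, .comp 1 3, .comp 0 0, .comp 1 0, .comp 2 6, .comp 1 0, .form 6, .comp 0 0, .comp 1 0, .comp 0 0, .comp 1 3, .comp 0 0, .comp 1 0, .form 7, .comp 1 0, .comp 2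 0, .comp 1 0, .comp 2 3, .comp 1 0, .comp 2 0, .form 8, .form 9, .form 10, .comp 1 0, .comp 2 0, .comp 1 0, .comp 2 3, .comp 1 0, .comp 2 0, .form 11, .comp 0 0, .comp 1 0, .comp 0 0, .comp 1 3, .comp 0 0, .comp 1 0]
  pks := [74, 72, 69, 65, 63, 60, 57, 56, 55, 53, 52, 51, 50, 48, 46, 43, 40, 37, 34, 31, 28, 25, 21, 18, 15, 14]
  cn := [⟨1, 2, 2, 1, 0, 3, 2, 12⟩, ⟨1, 2, 2, 1, 1, 3, 5, 12⟩, ⟨1, 2, 2, 1, 7, 3, 23, 12⟩, ⟨2, 1, 2, 1, 0, 5, 1, 19⟩, ⟨2, 1, 2, 1, 1, 5, 4, 19⟩, ⟨2, 1, 2, 1, 7, 5, 22, 19⟩, ⟨2, 0, 2, 1, 3, 4, 11, 16⟩, ⟨2, 0, 2, 1, 2, 4, 7, 16⟩, ⟨2, 0, 0, 0, 3, 9, 10, 25⟩, ⟨2, 0, 0, 0, 2, 9, 6, 25⟩, ⟨0, 2, 2, 1, 3, 1, 13, 3⟩, ⟨0, 2, 2, 1, 2, 1, 9, 3⟩, ⟨0, 2, 0, 0, 3, 8, 10, 24⟩, ⟨0, 2, 0, 0, 2, 8, 6, 24⟩, ⟨0, 1, 2, 1, 4, 0,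 15, 0⟩, ⟨0, 1, 2, 1, 5, 0, 18, 0⟩, ⟨0, 1, 2, 1, 6, 0, 21, 0⟩, ⟨1, 0, 2, 1, 4, 2, 14, 8⟩, ⟨1, 0, 2, 1, 5, 2, 17, 8⟩, ⟨1, 0, 2, 1, 6, 2, 20, 8⟩]
  pp := [⟨0, 1, 1, 0, 74⟩, ⟨1, 2, 1, 3, 50⟩, ⟨2, 0, 1, 4, 40⟩, ⟨0, 1, 2, 0, 73⟩, ⟨0, 1, 3, 11, 3⟩, ⟨0, 2, 2, 1, 64⟩, ⟨0, 2, 0, 8, 15⟩, ⟨1, 0, 2, 2, 54⟩, ⟨1, 0, 3, 11, 0⟩, ⟨1, 2, 2, 3, 49⟩, ⟨1, 2, 3, 10, 10⟩, ⟨2, 0, 2, 4, 39⟩, ⟨2, 0, 0, 9, 14⟩, ⟨2, 1, 2, 5, 30⟩, ⟨2, 1, 3, 10, 7⟩]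
  pn := [⟨0, 1, 0, 11, 6⟩, ⟨0, 1, 3, 4, 44⟩, ⟨0, 1, 3, 6, 26⟩, ⟨0, 1, 3, 5, 35⟩, ⟨1, 0, 3, 4, 41⟩, ⟨1, 0, 3, 6, 23⟩, ⟨1, 0, 3, 5, 32⟩, ⟨1, 2, 0, 10, 13⟩, ⟨1, 2, 3, 0, 70⟩, ⟨1, 2, 3, 1, 61⟩, ⟨1, 2, 3, 7, 19⟩, ⟨2, 1, 3, 0, 67⟩, ⟨2, 1, 3, 1, 58⟩, ⟨2, 1, 3, 7, 16⟩, ⟨0, 1, 0, 0, 75⟩, ⟨0, 2, 0, 1, 66⟩, ⟨0, 2, 0, 7, 22⟩, ⟨1, 0, 0, 2, 57⟩, ⟨1, 2, 0, 3, 52⟩, ⟨2, 0, 0, 4, 47⟩, ⟨2, 0, 0, 6, 29⟩, ⟨2, 1, 0, 5, 38⟩]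
  st := [(0, 0), (1, 0), (2, 1), (3, 1), (4, 2), (5, 2), (6, 2), (7, 0)]
  sk _ := []
  sf := []
  vd d := fun i j => match i, j with
    | 0, 1 => .small 3 11
    | 0, 2 => .anti true (d.f.getD 1 (.cst 0 0)) 1 7 8 9
    | 1, 0 => .small 3 11
    | 1, 2 => .small 3 10
    | 2, 0 => .anti false (d.f.getD 1 (.cst 0 0)) 1 6 8 9
    | 2, 1 => .small 3 10
    | _, _ => .small 0 0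
  vx := fun i j => match i, j with
    | 0, 1 => .small 3 11
    | 0, 2 => .big 3 7 9 8
    | 1, 0 => .small 3 11
    | 1, 2 => .small 3 10
    | 2, 0 => .big 3 6 8 9
    | 2, 1 => .small 3 10
    | _, _ => .small 0 0
  lb := fun _ _ => 0

theorem T000_ok (K : ℕ → ℕ → ℕ → Prop) : T000.OK K where
  ok := by decide +kernel
  stt := by decide +kernel
  vx d i j := by fin_cases i <;> fin_cases j <;> rfl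
  vd d i j hij := by
    fin_cases i <;> fin_cases j <;> first | exact absurd rfl hij | exact ⟨rfl, rfl, rfl⟩
  sf d := rfl
  sk d s hs := absurd hs List.not_mem_nil
  cl d p q r hp hq hr hK i j hij := by
    refine ⟨Nat.zero_le _, fun m E h => ?_⟩
    fin_cases i <;> fin_cases j <;> first | exact absurd rfl hij | exact VD.noConfusion h

theorem T300_ok {K : ℕ → ℕ → ℕ → Prop} (hK : ∀ p q r, K p q r → p = 3) : T300.OK K where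
  ok := by decide +kernel
  stt := by decide +kernel
  vx d i j := by fin_cases i <;> fin_cases j <;> rfl
  vd d i j hij := by
    fin_cases i <;> fin_cases j <;> first | exact absurd rfl hij | exact ⟨rfl, rfl, rfl⟩ | exact trivial
  sf d := rfl
  sk d s hs := absurd hs List.not_mem_nil
  cl d p q r hp hq hr hK' i j hij := by
    have h3 := hK p q r hK'
    refine ⟨Nat.zero_le _, fun m E h => ?_⟩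
    fin_cases i <;> fin_cases j <;> first
      | exact absurd rfl hij
      | exact VD.noConfusion h
      | exact VD.noConfusion h fun e _ => h3.trans e

theorem T303_ok {K : ℕ → ℕ → ℕ → Prop} (hK : ∀ p q r, K p q r → p = 3) (hK2 : ∀ p q r, K p q r → q = 3) : T303.OK K where
  ok := by decide +kernel
  stt := by decide +kernel
  vx d i j := by fin_cases i <;> fin_cases j <;> rfl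
  vd d i j hij := by
    fin_cases i <;> fin_cases j <;> first | exact absurd rfl hij | exact ⟨rfl, rfl, rfl⟩ | exact trivial
  sf d := rfl
  sk d s hs := absurd hs List.not_mem_nil
  cl d p q r hp hq hr hK' i j hij := by
    have h3 := hK p q r hK'
    have h4 := hK2 p q r hK'
    refine ⟨Nat.zero_le _, fun m E h => ?_⟩
    fin_cases i <;> fin_cases j <;> first
      | exact absurd rfl hij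
      | exact VD.noConfusion h
      | exact VD.noConfusion h fun e _ => h3.trans e
      | exact VD.noConfusion h fun e _ => h4.trans e

end Pool.Agent.Work.MP_88b7aa_gt.Kc
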