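import Pool.Agent.Work.MP_88b7aa_gt.Kc.Cel

/-!
# The templates of system B with constant forms
-/

set_option autoImplicit false

namespace Pool.Agent.Work.MP_88b7aa_gt.Kc

open Pool.Agent.Work.MP_88b7aa_gt.CH
open Pool.Agent.Work.MP_88b7aa_gt.PQ
open ComplexConjugate Complex Matrix

/-- The template `TSB`. -/
def TSB : Tm where
  fes d := [d.c.getD 0 .gram,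
    d.c.getD 1 .gram,
    d.c.getD 2 .gram,
    d.c.getD 3 .gram,
    d.c.getD 4 .gram,
    d.c.getD 5 .gram,
    d.c.getD 6 .gram,
    d.c.getD 7 .gram,
    d.c.getD 8 .gram,
    d.c.getD 9 .gram,
    d.c.getD 10 .gram,
    d.c.getD 11 .gram,
    FEV 0 1 (d.f.getD 0 (.cst 0 0)) (ngS (DpS (.par (cpar 0 1)) 2)) (ngS (DpS (.par (cpar 0 1)) 3)),
    FEV 0 1 (d.f.getD 0 (.cst 0 0)) (ngS (DpS (.par (cpar 0 1)) 3)) (ngS (DpS (.par (cpar 0 1)) 2)),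
    FEV 0 1 (d.f.getD 0 (.cst 0 0)) (DpS (.par (cpar 0 1)) 4) (DpS (.par (cpar 0 1)) 3),
    FEV 0 1 (d.f.getD 0 (.cst 0 0)) (DpS (.par (cpar 0 1)) 3) (DpS (.par (cpar 0 1)) 4),
    FEV 1 2 (d.f.getD 1 (.cst 0 0)) (ngS (DpS (.par (cpar 1 2)) 2)) (ngS (DpS (.par (cpar 1 2)) 3)),
    FEV 1 2 (d.f.getD 1 (.cst 0 0)) (ngS (DpS (.par (cpar 1 2)) 3)) (ngS (DpS (.par (cpar 1 2)) 2)),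
    FEV 1 2 (d.f.getD 1 (.cst 0 0)) (DpS (.par (cpar 1 2)) 4) (DpS (.par (cpar 1 2)) 3),
    FEV 1 2 (d.f.getD 1 (.cst 0 0)) (DpS (.par (cpar 1 2)) 3) (DpS (.par (cpar 1 2)) 4),
    FEV 2 0 (d.f.getD 2 (.cst 0 0)) (ngS (DpS (.par (cpar 2 0)) 2)) (ngS (DpS (.par (cpar 2 0)) 3)),
    FEV 2 0 (d.f.getD 2 (.cst 0 0)) (ngS (DpS (.par (cpar 2 0)) 3)) (ngS (DpS (.par (cpar 2 0)) 2)),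
    FEV 2 0 (d.f.getD 2 (.cst 0 0)) (DpS (.par (cpar 2 0)) 4) (DpS (.par (cpar 2 0)) 3),
    FEV 2 0 (d.f.getD 2 (.cst 0 0)) (DpS (.par (cpar 2 0)) 3) (DpS (.par (cpar 2 0)) 4)]
  is := [.form 0, .comp 0 0, .word 0 1 2 1, .comp 1 2, .comp 2 3, .form 1, .comp 0 0, .word 0 2 2 1, .comp 1 2, .comp 2 3, .form 2, .comp 0 0, .comp 1 1, .word 1 0 2 2, .comp 2 3, .form 3, .comp 0 0, .comp 1 1, .word 1 2 2 2, .comp 2 3, .form 4, .comp 0 0, .comp 1 1, .comp 2 2, .word 2 0 2 3, .form 5, .comp 0 0, .comp 1 1, .comp 2 2, .word 2 1 2 3, .form 6, .word 0 1 2 0, .word 0 1 3 1, .word 0 1 4 2, .word 0 1 5 3, .word 0 1 6 4, .word 0 2 2 5, .word 0 2 3 6, .word 0 2 4 7, .word 0 2 5 8, .word 0 2 6 9, .comp 1 10, .comp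 2 11, .form 7, .comp 0 0, .word 1 0 2 1, .word 1 0 3 2, .word 1 0 4 3, .word 1 0 5 4, .word 1 0 6 5, .word 1 2 2 6, .word 1 2 3 7, .word 1 2 4 8, .word 1 2 5 9, .word 1 2 6 10, .comp 2 11, .form 8, .comp 0 0, .comp 1 1, .word 2 0 2 2, .word 2 0 3 3, .word 2 0 4 4, .word 2 0 5 5, .word 2 0 6 6, .word 2 1 2 7, .word 2 1 3 8, .word 2 1 4 9, .word 2 1 5 10, .word 2 1 6 11, .form 9, .comp 1 0, .word 1 2 2 1, .word 1 2 3 2, .comp 2 3, .word 2 1 2 4, .word 2 1 3 5, .form 10, .comp 0 0, .word 0 2 2 1, .word 0 2 3 2, .comp 2 3, .word 2 0 2 4, .word 2 0 3 5, .form 11, .comp 0 0, .word 0 1 2 1, .word 0 1 3 2, .comp 1 3, .word 1 0 2 4, .word 1 0 3 5, .form 12, .form 13, .form 14, .form 15, .form 16, .form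 17, .form 18, .form 19, .form 20, .form 21, .form 22, .form 23]
  pks := [101, 100, 98, 97, 96, 95, 93, 92, 91, 90, 89, 87, 86, 85, 84, 82, 81, 80, 79, 78, 76, 75, 74, 73, 71, 70, 69, 65, 64, 60, 59, 58, 57, 56, 55, 51, 50, 46, 45, 44, 43, 42, 41, 37, 36, 32, 31, 30, 29, 28, 27, 26, 25, 24, 23, 22, 21, 20, 19, 18, 17, 16, 15, 14, 13, 12, 11, 10, 9, 8, 7, 6, 5, 4, 3, 2, 1, 0]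
  cn := [⟨0, 1, 2, 1, 4, 0, 18, 1⟩, ⟨0, 1, 2, 1, 5, 0, 22, 1⟩, ⟨0, 1, 2, 1, 8, 0, 40, 1⟩, ⟨0, 1, 0, 0, 0, 9, 0, 45⟩, ⟨0, 1, 0, 0, 12, 6, 66, 24⟩, ⟨0, 1, 3, 2, 11, 6, 60, 25⟩, ⟨0, 1, 4, 2, 11, 6, 64, 25⟩, ⟨0, 1, 5, 3, 11, 6, 61, 26⟩, ⟨0, 1, 6, 3, 11, 6, 65, 26⟩, ⟨0, 1, 0, 0, 4, 14, 16, 68⟩, ⟨0, 1, 0, 0, 5, 14, 20, 68⟩, ⟨0, 1, 0, 0, 8, 14, 38, 68⟩, ⟨0, 1, 0, 0, 4, 15, 16, 69⟩, ⟨0, 1, 0, 0, 5, 15, 20, 69⟩, ⟨0, 1, 0, 0, 8, 15, 38, 69⟩, ⟨0, 2, 2, 1, 2, 1, 11, 5⟩, ⟨0, 2, 2, 1, 3, 1, 15, 5⟩, ⟨0, 2, 2, 1, 7, 1, 37, 5⟩, ⟨0, 1, 0, 0, 1, 9, 4, 45⟩, ⟨0, 1, 0, 0, 21, 6, 75, 24⟩, ⟨0, 2, 3, 2, 10, 6, 53, 27⟩, ⟨0, 2, 4, 2, 10, 6, 57, 27⟩, ⟨0, 2, 5, 3, 10, 6, 54, 28⟩, ⟨0, 2, 6, 3, 10, 6, 58, 28⟩, ⟨0, 1, 0, 0,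 2, 22, 8, 76⟩, ⟨0, 1, 0, 0, 3, 22, 12, 76⟩, ⟨0, 1, 0, 0, 7, 22, 31, 76⟩, ⟨0, 1, 0, 0, 2, 23, 8, 77⟩, ⟨0, 1, 0, 0, 3, 23, 12, 77⟩, ⟨0, 1, 0, 0, 7, 23, 31, 77⟩, ⟨1, 0, 2, 1, 5, 2, 21, 10⟩, ⟨1, 0, 2, 1, 4, 2, 17, 10⟩, ⟨1, 0, 2, 1, 8, 2, 39, 10⟩, ⟨0, 1, 0, 0, 2, 10, 8, 52⟩, ⟨0, 1, 0, 0, 13, 7, 67, 31⟩, ⟨1, 0, 3, 2, 11, 7, 63, 33⟩, ⟨1, 0, 4, 2, 11, 7, 61, 33⟩, ⟨1, 0, 5, 3, 11, 7, 64, 34⟩, ⟨1, 0, 6, 3, 11, 7, 62, 34⟩, ⟨1, 2, 2, 1, 0, 3, 3, 14⟩, ⟨1, 2, 2, 1, 1, 3, 7, 14⟩, ⟨1, 2, 2, 1, 6, 3, 30, 14⟩, ⟨0, 1, 0, 0, 3, 10, 12, 52⟩, ⟨0, 1, 0, 0, 16, 7, 70, 31⟩, ⟨1, 2, 3, 2, 9, 7, 46, 35⟩, ⟨1, 2, 4, 2, 9, 7, 50, 35⟩, ⟨1, 2, 5, 3, 9, 7, 47, 36⟩, ⟨1, 2, 6, 3, 9, 7, 51, 36⟩, ⟨0, 1, 0, 0, 0, 18, 0, 72⟩, ⟨0, 1,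 0, 0, 1, 18, 4, 72⟩, ⟨0, 1, 0, 0, 6, 18, 24, 72⟩, ⟨0, 1, 0, 0, 0, 19, 0, 73⟩, ⟨0, 1, 0, 0, 1, 19, 4, 73⟩, ⟨0, 1, 0, 0, 6, 19, 24, 73⟩, ⟨2, 0, 2, 1, 3, 4, 13, 19⟩, ⟨2, 0, 2, 1, 2, 4, 9, 19⟩, ⟨2, 0, 2, 1, 7, 4, 32, 19⟩, ⟨0, 1, 0, 0, 4, 11, 16, 59⟩, ⟨0, 1, 0, 0, 20, 8, 74, 38⟩, ⟨2, 0, 3, 2, 10, 8, 56, 41⟩, ⟨2, 0, 4, 2, 10, 8, 54, 41⟩, ⟨2, 0, 5, 3, 10, 8, 57, 42⟩, ⟨2, 0, 6, 3, 10, 8, 55, 42⟩, ⟨2, 1, 2, 1, 1, 5, 6, 23⟩, ⟨2, 1, 2, 1, 0, 5, 2, 23⟩, ⟨2, 1, 2, 1, 6, 5, 29, 23⟩, ⟨0, 1, 0, 0, 5, 11, 20, 59⟩, ⟨0, 1, 0, 0, 17, 8, 71, 38⟩, ⟨2, 1, 3, 2, 9, 8, 49, 43⟩, ⟨2, 1, 4, 2, 9, 8, 47, 43⟩, ⟨2, 1, 5, 3, 9, 8, 50, 44⟩, ⟨2, 1, 6, 3, 9, 8, 48, 44⟩, ⟨0, 1, 0, 0, 6, 9, 24, 45⟩, ⟨0, 1, 0, 0, 7, 10, 31, 52⟩, ⟨0,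 1, 0, 0, 8, 11, 38, 59⟩]
  pp := [⟨0, 1, 2, 0, 99⟩, ⟨0, 1, 3, 6, 69⟩, ⟨0, 1, 4, 6, 68⟩, ⟨0, 1, 5, 6, 67⟩, ⟨0, 1, 6, 6, 66⟩, ⟨0, 1, 0, 14, 9⟩, ⟨0, 1, 0, 15, 8⟩, ⟨0, 2, 2, 1, 94⟩, ⟨0, 2, 3, 6, 64⟩, ⟨0, 2, 4, 6, 63⟩, ⟨0, 2, 5, 6, 62⟩, ⟨0, 2, 6, 6, 61⟩, ⟨0, 1, 0, 22, 1⟩, ⟨0, 1, 0, 23, 0⟩, ⟨1, 0, 2, 2, 88⟩, ⟨1, 0, 3, 7, 55⟩, ⟨1, 0, 4, 7, 54⟩, ⟨1, 0, 5, 7, 53⟩, ⟨1, 0, 6, 7, 52⟩, ⟨1, 2, 2, 3, 83⟩, ⟨1, 2, 3, 7, 50⟩, ⟨1, 2, 4, 7, 49⟩, ⟨1, 2, 5, 7, 48⟩, ⟨1, 2, 6, 7, 47⟩, ⟨0, 1, 0, 18, 5⟩, ⟨0, 1, 0, 19, 4⟩, ⟨2, 0, 2, 4, 77⟩, ⟨2, 0, 3, 8, 41⟩, ⟨2, 0, 4, 8, 40⟩, ⟨2, 0, 5, 8, 39⟩, ⟨2, 0, 6, 8, 38⟩, ⟨2, 1, 2, 5, 72⟩, ⟨2, 1, 3, 8, 36⟩, ⟨2, 1, 4, 8, 35⟩, ⟨2, 1, 5, 8, 34⟩, ⟨2, 1, 6, 8, 33⟩, ⟨0, 1, 1, 0, 100⟩, ⟨1,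 2, 1, 3, 84⟩, ⟨2, 0, 1, 4, 78⟩]
  pn := [⟨0, 1, 0, 0, 101⟩, ⟨0, 1, 0, 1, 96⟩, ⟨0, 1, 0, 2, 91⟩, ⟨0, 1, 0, 3, 86⟩, ⟨0, 1, 0, 4, 81⟩, ⟨0, 1, 0, 5, 76⟩, ⟨0, 1, 0, 6, 71⟩, ⟨0, 1, 0, 7, 58⟩, ⟨0, 1, 0, 8, 45⟩]
  st := [(0, 0), (1, 0), (6, 0), (2, 1), (3, 1), (7, 1), (4, 2), (5, 2), (8, 2)]
  sk _ := []
  sf := []
  vd d := fun i j => match i, j with
    | 0, 1 => .sym false (d.f.getD 0 (.cst 0 0)) 2 12 14 15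
    | 0, 2 => .sym true (d.f.getD 2 (.cst 0 0)) 2 21 22 23
    | 1, 0 => .sym true (d.f.getD 0 (.cst 0 0)) 2 13 14 15
    | 1, 2 => .sym false (d.f.getD 1 (.cst 0 0)) 2 16 18 19
    | 2, 0 => .sym false (d.f.getD 2 (.cst 0 0)) 2 20 22 23
    | 2, 1 => .sym true (d.f.getD 1 (.cst 0 0)) 2 17 18 19
    | _, _ => .small 0 0
  vx := fun i j => match i, j with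
    | 0, 1 => .big 7 12 14 15
    | 0, 2 => .big 7 21 23 22
    | 1, 0 => .big 7 13 15 14
    | 1, 2 => .big 7 16 18 19
    | 2, 0 => .big 7 20 22 23
    | 2, 1 => .big 7 17 19 18
    | _, _ => .small 0 0
  lb := fun _ _ => 0

theorem TSB_ok (K : ℕ → ℕ → ℕ → Prop) : TSB.OK K where
  ok := by decide +kernel
  stt := by decide +kernel
  vx d i j := by fin_cases i <;> fin_cases j <;> rfl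
  vd d i j hij := by
    fin_cases i <;> fin_cases j <;> first | exact absurd rfl hij | exact ⟨rfl, rfl, rfl⟩
  sf d := rfl
  sk d s hs := absurd hs List.not_mem_nil
  cl d p q r hp hq hr hK i j hij := by
    refine ⟨Nat.zero_le _, fun m E h => ?_⟩
    fin_cases i <;> fin_cases j <;> first | exact absurd rfl hij | exact VD.noConfusion h

/-- The template `TSC`. -/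
def TSC : Tm where
  fes d := [d.c.getD 0 .gram,
    d.c.getD 1 .gram,
    d.c.getD 2 .gram,
    d.c.getD 3 .gram,
    d.c.getD 4 .gram,
    d.c.getD 5 .gram,
    d.c.getD 6 .gram,
    d.c.getD 7 .gram,
    d.c.getD 8 .gram,
    d.c.getD 9 .gram,
    d.c.getD 10 .gram,
    d.c.getD 11 .gram,
    FEV 0 1 (d.f.getD 0 (.cst 0 0)) (ngS (DpS (.par (cpar 0 1)) 3)) (ngS (DpS (.par (cpar 0 1)) 4)),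
    FEV 0 1 (d.f.getD 0 (.cst 0 0)) (ngS (DpS (.par (cpar 0 1)) 4)) (ngS (DpS (.par (cpar 0 1)) 3)),
    FEV 0 1 (d.f.getD 0 (.cst 0 0)) (DpS (.par (cpar 0 1)) 5) (DpS (.par (cpar 0 1)) 4),
    FEV 0 1 (d.f.getD 0 (.cst 0 0)) (DpS (.par (cpar 0 1)) 4) (DpS (.par (cpar 0 1)) 5),
    FEV 1 2 (d.f.getD 1 (.cst 0 0)) (ngS (DpS (.par (cpar 1 2)) 3)) (ngS (DpS (.par (cpar 1 2)) 4)),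
    FEV 1 2 (d.f.getD 1 (.cst 0 0)) (ngS (DpS (.par (cpar 1 2)) 4)) (ngS (DpS (.par (cpar 1 2)) 3)),
    FEV 1 2 (d.f.getD 1 (.cst 0 0)) (DpS (.par (cpar 1 2)) 5) (DpS (.par (cpar 1 2)) 4),
    FEV 1 2 (d.f.getD 1 (.cst 0 0)) (DpS (.par (cpar 1 2)) 4) (DpS (.par (cpar 1 2)) 5),
    FEV 2 0 (d.f.getD 2 (.cst 0 0)) (ngS (DpS (.par (cpar 2 0)) 3)) (ngS (DpS (.par (cpar 2 0)) 4)),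
    FEV 2 0 (d.f.getD 2 (.cst 0 0)) (ngS (DpS (.par (cpar 2 0)) 4)) (ngS (DpS (.par (cpar 2 0)) 3)),
    FEV 2 0 (d.f.getD 2 (.cst 0 0)) (DpS (.par (cpar 2 0)) 5) (DpS (.par (cpar 2 0)) 4),
    FEV 2 0 (d.f.getD 2 (.cst 0 0)) (DpS (.par (cpar 2 0)) 4) (DpS (.par (cpar 2 0)) 5)]
  is := [.form 0, .comp 0 0, .word 0 1 2 1, .comp 1 2, .comp 2 3, .form 1, .comp 0 0, .word 0 2 2 1, .comp 1 2, .comp 2 3, .form 2, .comp 0 0, .comp 1 1, .word 1 0 2 2, .comp 2 3, .form 3, .comp 0 0, .comp 1 1, .word 1 2 2 2, .comp 2 3, .form 4, .comp 0 0, .comp 1 1, .comp 2 2, .word 2 0 2 3, .form 5, .comp 0 0, .comp 1 1, .comp 2 2, .word 2 1 2 3, .form 6, .word 0 1 2 0, .word 0 1 3 1, .word 0 1 4 2, .word 0 1 5 3, .word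 0 1 6 4, .word 0 1 7 5, .word 0 1 8 6, .word 0 2 2 7, .word 0 2 3 8, .word 0 2 4 9, .word 0 2 5 10, .word 0 2 6 11, .word 0 2 7 12, .word 0 2 8 13, .comp 1 14, .comp 2 15, .form 7, .comp 0 0, .word 1 0 2 1, .word 1 0 3 2, .word 1 0 4 3, .word 1 0 5 4, .word 1 0 6 5, .word 1 0 7 6, .word 1 0 8 7, .word 1 2 2 8, .word 1 2 3 9, .word 1 2 4 10, .word 1 2 5 11, .word 1 2 6 12, .word 1 2 7 13, .word 1 2 8 14, .comp 2 15, .form 8, .comp 0 0, .comp 1 1, .word 2 0 2 2, .word 2 0 3 3, .word 2 0 4 4, .word 2 0 5 5, .word 2 0 6 6, .word 2 0 7 7, .word 2 0 8 8, .word 2 1 2 9, .word 2 1 3 10, .word 2 1 4 11, .word 2 1 5 12, .word 2 1 6 13, .word 2 1 7 14, .word 2 1 8 15, .form 9, .comp 1 0, .word 1 2 2 1, .word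 1 2 3 2, .word 1 2 4 3, .comp 2 4, .word 2 1 2 5, .word 2 1 3 6, .word 2 1 4 7, .form 10, .comp 0 0, .word 0 2 2 1, .word 0 2 3 2, .word 0 2 4 3, .comp 2 4, .word 2 0 2 5, .word 2 0 3 6, .word 2 0 4 7, .form 11, .comp 0 0, .word 0 1 2 1, .word 0 1 3 2, .word 0 1 4 3, .comp 1 4, .word 1 0 2 5, .word 1 0 3 6, .word 1 0 4 7, .form 12, .form 13, .form 14, .form 15, .form 16, .form 17, .form 18, .form 19, .form 20, .form 21, .form 22, .form 23]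
  pks := [119, 118, 116, 115, 114, 113, 111, 110, 109, 108, 107, 105, 104, 103, 102, 100, 99, 98, 97, 96, 94, 93, 92, 91, 89, 88, 87, 86, 81, 80, 79, 74, 73, 72, 71, 70, 69, 68, 63, 62, 61, 56, 55, 54, 53, 52, 51, 50, 45, 44, 43, 38, 37, 36, 35, 34, 33, 32, 31, 30, 29, 28, 27, 26, 25, 24, 23, 22, 21, 20, 19, 18, 17, 16, 15, 14, 13, 12, 11, 10, 9, 8, 7, 6, 5, 4, 3, 2, 1, 0]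
  cn := [⟨0, 1, 2, 1, 4, 0, 18, 1⟩, ⟨0, 1, 2, 1, 5, 0, 22, 1⟩, ⟨0, 1, 2, 1, 8, 0, 44, 1⟩, ⟨0, 1, 0, 0, 0, 9, 0, 51⟩, ⟨0, 1, 0, 0, 12, 6, 78, 24⟩, ⟨0, 1, 3, 2, 11, 6, 70, 25⟩, ⟨0, 1, 4, 2, 11, 6, 75, 25⟩, ⟨0, 1, 5, 3, 11, 6, 71, 26⟩, ⟨0, 1, 6, 3, 11, 6, 76, 26⟩, ⟨0, 1, 7, 4, 11, 6, 72, 27⟩, ⟨0, 1, 8, 4, 11, 6, 77, 27⟩, ⟨0, 1, 0, 0, 4, 14, 16, 80⟩, ⟨0, 1, 0, 0, 5, 14, 20, 80⟩, ⟨0, 1, 0, 0, 8, 14, 42, 80⟩, ⟨0, 1, 0, 0, 4, 15, 16, 81⟩, ⟨0, 1, 0, 0, 5, 15, 20, 81⟩, ⟨0, 1, 0, 0, 8, 15, 42, 81⟩, ⟨0, 2, 2, 1, 2, 1, 11, 5⟩, ⟨0, 2, 2, 1, 3, 1, 15, 5⟩, ⟨0, 2, 2, 1, 7, 1, 41, 5⟩, ⟨0, 1, 0, 0, 1, 9, 4, 51⟩, ⟨0, 1, 0, 0, 21, 6, 87, 24⟩, ⟨0, 2, 3, 2, 10, 6, 61, 28⟩, ⟨0, 2, 4, 2, 10, 6, 66, 28⟩, ⟨0, 2, 5, 3,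 10, 6, 62, 29⟩, ⟨0, 2, 6, 3, 10, 6, 67, 29⟩, ⟨0, 2, 7, 4, 10, 6, 63, 30⟩, ⟨0, 2, 8, 4, 10, 6, 68, 30⟩, ⟨0, 1, 0, 0, 2, 22, 8, 88⟩, ⟨0, 1, 0, 0, 3, 22, 12, 88⟩, ⟨0, 1, 0, 0, 7, 22, 33, 88⟩, ⟨0, 1, 0, 0, 2, 23, 8, 89⟩, ⟨0, 1, 0, 0, 3, 23, 12, 89⟩, ⟨0, 1, 0, 0, 7, 23, 33, 89⟩, ⟨1, 0, 2, 1, 5, 2, 21, 10⟩, ⟨1, 0, 2, 1, 4, 2, 17, 10⟩, ⟨1, 0, 2, 1, 8, 2, 43, 10⟩, ⟨0, 1, 0, 0, 2, 10, 8, 60⟩, ⟨0, 1, 0, 0, 13, 7, 79, 33⟩, ⟨1, 0, 3, 2, 11, 7, 74, 35⟩, ⟨1, 0, 4, 2, 11, 7, 71, 35⟩, ⟨1, 0, 5, 3, 11, 7, 75, 36⟩, ⟨1, 0, 6, 3, 11, 7, 72, 36⟩, ⟨1, 0, 7, 4, 11, 7, 76, 37⟩, ⟨1, 0, 8, 4, 11, 7, 73, 37⟩, ⟨1, 2, 2, 1, 0, 3, 3, 14⟩, ⟨1, 2, 2, 1, 1, 3, 7, 14⟩, ⟨1, 2, 2, 1, 6, 3, 32, 14⟩, ⟨0, 1, 0, 0, 3, 10, 12, 60⟩, ⟨0,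 1, 0, 0, 16, 7, 82, 33⟩, ⟨1, 2, 3, 2, 9, 7, 52, 38⟩, ⟨1, 2, 4, 2, 9, 7, 57, 38⟩, ⟨1, 2, 5, 3, 9, 7, 53, 39⟩, ⟨1, 2, 6, 3, 9, 7, 58, 39⟩, ⟨1, 2, 7, 4, 9, 7, 54, 40⟩, ⟨1, 2, 8, 4, 9, 7, 59, 40⟩, ⟨0, 1, 0, 0, 0, 18, 0, 84⟩, ⟨0, 1, 0, 0, 1, 18, 4, 84⟩, ⟨0, 1, 0, 0, 6, 18, 24, 84⟩, ⟨0, 1, 0, 0, 0, 19, 0, 85⟩, ⟨0, 1, 0, 0, 1, 19, 4, 85⟩, ⟨0, 1, 0, 0, 6, 19, 24, 85⟩, ⟨2, 0, 2, 1, 3, 4, 13, 19⟩, ⟨2, 0, 2, 1, 2, 4, 9, 19⟩, ⟨2, 0, 2, 1, 7, 4, 34, 19⟩, ⟨0, 1, 0, 0, 4, 11, 16, 69⟩, ⟨0, 1, 0, 0, 20, 8, 86, 42⟩, ⟨2, 0, 3, 2, 10, 8, 65, 45⟩, ⟨2, 0, 4, 2, 10, 8, 62, 45⟩, ⟨2, 0, 5, 3, 10, 8, 66, 46⟩, ⟨2, 0, 6, 3, 10, 8, 63, 46⟩, ⟨2, 0, 7, 4, 10, 8, 67, 47⟩, ⟨2, 0, 8, 4, 10, 8, 64, 47⟩, ⟨2, 1, 2, 1, 1, 5, 6, 23⟩,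 ⟨2, 1, 2, 1, 0, 5, 2, 23⟩, ⟨2, 1, 2, 1, 6, 5, 31, 23⟩, ⟨0, 1, 0, 0, 5, 11, 20, 69⟩, ⟨0, 1, 0, 0, 17, 8, 83, 42⟩, ⟨2, 1, 3, 2, 9, 8, 56, 48⟩, ⟨2, 1, 4, 2, 9, 8, 53, 48⟩, ⟨2, 1, 5, 3, 9, 8, 57, 49⟩, ⟨2, 1, 6, 3, 9, 8, 54, 49⟩, ⟨2, 1, 7, 4, 9, 8, 58, 50⟩, ⟨2, 1, 8, 4, 9, 8, 55, 50⟩, ⟨0, 1, 0, 0, 6, 9, 24, 51⟩, ⟨0, 1, 0, 0, 7, 10, 33, 60⟩, ⟨0, 1, 0, 0, 8, 11, 42, 69⟩]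
  pp := [⟨0, 1, 2, 0, 117⟩, ⟨0, 1, 3, 6, 87⟩, ⟨0, 1, 4, 6, 86⟩, ⟨0, 1, 5, 6, 85⟩, ⟨0, 1, 6, 6, 84⟩, ⟨0, 1, 7, 6, 83⟩, ⟨0, 1, 8, 6, 82⟩, ⟨0, 1, 0, 14, 9⟩, ⟨0, 1, 0, 15, 8⟩, ⟨0, 2, 2, 1, 112⟩, ⟨0, 2, 3, 6, 80⟩, ⟨0, 2, 4, 6, 79⟩, ⟨0, 2, 5, 6, 78⟩, ⟨0, 2, 6, 6, 77⟩, ⟨0, 2, 7, 6, 76⟩, ⟨0, 2, 8, 6, 75⟩, ⟨0, 1, 0, 22, 1⟩, ⟨0, 1, 0, 23, 0⟩, ⟨1, 0, 2, 2, 106⟩, ⟨1, 0, 3, 7, 69⟩, ⟨1, 0, 4, 7, 68⟩, ⟨1, 0, 5, 7, 67⟩, ⟨1, 0, 6, 7, 66⟩, ⟨1, 0, 7, 7, 65⟩, ⟨1, 0, 8, 7, 64⟩, ⟨1, 2, 2, 3, 101⟩, ⟨1, 2, 3, 7, 62⟩, ⟨1, 2, 4, 7, 61⟩, ⟨1, 2, 5, 7, 60⟩, ⟨1, 2, 6, 7, 59⟩, ⟨1, 2, 7, 7, 58⟩, ⟨1, 2, 8, 7, 57⟩, ⟨0, 1, 0, 18, 5⟩, ⟨0, 1, 0, 19, 4⟩, ⟨2, 0, 2, 4, 95⟩, ⟨2, 0, 3, 8, 51⟩, ⟨2, 0, 4, 8, 50⟩, ⟨2, 0, 5, 8, 49⟩, ⟨2, 0,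 6, 8, 48⟩, ⟨2, 0, 7, 8, 47⟩, ⟨2, 0, 8, 8, 46⟩, ⟨2, 1, 2, 5, 90⟩, ⟨2, 1, 3, 8, 44⟩, ⟨2, 1, 4, 8, 43⟩, ⟨2, 1, 5, 8, 42⟩, ⟨2, 1, 6, 8, 41⟩, ⟨2, 1, 7, 8, 40⟩, ⟨2, 1, 8, 8, 39⟩, ⟨0, 1, 1, 0, 118⟩, ⟨1, 2, 1, 3, 102⟩, ⟨2, 0, 1, 4, 96⟩]
  pn := [⟨0, 1, 0, 0, 119⟩, ⟨0, 1, 0, 1, 114⟩, ⟨0, 1, 0, 2, 109⟩, ⟨0, 1, 0, 3, 104⟩, ⟨0, 1, 0, 4, 99⟩, ⟨0, 1, 0, 5, 94⟩, ⟨0, 1, 0, 6, 89⟩, ⟨0, 1, 0, 7, 72⟩, ⟨0, 1, 0, 8, 55⟩]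
  st := [(0, 0), (1, 0), (6, 0), (2, 1), (3, 1), (7, 1), (4, 2), (5, 2), (8, 2)]
  sk _ := []
  sf := []
  vd d := fun i j => match i, j with
    | 0, 1 => .sym false (d.f.getD 0 (.cst 0 0)) 3 12 14 15
    | 0, 2 => .sym true (d.f.getD 2 (.cst 0 0)) 3 21 22 23
    | 1, 0 => .sym true (d.f.getD 0 (.cst 0 0)) 3 13 14 15
    | 1, 2 => .sym false (d.f.getD 1 (.cst 0 0)) 3 16 18 19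
    | 2, 0 => .sym false (d.f.getD 2 (.cst 0 0)) 3 20 22 23
    | 2, 1 => .sym true (d.f.getD 1 (.cst 0 0)) 3 17 18 19
    | _, _ => .small 0 0
  vx := fun i j => match i, j with
    | 0, 1 => .big 9 12 14 15
    | 0, 2 => .big 9 21 23 22
    | 1, 0 => .big 9 13 15 14
    | 1, 2 => .big 9 16 18 19
    | 2, 0 => .big 9 20 22 23
    | 2, 1 => .big 9 17 19 18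
    | _, _ => .small 0 0
  lb := fun _ _ => 0

theorem TSC_ok (K : ℕ → ℕ → ℕ → Prop) : TSC.OK K where
  ok := by decide +kernel
  stt := by decide +kernel
  vx d i j := by fin_cases i <;> fin_cases j <;> rfl
  vd d i j hij := by
    fin_cases i <;> fin_cases j <;> first | exact absurd rfl hij | exact ⟨rfl, rfl, rfl⟩
  sf d := rfl
  sk d s hs := absurd hs List.not_mem_nil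
  cl d p q r hp hq hr hK i j hij := by
    refine ⟨Nat.zero_le _, fun m E h => ?_⟩
    fin_cases i <;> fin_cases j <;> first | exact absurd rfl hij | exact VD.noConfusion h

end Pool.Agent.Work.MP_88b7aa_gt.Kc
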