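import Pool.Agent.Work.MP_88b7aa_gt.Kc.CellL

/-!
# The templates of system B with the exact chain
-/

set_option autoImplicit false

namespace Pool.Agent.Work.MP_88b7aa_gt.Kc

open Pool.Agent.Work.MP_88b7aa_gt.CH
open Pool.Agent.Work.MP_88b7aa_gt.PQ
open ComplexConjugate Complex Matrix

/-- The template `TXA`. -/
def TXAt : Tm where
  fes d := [FEB 0 1 2 (.add hS (d.e.getD 0 (.cst 0 0))) (.sub hS (d.e.getD 0 (.cst 0 0))) (d.e.getD 3 (.cst 0 0)) (d.e.getD 4 (.cst 0 0)),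
    FE.pushL [2] (FEB 0 1 2 (.add hS (d.e.getD 1 (.cst 0 0))) (.sub hS (d.e.getD 1 (.cst 0 0))) (d.e.getD 3 (.cst 0 0)) (d.e.getD 4 (.cst 0 0))),
    FE.pushL [0] (FEB 0 1 2 (.add hS (d.e.getD 2 (.cst 0 0))) (.sub hS (d.e.getD 2 (.cst 0 0))) (d.e.getD 3 (.cst 0 0)) (d.e.getD 4 (.cst 0 0))),
    FEB 2 1 0 (.add hS (d.e.getD 5 (.cst 0 0))) (.sub hS (d.e.getD 5 (.cst 0 0))) (d.e.getD 8 (.cst 0 0)) (d.e.getD 9 (.cst 0 0)),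
    FE.pushL [0] (FEB 2 1 0 (.add hS (d.e.getD 6 (.cst 0 0))) (.sub hS (d.e.getD 6 (.cst 0 0))) (d.e.getD 8 (.cst 0 0)) (d.e.getD 9 (.cst 0 0))),
    FE.pushL [2] (FEB 2 1 0 (.add hS (d.e.getD 7 (.cst 0 0))) (.sub hS (d.e.getD 7 (.cst 0 0))) (d.e.getD 8 (.cst 0 0)) (d.e.getD 9 (.cst 0 0))),
    d.c.getD 0 .gram,
    d.c.getD 1 .gram,
    d.c.getD 2 .gram,
    d.c.getD 3 .gram,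
    d.c.getD 4 .gram,
    d.c.getD 5 .gram,
    FEV 0 1 (d.f.getD 0 (.cst 0 0)) (ngS (DpS (.par (cpar 0 1)) 2)) (ngS (DpS (.par (cpar 0 1)) 3)),
    FEV 0 1 (d.f.getD 0 (.cst 0 0)) (ngS (DpS (.par (cpar 0 1)) 3)) (ngS (DpS (.par (cpar 0 1)) 2)),
    FEV 0 1 (d.f.getD 0 (.cst 0 0)) (DpS (.par (cpar 0 1)) 4) (DpS (.par (cpar 0 1)) 3),
    FEV 0 1 (d.f.getD 0 (.cst 0 0)) (DpS (.par (cpar 0 1)) 3) (DpS (.par (cpar 0 1)) 4),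
    FEV 1 2 (d.f.getD 1 (.cst 0 0)) (ngS (DpS (.par (cpar 1 2)) 2)) (ngS (DpS (.par (cpar 1 2)) 3)),
    FEV 1 2 (d.f.getD 1 (.cst 0 0)) (ngS (DpS (.par (cpar 1 2)) 3)) (ngS (DpS (.par (cpar 1 2)) 2)),
    FEV 1 2 (d.f.getD 1 (.cst 0 0)) (DpS (.par (cpar 1 2)) 4) (DpS (.par (cpar 1 2)) 3),
    FEV 1 2 (d.f.getD 1 (.cst 0 0)) (DpS (.par (cpar 1 2)) 3) (DpS (.par (cpar 1 2)) 4),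
    FEV 2 0 (d.f.getD 2 (.cst 0 0)) (ngS (DpS (.par (cpar 2 0)) 2)) (ngS (DpS (.par (cpar 2 0)) 3)),
    FEV 2 0 (d.f.getD 2 (.cst 0 0)) (ngS (DpS (.par (cpar 2 0)) 3)) (ngS (DpS (.par (cpar 2 0)) 2)),
    FEV 2 0 (d.f.getD 2 (.cst 0 0)) (DpS (.par (cpar 2 0)) 4) (DpS (.par (cpar 2 0)) 3),
    FEV 2 0 (d.f.getD 2 (.cst 0 0)) (DpS (.par (cpar 2 0)) 3) (DpS (.par (cpar 2 0)) 4)]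
  is := [.form 0, .push 0 [0], .push 0 [0, 1], .push 0 [1], .form 1, .push 1 [0], .push 1 [2], .push 1 [2, 0], .form 2, .push 2 [1], .push 2 [1, 2], .push 2 [2], .form 3, .push 3 [1], .push 3 [2], .push 3 [2, 1], .form 4, .push 4 [0], .push 4 [0, 2], .push 4 [2], .form 5, .push 5 [0], .push 5 [1], .push 5 [1, 0], .form 6, .word 0 1 2 0, .word 0 1 3 1, .word 0 1 4 2, .word 0 1 5 3, .word 0 1 6 4, .word 0 2 2 5, .word 0 2 3 6, .word 0 2 4 7, .word 0 2 5 8, .word 0 2 6 9, .comp 1 10, .comp 2 11, .form 7, .comp 0 0, .word 1 0 2 1, .word 1 0 3 2, .word 1 0 4 3, .word 1 0 5 4, .word 1 0 6 5, .word 1 2 2 6, .word 1 2 3 7, .word 1 2 4 8, .word 1 2 5 9, .word 1 2 6 10, .comp 2 11, .form 8, .comp 0 0, .comp 1 1, .word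 2 0 2 2, .word 2 0 3 3, .word 2 0 4 4, .word 2 0 5 5, .word 2 0 6 6, .word 2 1 2 7, .word 2 1 3 8, .word 2 1 4 9, .word 2 1 5 10, .word 2 1 6 11, .form 9, .comp 1 0, .word 1 2 2 1, .word 1 2 3 2, .comp 2 3, .word 2 1 2 4, .word 2 1 3 5, .form 10, .comp 0 0, .word 0 2 2 1, .word 0 2 3 2, .comp 2 3, .word 2 0 2 4, .word 2 0 3 5, .form 11, .comp 0 0, .word 0 1 2 1, .word 0 1 3 2, .comp 1 3, .word 1 0 2 4, .word 1 0 3 5, .form 12, .form 13, .form 14, .form 15, .form 16, .form 17, .form 18, .form 19, .form 20, .form 21, .form 22, .form 23]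
  pks := [95, 94, 92, 91, 90, 89, 87, 86, 84, 83, 82, 81, 79, 78, 76, 75, 74, 73, 71, 70, 69, 65, 64, 60, 59, 58, 57, 56, 55, 51, 50, 46, 45, 44, 43, 42, 41, 37, 36, 32, 31, 30, 29, 28, 27, 26, 25, 24, 23, 22, 21, 20, 19, 18, 17, 16, 15, 14, 13, 12, 11, 10, 9, 8, 7, 6, 5, 4, 3, 2, 1, 0]
  cn := [⟨0, 1, 2, 1, 3, 0, 10, 1⟩, ⟨0, 1, 2, 1, 8, 0, 34, 1⟩, ⟨0, 1, 0, 0, 0, 9, 0, 39⟩, ⟨0, 1, 0, 0, 12, 6, 60, 18⟩, ⟨0, 1, 3, 2, 11, 6, 54, 19⟩, ⟨0, 1, 4, 2, 11, 6, 58, 19⟩, ⟨0, 1, 5, 3, 11, 6, 55, 20⟩, ⟨0, 1, 6, 3, 11, 6, 59, 20⟩, ⟨0, 1, 0, 0, 1, 14, 3, 62⟩, ⟨0, 1, 0, 0, 3, 14, 9, 62⟩, ⟨0, 1, 0, 0, 8, 14, 32, 62⟩, ⟨0, 1, 0, 0, 1, 15, 3, 63⟩, ⟨0, 1, 0, 0, 3, 15, 9, 63⟩, ⟨0, 1, 0, 0, 8, 15, 32, 63⟩, ⟨0, 2, 2, 1, 2, 4, 8, 13⟩,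 ⟨0, 2, 2, 1, 7, 4, 31, 13⟩, ⟨0, 1, 0, 0, 4, 9, 12, 39⟩, ⟨0, 1, 0, 0, 21, 6, 69, 18⟩, ⟨0, 2, 3, 2, 10, 6, 47, 21⟩, ⟨0, 2, 4, 2, 10, 6, 51, 21⟩, ⟨0, 2, 5, 3, 10, 6, 48, 22⟩, ⟨0, 2, 6, 3, 10, 6, 52, 22⟩, ⟨0, 1, 0, 0, 5, 22, 15, 70⟩, ⟨0, 1, 0, 0, 2, 22, 6, 70⟩, ⟨0, 1, 0, 0, 7, 22, 25, 70⟩, ⟨0, 1, 0, 0, 5, 23, 15, 71⟩, ⟨0, 1, 0, 0, 2, 23, 6, 71⟩, ⟨0, 1, 0, 0, 7, 23, 25, 71⟩, ⟨1, 0, 2, 1, 1, 5, 4, 17⟩, ⟨1, 0, 2, 1, 8, 5, 33, 17⟩, ⟨0, 1, 0, 0, 5, 10, 15, 46⟩, ⟨0, 1, 0, 0, 13, 7, 61, 25⟩, ⟨1, 0, 3, 2, 11, 7, 57, 27⟩, ⟨1, 0, 4, 2, 11, 7, 55, 27⟩, ⟨1, 0, 5, 3, 11, 7, 58, 28⟩, ⟨1, 0, 6, 3, 11, 7, 56, 28⟩, ⟨1, 2, 2, 1, 4, 2, 14, 7⟩, ⟨1, 2, 2, 1, 6, 2, 24, 7⟩, ⟨0, 1, 0, 0, 2, 10, 6, 46⟩, ⟨0, 1, 0, 0, 16, 7, 64, 25⟩, ⟨1,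 2, 3, 2, 9, 7, 40, 29⟩, ⟨1, 2, 4, 2, 9, 7, 44, 29⟩, ⟨1, 2, 5, 3, 9, 7, 41, 30⟩, ⟨1, 2, 6, 3, 9, 7, 45, 30⟩, ⟨0, 1, 0, 0, 0, 18, 0, 66⟩, ⟨0, 1, 0, 0, 4, 18, 12, 66⟩, ⟨0, 1, 0, 0, 6, 18, 18, 66⟩, ⟨0, 1, 0, 0, 0, 19, 0, 67⟩, ⟨0, 1, 0, 0, 4, 19, 12, 67⟩, ⟨0, 1, 0, 0, 6, 19, 18, 67⟩, ⟨2, 0, 2, 1, 5, 1, 16, 5⟩, ⟨2, 0, 2, 1, 7, 1, 26, 5⟩, ⟨0, 1, 0, 0, 1, 11, 3, 53⟩, ⟨0, 1, 0, 0, 20, 8, 68, 32⟩, ⟨2, 0, 3, 2, 10, 8, 50, 35⟩, ⟨2, 0, 4, 2, 10, 8, 48, 35⟩, ⟨2, 0, 5, 3, 10, 8, 51, 36⟩, ⟨2, 0, 6, 3, 10, 8, 49, 36⟩, ⟨2, 1, 2, 1, 0, 3, 2, 11⟩, ⟨2, 1, 2, 1, 6, 3, 23, 11⟩, ⟨0, 1, 0, 0, 3, 11, 9, 53⟩, ⟨0, 1, 0, 0, 17, 8, 65, 32⟩, ⟨2, 1, 3, 2, 9, 8, 43, 37⟩, ⟨2, 1, 4, 2, 9, 8, 41, 37⟩, ⟨2, 1, 5, 3, 9, 8, 44, 38⟩, ⟨2, 1, 6, 3, 9,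 8, 42, 38⟩, ⟨0, 1, 0, 0, 6, 9, 18, 39⟩, ⟨0, 1, 0, 0, 7, 10, 25, 46⟩, ⟨0, 1, 0, 0, 8, 11, 32, 53⟩]
  pp := [⟨0, 1, 2, 0, 93⟩, ⟨0, 1, 3, 6, 69⟩, ⟨0, 1, 4, 6, 68⟩, ⟨0, 1, 5, 6, 67⟩, ⟨0, 1, 6, 6, 66⟩, ⟨0, 1, 0, 14, 9⟩, ⟨0, 1, 0, 15, 8⟩, ⟨0, 2, 2, 4, 77⟩, ⟨0, 2, 3, 6, 64⟩, ⟨0, 2, 4, 6, 63⟩, ⟨0, 2, 5, 6, 62⟩, ⟨0, 2, 6, 6, 61⟩, ⟨0, 1, 0, 22, 1⟩, ⟨0, 1, 0, 23, 0⟩, ⟨1, 0, 2, 5, 72⟩, ⟨1, 0, 3, 7, 55⟩, ⟨1, 0, 4, 7, 54⟩, ⟨1, 0, 5, 7, 53⟩, ⟨1, 0, 6, 7, 52⟩, ⟨1, 2, 2, 2, 85⟩, ⟨1, 2, 3, 7, 50⟩, ⟨1, 2, 4, 7, 49⟩, ⟨1, 2, 5, 7, 48⟩, ⟨1, 2, 6, 7, 47⟩, ⟨0, 1, 0, 18, 5⟩, ⟨0, 1, 0, 19, 4⟩, ⟨2, 0, 2, 1, 88⟩, ⟨2, 0, 3, 8, 41⟩, ⟨2, 0, 4, 8, 40⟩, ⟨2, 0, 5, 8, 39⟩, ⟨2, 0, 6, 8, 38⟩, ⟨2, 1, 2, 3, 80⟩, ⟨2, 1, 3, 8, 36⟩, ⟨2, 1, 4, 8, 35⟩,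 ⟨2, 1, 5, 8, 34⟩, ⟨2, 1, 6, 8, 33⟩, ⟨0, 1, 1, 0, 94⟩, ⟨1, 2, 1, 2, 86⟩, ⟨2, 0, 1, 1, 89⟩]
  pn := [⟨0, 1, 0, 0, 95⟩, ⟨0, 1, 0, 4, 79⟩, ⟨0, 1, 0, 5, 75⟩, ⟨0, 1, 0, 2, 87⟩, ⟨0, 1, 0, 1, 91⟩, ⟨0, 1, 0, 3, 83⟩, ⟨0, 1, 0, 6, 71⟩, ⟨0, 1, 0, 7, 58⟩, ⟨0, 1, 0, 8, 45⟩]
  st := [(0, 0), (4, 0), (6, 0), (5, 1), (2, 1), (7, 1), (1, 2), (3, 2), (8, 2)]
  sk _ := []
  sf := []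
  vd d := fun i j => match i, j with
    | 0, 1 => .sym false (d.f.getD 0 (.cst 0 0)) 2 12 14 15
    | 0, 2 => .sym true (d.f.getD 2 (.cst 0 0)) 2 21 22 23
    | 1, 0 => .sym true (d.f.getD 0 (.cst 0 0)) 2 13 14 15
    | 1, 2 => .sym false (d.f.getD 1 (.cst 0 0)) 2 16 18 19
    | 2, 0 => .sym false (d.f.getD 2 (.cst 0 0)) 2 20 22 23
    | 2, 1 => .sym true (d.f.getD 1 (.cst 0 0)) 2 17 18 19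
    | _, _ => .small 0 0
  vx := fun i j => match i, j with
    | 0, 1 => .big 7 12 14 15
    | 0, 2 => .big 7 21 23 22
    | 1, 0 => .big 7 13 15 14
    | 1, 2 => .big 7 16 18 19
    | 2, 0 => .big 7 20 22 23
    | 2, 1 => .big 7 17 19 18
    | _, _ => .small 0 0
  lb := fun _ _ => 0

/-- The template `TXA`. -/
def TXA : TmL where
  T := TXAt
  bk d := [.ch 0 1 2 0 1 2 (d.e.getD 0 (.cst 0 0)) (d.e.getD 1 (.cst 0 0)) (d.e.getD 2 (.cst 0 0)) (d.e.getD 3 (.cst 0 0)) (d.e.getD 4 (.cst 0 0)), .ch 2 1 0 3 4 5 (d.e.getD 5 (.cst 0 0)) (d.e.getD 6 (.cst 0 0)) (d.e.getD 7 (.cst 0 0)) (d.e.getD 8 (.cst 0 0)) (d.e.getD 9 (.cst 0 0))]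
  bf := [⟨0, 1, 2, some 1, 0⟩, ⟨2, 0, 2, some 2, 1⟩, ⟨1, 2, 2, some 0, 2⟩, ⟨2, 1, 2, some 4, 3⟩, ⟨0, 2, 2, some 5, 4⟩, ⟨1, 0, 2, some 3, 5⟩]

theorem TXA_ok (K : ℕ → ℕ → ℕ → Prop) : TXA.OK K where
  ok := by decide +kernel
  stt := by decide +kernel
  vx d i j := by fin_cases i <;> fin_cases j <;> rfl
  vd d i j hij := by
    fin_cases i <;> fin_cases j <;> first | exact absurd rfl hij | exact ⟨rfl, rfl, rfl⟩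
  sf d := rfl
  sk d s hs := absurd hs List.not_mem_nil
  bk d s hs := by
    rcases List.mem_cons.1 hs with rfl | hs
    · exact ⟨by decide, by decide, by decide, rfl, rfl, rfl⟩
    rcases List.mem_cons.1 hs with rfl | hs
    · exact ⟨by decide, by decide, by decide, rfl, rfl, rfl⟩
    · exact absurd hs List.not_mem_nil
  bf d := rfl
  cl d p q r hp hq hr hK i j hij := by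
    refine ⟨Nat.zero_le _, fun m E h => ?_⟩
    fin_cases i <;> fin_cases j <;> first | exact absurd rfl hij | exact VD.noConfusion h

/-- The template `TXB`. -/
def TXBt : Tm where
  fes d := [FEB 0 1 2 (.add hS (d.e.getD 0 (.cst 0 0))) (.sub hS (d.e.getD 0 (.cst 0 0))) (d.e.getD 3 (.cst 0 0)) (d.e.getD 4 (.cst 0 0)),
    FE.pushL [2] (FEB 0 1 2 (.add hS (d.e.getD 1 (.cst 0 0))) (.sub hS (d.e.getD 1 (.cst 0 0))) (d.e.getD 3 (.cst 0 0)) (d.e.getD 4 (.cst 0 0))),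
    FE.pushL [0] (FEB 0 1 2 (.add hS (d.e.getD 2 (.cst 0 0))) (.sub hS (d.e.getD 2 (.cst 0 0))) (d.e.getD 3 (.cst 0 0)) (d.e.getD 4 (.cst 0 0))),
    FEB 2 1 0 (.add hS (d.e.getD 5 (.cst 0 0))) (.sub hS (d.e.getD 5 (.cst 0 0))) (d.e.getD 8 (.cst 0 0)) (d.e.getD 9 (.cst 0 0)),
    FE.pushL [0] (FEB 2 1 0 (.add hS (d.e.getD 6 (.cst 0 0))) (.sub hS (d.e.getD 6 (.cst 0 0))) (d.e.getD 8 (.cst 0 0)) (d.e.getD 9 (.cst 0 0))),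
    FE.pushL [2] (FEB 2 1 0 (.add hS (d.e.getD 7 (.cst 0 0))) (.sub hS (d.e.getD 7 (.cst 0 0))) (d.e.getD 8 (.cst 0 0)) (d.e.getD 9 (.cst 0 0))),
    d.c.getD 0 .gram,
    d.c.getD 1 .gram,
    d.c.getD 2 .gram,
    d.c.getD 3 .gram,
    d.c.getD 4 .gram,
    d.c.getD 5 .gram,
    FEV 0 1 (d.f.getD 0 (.cst 0 0)) (ngS (DpS (.par (cpar 0 1)) 3)) (ngS (DpS (.par (cpar 0 1)) 4)),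
    FEV 0 1 (d.f.getD 0 (.cst 0 0)) (ngS (DpS (.par (cpar 0 1)) 4)) (ngS (DpS (.par (cpar 0 1)) 3)),
    FEV 0 1 (d.f.getD 0 (.cst 0 0)) (DpS (.par (cpar 0 1)) 5) (DpS (.par (cpar 0 1)) 4),
    FEV 0 1 (d.f.getD 0 (.cst 0 0)) (DpS (.par (cpar 0 1)) 4) (DpS (.par (cpar 0 1)) 5),
    FEV 1 2 (d.f.getD 1 (.cst 0 0)) (ngS (DpS (.par (cpar 1 2)) 3)) (ngS (DpS (.par (cpar 1 2)) 4)),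
    FEV 1 2 (d.f.getD 1 (.cst 0 0)) (ngS (DpS (.par (cpar 1 2)) 4)) (ngS (DpS (.par (cpar 1 2)) 3)),
    FEV 1 2 (d.f.getD 1 (.cst 0 0)) (DpS (.par (cpar 1 2)) 5) (DpS (.par (cpar 1 2)) 4),
    FEV 1 2 (d.f.getD 1 (.cst 0 0)) (DpS (.par (cpar 1 2)) 4) (DpS (.par (cpar 1 2)) 5),
    FEV 2 0 (d.f.getD 2 (.cst 0 0)) (ngS (DpS (.par (cpar 2 0)) 3)) (ngS (DpS (.par (cpar 2 0)) 4)),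
    FEV 2 0 (d.f.getD 2 (.cst 0 0)) (ngS (DpS (.par (cpar 2 0)) 4)) (ngS (DpS (.par (cpar 2 0)) 3)),
    FEV 2 0 (d.f.getD 2 (.cst 0 0)) (DpS (.par (cpar 2 0)) 5) (DpS (.par (cpar 2 0)) 4),
    FEV 2 0 (d.f.getD 2 (.cst 0 0)) (DpS (.par (cpar 2 0)) 4) (DpS (.par (cpar 2 0)) 5)]
  is := [.form 0, .push 0 [0], .push 0 [0, 1], .push 0 [1], .form 1, .push 1 [0], .push 1 [2], .push 1 [2, 0], .form 2, .push 2 [1], .push 2 [1, 2], .push 2 [2], .form 3, .push 3 [1], .push 3 [2], .push 3 [2, 1], .form 4, .push 4 [0], .push 4 [0, 2], .push 4 [2], .form 5, .push 5 [0], .push 5 [1], .push 5 [1, 0], .form 6, .word 0 1 2 0, .word 0 1 3 1, .word 0 1 4 2, .word 0 1 5 3, .word 0 1 6 4, .word 0 1 7 5, .word 0 1 8 6, .word 0 2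 2 7, .word 0 2 3 8, .word 0 2 4 9, .word 0 2 5 10, .word 0 2 6 11, .word 0 2 7 12, .word 0 2 8 13, .comp 1 14, .comp 2 15, .form 7, .comp 0 0, .word 1 0 2 1, .word 1 0 3 2, .word 1 0 4 3, .word 1 0 5 4, .word 1 0 6 5, .word 1 0 7 6, .word 1 0 8 7, .word 1 2 2 8, .word 1 2 3 9, .word 1 2 4 10, .word 1 2 5 11, .word 1 2 6 12, .word 1 2 7 13, .word 1 2 8 14, .comp 2 15, .form 8, .comp 0 0, .comp 1 1, .word 2 0 2 2, .word 2 0 3 3, .word 2 0 4 4, .word 2 0 5 5, .word 2 0 6 6, .word 2 0 7 7, .word 2 0 8 8, .word 2 1 2 9, .word 2 1 3 10, .word 2 1 4 11, .word 2 1 5 12, .word 2 1 6 13, .word 2 1 7 14, .word 2 1 8 15, .form 9, .comp 1 0, .word 1 2 2 1, .word 1 2 3 2, .word 1 2 4 3, .comp 2 4, .word 2 1 2 5, .word 2 1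 3 6, .word 2 1 4 7, .form 10, .comp 0 0, .word 0 2 2 1, .word 0 2 3 2, .word 0 2 4 3, .comp 2 4, .word 2 0 2 5, .word 2 0 3 6, .word 2 0 4 7, .form 11, .comp 0 0, .word 0 1 2 1, .word 0 1 3 2, .word 0 1 4 3, .comp 1 4, .word 1 0 2 5, .word 1 0 3 6, .word 1 0 4 7, .form 12, .form 13, .form 14, .form 15, .form 16, .form 17, .form 18, .form 19, .form 20, .form 21, .form 22, .form 23]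
  pks := [113, 112, 110, 109, 108, 107, 105, 104, 102, 101, 100, 99, 97, 96, 94, 93, 92, 91, 89, 88, 87, 86, 81, 80, 79, 74, 73, 72, 71, 70, 69, 68, 63, 62, 61, 56, 55, 54, 53, 52, 51, 50, 45, 44, 43, 38, 37, 36, 35, 34, 33, 32, 31, 30, 29, 28, 27, 26, 25, 24, 23, 22, 21, 20, 19, 18, 17, 16, 15, 14, 13, 12, 11, 10, 9, 8, 7, 6, 5, 4, 3, 2, 1, 0]
  cn := [⟨0, 1, 2, 1, 3, 0, 10, 1⟩, ⟨0, 1, 2, 1, 8, 0, 38, 1⟩, ⟨0, 1, 0, 0, 0, 9, 0, 45⟩, ⟨0, 1, 0, 0, 12, 6, 72, 18⟩, ⟨0, 1, 3, 2, 11, 6, 64, 19⟩, ⟨0, 1, 4, 2, 11, 6, 69, 19⟩, ⟨0, 1, 5, 3, 11, 6, 65, 20⟩, ⟨0, 1, 6, 3, 11, 6, 70, 20⟩, ⟨0, 1, 7, 4, 11, 6, 66, 21⟩, ⟨0, 1, 8, 4, 11, 6, 71, 21⟩, ⟨0, 1, 0, 0, 1, 14, 3, 74⟩, ⟨0, 1, 0, 0, 3, 14, 9, 74⟩, ⟨0, 1, 0, 0, 8, 14, 36,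 74⟩, ⟨0, 1, 0, 0, 1, 15, 3, 75⟩, ⟨0, 1, 0, 0, 3, 15, 9, 75⟩, ⟨0, 1, 0, 0, 8, 15, 36, 75⟩, ⟨0, 2, 2, 1, 2, 4, 8, 13⟩, ⟨0, 2, 2, 1, 7, 4, 35, 13⟩, ⟨0, 1, 0, 0, 4, 9, 12, 45⟩, ⟨0, 1, 0, 0, 21, 6, 81, 18⟩, ⟨0, 2, 3, 2, 10, 6, 55, 22⟩, ⟨0, 2, 4, 2, 10, 6, 60, 22⟩, ⟨0, 2, 5, 3, 10, 6, 56, 23⟩, ⟨0, 2, 6, 3, 10, 6, 61, 23⟩, ⟨0, 2, 7, 4, 10, 6, 57, 24⟩, ⟨0, 2, 8, 4, 10, 6, 62, 24⟩, ⟨0, 1, 0, 0, 5, 22, 15, 82⟩, ⟨0, 1, 0, 0, 2, 22, 6, 82⟩, ⟨0, 1, 0, 0, 7, 22, 27, 82⟩, ⟨0, 1, 0, 0, 5, 23, 15, 83⟩, ⟨0, 1, 0, 0, 2, 23, 6, 83⟩, ⟨0, 1, 0, 0, 7, 23, 27, 83⟩, ⟨1, 0, 2, 1, 1, 5, 4, 17⟩, ⟨1, 0, 2, 1, 8, 5, 37, 17⟩, ⟨0, 1, 0, 0, 5, 10, 15, 54⟩, ⟨0, 1, 0, 0, 13, 7, 73, 27⟩, ⟨1, 0, 3, 2, 11, 7, 68, 29⟩, ⟨1, 0, 4, 2, 11, 7, 65, 29⟩,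 ⟨1, 0, 5, 3, 11, 7, 69, 30⟩, ⟨1, 0, 6, 3, 11, 7, 66, 30⟩, ⟨1, 0, 7, 4, 11, 7, 70, 31⟩, ⟨1, 0, 8, 4, 11, 7, 67, 31⟩, ⟨1, 2, 2, 1, 4, 2, 14, 7⟩, ⟨1, 2, 2, 1, 6, 2, 26, 7⟩, ⟨0, 1, 0, 0, 2, 10, 6, 54⟩, ⟨0, 1, 0, 0, 16, 7, 76, 27⟩, ⟨1, 2, 3, 2, 9, 7, 46, 32⟩, ⟨1, 2, 4, 2, 9, 7, 51, 32⟩, ⟨1, 2, 5, 3, 9, 7, 47, 33⟩, ⟨1, 2, 6, 3, 9, 7, 52, 33⟩, ⟨1, 2, 7, 4, 9, 7, 48, 34⟩, ⟨1, 2, 8, 4, 9, 7, 53, 34⟩, ⟨0, 1, 0, 0, 0, 18, 0, 78⟩, ⟨0, 1, 0, 0, 4, 18, 12, 78⟩, ⟨0, 1, 0, 0, 6, 18, 18, 78⟩, ⟨0, 1, 0, 0, 0, 19, 0, 79⟩, ⟨0, 1, 0, 0, 4, 19, 12, 79⟩, ⟨0, 1, 0, 0, 6, 19, 18, 79⟩, ⟨2, 0, 2, 1, 5, 1, 16, 5⟩, ⟨2, 0, 2, 1, 7, 1, 28, 5⟩, ⟨0, 1, 0, 0, 1, 11, 3, 63⟩, ⟨0, 1, 0, 0, 20, 8, 80, 36⟩, ⟨2, 0, 3, 2, 10, 8, 59, 39⟩, ⟨2, 0, 4,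 2, 10, 8, 56, 39⟩, ⟨2, 0, 5, 3, 10, 8, 60, 40⟩, ⟨2, 0, 6, 3, 10, 8, 57, 40⟩, ⟨2, 0, 7, 4, 10, 8, 61, 41⟩, ⟨2, 0, 8, 4, 10, 8, 58, 41⟩, ⟨2, 1, 2, 1, 0, 3, 2, 11⟩, ⟨2, 1, 2, 1, 6, 3, 25, 11⟩, ⟨0, 1, 0, 0, 3, 11, 9, 63⟩, ⟨0, 1, 0, 0, 17, 8, 77, 36⟩, ⟨2, 1, 3, 2, 9, 8, 50, 42⟩, ⟨2, 1, 4, 2, 9, 8, 47, 42⟩, ⟨2, 1, 5, 3, 9, 8, 51, 43⟩, ⟨2, 1, 6, 3, 9, 8, 48, 43⟩, ⟨2, 1, 7, 4, 9, 8, 52, 44⟩, ⟨2, 1, 8, 4, 9, 8, 49, 44⟩, ⟨0, 1, 0, 0, 6, 9, 18, 45⟩, ⟨0, 1, 0, 0, 7, 10, 27, 54⟩, ⟨0, 1, 0, 0, 8, 11, 36, 63⟩]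
  pp := [⟨0, 1, 2, 0, 111⟩, ⟨0, 1, 3, 6, 87⟩, ⟨0, 1, 4, 6, 86⟩, ⟨0, 1, 5, 6, 85⟩, ⟨0, 1, 6, 6, 84⟩, ⟨0, 1, 7, 6, 83⟩, ⟨0, 1, 8, 6, 82⟩, ⟨0, 1, 0, 14, 9⟩, ⟨0, 1, 0, 15, 8⟩, ⟨0, 2, 2, 4, 95⟩, ⟨0, 2, 3, 6, 80⟩, ⟨0, 2, 4, 6, 79⟩, ⟨0, 2, 5, 6, 78⟩, ⟨0, 2, 6, 6, 77⟩, ⟨0, 2, 7, 6, 76⟩, ⟨0, 2, 8, 6, 75⟩, ⟨0, 1, 0, 22, 1⟩, ⟨0, 1, 0, 23, 0⟩, ⟨1, 0, 2, 5, 90⟩, ⟨1, 0, 3, 7, 69⟩, ⟨1, 0, 4, 7, 68⟩, ⟨1, 0, 5, 7, 67⟩, ⟨1, 0, 6, 7, 66⟩, ⟨1, 0, 7, 7, 65⟩, ⟨1, 0, 8, 7, 64⟩, ⟨1, 2, 2, 2, 103⟩, ⟨1, 2, 3, 7, 62⟩, ⟨1, 2, 4, 7, 61⟩, ⟨1, 2, 5, 7, 60⟩, ⟨1, 2, 6, 7, 59⟩, ⟨1, 2, 7, 7, 58⟩, ⟨1, 2, 8, 7, 57⟩, ⟨0, 1, 0, 18, 5⟩, ⟨0, 1, 0, 19, 4⟩, ⟨2, 0, 2, 1, 106⟩, ⟨2, 0, 3, 8, 51⟩, ⟨2, 0, 4, 8, 50⟩, ⟨2, 0, 5, 8, 49⟩, ⟨2, 0, 6, 8, 48⟩, ⟨2,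 0, 7, 8, 47⟩, ⟨2, 0, 8, 8, 46⟩, ⟨2, 1, 2, 3, 98⟩, ⟨2, 1, 3, 8, 44⟩, ⟨2, 1, 4, 8, 43⟩, ⟨2, 1, 5, 8, 42⟩, ⟨2, 1, 6, 8, 41⟩, ⟨2, 1, 7, 8, 40⟩, ⟨2, 1, 8, 8, 39⟩, ⟨0, 1, 1, 0, 112⟩, ⟨1, 2, 1, 2, 104⟩, ⟨2, 0, 1, 1, 107⟩]
  pn := [⟨0, 1, 0, 0, 113⟩, ⟨0, 1, 0, 4, 97⟩, ⟨0, 1, 0, 5, 93⟩, ⟨0, 1, 0, 2, 105⟩, ⟨0, 1, 0, 1, 109⟩, ⟨0, 1, 0, 3, 101⟩, ⟨0, 1, 0, 6, 89⟩, ⟨0, 1, 0, 7, 72⟩, ⟨0, 1, 0, 8, 55⟩]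
  st := [(0, 0), (4, 0), (6, 0), (5, 1), (2, 1), (7, 1), (1, 2), (3, 2), (8, 2)]
  sk _ := []
  sf := []
  vd d := fun i j => match i, j with
    | 0, 1 => .sym false (d.f.getD 0 (.cst 0 0)) 3 12 14 15
    | 0, 2 => .sym true (d.f.getD 2 (.cst 0 0)) 3 21 22 23
    | 1, 0 => .sym true (d.f.getD 0 (.cst 0 0)) 3 13 14 15
    | 1, 2 => .sym false (d.f.getD 1 (.cst 0 0)) 3 16 18 19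
    | 2, 0 => .sym false (d.f.getD 2 (.cst 0 0)) 3 20 22 23
    | 2, 1 => .sym true (d.f.getD 1 (.cst 0 0)) 3 17 18 19
    | _, _ => .small 0 0
  vx := fun i j => match i, j with
    | 0, 1 => .big 9 12 14 15
    | 0, 2 => .big 9 21 23 22
    | 1, 0 => .big 9 13 15 14
    | 1, 2 => .big 9 16 18 19
    | 2, 0 => .big 9 20 22 23
    | 2, 1 => .big 9 17 19 18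
    | _, _ => .small 0 0
  lb := fun _ _ => 0

/-- The template `TXB`. -/
def TXB : TmL where
  T := TXBt
  bk d := [.ch 0 1 2 0 1 2 (d.e.getD 0 (.cst 0 0)) (d.e.getD 1 (.cst 0 0)) (d.e.getD 2 (.cst 0 0)) (d.e.getD 3 (.cst 0 0)) (d.e.getD 4 (.cst 0 0)), .ch 2 1 0 3 4 5 (d.e.getD 5 (.cst 0 0)) (d.e.getD 6 (.cst 0 0)) (d.e.getD 7 (.cst 0 0)) (d.e.getD 8 (.cst 0 0)) (d.e.getD 9 (.cst 0 0))]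
  bf := [⟨0, 1, 2, some 1, 0⟩, ⟨2, 0, 2, some 2, 1⟩, ⟨1, 2, 2, some 0, 2⟩, ⟨2, 1, 2, some 4, 3⟩, ⟨0, 2, 2, some 5, 4⟩, ⟨1, 0, 2, some 3, 5⟩]

theorem TXB_ok (K : ℕ → ℕ → ℕ → Prop) : TXB.OK K where
  ok := by decide +kernel
  stt := by decide +kernel
  vx d i j := by fin_cases i <;> fin_cases j <;> rfl
  vd d i j hij := by
    fin_cases i <;> fin_cases j <;> first | exact absurd rfl hij | exact ⟨rfl, rfl, rfl⟩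
  sf d := rfl
  sk d s hs := absurd hs List.not_mem_nil
  bk d s hs := by
    rcases List.mem_cons.1 hs with rfl | hs
    · exact ⟨by decide, by decide, by decide, rfl, rfl, rfl⟩
    rcases List.mem_cons.1 hs with rfl | hs
    · exact ⟨by decide, by decide, by decide, rfl, rfl, rfl⟩
    · exact absurd hs List.not_mem_nil
  bf d := rfl
  cl d p q r hp hq hr hK i j hij := by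
    refine ⟨Nat.zero_le _, fun m E h => ?_⟩
    fin_cases i <;> fin_cases j <;> first | exact absurd rfl hij | exact VD.noConfusion h

/-- The template `TXC`. -/
def TXCt : Tm where
  fes d := [FEB 0 1 2 (.add hS (d.e.getD 0 (.cst 0 0))) (.sub hS (d.e.getD 0 (.cst 0 0))) (d.e.getD 3 (.cst 0 0)) (d.e.getD 4 (.cst 0 0)),
    FE.pushL [2] (FEB 0 1 2 (.add hS (d.e.getD 1 (.cst 0 0))) (.sub hS (d.e.getD 1 (.cst 0 0))) (d.e.getD 3 (.cst 0 0)) (d.e.getD 4 (.cst 0 0))),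
    FE.pushL [0] (FEB 0 1 2 (.add hS (d.e.getD 2 (.cst 0 0))) (.sub hS (d.e.getD 2 (.cst 0 0))) (d.e.getD 3 (.cst 0 0)) (d.e.getD 4 (.cst 0 0))),
    FEB 2 1 0 (.add hS (d.e.getD 5 (.cst 0 0))) (.sub hS (d.e.getD 5 (.cst 0 0))) (d.e.getD 8 (.cst 0 0)) (d.e.getD 9 (.cst 0 0)),
    FE.pushL [0] (FEB 2 1 0 (.add hS (d.e.getD 6 (.cst 0 0))) (.sub hS (d.e.getD 6 (.cst 0 0))) (d.e.getD 8 (.cst 0 0)) (d.e.getD 9 (.cst 0 0))),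
    FE.pushL [2] (FEB 2 1 0 (.add hS (d.e.getD 7 (.cst 0 0))) (.sub hS (d.e.getD 7 (.cst 0 0))) (d.e.getD 8 (.cst 0 0)) (d.e.getD 9 (.cst 0 0))),
    d.c.getD 0 .gram,
    d.c.getD 1 .gram,
    d.c.getD 2 .gram,
    d.c.getD 3 .gram,
    d.c.getD 4 .gram,
    d.c.getD 5 .gram,
    FEV 0 1 (d.f.getD 0 (.cst 0 0)) (ngS (DpS (.par (cpar 0 1)) 2)) (ngS (DpS (.par (cpar 0 1)) 3)),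
    FEV 0 1 (d.f.getD 0 (.cst 0 0)) (ngS (DpS (.par (cpar 0 1)) 3)) (ngS (DpS (.par (cpar 0 1)) 2)),
    FEV 0 1 (d.f.getD 0 (.cst 0 0)) (DpS (.par (cpar 0 1)) 4) (DpS (.par (cpar 0 1)) 3),
    FEV 0 1 (d.f.getD 0 (.cst 0 0)) (DpS (.par (cpar 0 1)) 3) (DpS (.par (cpar 0 1)) 4),
    FEV 1 2 (d.f.getD 1 (.cst 0 0)) (ngS (DpS (.par (cpar 1 2)) 2)) (ngS (DpS (.par (cpar 1 2)) 3)),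
    FEV 1 2 (d.f.getD 1 (.cst 0 0)) (ngS (DpS (.par (cpar 1 2)) 3)) (ngS (DpS (.par (cpar 1 2)) 2)),
    FEV 1 2 (d.f.getD 1 (.cst 0 0)) (DpS (.par (cpar 1 2)) 4) (DpS (.par (cpar 1 2)) 3),
    FEV 1 2 (d.f.getD 1 (.cst 0 0)) (DpS (.par (cpar 1 2)) 3) (DpS (.par (cpar 1 2)) 4),
    FEV 2 0 (d.f.getD 2 (.cst 0 0)) (ngS (DpS (.par (cpar 2 0)) 2)) (ngS (DpS (.par (cpar 2 0)) 3)),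
    FEV 2 0 (d.f.getD 2 (.cst 0 0)) (ngS (DpS (.par (cpar 2 0)) 3)) (ngS (DpS (.par (cpar 2 0)) 2)),
    FEV 2 0 (d.f.getD 2 (.cst 0 0)) (DpS (.par (cpar 2 0)) 4) (DpS (.par (cpar 2 0)) 3),
    FEV 2 0 (d.f.getD 2 (.cst 0 0)) (DpS (.par (cpar 2 0)) 3) (DpS (.par (cpar 2 0)) 4)]
  is := [.form 0, .push 0 [0], .push 0 [0, 1], .push 0 [1], .form 1, .push 1 [0], .push 1 [2], .push 1 [2, 0], .form 2, .push 2 [1], .push 2 [1, 2], .push 2 [2], .form 3, .push 3 [1], .push 3 [2], .push 3 [2, 1], .form 4, .push 4 [0], .push 4 [0, 2], .push 4 [2], .form 5, .push 5 [0], .push 5 [1], .push 5 [1, 0], .form 6, .comp 0 0, .word 0 1 2 1, .word 0 1 3 2, .word 0 1 4 3, .word 0 1 5 4, .word 0 1 6 5, .word 0 2 2 6, .word 0 2 3 7,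 .word 0 2 4 8, .word 0 2 5 9, .word 0 2 6 10, .comp 1 11, .comp 2 12, .form 7, .comp 0 0, .comp 1 1, .word 1 0 2 2, .word 1 0 3 3, .word 1 0 4 4, .word 1 0 5 5, .word 1 0 6 6, .word 1 2 2 7, .word 1 2 3 8, .word 1 2 4 9, .word 1 2 5 10, .word 1 2 6 11, .comp 2 12, .form 8, .comp 0 0, .comp 1 1, .comp 2 2, .word 2 0 2 3, .word 2 0 3 4, .word 2 0 4 5, .word 2 0 5 6, .word 2 0 6 7, .word 2 1 2 8, .word 2 1 3 9, .word 2 1 4 10, .word 2 1 5 11, .word 2 1 6 12, .form 9, .comp 1 0, .word 1 2 2 1, .word 1 2 3 2, .comp 2 3, .word 2 1 2 4, .word 2 1 3 5, .form 10, .comp 0 0, .word 0 2 2 1, .word 0 2 3 2, .comp 2 3, .word 2 0 2 4, .word 2 0 3 5, .form 11, .comp 0 0, .word 0 1 2 1, .word 0 1 3 2, .comp 1 3, .word 1 0 2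 4, .word 1 0 3 5, .form 12, .form 13, .form 14, .form 15, .form 16, .form 17, .form 18, .form 19, .form 20, .form 21, .form 22, .form 23]
  pks := [98, 97, 95, 94, 93, 92, 90, 89, 87, 86, 85, 84, 82, 81, 79, 78, 77, 76, 74, 73, 72, 71, 67, 66, 62, 61, 60, 59, 58, 57, 56, 52, 51, 47, 46, 45, 44, 43, 42, 41, 37, 36, 32, 31, 30, 29, 28, 27, 26, 25, 24, 23, 22, 21, 20, 19, 18, 17, 16, 15, 14, 13, 12, 11, 10, 9, 8, 7, 6, 5, 4, 3, 2, 1, 0]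
  cn := [⟨0, 1, 2, 1, 3, 6, 10, 19⟩, ⟨0, 1, 2, 1, 8, 0, 36, 1⟩, ⟨0, 1, 0, 0, 0, 9, 0, 42⟩, ⟨0, 1, 0, 0, 12, 6, 63, 18⟩, ⟨0, 1, 3, 2, 11, 6, 57, 20⟩, ⟨0, 1, 4, 2, 11, 6, 61, 20⟩, ⟨0, 1, 5, 3, 11, 6, 58, 21⟩, ⟨0, 1, 6, 3, 11, 6, 62, 21⟩, ⟨0, 1, 0, 0, 1, 14, 3, 65⟩, ⟨0, 1, 0, 0, 3, 14, 9, 65⟩, ⟨0, 1, 0, 0, 8, 14, 34, 65⟩, ⟨0, 1, 0, 0, 1, 15, 3, 66⟩, ⟨0, 1, 0, 0, 3, 15, 9, 66⟩, ⟨0, 1, 0, 0, 8, 15, 34, 66⟩, ⟨0, 2, 2, 1, 2, 6, 8, 19⟩, ⟨0, 2, 2, 1, 7, 4, 33, 13⟩, ⟨0, 1, 0, 0, 4, 9, 12, 42⟩, ⟨0, 1, 0, 0, 21, 6, 72, 18⟩, ⟨0, 2, 3, 2, 10, 6, 50, 22⟩, ⟨0, 2, 4, 2, 10, 6, 54, 22⟩, ⟨0, 2, 5, 3, 10, 6, 51, 23⟩, ⟨0, 2, 6, 3, 10, 6, 55, 23⟩, ⟨0, 1, 0, 0, 5, 22, 15, 73⟩, ⟨0, 1, 0, 0, 2, 22, 6, 73⟩, ⟨0, 1, 0, 0, 7, 22, 26, 73⟩,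 ⟨0, 1, 0, 0, 5, 23, 15, 74⟩, ⟨0, 1, 0, 0, 2, 23, 6, 74⟩, ⟨0, 1, 0, 0, 7, 23, 26, 74⟩, ⟨1, 0, 2, 1, 1, 7, 4, 28⟩, ⟨1, 0, 2, 1, 8, 5, 35, 17⟩, ⟨0, 1, 0, 0, 5, 10, 15, 49⟩, ⟨0, 1, 0, 0, 13, 7, 64, 26⟩, ⟨1, 0, 3, 2, 11, 7, 60, 29⟩, ⟨1, 0, 4, 2, 11, 7, 58, 29⟩, ⟨1, 0, 5, 3, 11, 7, 61, 30⟩, ⟨1, 0, 6, 3, 11, 7, 59, 30⟩, ⟨1, 2, 2, 1, 4, 7, 14, 28⟩, ⟨1, 2, 2, 1, 6, 2, 25, 7⟩, ⟨0, 1, 0, 0, 2, 10, 6, 49⟩, ⟨0, 1, 0, 0, 16, 7, 67, 26⟩, ⟨1, 2, 3, 2, 9, 7, 43, 31⟩, ⟨1, 2, 4, 2, 9, 7, 47, 31⟩, ⟨1, 2, 5, 3, 9, 7, 44, 32⟩, ⟨1, 2, 6, 3, 9, 7, 48, 32⟩, ⟨0, 1, 0, 0, 0, 18, 0, 69⟩, ⟨0, 1, 0, 0, 4, 18, 12, 69⟩, ⟨0, 1, 0, 0, 6, 18, 18, 69⟩, ⟨0, 1, 0, 0, 0, 19, 0, 70⟩, ⟨0, 1, 0, 0, 4, 19, 12, 70⟩, ⟨0, 1, 0, 0, 6, 19, 18, 70⟩, ⟨2, 0,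 2, 1, 5, 8, 16, 37⟩, ⟨2, 0, 2, 1, 7, 1, 27, 5⟩, ⟨0, 1, 0, 0, 1, 11, 3, 56⟩, ⟨0, 1, 0, 0, 20, 8, 71, 34⟩, ⟨2, 0, 3, 2, 10, 8, 53, 38⟩, ⟨2, 0, 4, 2, 10, 8, 51, 38⟩, ⟨2, 0, 5, 3, 10, 8, 54, 39⟩, ⟨2, 0, 6, 3, 10, 8, 52, 39⟩, ⟨2, 1, 2, 1, 0, 8, 2, 37⟩, ⟨2, 1, 2, 1, 6, 3, 24, 11⟩, ⟨0, 1, 0, 0, 3, 11, 9, 56⟩, ⟨0, 1, 0, 0, 17, 8, 68, 34⟩, ⟨2, 1, 3, 2, 9, 8, 46, 40⟩, ⟨2, 1, 4, 2, 9, 8, 44, 40⟩, ⟨2, 1, 5, 3, 9, 8, 47, 41⟩, ⟨2, 1, 6, 3, 9, 8, 45, 41⟩, ⟨0, 1, 0, 0, 6, 9, 18, 42⟩, ⟨0, 1, 0, 0, 7, 10, 26, 49⟩, ⟨0, 1, 0, 0, 8, 11, 34, 56⟩]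
  pp := [⟨0, 1, 2, 0, 96⟩, ⟨0, 1, 3, 6, 71⟩, ⟨0, 1, 4, 6, 70⟩, ⟨0, 1, 5, 6, 69⟩, ⟨0, 1, 6, 6, 68⟩, ⟨0, 1, 0, 14, 9⟩, ⟨0, 1, 0, 15, 8⟩, ⟨0, 2, 2, 4, 80⟩, ⟨0, 2, 3, 6, 66⟩, ⟨0, 2, 4, 6, 65⟩, ⟨0, 2, 5, 6, 64⟩, ⟨0, 2, 6, 6, 63⟩, ⟨0, 1, 0, 22, 1⟩, ⟨0, 1, 0, 23, 0⟩, ⟨1, 0, 2, 5, 75⟩, ⟨1, 0, 3, 7, 56⟩, ⟨1, 0, 4, 7, 55⟩, ⟨1, 0, 5, 7, 54⟩, ⟨1, 0, 6, 7, 53⟩, ⟨1, 2, 2, 2, 88⟩, ⟨1, 2, 3, 7, 51⟩, ⟨1, 2, 4, 7, 50⟩, ⟨1, 2, 5, 7, 49⟩, ⟨1, 2, 6, 7, 48⟩, ⟨0, 1, 0, 18, 5⟩, ⟨0, 1, 0, 19, 4⟩, ⟨2, 0, 2, 1, 91⟩, ⟨2, 0, 3, 8, 41⟩, ⟨2, 0, 4, 8, 40⟩, ⟨2, 0, 5, 8, 39⟩, ⟨2, 0, 6, 8, 38⟩, ⟨2, 1, 2, 3, 83⟩, ⟨2, 1, 3, 8, 36⟩, ⟨2, 1, 4, 8, 35⟩, ⟨2, 1, 5, 8, 34⟩, ⟨2, 1, 6, 8, 33⟩, ⟨0, 1, 1, 0, 97⟩, ⟨1, 2, 1, 2, 89⟩, ⟨2, 0, 1, 1, 92⟩]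
  pn := [⟨0, 1, 0, 0, 98⟩, ⟨0, 1, 0, 4, 82⟩, ⟨0, 1, 0, 5, 78⟩, ⟨0, 1, 0, 2, 90⟩, ⟨0, 1, 0, 1, 94⟩, ⟨0, 1, 0, 3, 86⟩, ⟨0, 1, 0, 6, 74⟩, ⟨0, 1, 0, 7, 60⟩, ⟨0, 1, 0, 8, 46⟩]
  st := [(0, 0), (4, 0), (6, 0), (5, 1), (2, 1), (7, 1), (1, 2), (3, 2), (8, 2)]
  sk _ := []
  sf := []
  vd d := fun i j => match i, j with
    | 0, 1 => .sym false (d.f.getD 0 (.cst 0 0)) 2 12 14 15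
    | 0, 2 => .sym true (d.f.getD 2 (.cst 0 0)) 2 21 22 23
    | 1, 0 => .sym true (d.f.getD 0 (.cst 0 0)) 2 13 14 15
    | 1, 2 => .sym false (d.f.getD 1 (.cst 0 0)) 2 16 18 19
    | 2, 0 => .sym false (d.f.getD 2 (.cst 0 0)) 2 20 22 23
    | 2, 1 => .sym true (d.f.getD 1 (.cst 0 0)) 2 17 18 19
    | _, _ => .small 0 0
  vx := fun i j => match i, j with
    | 0, 1 => .big 7 12 14 15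
    | 0, 2 => .big 7 21 23 22
    | 1, 0 => .big 7 13 15 14
    | 1, 2 => .big 7 16 18 19
    | 2, 0 => .big 7 20 22 23
    | 2, 1 => .big 7 17 19 18
    | _, _ => .small 0 0
  lb := fun _ _ => 0

/-- The template `TXC`. -/
def TXC : TmL where
  T := TXCt
  bk d := [.ch 0 1 2 0 1 2 (d.e.getD 0 (.cst 0 0)) (d.e.getD 1 (.cst 0 0)) (d.e.getD 2 (.cst 0 0)) (d.e.getD 3 (.cst 0 0)) (d.e.getD 4 (.cst 0 0)), .ch 2 1 0 3 4 5 (d.e.getD 5 (.cst 0 0)) (d.e.getD 6 (.cst 0 0)) (d.e.getD 7 (.cst 0 0)) (d.e.getD 8 (.cst 0 0)) (d.e.getD 9 (.cst 0 0))]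
  bf := [⟨0, 1, 2, some 1, 0⟩, ⟨2, 0, 2, some 2, 1⟩, ⟨1, 2, 2, some 0, 2⟩, ⟨2, 1, 2, some 4, 3⟩, ⟨0, 2, 2, some 5, 4⟩, ⟨1, 0, 2, some 3, 5⟩]

theorem TXC_ok (K : ℕ → ℕ → ℕ → Prop) : TXC.OK K where
  ok := by decide +kernel
  stt := by decide +kernel
  vx d i j := by fin_cases i <;> fin_cases j <;> rfl
  vd d i j hij := by
    fin_cases i <;> fin_cases j <;> first | exact absurd rfl hij | exact ⟨rfl, rfl, rfl⟩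
  sf d := rfl
  sk d s hs := absurd hs List.not_mem_nil
  bk d s hs := by
    rcases List.mem_cons.1 hs with rfl | hs
    · exact ⟨by decide, by decide, by decide, rfl, rfl, rfl⟩
    rcases List.mem_cons.1 hs with rfl | hs
    · exact ⟨by decide, by decide, by decide, rfl, rfl, rfl⟩
    · exact absurd hs List.not_mem_nil
  bf d := rfl
  cl d p q r hp hq hr hK i j hij := by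
    refine ⟨Nat.zero_le _, fun m E h => ?_⟩
    fin_cases i <;> fin_cases j <;> first | exact absurd rfl hij | exact VD.noConfusion h

/-- The template `TXD`. -/
def TXDt : Tm where
  fes d := [FEB 0 1 2 (.add hS (d.e.getD 0 (.cst 0 0))) (.sub hS (d.e.getD 0 (.cst 0 0))) (d.e.getD 3 (.cst 0 0)) (d.e.getD 4 (.cst 0 0)),
    FE.pushL [2] (FEB 0 1 2 (.add hS (d.e.getD 1 (.cst 0 0))) (.sub hS (d.e.getD 1 (.cst 0 0))) (d.e.getD 3 (.cst 0 0)) (d.e.getD 4 (.cst 0 0))),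
    FE.pushL [0] (FEB 0 1 2 (.add hS (d.e.getD 2 (.cst 0 0))) (.sub hS (d.e.getD 2 (.cst 0 0))) (d.e.getD 3 (.cst 0 0)) (d.e.getD 4 (.cst 0 0))),
    FEB 2 1 0 (.add hS (d.e.getD 5 (.cst 0 0))) (.sub hS (d.e.getD 5 (.cst 0 0))) (d.e.getD 8 (.cst 0 0)) (d.e.getD 9 (.cst 0 0)),
    FE.pushL [0] (FEB 2 1 0 (.add hS (d.e.getD 6 (.cst 0 0))) (.sub hS (d.e.getD 6 (.cst 0 0))) (d.e.getD 8 (.cst 0 0)) (d.e.getD 9 (.cst 0 0))),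
    FE.pushL [2] (FEB 2 1 0 (.add hS (d.e.getD 7 (.cst 0 0))) (.sub hS (d.e.getD 7 (.cst 0 0))) (d.e.getD 8 (.cst 0 0)) (d.e.getD 9 (.cst 0 0))),
    d.c.getD 0 .gram,
    d.c.getD 1 .gram,
    d.c.getD 2 .gram,
    d.c.getD 3 .gram,
    d.c.getD 4 .gram,
    d.c.getD 5 .gram,
    FEV 0 1 (d.f.getD 0 (.cst 0 0)) (ngS (DpS (.par (cpar 0 1)) 3)) (ngS (DpS (.par (cpar 0 1)) 4)),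
    FEV 0 1 (d.f.getD 0 (.cst 0 0)) (ngS (DpS (.par (cpar 0 1)) 4)) (ngS (DpS (.par (cpar 0 1)) 3)),
    FEV 0 1 (d.f.getD 0 (.cst 0 0)) (DpS (.par (cpar 0 1)) 5) (DpS (.par (cpar 0 1)) 4),
    FEV 0 1 (d.f.getD 0 (.cst 0 0)) (DpS (.par (cpar 0 1)) 4) (DpS (.par (cpar 0 1)) 5),
    FEV 1 2 (d.f.getD 1 (.cst 0 0)) (ngS (DpS (.par (cpar 1 2)) 3)) (ngS (DpS (.par (cpar 1 2)) 4)),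
    FEV 1 2 (d.f.getD 1 (.cst 0 0)) (ngS (DpS (.par (cpar 1 2)) 4)) (ngS (DpS (.par (cpar 1 2)) 3)),
    FEV 1 2 (d.f.getD 1 (.cst 0 0)) (DpS (.par (cpar 1 2)) 5) (DpS (.par (cpar 1 2)) 4),
    FEV 1 2 (d.f.getD 1 (.cst 0 0)) (DpS (.par (cpar 1 2)) 4) (DpS (.par (cpar 1 2)) 5),
    FEV 2 0 (d.f.getD 2 (.cst 0 0)) (ngS (DpS (.par (cpar 2 0)) 3)) (ngS (DpS (.par (cpar 2 0)) 4)),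
    FEV 2 0 (d.f.getD 2 (.cst 0 0)) (ngS (DpS (.par (cpar 2 0)) 4)) (ngS (DpS (.par (cpar 2 0)) 3)),
    FEV 2 0 (d.f.getD 2 (.cst 0 0)) (DpS (.par (cpar 2 0)) 5) (DpS (.par (cpar 2 0)) 4),
    FEV 2 0 (d.f.getD 2 (.cst 0 0)) (DpS (.par (cpar 2 0)) 4) (DpS (.par (cpar 2 0)) 5)]
  is := [.form 0, .push 0 [0], .push 0 [0, 1], .push 0 [1], .form 1, .push 1 [0], .push 1 [2], .push 1 [2, 0], .form 2, .push 2 [1], .push 2 [1, 2], .push 2 [2], .form 3, .push 3 [1], .push 3 [2], .push 3 [2, 1], .form 4, .push 4 [0], .push 4 [0, 2], .push 4 [2], .form 5, .push 5 [0], .push 5 [1], .push 5 [1, 0], .form 6, .comp 0 0, .word 0 1 2 1, .word 0 1 3 2, .word 0 1 4 3, .word 0 1 5 4, .word 0 1 6 5, .word 0 1 7 6, .word 0 1 8 7,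 .word 0 2 2 8, .word 0 2 3 9, .word 0 2 4 10, .word 0 2 5 11, .word 0 2 6 12, .word 0 2 7 13, .word 0 2 8 14, .comp 1 15, .comp 2 16, .form 7, .comp 0 0, .comp 1 1, .word 1 0 2 2, .word 1 0 3 3, .word 1 0 4 4, .word 1 0 5 5, .word 1 0 6 6, .word 1 0 7 7, .word 1 0 8 8, .word 1 2 2 9, .word 1 2 3 10, .word 1 2 4 11, .word 1 2 5 12, .word 1 2 6 13, .word 1 2 7 14, .word 1 2 8 15, .comp 2 16, .form 8, .comp 0 0, .comp 1 1, .comp 2 2, .word 2 0 2 3, .word 2 0 3 4, .word 2 0 4 5, .word 2 0 5 6, .word 2 0 6 7, .word 2 0 7 8, .word 2 0 8 9, .word 2 1 2 10, .word 2 1 3 11, .word 2 1 4 12, .word 2 1 5 13, .word 2 1 6 14, .word 2 1 7 15, .word 2 1 8 16, .form 9, .comp 1 0, .word 1 2 2 1, .word 1 2 3 2, .word 1 2 4 3,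 .comp 2 4, .word 2 1 2 5, .word 2 1 3 6, .word 2 1 4 7, .form 10, .comp 0 0, .word 0 2 2 1, .word 0 2 3 2, .word 0 2 4 3, .comp 2 4, .word 2 0 2 5, .word 2 0 3 6, .word 2 0 4 7, .form 11, .comp 0 0, .word 0 1 2 1, .word 0 1 3 2, .word 0 1 4 3, .comp 1 4, .word 1 0 2 5, .word 1 0 3 6, .word 1 0 4 7, .form 12, .form 13, .form 14, .form 15, .form 16, .form 17, .form 18, .form 19, .form 20, .form 21, .form 22, .form 23]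
  pks := [116, 115, 113, 112, 111, 110, 108, 107, 105, 104, 103, 102, 100, 99, 97, 96, 95, 94, 92, 91, 90, 89, 88, 83, 82, 81, 76, 75, 74, 73, 72, 71, 70, 69, 64, 63, 62, 57, 56, 55, 54, 53, 52, 51, 50, 45, 44, 43, 38, 37, 36, 35, 34, 33, 32, 31, 30, 29, 28, 27, 26, 25, 24, 23, 22, 21, 20, 19, 18, 17, 16, 15, 14, 13, 12, 11, 10, 9, 8, 7, 6, 5, 4, 3, 2, 1, 0]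
  cn := [⟨0, 1, 2, 1, 3, 6, 10, 19⟩, ⟨0, 1, 2, 1, 8, 0, 40, 1⟩, ⟨0, 1, 0, 0, 0, 9, 0, 48⟩, ⟨0, 1, 0, 0, 12, 6, 75, 18⟩, ⟨0, 1, 3, 2, 11, 6, 67, 20⟩, ⟨0, 1, 4, 2, 11, 6, 72, 20⟩, ⟨0, 1, 5, 3, 11, 6, 68, 21⟩, ⟨0, 1, 6, 3, 11, 6, 73, 21⟩, ⟨0, 1, 7, 4, 11, 6, 69, 22⟩, ⟨0, 1, 8, 4, 11, 6, 74, 22⟩, ⟨0, 1, 0, 0, 1, 14, 3, 77⟩, ⟨0, 1, 0, 0, 3, 14, 9, 77⟩, ⟨0, 1, 0, 0, 8, 14, 38, 77⟩, ⟨0, 1, 0, 0, 1, 15, 3, 78⟩, ⟨0, 1, 0, 0, 3, 15, 9, 78⟩, ⟨0, 1, 0, 0, 8, 15, 38, 78⟩, ⟨0, 2, 2, 1, 2, 6, 8, 19⟩, ⟨0, 2, 2, 1, 7, 4, 37, 13⟩, ⟨0, 1, 0, 0, 4, 9, 12, 48⟩, ⟨0, 1, 0, 0, 21, 6, 84, 18⟩, ⟨0, 2, 3, 2, 10, 6, 58, 23⟩, ⟨0, 2, 4, 2, 10, 6, 63, 23⟩, ⟨0, 2, 5, 3, 10, 6, 59, 24⟩, ⟨0, 2, 6, 3, 10, 6, 64, 24⟩, ⟨0, 2, 7, 4, 10, 6, 60, 25⟩,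 ⟨0, 2, 8, 4, 10, 6, 65, 25⟩, ⟨0, 1, 0, 0, 5, 22, 15, 85⟩, ⟨0, 1, 0, 0, 2, 22, 6, 85⟩, ⟨0, 1, 0, 0, 7, 22, 28, 85⟩, ⟨0, 1, 0, 0, 5, 23, 15, 86⟩, ⟨0, 1, 0, 0, 2, 23, 6, 86⟩, ⟨0, 1, 0, 0, 7, 23, 28, 86⟩, ⟨1, 0, 2, 1, 1, 7, 4, 30⟩, ⟨1, 0, 2, 1, 8, 5, 39, 17⟩, ⟨0, 1, 0, 0, 5, 10, 15, 57⟩, ⟨0, 1, 0, 0, 13, 7, 76, 28⟩, ⟨1, 0, 3, 2, 11, 7, 71, 31⟩, ⟨1, 0, 4, 2, 11, 7, 68, 31⟩, ⟨1, 0, 5, 3, 11, 7, 72, 32⟩, ⟨1, 0, 6, 3, 11, 7, 69, 32⟩, ⟨1, 0, 7, 4, 11, 7, 73, 33⟩, ⟨1, 0, 8, 4, 11, 7, 70, 33⟩, ⟨1, 2, 2, 1, 4, 7, 14, 30⟩, ⟨1, 2, 2, 1, 6, 2, 27, 7⟩, ⟨0, 1, 0, 0, 2, 10, 6, 57⟩, ⟨0, 1, 0, 0, 16, 7, 79, 28⟩, ⟨1, 2, 3, 2, 9, 7, 49, 34⟩, ⟨1, 2, 4, 2, 9, 7, 54, 34⟩, ⟨1, 2, 5, 3, 9, 7, 50, 35⟩, ⟨1, 2, 6, 3, 9, 7, 55, 35⟩, ⟨1, 2,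 7, 4, 9, 7, 51, 36⟩, ⟨1, 2, 8, 4, 9, 7, 56, 36⟩, ⟨0, 1, 0, 0, 0, 18, 0, 81⟩, ⟨0, 1, 0, 0, 4, 18, 12, 81⟩, ⟨0, 1, 0, 0, 6, 18, 18, 81⟩, ⟨0, 1, 0, 0, 0, 19, 0, 82⟩, ⟨0, 1, 0, 0, 4, 19, 12, 82⟩, ⟨0, 1, 0, 0, 6, 19, 18, 82⟩, ⟨2, 0, 2, 1, 5, 8, 16, 41⟩, ⟨2, 0, 2, 1, 7, 1, 29, 5⟩, ⟨0, 1, 0, 0, 1, 11, 3, 66⟩, ⟨0, 1, 0, 0, 20, 8, 83, 38⟩, ⟨2, 0, 3, 2, 10, 8, 62, 42⟩, ⟨2, 0, 4, 2, 10, 8, 59, 42⟩, ⟨2, 0, 5, 3, 10, 8, 63, 43⟩, ⟨2, 0, 6, 3, 10, 8, 60, 43⟩, ⟨2, 0, 7, 4, 10, 8, 64, 44⟩, ⟨2, 0, 8, 4, 10, 8, 61, 44⟩, ⟨2, 1, 2, 1, 0, 8, 2, 41⟩, ⟨2, 1, 2, 1, 6, 3, 26, 11⟩, ⟨0, 1, 0, 0, 3, 11, 9, 66⟩, ⟨0, 1, 0, 0, 17, 8, 80, 38⟩, ⟨2, 1, 3, 2, 9, 8, 53, 45⟩, ⟨2, 1, 4, 2, 9, 8, 50, 45⟩, ⟨2, 1, 5, 3, 9, 8, 54, 46⟩, ⟨2, 1, 6, 3, 9,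 8, 51, 46⟩, ⟨2, 1, 7, 4, 9, 8, 55, 47⟩, ⟨2, 1, 8, 4, 9, 8, 52, 47⟩, ⟨0, 1, 0, 0, 6, 9, 18, 48⟩, ⟨0, 1, 0, 0, 7, 10, 28, 57⟩, ⟨0, 1, 0, 0, 8, 11, 38, 66⟩]
  pp := [⟨0, 1, 2, 0, 114⟩, ⟨0, 1, 3, 6, 89⟩, ⟨0, 1, 4, 6, 88⟩, ⟨0, 1, 5, 6, 87⟩, ⟨0, 1, 6, 6, 86⟩, ⟨0, 1, 7, 6, 85⟩, ⟨0, 1, 8, 6, 84⟩, ⟨0, 1, 0, 14, 9⟩, ⟨0, 1, 0, 15, 8⟩, ⟨0, 2, 2, 4, 98⟩, ⟨0, 2, 3, 6, 82⟩, ⟨0, 2, 4, 6, 81⟩, ⟨0, 2, 5, 6, 80⟩, ⟨0, 2, 6, 6, 79⟩, ⟨0, 2, 7, 6, 78⟩, ⟨0, 2, 8, 6, 77⟩, ⟨0, 1, 0, 22, 1⟩, ⟨0, 1, 0, 23, 0⟩, ⟨1, 0, 2, 5, 93⟩, ⟨1, 0, 3, 7, 70⟩, ⟨1, 0, 4, 7, 69⟩, ⟨1, 0, 5, 7, 68⟩, ⟨1, 0, 6, 7, 67⟩, ⟨1, 0, 7, 7, 66⟩, ⟨1, 0, 8, 7, 65⟩, ⟨1, 2, 2, 2, 106⟩, ⟨1, 2, 3, 7, 63⟩, ⟨1, 2, 4, 7, 62⟩, ⟨1, 2, 5, 7, 61⟩, ⟨1, 2, 6, 7, 60⟩, ⟨1, 2, 7, 7,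 59⟩, ⟨1, 2, 8, 7, 58⟩, ⟨0, 1, 0, 18, 5⟩, ⟨0, 1, 0, 19, 4⟩, ⟨2, 0, 2, 1, 109⟩, ⟨2, 0, 3, 8, 51⟩, ⟨2, 0, 4, 8, 50⟩, ⟨2, 0, 5, 8, 49⟩, ⟨2, 0, 6, 8, 48⟩, ⟨2, 0, 7, 8, 47⟩, ⟨2, 0, 8, 8, 46⟩, ⟨2, 1, 2, 3, 101⟩, ⟨2, 1, 3, 8, 44⟩, ⟨2, 1, 4, 8, 43⟩, ⟨2, 1, 5, 8, 42⟩, ⟨2, 1, 6, 8, 41⟩, ⟨2, 1, 7, 8, 40⟩, ⟨2, 1, 8, 8, 39⟩, ⟨0, 1, 1, 0, 115⟩, ⟨1, 2, 1, 2, 107⟩, ⟨2, 0, 1, 1, 110⟩]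
  pn := [⟨0, 1, 0, 0, 116⟩, ⟨0, 1, 0, 4, 100⟩, ⟨0, 1, 0, 5, 96⟩, ⟨0, 1, 0, 2, 108⟩, ⟨0, 1, 0, 1, 112⟩, ⟨0, 1, 0, 3, 104⟩, ⟨0, 1, 0, 6, 92⟩, ⟨0, 1, 0, 7, 74⟩, ⟨0, 1, 0, 8, 56⟩]
  st := [(0, 0), (4, 0), (6, 0), (5, 1), (2, 1), (7, 1), (1, 2), (3, 2), (8, 2)]
  sk _ := []
  sf := []
  vd d := fun i j => match i, j with
    | 0, 1 => .sym false (d.f.getD 0 (.cst 0 0)) 3 12 14 15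
    | 0, 2 => .sym true (d.f.getD 2 (.cst 0 0)) 3 21 22 23
    | 1, 0 => .sym true (d.f.getD 0 (.cst 0 0)) 3 13 14 15
    | 1, 2 => .sym false (d.f.getD 1 (.cst 0 0)) 3 16 18 19
    | 2, 0 => .sym false (d.f.getD 2 (.cst 0 0)) 3 20 22 23
    | 2, 1 => .sym true (d.f.getD 1 (.cst 0 0)) 3 17 18 19
    | _, _ => .small 0 0
  vx := fun i j => match i, j with
    | 0, 1 => .big 9 12 14 15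
    | 0, 2 => .big 9 21 23 22
    | 1, 0 => .big 9 13 15 14
    | 1, 2 => .big 9 16 18 19
    | 2, 0 => .big 9 20 22 23
    | 2, 1 => .big 9 17 19 18
    | _, _ => .small 0 0
  lb := fun _ _ => 0

/-- The template `TXD`. -/
def TXD : TmL where
  T := TXDt
  bk d := [.ch 0 1 2 0 1 2 (d.e.getD 0 (.cst 0 0)) (d.e.getD 1 (.cst 0 0)) (d.e.getD 2 (.cst 0 0)) (d.e.getD 3 (.cst 0 0)) (d.e.getD 4 (.cst 0 0)), .ch 2 1 0 3 4 5 (d.e.getD 5 (.cst 0 0)) (d.e.getD 6 (.cst 0 0)) (d.e.getD 7 (.cst 0 0)) (d.e.getD 8 (.cst 0 0)) (d.e.getD 9 (.cst 0 0))]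
  bf := [⟨0, 1, 2, some 1, 0⟩, ⟨2, 0, 2, some 2, 1⟩, ⟨1, 2, 2, some 0, 2⟩, ⟨2, 1, 2, some 4, 3⟩, ⟨0, 2, 2, some 5, 4⟩, ⟨1, 0, 2, some 3, 5⟩]

theorem TXD_ok (K : ℕ → ℕ → ℕ → Prop) : TXD.OK K where
  ok := by decide +kernel
  stt := by decide +kernel
  vx d i j := by fin_cases i <;> fin_cases j <;> rfl
  vd d i j hij := by
    fin_cases i <;> fin_cases j <;> first | exact absurd rfl hij | exact ⟨rfl, rfl, rfl⟩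
  sf d := rfl
  sk d s hs := absurd hs List.not_mem_nil
  bk d s hs := by
    rcases List.mem_cons.1 hs with rfl | hs
    · exact ⟨by decide, by decide, by decide, rfl, rfl, rfl⟩
    rcases List.mem_cons.1 hs with rfl | hs
    · exact ⟨by decide, by decide, by decide, rfl, rfl, rfl⟩
    · exact absurd hs List.not_mem_nil
  bf d := rfl
  cl d p q r hp hq hr hK i j hij := by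
    refine ⟨Nat.zero_le _, fun m E h => ?_⟩
    fin_cases i <;> fin_cases j <;> first | exact absurd rfl hij | exact VD.noConfusion h

end Pool.Agent.Work.MP_88b7aa_gt.Kc
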