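import Pool.Agent.Work.MP_88b7aa_gt.Kc.T2
import Pool.Agent.Work.MP_88b7aa_gt.PQ.Prog

/-!
# The packed arithmetic as an instance of `Arp` (definitions)

`mulA` is the product with a shortcut for zero and automatic rounding; `AK k` is the arithmetic with `k` active variables.
-/

set_option autoImplicit false

namespace Pool.Agent.Work.MP_88b7aa_gt.Kc

open Pool.Agent.Work.MP_88b7aa_gt.PQ

/-- all norms are zero -/
def P2.isz (x : P2) : Bool := Nat.beq (Nat.add (Nat.add x.n0 x.n1) (Nat.add x.n2 x.r)) (nat_lit 0)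

/-- round to the scale 64 if the scale is larger than 120 -/
noncomputable def rndA (x : P2) : P2 := cond (Nat.ble x.e (nat_lit 120)) x (P2.rnd (Nat.sub x.e (nat_lit 64)) x)

/-- the product used by the engine -/
noncomputable def mulA (x y : P2) : P2 := cond (P2.isz x) P2.zero (cond (P2.isz y) P2.zero (rndA (P2.mul x y)))

/-- the constant `± m / 2^e` -/
def csm (sg : Bool) (m e : Nat) : P2 := P2.cst (cond sg m (Nat.sub MM (Nat.mod m MM))) m e

/-- the constant `± n / 2^30`, with a smaller scale if possible -/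
def csn (sg : Bool) (n : Nat) : P2 :=
  cond (Nat.beq (Nat.mod n (nat_lit 262144)) (nat_lit 0))
    (cond (Nat.beq (Nat.mod n (nat_lit 1073741824)) (nat_lit 0)) (csm sg (Nat.div n (nat_lit 1073741824)) (nat_lit 0))
      (csm sg (Nat.div n (nat_lit 262144)) (nat_lit 12)))
    (cond (Nat.beq (Nat.mod n (nat_lit 1024)) (nat_lit 0)) (csm sg (Nat.div n (nat_lit 1024)) (nat_lit 20)) (csm sg n (nat_lit 30)))

/-- the constant `z / 2^30` -/
noncomputable def cstI (z : Int) : P2 := Int.rec (motive := fun _ => P2) (fun n => csn true n) (fun n => csn false (Nat.succ n)) z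

/-- exact norms, and the scale at most 64 (nothing happens for a scale at most 40) -/
noncomputable def nrmA (x : P2) : P2 := cond (Nat.ble x.e (nat_lit 40)) x (P2.rnd (Nat.sub x.e (nat_lit 64)) x)

/-- The dictionary. -/
noncomputable def OP : Ops P2 := ⟨P2.add, P2.sub, P2.neg, mulA, cstI, nrmA⟩

/-- `2^20799` -/
def Mh : Nat := Nat.pow (nat_lit 2) (nat_lit 20799)

/-- the constant term dominates -/
def posB (X : P2) : Bool :=
  and (Nat.ble X.v X.n0) (and (Nat.ble X.n0 (Nat.sub Mh (nat_lit 1))) (Nat.ble (Nat.add (Nat.add (Nat.add X.n1 X.n2) X.r) (nat_lit 1)) X.v))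

/-- the positivity test: directly, or after rounding to the scale 40 (exact norms) -/
noncomputable def posA (X : P2) : Bool := cond (posB X) true (posB (P2.rnd (Nat.sub X.e (nat_lit 40)) X))

/-- change of the container -/
def toH2 (Q : H9 P2) : H2 := ⟨Q.d0, Q.d1, Q.d2, ⟨Q.e01.re, Q.e01.im⟩, ⟨Q.e02.re, Q.e02.im⟩, ⟨Q.e12.re, Q.e12.im⟩⟩

noncomputable def P2.ekA {α : Type} (x : P2) (k : P2 → α) : α :=
  ev x.v fun v => ev x.g fun g => ev x.h fun h => ev x.n0 fun n0 => ev x.n1 fun n1 => ev x.n2 fun n2 => ev x.r fun r =>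
    ev x.e fun e => k ⟨v, g, h, n0, n1, n2, r, e⟩

noncomputable def HP.ekA {α : Type} (x : HP) (k : HP → α) : α :=
  ev x.v fun v => ev x.g fun g => ev x.h fun h => ev x.n0 fun n0 => ev x.n1 fun n1 => ev x.n2 fun n2 => ev x.r fun r =>
    ev x.e fun e => ev x.t fun t => k ⟨v, g, h, n0, n1, n2, r, e, t⟩

noncomputable def cxK {α : Type} (z : Cx P2) (k : Cx P2 → α) : α := P2.ekA z.re fun x => P2.ekA z.im fun y => k ⟨x, y⟩

/-- forcing of a Hermitian matrix -/
noncomputable def fHA (M : H9 P2) (k : H9 P2 → Bool) : Bool :=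
  P2.ekA M.d0 fun d0 => P2.ekA M.d1 fun d1 => P2.ekA M.d2 fun d2 => cxK M.e01 fun a => cxK M.e02 fun b => cxK M.e12 fun c =>
    k ⟨d0, d1, d2, a, b, c⟩

/-- The test: `t - l x + m g` is semidefinite for `k` active variables. -/
noncomputable def tstA (k : Nat) (t x g : HP) (l m : P2) : Bool :=
  P2.ekA (P2.neg l) fun l => P2.ekA m fun m =>
  HP.ekA (HP.add (HP.add t (HP.mul l x)) (HP.mul m g)) fun M => tst k M

/-- The packed arithmetic with `k` active variables. -/
noncomputable def AK (k : Nat) : Arp P2 HP := ⟨OP, posA, fun Q => HP.ofH (toH2 Q), tstA k, fHA, HP.ekA⟩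

/-- `n ∓ ..`: the linear model `(v + ∑ a_i x_i ± r) / 2^e`; the coefficients are residues, `na_i` their absolute values -/
def linA (v nv a1 a2 a3 a4 n1 r e : Nat) : P2 :=
  ⟨v, Nat.mod (Nat.add (Nat.add a1 (Nat.shiftLeft a2 (nat_lit 1600))) (Nat.add (Nat.shiftLeft a3 (nat_lit 6400)) (Nat.shiftLeft a4 (nat_lit 9600)))) MM,
    nat_lit 0, nv, n1, nat_lit 0, r, e⟩

end Pool.Agent.Work.MP_88b7aa_gt.Kc
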