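import Mathlib

/-!
# Packed digits and bit operations

`dgs w d n = ∑_{i<n} d i * (2^w)^i`.  Bitwise `and`, `xor` act digit by digit; the sum of the digits is obtained modulo `2^w - 1`.
-/

set_option autoImplicit false

namespace Pool.Agent.Work.MP_88b7aa_gt.Kc

/-- a number with the digits `d i` in base `2^w` -/
def dgs (w : ℕ) (d : ℕ → ℕ) (n : ℕ) : ℕ := ∑ i ∈ Finset.range n, d i * (2 ^ w) ^ i

theorem dgs_succ (w : ℕ) (d : ℕ → ℕ) (n : ℕ) : dgs w d (n + 1) = dgs w d n + d n * 2 ^ (w * n) := by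
  unfold dgs
  rw [Finset.sum_range_succ, ← pow_mul]

theorem dgs_lt {w : ℕ} {d : ℕ → ℕ} (hd : ∀ i, d i < 2 ^ w) (n : ℕ) : dgs w d n < 2 ^ (w * n) := by
  induction n with
  | zero => simp [dgs]
  | succ n ih =>
    rw [dgs_succ]
    have h1 := hd n
    calc dgs w d n + d n * 2 ^ (w * n) < 2 ^ (w * n) + d n * 2 ^ (w * n) := by omega
      _ = (d n + 1) * 2 ^ (w * n) := by ring
      _ ≤ 2 ^ w * 2 ^ (w * n) := Nat.mul_le_mul_right _ h1
      _ = 2 ^ (w * (n + 1)) := by rw [← pow_add]; ring_nf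

theorem and_top {m x y a b : ℕ} (hx : x < 2 ^ m) (hy : y < 2 ^ m) :
    (x + a * 2 ^ m) &&& (y + b * 2 ^ m) = (x &&& y) + (a &&& b) * 2 ^ m := by
  have hp : 0 < 2 ^ m := by positivity
  have h1 : ((x + a * 2 ^ m) &&& (y + b * 2 ^ m)) % 2 ^ m = (x + a * 2 ^ m) % 2 ^ m &&& (y + b * 2 ^ m) % 2 ^ m :=
    Nat.and_mod_two_pow
  have h2 : ((x + a * 2 ^ m) &&& (y + b * 2 ^ m)) / 2 ^ m = (x + a * 2 ^ m) / 2 ^ m &&& (y + b * 2 ^ m) / 2 ^ m :=
    Nat.and_div_two_pow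
  rw [Nat.add_mul_mod_self_right, Nat.add_mul_mod_self_right, Nat.mod_eq_of_lt hx, Nat.mod_eq_of_lt hy] at h1
  rw [Nat.add_mul_div_right _ _ hp, Nat.add_mul_div_right _ _ hp, Nat.div_eq_of_lt hx, Nat.div_eq_of_lt hy, zero_add,
    zero_add] at h2
  have h3 := Nat.mod_add_div ((x + a * 2 ^ m) &&& (y + b * 2 ^ m)) (2 ^ m)
  rw [h1, h2] at h3
  rw [← h3]
  ring

theorem xor_top {m x y a b : ℕ} (hx : x < 2 ^ m) (hy : y < 2 ^ m) :
    (x + a * 2 ^ m) ^^^ (y + b * 2 ^ m) = (x ^^^ y) + (a ^^^ b) * 2 ^ m := by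
  have hp : 0 < 2 ^ m := by positivity
  have h1 : ((x + a * 2 ^ m) ^^^ (y + b * 2 ^ m)) % 2 ^ m = (x + a * 2 ^ m) % 2 ^ m ^^^ (y + b * 2 ^ m) % 2 ^ m :=
    Nat.xor_mod_two_pow
  have h2 : ((x + a * 2 ^ m) ^^^ (y + b * 2 ^ m)) / 2 ^ m = (x + a * 2 ^ m) / 2 ^ m ^^^ (y + b * 2 ^ m) / 2 ^ m :=
    Nat.xor_div_two_pow
  rw [Nat.add_mul_mod_self_right, Nat.add_mul_mod_self_right, Nat.mod_eq_of_lt hx, Nat.mod_eq_of_lt hy] at h1
  rw [Nat.add_mul_div_right _ _ hp, Nat.add_mul_div_right _ _ hp, Nat.div_eq_of_lt hx, Nat.div_eq_of_lt hy, zero_add,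
    zero_add] at h2
  have h3 := Nat.mod_add_div ((x + a * 2 ^ m) ^^^ (y + b * 2 ^ m)) (2 ^ m)
  rw [h1, h2] at h3
  rw [← h3]
  ring

theorem dgs_and {w : ℕ} {d e : ℕ → ℕ} (hd : ∀ i, d i < 2 ^ w) (he : ∀ i, e i < 2 ^ w) (n : ℕ) :
    dgs w d n &&& dgs w e n = dgs w (fun i => d i &&& e i) n := by
  induction n with
  | zero => simp [dgs]
  | succ n ih => rw [dgs_succ, dgs_succ, dgs_succ, and_top (dgs_lt hd n) (dgs_lt he n), ih]

theorem dgs_xor {w : ℕ} {d e : ℕ → ℕ} (hd : ∀ i, d i < 2 ^ w) (he : ∀ i, e i < 2 ^ w) (n : ℕ) :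
    dgs w d n ^^^ dgs w e n = dgs w (fun i => d i ^^^ e i) n := by
  induction n with
  | zero => simp [dgs]
  | succ n ih => rw [dgs_succ, dgs_succ, dgs_succ, xor_top (dgs_lt hd n) (dgs_lt he n), ih]

/-- Every number is the sum of its digits. -/
theorem dgs_self (w n : ℕ) : ∀ N, N < 2 ^ (w * n) → dgs w (fun i => N / (2 ^ w) ^ i % 2 ^ w) n = N := by
  induction n with
  | zero =>
    intro N hN
    have : N = 0 := by simpa using hN
    simp [dgs, this]
  | succ n ih =>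
    intro N hN
    have hp : 0 < 2 ^ w := by positivity
    unfold dgs
    rw [Finset.sum_range_succ']
    have h1 : N / 2 ^ w < 2 ^ (w * n) := by
      rw [Nat.div_lt_iff_lt_mul hp, ← pow_add]
      have : w * (n + 1) = w * n + w := by ring
      rwa [← this]
    have h2 := ih (N / 2 ^ w) h1
    unfold dgs at h2
    have h3 : ∑ i ∈ Finset.range n, N / (2 ^ w) ^ (i + 1) % 2 ^ w * (2 ^ w) ^ (i + 1) =
        2 ^ w * ∑ i ∈ Finset.range n, N / 2 ^ w / (2 ^ w) ^ i % 2 ^ w * (2 ^ w) ^ i := by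
      rw [Finset.mul_sum]
      refine Finset.sum_congr rfl fun i _ => ?_
      rw [Nat.div_div_eq_div_mul, ← pow_succ' (2 ^ w) i]
      ring
    rw [h3, h2]
    beta_reduce
    rw [pow_zero, Nat.div_one, mul_one]
    exact Nat.div_add_mod N (2 ^ w)

theorem dgs_digit {w : ℕ} {d : ℕ → ℕ} (hd : ∀ i, d i < 2 ^ w) (n : ℕ) : ∀ i, i < n → dgs w d n / (2 ^ w) ^ i % 2 ^ w = d i := by
  induction n with
  | zero => intro i hi; omega
  | succ n ih =>
    intro i hi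
    rw [dgs_succ]
    rcases Nat.lt_or_ge i n with h | h
    · have e1 : d n * 2 ^ (w * n) = d n * 2 ^ (w * (n - i - 1)) * 2 ^ w * (2 ^ w) ^ i := by
        rw [mul_assoc, mul_assoc, ← pow_mul, ← pow_add, ← pow_add]
        congr 2
        have h4 : n = (n - i - 1) + 1 + i := by omega
        conv_lhs => rw [h4]
        ring
      rw [e1, Nat.add_mul_div_right _ _ (by positivity), Nat.add_mul_mod_self_right]
      exact ih i h
    · have h5 : i = n := by omega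
      subst h5
      rw [← pow_mul, Nat.add_mul_div_right _ _ (by positivity), Nat.div_eq_of_lt (dgs_lt hd i), zero_add]
      exact Nat.mod_eq_of_lt (hd i)

theorem shift_digit (w N j t i : ℕ) (h : j + t ≤ w) :
    (N / 2 ^ j) / (2 ^ w) ^ i % 2 ^ w % 2 ^ t = (N / (2 ^ w) ^ i % 2 ^ w) / 2 ^ j % 2 ^ t := by
  have e1 : N / 2 ^ j / (2 ^ w) ^ i = N / (2 ^ w) ^ i / 2 ^ j := by
    rw [Nat.div_div_eq_div_mul, Nat.div_div_eq_div_mul, mul_comm]
  rw [e1]
  set M := N / (2 ^ w) ^ i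
  have e2 : 2 ^ w = 2 ^ j * 2 ^ (w - j) := by
    rw [← pow_add]
    congr 1
    omega
  have e3 : M % 2 ^ w / 2 ^ j = M / 2 ^ j % 2 ^ (w - j) := by
    rw [e2]
    exact Nat.mod_mul_right_div_self M (2 ^ j) (2 ^ (w - j))
  rw [e3, Nat.mod_mod_of_dvd _ (pow_dvd_pow 2 (by omega)), Nat.mod_mod_of_dvd _ (pow_dvd_pow 2 (by omega))]

/-- Shift and mask. -/
theorem dgs_mask {w : ℕ} {u e : ℕ → ℕ} (hu : ∀ i, u i < 2 ^ w) (he : ∀ i, e i ≤ 1) {j t : ℕ} (h : j + t ≤ w) (n : ℕ) :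
    (dgs w u n / 2 ^ j) &&& (dgs w e n * (2 ^ t - 1)) = dgs w (fun i => e i * (u i / 2 ^ j % 2 ^ t)) n := by
  have hw : 2 ^ t - 1 < 2 ^ w := by
    have h1 : 2 ^ t ≤ 2 ^ w := Nat.pow_le_pow_right (by norm_num) (by omega)
    have h2 : 0 < 2 ^ t := by positivity
    omega
  have e1 : dgs w e n * (2 ^ t - 1) = dgs w (fun i => e i * (2 ^ t - 1)) n := by
    unfold dgs
    rw [Finset.sum_mul]
    exact Finset.sum_congr rfl fun i _ => by ring
  have hN : dgs w u n / 2 ^ j < 2 ^ (w * n) := (Nat.div_le_self _ _).trans_lt (dgs_lt hu n)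
  have hem : ∀ i, e i * (2 ^ t - 1) < 2 ^ w := by
    intro i
    have := he i
    have : e i * (2 ^ t - 1) ≤ 1 * (2 ^ t - 1) := Nat.mul_le_mul_right _ this
    omega
  rw [e1, ← dgs_self w n _ hN, dgs_and (fun i => Nat.mod_lt _ (by positivity)) hem]
  unfold dgs
  refine Finset.sum_congr rfl fun i hi => ?_
  rw [Finset.mem_range] at hi
  congr 1
  beta_reduce
  have h3 := dgs_digit hu n i hi
  unfold dgs at h3
  rcases Nat.le_one_iff_eq_zero_or_eq_one.mp (he i) with h0 | h1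
  · rw [h0]
    simp
  · rw [h1, one_mul, one_mul, Nat.and_two_pow_sub_one_eq_mod, shift_digit w _ j t i h, h3]

theorem xor_low {m x : ℕ} (hx : x < 2 ^ m) : x ^^^ (2 ^ m - 1) = 2 ^ m - 1 - x := by
  have e : 2 ^ m - 1 - x = 2 ^ m - (x + 1) := by omega
  rw [e]
  refine Nat.eq_of_testBit_eq fun i => ?_
  rw [Nat.testBit_xor, Nat.testBit_two_pow_sub_one, Nat.testBit_two_pow_sub_succ hx]
  by_cases hi : i < m
  · simp [hi]
  · have h1 : x.testBit i = false := Nat.testBit_lt_two_pow (hx.trans_le (Nat.pow_le_pow_right (by norm_num) (by omega)))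
    simp [hi, h1]

theorem xor_high {m x : ℕ} (hx : x < 2 ^ m) : (x + 2 ^ m) ^^^ 2 ^ m = x := by
  have h := xor_top (m := m) (x := x) (y := 0) (a := 1) (b := 1) hx (by positivity)
  simpa using h

/-- The absolute difference of one digit. -/
theorem xor_abs {m u : ℕ} (hu : u < 2 ^ (m + 1)) :
    (u ^^^ (2 ^ m - 1 + u / 2 ^ m)) + (1 - u / 2 ^ m) = (u - 2 ^ m) + (2 ^ m - u) := by
  have hp : 0 < 2 ^ m := by positivity
  have h2 : 2 ^ (m + 1) = 2 * 2 ^ m := by ring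
  rcases Nat.lt_or_ge u (2 ^ m) with h | h
  · rw [Nat.div_eq_of_lt h, add_zero, xor_low h]
    omega
  · have h3 : u / 2 ^ m = 1 := by
      rw [Nat.div_eq_iff hp]
      omega
    rw [h3]
    have h4 : 2 ^ m - 1 + 1 = 2 ^ m := by omega
    obtain ⟨x, rfl⟩ : ∃ x, u = x + 2 ^ m := ⟨u - 2 ^ m, by omega⟩
    rw [h4, xor_high (by omega)]
    omega

theorem dgs_mod (w : ℕ) (d : ℕ → ℕ) (n : ℕ) : dgs w d n ≡ ∑ i ∈ Finset.range n, d i [MOD 2 ^ w - 1] := by
  have hB : 2 ^ w ≡ 1 [MOD 2 ^ w - 1] := by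
    have h1 : 0 < 2 ^ w := by positivity
    have h2 : 2 ^ w = 1 + (2 ^ w - 1) := by omega
    conv_lhs => rw [h2]
    exact Nat.ModEq.trans (Nat.ModEq.refl 1 |>.add (Nat.modEq_zero_iff_dvd.mpr dvd_rfl)) (by rw [add_zero])
  induction n with
  | zero => simp [dgs]; rfl
  | succ n ih =>
    rw [dgs_succ, Finset.sum_range_succ]
    refine ih.add ?_
    rw [pow_mul]
    have h3 := (hB.pow n).mul_left (d n)
    rwa [one_pow, mul_one] at h3

/-- The sum of the absolute values of the digits. -/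
theorem dgs_norm {w m n : ℕ} {u e : ℕ → ℕ} (hm : m + 1 ≤ w) (hu : ∀ i, u i < 2 ^ (m + 1)) (he : ∀ i, e i ≤ 1)
    (hs : ∑ i ∈ Finset.range n, e i * ((u i - 2 ^ m) + (2 ^ m - u i)) < 2 ^ w - 1) :
    ((dgs w (fun i => e i * u i) n ^^^ (2 ^ m * dgs w e n - dgs w e n + dgs w (fun i => e i * (u i / 2 ^ m)) n)) +
      (dgs w e n - dgs w (fun i => e i * (u i / 2 ^ m)) n)) % (2 ^ w - 1) =
      ∑ i ∈ Finset.range n, e i * ((u i - 2 ^ m) + (2 ^ m - u i)) := by
  have hp : 0 < 2 ^ m := by positivity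
  have h2 : 2 ^ (m + 1) = 2 * 2 ^ m := by ring
  have hw : 2 ^ (m + 1) ≤ 2 ^ w := Nat.pow_le_pow_right (by norm_num) hm
  have hs1 : ∀ i, u i / 2 ^ m ≤ 1 := by
    intro i
    rw [Nat.div_le_iff_le_mul_add_pred hp]
    have := hu i
    omega
  have e1 : 2 ^ m * dgs w e n - dgs w e n + dgs w (fun i => e i * (u i / 2 ^ m)) n =
      dgs w (fun i => e i * (2 ^ m - 1 + u i / 2 ^ m)) n := by
    have : 2 ^ m * dgs w e n - dgs w e n = (2 ^ m - 1) * dgs w e n := by rw [Nat.sub_mul, one_mul]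
    rw [this]
    unfold dgs
    rw [Finset.mul_sum, ← Finset.sum_add_distrib]
    exact Finset.sum_congr rfl fun i _ => by ring
  have hE : ∀ i, e i = 0 ∨ e i = 1 := fun i => Nat.le_one_iff_eq_zero_or_eq_one.mp (he i)
  have b1 : ∀ i, e i * u i < 2 ^ w := by
    intro i
    rcases hE i with h | h
    · rw [h]; simp
    · rw [h, one_mul]; exact (hu i).trans_le hw
  have b2 : ∀ i, e i * (2 ^ m - 1 + u i / 2 ^ m) < 2 ^ w := by
    intro i
    have := hs1 i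
    rcases hE i with h | h
    · rw [h]; simp
    · rw [h, one_mul]; omega
  rw [e1, dgs_xor b1 b2]
  have e2 : dgs w e n - dgs w (fun i => e i * (u i / 2 ^ m)) n = dgs w (fun i => e i * (1 - u i / 2 ^ m)) n := by
    have h3 : dgs w e n = dgs w (fun i => e i * (u i / 2 ^ m)) n + dgs w (fun i => e i * (1 - u i / 2 ^ m)) n := by
      unfold dgs
      rw [← Finset.sum_add_distrib]
      refine Finset.sum_congr rfl fun i _ => ?_
      have h4 : u i / 2 ^ m + (1 - u i / 2 ^ m) = 1 := by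
        have := hs1 i
        omega
      calc e i * (2 ^ w) ^ i = e i * (u i / 2 ^ m + (1 - u i / 2 ^ m)) * (2 ^ w) ^ i := by rw [h4, mul_one]
        _ = _ := by ring
    omega
  rw [e2]
  have e3 : dgs w (fun i => e i * u i ^^^ e i * (2 ^ m - 1 + u i / 2 ^ m)) n + dgs w (fun i => e i * (1 - u i / 2 ^ m)) n =
      dgs w (fun i => e i * ((u i - 2 ^ m) + (2 ^ m - u i))) n := by
    unfold dgs
    rw [← Finset.sum_add_distrib]
    refine Finset.sum_congr rfl fun i _ => ?_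
    beta_reduce
    rcases hE i with h | h
    · rw [h]; simp
    · rw [h]
      simp only [one_mul]
      rw [← xor_abs (hu i)]
      ring
  rw [e3]
  have h5 := dgs_mod w (fun i => e i * ((u i - 2 ^ m) + (2 ^ m - u i))) n
  exact Nat.ModEq.trans (Nat.ModEq.refl _) h5 |>.trans (by rfl) |> fun h => by
    have h6 : dgs w (fun i => e i * ((u i - 2 ^ m) + (2 ^ m - u i))) n % (2 ^ w - 1) =
      (∑ i ∈ Finset.range n, e i * ((u i - 2 ^ m) + (2 ^ m - u i))) % (2 ^ w - 1) := h5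
    rw [h6]
    exact Nat.mod_eq_of_lt hs

/-- Packed floor. -/
theorem pk_floor {w k n : ℕ} {u e : ℕ → ℕ} (hk : k ≤ w) (hu : ∀ i, u i < 2 ^ w) (he : ∀ i, e i ≤ 1) :
    (dgs w u n / 2 ^ k) &&& (dgs w e n * (2 ^ (w - k) - 1)) = dgs w (fun i => e i * (u i / 2 ^ k)) n := by
  rw [dgs_mask hu he (by omega : k + (w - k) ≤ w)]
  unfold dgs
  refine Finset.sum_congr rfl fun i _ => ?_
  beta_reduce
  congr 2
  refine Nat.mod_eq_of_lt ?_
  rw [Nat.div_lt_iff_lt_mul (by positivity), ← pow_add]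
  have : w - k + k = w := by omega
  rw [this]
  exact hu i

/-- Packed norm. -/
theorem pk_norm {w m n : ℕ} {u e : ℕ → ℕ} (hm : m + 1 ≤ w) (hu : ∀ i, u i < 2 ^ (m + 1)) (he : ∀ i, e i ≤ 1)
    (hs : ∑ i ∈ Finset.range n, e i * ((u i - 2 ^ m) + (2 ^ m - u i)) < 2 ^ w - 1) {N S : ℕ}
    (hN : N = dgs w (fun i => e i * u i) n) (hS : S = (N / 2 ^ m) &&& dgs w e n) :
    ((N ^^^ (2 ^ m * dgs w e n - dgs w e n + S)) + (dgs w e n - S)) % (2 ^ w - 1) =
      ∑ i ∈ Finset.range n, e i * ((u i - 2 ^ m) + (2 ^ m - u i)) := by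
  have hw : 2 ^ (m + 1) ≤ 2 ^ w := Nat.pow_le_pow_right (by norm_num) hm
  have hp : 0 < 2 ^ m := by positivity
  have h2 : 2 ^ (m + 1) = 2 * 2 ^ m := by ring
  have hE : ∀ i, e i = 0 ∨ e i = 1 := fun i => Nat.le_one_iff_eq_zero_or_eq_one.mp (he i)
  have b1 : ∀ i, e i * u i < 2 ^ w := by
    intro i
    rcases hE i with h | h
    · rw [h]; simp
    · rw [h, one_mul]; exact (hu i).trans_le hw
  have e1 : S = dgs w (fun i => e i * (u i / 2 ^ m)) n := by
    have h3 := dgs_mask (w := w) (u := fun i => e i * u i) (e := e) b1 he (j := m) (t := 1) hm n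
    rw [hS, hN]
    have h4 : dgs w e n * (2 ^ 1 - 1) = dgs w e n := by norm_num
    rw [h4] at h3
    rw [h3]
    unfold dgs
    refine Finset.sum_congr rfl fun i _ => ?_
    beta_reduce
    congr 1
    rcases hE i with h | h
    · rw [h]; simp
    · rw [h, one_mul, one_mul, one_mul]
      refine Nat.mod_eq_of_lt ?_
      rw [Nat.div_lt_iff_lt_mul hp, pow_one, ← h2]
      exact hu i
  rw [e1, hN]
  exact dgs_norm hm hu he hs

end Pool.Agent.Work.MP_88b7aa_gt.Kc
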