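import Pool.Agent.Work.MP_88b7aa_gt.PQ.Out

/-!
# Stacks of slabs without the top

`CGood` of the part above the last slab gives `CGood` of the whole column; halving of a column.
-/

namespace Pool.Agent.Work.MP_88b7aa_gt.Kc

open Pool.Agent.Work.MP_88b7aa_gt.CH
open Pool.Agent.Work.MP_88b7aa_gt.PQ
open ComplexConjugate Complex Matrix

private theorem abs_mul_le {a : Int} {y : ℝ} (hy : |y| ≤ 1) : |(a : ℝ) * y| ≤ ((|a| : Int) : ℝ) := by
  rw [abs_mul]
  push_cast
  nlinarith [abs_nonneg (a : ℝ)]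

/-- One slab. -/
theorem CGood.cons {K : ℕ → ℕ → ℕ → Prop} {k : ℕ} (hk : 0 < k) {A B C : Lin} (hA : A.a1 = 0) (hB : B.a1 = 0) (hC : C.a1 = 0)
    {L P : Lin} (h1 : L.bot P = true) (hG : Good K k ⟨A, B, C, L⟩) (hI : CGood K k A B C L.top) : CGood K k A B C P := by
  unfold Lin.bot at h1
  simp only [Bool.and_eq_true, decide_eq_true_eq] at h1
  obtain ⟨hpos, hP0, hbot⟩ := h1
  intro p q r hp hpq hqr hr hK x hx ha hb hc θ n hθ hθπ hT hfA hfB
  have hposR : (0 : ℝ) < L.a1 := by exact_mod_cast hpos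
  set y : ℝ := (θ / 6 * 281474976710656 - (L.v + L.a2 * x 1 + L.a3 * x 2 + L.a4 * x 3)) / L.a1 with hy
  have hy' : L.a1 * y = θ / 6 * 281474976710656 - (L.v + L.a2 * x 1 + L.a3 * x 2 + L.a4 * x 3) := by
    rw [hy]
    field_simp
  rcases le_total y 1 with h1' | h1'
  · have hlow : -1 ≤ y := by
      have e1 := abs_mul_le (a := L.a2 - P.a2) (hx.le 1)
      have e2 := abs_mul_le (a := L.a3 - P.a3) (hx.le 2)
      have e3 := abs_mul_le (a := L.a4 - P.a4) (hx.le 3)
      have e4 : ((L.v - L.a1 - P.v + |L.a2 - P.a2| + |L.a3 - P.a3| + |L.a4 - P.a4| : Int) : ℝ) ≤ 0 := by exact_mod_cast hbot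
      have e5 : P.val x ≤ θ / 6 * 281474976710656 := by
        have := hθ
        rw [div_le_iff₀ (by norm_num)] at this
        exact this
      unfold Lin.val at e5
      rw [hP0] at e5
      rw [abs_le] at e1 e2 e3
      push_cast at e1 e2 e3 e4 e5
      have e6 : (L.a1 : ℝ) * (-1) ≤ L.a1 * y := by
        rw [hy']
        nlinarith [e1.2, e2.2, e3.2]
      exact le_of_mul_le_mul_left e6 hposR
    have hyy : |y| ≤ 1 := abs_le.mpr ⟨hlow, h1'⟩
    refine hG p q r hp hpq hqr hr hK θ n (Function.update x 0 y) (cub_update hk hx hyy)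
      ⟨Lin.holds_update hA ha y, Lin.holds_update hB hb y, Lin.holds_update hC hc y, ?_⟩ hT hfA hfB
    show |θ / 6 * 281474976710656 - L.val (Function.update x 0 y)| ≤ L.r
    have : θ / 6 * 281474976710656 - L.val (Function.update x 0 y) = 0 := by
      unfold Lin.val
      rw [Function.update_self, Function.update_of_ne (show (1 : Fin 4) ≠ 0 by decide),
        Function.update_of_ne (show (2 : Fin 4) ≠ 0 by decide), Function.update_of_ne (show (3 : Fin 4) ≠ 0 by decide), hy']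
      ring
    rw [this, abs_zero]
    positivity
  · refine hI p q r hp hpq hqr hr hK x hx ha hb hc θ n ?_ hθπ hT hfA hfB
    rw [div_le_iff₀ (by norm_num)]
    show ((L.v + L.a1 : Int) : ℝ) + ((0 : Int) : ℝ) * x 0 + L.a2 * x 1 + L.a3 * x 2 + L.a4 * x 3 ≤ _
    have : (L.a1 : ℝ) * 1 ≤ L.a1 * y := mul_le_mul_of_nonneg_left h1' hposR.le
    rw [hy'] at this
    push_cast
    linarith

/-- A stack of slabs. -/
def slb {D : Type} (k : ℕ) (f : Bx4 → D → Bool) (A B C : Lin) : Lin → List (Lin × Tr D) → Bool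
  | _, [] => true
  | P, (L, S) :: l => L.bot P && (S.chk k f ⟨A, B, C, L⟩ && slb k f A B C L.top l)

/-- The top of the last slab. -/
def slt {D : Type} : Lin → List (Lin × Tr D) → Lin
  | P, [] => P
  | _, (L, _) :: l => slt L.top l

theorem slb_good {D : Type} {K : ℕ → ℕ → ℕ → Prop} {k : ℕ} (hk : 0 < k) {f : Bx4 → D → Bool}
    (hf : ∀ B d, f B d = true → Good K k B) {A B C : Lin} (hA : A.a1 = 0) (hB : B.a1 = 0) (hC : C.a1 = 0) (l : List (Lin × Tr D)) :
    ∀ P : Lin, slb k f A B C P l = true → CGood K k A B C (slt P l) → CGood K k A B C P := by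
  induction l with
  | nil => intro P _ h; exact h
  | cons y l ih =>
    obtain ⟨L, S⟩ := y
    intro P h h2
    unfold slb at h
    simp only [Bool.and_eq_true] at h
    exact CGood.cons hk hA hB hC h.1 (Tr.good hf S _ h.2.1) (ih _ h.2.2 h2)

/-- Halving of a column. -/
theorem CGood.node {K : ℕ → ℕ → ℕ → Prop} {k : ℕ} {A B C : Lin} (j : Fin 4) (hj : (j : ℕ) < k)
    (g0 : CGood K k (A.half j false) (B.half j false) (C.half j false) ⟨0, 0, 0, 0, 0, 0⟩)
    (g1 : CGood K k (A.half j true) (B.half j true) (C.half j true) ⟨0, 0, 0, 0, 0, 0⟩) : CGood K k A B C ⟨0, 0, 0, 0, 0, 0⟩ := by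
  intro p q r hp hpq hqr hr hK x hx ha hb hc θ n hθ hθπ hT hfA hfB
  have hz : ∀ x : Fin 4 → ℝ, Lin.val ⟨0, 0, 0, 0, 0, 0⟩ x = 0 := by
    intro x
    unfold Lin.val
    simp
  rw [hz] at hθ
  obtain ⟨s, hs⟩ := hx_cub hx hj
  cases s
  · exact g0 p q r hp hpq hqr hr hK _ hs (Lin.half_holds j false (hx.le j) ha) (Lin.half_holds j false (hx.le j) hb)
      (Lin.half_holds j false (hx.le j) hc) θ n (by rw [hz]; exact hθ) hθπ hT hfA hfB
  · exact g1 p q r hp hpq hqr hr hK _ hs (Lin.half_holds j true (hx.le j) ha) (Lin.half_holds j true (hx.le j) hb)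
      (Lin.half_holds j true (hx.le j) hc) θ n (by rw [hz]; exact hθ) hθπ hT hfA hfB

end Pool.Agent.Work.MP_88b7aa_gt.Kc
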