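import Pool.Agent.Work.MP_88b7aa_gt.Kc.CellK
import Pool.Agent.Work.MP_88b7aa_gt.Kc.Slb

/-!
# Templates of cells

A template `Tm` is the part of a cell certificate which is the same for all cells of a family.  The data of a cell: constant forms, phases,
multipliers, base point.
-/

set_option autoImplicit false

namespace Pool.Agent.Work.MP_88b7aa_gt.Kc

open Pool.Agent.Work.MP_88b7aa_gt.CH
open Pool.Agent.Work.MP_88b7aa_gt.PQ
open ComplexConjugate Complex Matrix

/-- The data of a cell: free forms, phases of the vertices, base point, multipliers, further numbers. -/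
structure BD where
  c : List FE
  f : List Sc
  o : Sc × Sc × Sc
  m : List (Sc × Sc)
  e : List Sc

/-- A condition without multipliers. -/
structure CT where
  i : Fin 3
  j : Fin 3
  l : ℕ
  l1 : ℕ
  s : ℕ
  t : ℕ
  si : ℕ
  ti : ℕ

def CT.cn (x : CT) (m : Sc × Sc) : CN := ⟨x.i, x.j, x.l, x.l1, x.s, x.t, x.si, x.ti, m.1, m.2⟩

def CT.fct (x : CT) : Fct := ⟨x.i, x.j, x.l, some x.s, x.t⟩

def CT.dsc (L : List (ℕ × List (Fin 3))) (x : CT) : Bool := dscC L x.i x.j x.l x.l1 x.s x.t x.si x.ti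

/-- A template: everything in a cell which does not depend on its data. -/
structure Tm where
  fes : BD → List FE
  is : List Ins
  pks : List ℕ
  cn : List CT
  pp : List PN
  pn : List PN
  st : List (ℕ × Fin 3)
  sk : BD → List SK
  sf : List Fct
  vd : BD → Fin 3 → Fin 3 → VD
  vx : Fin 3 → Fin 3 → Vsp
  lb : Fin 3 → Fin 3 → ℕ

/-- conditions with their multipliers; the number of multipliers must be right -/
def zp : List CT → List (Sc × Sc) → List CN
  | [], _ => []
  | _ :: _, [] => []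
  | x :: l, m :: ms => x.cn m :: zp l ms

def zl : List CT → List (Sc × Sc) → Bool
  | [], [] => true
  | [], _ :: _ => true
  | _ :: _, [] => false
  | _ :: l, _ :: ms => zl l ms

theorem zp_fct (l : List CT) : ∀ m, zl l m = true → (zp l m).map CN.fct = l.map CT.fct := by
  induction l with
  | nil => intro m _; rfl
  | cons x l ih =>
    intro m h
    cases m with
    | nil => exact absurd h (by simp [zl])
    | cons y m =>
      show CN.fct (x.cn y) :: (zp l m).map CN.fct = CT.fct x :: l.map CT.fct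
      rw [ih m h]
      rfl

def Tm.cd (T : Tm) (d : BD) : CD := ⟨T.fes d, d.o, T.is, T.pks, zp T.cn d.m, T.pp, T.pn⟩

/-- The static part of the check of a cell. -/
def Tm.stat (T : Tm) : Bool := statC T.is T.pks (fun L => T.cn.all (CT.dsc L)) T.pp T.pn

theorem zp_dsc (L : List (ℕ × List (Fin 3))) (l : List CT) : ∀ m, l.all (CT.dsc L) = true → (zp l m).all (CN.dsc L) = true := by
  induction l with
  | nil => intro m _; rfl
  | cons x l ih =>
    intro m h
    cases m with
    | nil => rfl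
    | cons y m =>
      rw [List.all_cons, Bool.and_eq_true] at h
      show (CN.dsc L (x.cn y) && (zp l m).all (CN.dsc L)) = true
      rw [ih m h.2, Bool.and_true]
      exact h.1

theorem Tm.stat_cd {T : Tm} (h : T.stat = true) (d : BD) : (T.cd d).stat = true := by
  unfold Tm.stat statC at h
  rw [Bool.and_eq_true] at h
  unfold CD.stat statC
  rw [Bool.and_eq_true]
  exact ⟨zp_dsc _ _ _ h.1, h.2⟩

/-- The system of a template. -/
def Tm.sys (T : Tm) : Sys := ⟨T.st, T.cn.map CT.fct ++ (T.pp.map PN.fct ++ T.sf), T.pn.map PN.neg, T.vx⟩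

/-- The system of a cell of a template. -/
def Tm.S (T : Tm) (d : BD) : SysT := ⟨T.st, T.sk d, T.vd d, T.lb⟩

/-- A valid template for the class `K`. -/
structure Tm.OK (T : Tm) (K : ℕ → ℕ → ℕ → Prop) : Prop where
  ok : T.sys.ok = true
  stt : T.stat = true
  vx : ∀ d i j, (T.vd d i j).vsp = T.vx i j
  vd : ∀ d i j, i ≠ j → (T.vd d i j).Ok (T.fes d) i j
  sf : ∀ d, (T.sk d).map SK.fct = T.sf
  sk : ∀ d, ∀ s ∈ T.sk d, s.Ok (T.fes d) T.lb (vdO (T.vd d))
  cl : ∀ d, (T.S d).Cls K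

/-- The check of a cell. -/
noncomputable def Tm.chk (T : Tm) (k : ℕ) (B : Bx4) (d : BD) : Bool :=
  zl T.cn d.m && cellC k (T.S d) B (T.cd d)

/-- A checked cell is good. -/
theorem Tm.good {T : Tm} {K : ℕ → ℕ → ℕ → Prop} (hT : T.OK K) {k : ℕ} (hk : k ≤ 4) (B : Bx4) (d : BD) (h : T.chk k B d = true) :
    Good K k B := by
  unfold Tm.chk at h
  rw [Bool.and_eq_true] at h
  obtain ⟨h1, h2⟩ := h
  refine cellK hk K (T.S d) (hT.cl d) B (T.cd d) h2 (Tm.stat_cd hT.stt d) (T.cn.map CT.fct) (T.pp.map PN.fct) (T.pn.map PN.neg) (zp_fct _ _ h1) rfl rfl ?_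
    (hT.sk d) (hT.vd d)
  have hs : (T.S d).sys (T.cn.map CT.fct) (T.pp.map PN.fct) (T.pn.map PN.neg) = T.sys := by
    unfold Tm.sys SysT.sys
    rw [← hT.sf d]
    congr 1
    funext i j
    exact hT.vx d i j
  rw [hs]
  exact hT.ok

theorem mcox12 (p q r : ℕ) (hp : p ≠ 1) (hq : q ≠ 1) (hr : r ≠ 1) : mcox p q r hp hq hr 1 2 = p := rfl
theorem mcox21 (p q r : ℕ) (hp : p ≠ 1) (hq : q ≠ 1) (hr : r ≠ 1) : mcox p q r hp hq hr 2 1 = p := rfl
theorem mcox01 (p q r : ℕ) (hp : p ≠ 1) (hq : q ≠ 1) (hr : r ≠ 1) : mcox p q r hp hq hr 0 1 = q := rfl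
theorem mcox10 (p q r : ℕ) (hp : p ≠ 1) (hq : q ≠ 1) (hr : r ≠ 1) : mcox p q r hp hq hr 1 0 = q := rfl
theorem mcox02 (p q r : ℕ) (hp : p ≠ 1) (hq : q ≠ 1) (hr : r ≠ 1) : mcox p q r hp hq hr 0 2 = r := rfl
theorem mcox20 (p q r : ℕ) (hp : p ≠ 1) (hq : q ≠ 1) (hr : r ≠ 1) : mcox p q r hp hq hr 2 0 = r := rfl

end Pool.Agent.Work.MP_88b7aa_gt.Kc
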