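import Pool.Agent.Work.MP_88b7aa_gt.Kc.T2

/-!
# Evaluation of the conditions of a cell (definitions)
-/

set_option autoImplicit false

namespace Pool.Agent.Work.MP_88b7aa_gt.Kc

/-- force all 72 numbers and continue -/
noncomputable def P2.ek {α : Type} (x : P2) (k : P2 → α) : α :=
  ev x.v fun v => ev x.g fun g => ev x.h fun h => ev x.n0 fun n0 => ev x.n1 fun n1 => ev x.n2 fun n2 => ev x.r fun r =>
    ev x.e fun e => k ⟨v, g, h, n0, n1, n2, r, e⟩

noncomputable def C2.ek {α : Type} (z : C2) (k : C2 → α) : α := P2.ek z.x fun x => P2.ek z.y fun y => k ⟨x, y⟩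

noncomputable def H2.ek {α : Type} (M : H2) (k : H2 → α) : α :=
  P2.ek M.d0 fun d0 => P2.ek M.d1 fun d1 => P2.ek M.d2 fun d2 => C2.ek M.a fun a => C2.ek M.b fun b => C2.ek M.c fun c =>
    k ⟨d0, d1, d2, a, b, c⟩

noncomputable def HP.ek {α : Type} (x : HP) (k : HP → α) : α :=
  ev x.v fun v => ev x.g fun g => ev x.h fun h => ev x.n0 fun n0 => ev x.n1 fun n1 => ev x.n2 fun n2 => ev x.r fun r =>
    ev x.e fun e => ev x.t fun t => k ⟨v, g, h, n0, n1, n2, r, e, t⟩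

/-- constant matrix, entries `z_k / 2^e` as residues with absolute values -/
def H2.cst (d0 d0' d1 d1' d2 d2' p p' q q' r r' s s' t t' w w' e : Nat) : H2 :=
  ⟨P2.cst d0 d0' e, P2.cst d1 d1' e, P2.cst d2 d2' e, ⟨P2.cst p p' e, P2.cst q q' e⟩, ⟨P2.cst r r' e, P2.cst s s' e⟩,
    ⟨P2.cst t t' e, P2.cst w w' e⟩⟩

/-- signed number coded as `2 n` (`n ≥ 0`) or `2 n + 1` (for `-n`): residue -/
def sr (z : Nat) : Nat := cond (Nat.beq (Nat.mod z (nat_lit 2)) (nat_lit 0)) (Nat.div z (nat_lit 2)) (Nat.sub MM (Nat.div z (nat_lit 2)))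
/-- absolute value -/
def sa (z : Nat) : Nat := Nat.div z (nat_lit 2)

/-- digit number `k` of width 24 of the packed data -/
def d24 (N k : Nat) : Nat := Nat.mod (Nat.shiftRight N (Nat.mul (nat_lit 24) k)) (nat_lit 16777216)

noncomputable def P2.ofc (z e : Nat) : P2 := P2.cst (sr z) (sa z) e

/-- constant matrix from nine packed signed numbers, scale `2^12` -/
noncomputable def H2.ofd (N : Nat) : H2 :=
  ⟨P2.ofc (d24 N (nat_lit 0)) (nat_lit 12), P2.ofc (d24 N (nat_lit 1)) (nat_lit 12), P2.ofc (d24 N (nat_lit 2)) (nat_lit 12),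
    ⟨P2.ofc (d24 N (nat_lit 3)) (nat_lit 12), P2.ofc (d24 N (nat_lit 4)) (nat_lit 12)⟩,
    ⟨P2.ofc (d24 N (nat_lit 5)) (nat_lit 12), P2.ofc (d24 N (nat_lit 6)) (nat_lit 12)⟩,
    ⟨P2.ofc (d24 N (nat_lit 7)) (nat_lit 12), P2.ofc (d24 N (nat_lit 8)) (nat_lit 12)⟩⟩

/-- V form: `w0 f (row i0) + w1 f u (row j0)` at the column `k`, sign minus, doubled -/
def vent (w0 w1 : P2) (f fu gi gj : C2) : C2 :=
  C2.neg (C2.add (C2.rmul w0 (C2.mul f (C2.conj gi))) (C2.rmul w1 (C2.mul fu (C2.conj gj))))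

def one : C2 := ⟨P2.cst (nat_lit 1) (nat_lit 1) (nat_lit 0), P2.zero⟩

/-- vertex 0: `(i0, j0) = (1, 2)`, `k = 0` -/
def v0 (G : H2) (w0 w1 : P2) (f fu : C2) : H2 :=
  ⟨P2.dbl (vent w0 w1 f fu (C2.conj G.a) (C2.conj G.b)).x, P2.zero, P2.zero,
    C2.conj (vent w0 w1 f fu one (C2.conj G.c)), C2.conj (vent w0 w1 f fu G.c one), ⟨P2.zero, P2.zero⟩⟩
/-- vertex 1: `(i0, j0) = (2, 0)`, `k = 1` -/
def v1 (G : H2) (w0 w1 : P2) (f fu : C2) : H2 :=
  ⟨P2.zero, P2.dbl (vent w0 w1 f fu (C2.conj G.c) G.a).x, P2.zero,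
    vent w0 w1 f fu (C2.conj G.b) one, ⟨P2.zero, P2.zero⟩, C2.conj (vent w0 w1 f fu one G.b)⟩
/-- vertex 2: `(i0, j0) = (0, 1)`, `k = 2` -/
def v2 (G : H2) (w0 w1 : P2) (f fu : C2) : H2 :=
  ⟨P2.zero, P2.zero, P2.dbl (vent w0 w1 f fu G.b G.c).x, ⟨P2.zero, P2.zero⟩,
    vent w0 w1 f fu one (C2.conj G.a), vent w0 w1 f fu G.a one⟩

def vv (G : H2) (k : Nat) (w0 w1 : P2) (f fu : C2) : H2 :=
  cond (Nat.beq k (nat_lit 0)) (v0 G w0 w1 f fu) (cond (Nat.beq k (nat_lit 1)) (v1 G w0 w1 f fu) (v2 G w0 w1 f fu))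

/-- `U_t`, `U_{t+1}` -/
noncomputable def uu (c : P2) (t : Nat) : P2 → P2 → (P2 → P2 → H2) → H2 :=
  Nat.rec (motive := fun _ => P2 → P2 → (P2 → P2 → H2) → H2) (fun x y k => k x y)
    (fun _ ih x y k => ih y (P2.sub (P2.dbl (P2.mul c y)) x) k) t

/-- the form number `i` of a list -/
noncomputable def nth {α : Type} (d : α) (l : List α) : Nat → α :=
  List.rec (motive := fun _ => Nat → α) (fun _ => d) (fun a _ ih n => Nat.rec (motive := fun _ => α) a (fun m _ => ih m) n) l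

/-- apply the word coded in base 4 (digits 1, 2, 3 = reflections 0, 1, 2; lowest digit first) -/
noncomputable def wrd (G : H2) (fuel : Nat) : Nat → H2 → H2 :=
  Nat.rec (motive := fun _ => Nat → H2 → H2) (fun _ X => X)
    (fun _ ih w X => ev w fun w => cond (Nat.beq w (nat_lit 0)) X (ih (Nat.div w (nat_lit 4)) (H2.cmp G X (Nat.sub (Nat.mod w (nat_lit 4)) (nat_lit 1))))) fuel

/-- tasks: (form, word) -/
noncomputable def mkHP (G : H2) (F : List H2) (l : List (Nat × Nat)) : (List HP → Bool) → Bool :=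
  List.rec (motive := fun _ => (List HP → Bool) → Bool) (fun k => k [])
    (fun t _ ih k => HP.ek (HP.ofH (wrd G (nat_lit 8) t.2 (nth G F t.1))) fun p => ih fun l => k (p :: l)) l

/-- a condition: target index (in the HP list), sign (0: +, 1: -), source index, `λ`, `μ` (scale 2^10) -/
structure Cn where
  t : Nat
  sg : Nat
  s : Nat
  la : Nat
  mu : Nat

noncomputable def chk1 (k : Nat) (GP : HP) (L : List HP) (c : Cn) : Bool :=
  HP.ek (HP.add (HP.add (cond (Nat.beq c.sg (nat_lit 0)) (nth GP L c.t) (HP.neg (nth GP L c.t)))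
    (HP.smul (Nat.sub MM c.la) c.la (nat_lit 10) (nth GP L c.s))) (HP.smul c.mu c.mu (nat_lit 10) GP)) fun M => tst k M

noncomputable def chkl (k : Nat) (GP : HP) (L : List HP) (l : List Cn) : Bool :=
  List.rec (motive := fun _ => Bool) true (fun c _ ih => cond (chk1 k GP L c) ih false) l

end Pool.Agent.Work.MP_88b7aa_gt.Kc
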