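import Pool.Agent.Work.MP_88b7aa_gt.Kd.Inst
import Pool.Agent.Work.MP_88b7aa_gt.PQ.Spec
import Pool.Agent.Work.MP_88b7aa_gt.PQ.Fast

/-!
# The cell theorem of the kernel arithmetic
-/

set_option autoImplicit false

namespace Pool.Agent.Work.MP_88b7aa_gt.Kc

open Pool.Agent.Work.MP_88b7aa_gt.PQ
open Pool.Agent.Work.MP_88b7aa_gt.CH

/-- The part of a system which does not depend on the cell: the states, the special facts, the vertices, lower bounds for the orders. -/
structure SysT where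
  st : List (ℕ × Fin 3)
  sk : List SK
  vd : Fin 3 → Fin 3 → VD
  lb : Fin 3 → Fin 3 → ℕ

/-- The system with the given numeric facts. -/
def SysT.sys (S : SysT) (cn pp : List Fct) (pn : List (Fin 3 × Fin 3 × ℕ × ℕ)) : Sys :=
  ⟨S.st, cn ++ (pp ++ S.sk.map SK.fct), pn, fun i j => (S.vd i j).vsp⟩

/-- The orders of the class fit the system. -/
def SysT.Cls (S : SysT) (K : ℕ → ℕ → ℕ → Prop) : Prop :=
  ∀ (p q r : ℕ) (hp : p ≠ 1) (hq : q ≠ 1) (hr : r ≠ 1), K p q r → ∀ i j, i ≠ j → S.lb i j ≤ mcox p q r hp hq hr i j ∧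
    ∀ m E, S.vd i j = .small m E → mcox p q r hp hq hr i j = m

/-- The order of a small vertex, zero for the others. -/
def vdO (vd : Fin 3 → Fin 3 → VD) (i j : Fin 3) : ℕ := match vd i j with
  | .small m _ => m
  | _ => 0

/-- The check of a cell. -/
noncomputable def cellC (k : ℕ) (S : SysT) (B : Bx4) (cd : CD) : Bool :=
  Kd.sel k fun A _ _ env => env B fun e => cond (cd.chkF A e) (allK (fun s => s.chk A e) S.sk) false

/-- **The cell theorem.** -/
theorem cellK {k : ℕ} (hk : k ≤ 4) (K : ℕ → ℕ → ℕ → Prop) (S : SysT) (hK : S.Cls K) (B : Bx4) (cd : CD)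
    (h : cellC k S B cd = true) (hst : cd.stat = true) (cn pp : List Fct) (pn : List (Fin 3 × Fin 3 × ℕ × ℕ)) (h1 : cd.cn.map CN.fct = cn)
    (h2 : cd.pp.map PN.fct = pp) (h3 : cd.pn.map PN.neg = pn) (hS : (S.sys cn pp pn).ok = true)
    (hok : ∀ s ∈ S.sk, s.Ok cd.fes S.lb (vdO S.vd)) (hvd : ∀ i j, i ≠ j → (S.vd i j).Ok cd.fes i j) : Good K k B := by
  unfold cellC at h
  obtain ⟨A, X, lin, env, Rel, RelP, envB, hI, h⟩ := Kd.sel_ok hk h
  rw [hI.eq] at h
  simp only [allK_eq, Bool.cond_false_right, Bool.and_eq_true, List.all_eq_true] at h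
  obtain ⟨hc, hs⟩ := h
  intro p q r hp hpq hqr hr hKK θ n x hx hB hT hfA hfB
  have he := hI.hE.ok B rfl x hx _ _ _ _ hB
  have hA := hI.hA x hx
  have hc := CD.chkF_chk A hA.fH hA.fP _ cd hst hc
  subst h1
  subst h2
  subst h3
  refine leaf hA p q r hp hpq hqr hr θ n hT hfA _ he cd hc ⟨S.st, S.sk.map SK.fct, S.vd⟩ hS ?_ hvd
    (fun i j hij m E hm => (hK p q r (by omega) (by omega) (by omega) hKK i j hij).2 m E hm)
  intro f hf
  rw [List.mem_map] at hf
  obtain ⟨s, hs', rfl⟩ := hf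
  refine SK.sound hA p q r hp hpq hqr θ _ hfA he cd.fes _ S.lb (vdO S.vd)
    (fun i j hij => (hK p q r (by omega) (by omega) (by omega) hKK i j hij).1) ?_ s (hok s hs') (hs s hs')
  intro i j hij h0
  rcases hv : S.vd i j with ⟨m, E⟩ | ⟨sw, f, t, v, u1, u2⟩ | ⟨sw, f, t, v, u1, u2⟩
  · have e : vdO S.vd i j = m := by
      unfold vdO
      rw [hv]
    rw [e]
    exact (hK p q r (by omega) (by omega) (by omega) hKK i j hij).2 m E hv
  · exact absurd (by unfold vdO; rw [hv]) h0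
  · exact absurd (by unfold vdO; rw [hv]) h0

end Pool.Agent.Work.MP_88b7aa_gt.Kc
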