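import Pool.Agent.Work.MP_88b7aa_gt.PQ.EnvX
import Pool.Agent.Work.MP_88b7aa_gt.Kc.Cel

/-!
# The cell theorem with B forms
-/

set_option autoImplicit false

namespace Pool.Agent.Work.MP_88b7aa_gt.Kc

open Pool.Agent.Work.MP_88b7aa_gt.PQ
open Pool.Agent.Work.MP_88b7aa_gt.CH
open ComplexConjugate Complex Matrix

/-- The system with the given numeric facts and facts of B forms. -/
def SysT.sysL (S : SysT) (bf cn pp : List Fct) (pn : List (Fin 3 × Fin 3 × ℕ × ℕ)) : Sys :=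
  ⟨S.st, cn ++ (pp ++ (S.sk.map SK.fct ++ bf)), pn, fun i j => (S.vd i j).vsp⟩

/-- The check of the eigenvalue on the sub-boxes. -/
noncomputable def lamC (k : ℕ) (B : Bx4) (D : LD) : Bool :=
  Kd.sel k fun _ X lin env => sub8 k (fun b => env b.B fun e => lamF X lin D b e) D.js B.top8

theorem lamC_ok {k : ℕ} (hk : k ≤ 4) {B : Bx4} {D : LD} (h : lamC k B D = true) {x : Fin 4 → ℝ} (hx : Cub k x) {a b c t : ℝ}
    (hB : B.Holds x a b c t) : LamE (mkEv OR a b c (zz t) (exR (mkEv OR a b c (zz t) []).g x)) D := by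
  unfold lamC at h
  obtain ⟨A, X, lin, env, Rel, RelP, envB, hI, h⟩ := Kd.sel_ok hk h
  refine sub8_ok (Q := LamE (mkEv OR a b c (zz t) (exR (mkEv OR a b c (zz t) []).g x)) D) ?_ D.js B.top8 x hx (Bx4.top8_holds hB) h
  intro b' y hy hb' h'
  rw [hI.eq] at h'
  exact lamF_ok (hI.hX y hy) (fun hL => hI.hL y hy hL) hb' (hI.hE.ok b'.B rfl y hy _ _ _ _ hb'.B) D h'

/-- The check of a cell. -/
noncomputable def cellCL (k : ℕ) (S : SysT) (bk : List BK) (B : Bx4) (D : LD) (cd : CD) : Bool :=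
  cond (lamC k B D) (Kd.sel k fun A X _ env => env B fun e => chkX A X S.sk bk D cd e) false

/-- **The cell theorem with B forms.** -/
theorem cellL {k : ℕ} (hk : k ≤ 4) (K : ℕ → ℕ → ℕ → Prop) (S : SysT) (hK : S.Cls K) (bk : List BK) (B : Bx4) (D : LD) (cd : CD)
    (h : cellCL k S bk B D cd = true) (hst : cd.stat = true) (bf cn pp : List Fct) (pn : List (Fin 3 × Fin 3 × ℕ × ℕ)) (hb : bkf bk = bf)
    (h1 : cd.cn.map CN.fct = cn) (h2 : cd.pp.map PN.fct = pp) (h3 : cd.pn.map PN.neg = pn) (hS : (S.sysL bf cn pp pn).ok = true)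
    (hok : ∀ s ∈ S.sk, s.Ok cd.fes S.lb (vdO S.vd)) (hbk : ∀ s ∈ bk, s.Ok cd.fes)
    (hvd : ∀ i j, i ≠ j → (S.vd i j).Ok cd.fes i j) : Good K k B := by
  unfold cellCL at h
  obtain ⟨hl, h⟩ := condX h
  obtain ⟨A, X, lin, env, Rel, RelP, envB, hI, h⟩ := Kd.sel_ok hk h
  rw [hI.eq] at h
  intro p q r hp hpq hqr hr hKK θ n x hx hB hT hfA hfB
  subst h1
  subst h2
  subst h3
  subst hb
  refine leafL (hI.hA x hx) (hI.hX x hx) p q r hp hpq hqr hr θ n hT hfA hfB _ _ _ _ _ _ _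
    (hI.hE.ok B rfl x hx _ _ _ _ hB) S.sk bk D (lamC_ok hk hl hx hB) cd h hst ⟨S.st, S.sk.map SK.fct ++ bkf bk, S.vd⟩ rfl hS S.lb (vdO S.vd)
    (fun i j hij => (hK p q r (by omega) (by omega) (by omega) hKK i j hij).1) ?_ hok hbk hvd
    (fun i j hij m E hm => (hK p q r (by omega) (by omega) (by omega) hKK i j hij).2 m E hm)
  intro i j hij h0
  rcases hv : S.vd i j with ⟨m, E⟩ | ⟨sw, f, t, v, u1, u2⟩ | ⟨sw, f, t, v, u1, u2⟩
  · have e : vdO S.vd i j = m := by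
      unfold vdO
      rw [hv]
    rw [e]
    exact (hK p q r (by omega) (by omega) (by omega) hKK i j hij).2 m E hv
  · exact absurd (by unfold vdO; rw [hv]) h0
  · exact absurd (by unfold vdO; rw [hv]) h0

/-! ### Templates -/

/-- A template with B forms. -/
structure TmL where
  T : Tm
  bk : BD → List BK
  bf : List Fct

/-- The system of a template. -/
def TmL.sys (T : TmL) : Sys := ⟨T.T.st, T.T.cn.map CT.fct ++ (T.T.pp.map PN.fct ++ (T.T.sf ++ T.bf)), T.T.pn.map PN.neg, T.T.vx⟩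

/-- A valid template for the class `K`. -/
structure TmL.OK (T : TmL) (K : ℕ → ℕ → ℕ → Prop) : Prop where
  ok : T.sys.ok = true
  stt : T.T.stat = true
  vx : ∀ d i j, (T.T.vd d i j).vsp = T.T.vx i j
  vd : ∀ d i j, i ≠ j → (T.T.vd d i j).Ok (T.T.fes d) i j
  sf : ∀ d, (T.T.sk d).map SK.fct = T.T.sf
  sk : ∀ d, ∀ s ∈ T.T.sk d, s.Ok (T.T.fes d) T.T.lb (vdO (T.T.vd d))
  bk : ∀ d, ∀ s ∈ T.bk d, s.Ok (T.T.fes d)
  bf : ∀ d, bkf (T.bk d) = T.bf
  cl : ∀ d, (T.T.S d).Cls K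

/-- The check of a cell. -/
noncomputable def TmL.chk (T : TmL) (k : ℕ) (B : Bx4) (D : LD) (d : BD) : Bool :=
  zl T.T.cn d.m && cellCL k (T.T.S d) (T.bk d) B D (T.T.cd d)

/-- A checked cell is good. -/
theorem TmL.good {T : TmL} {K : ℕ → ℕ → ℕ → Prop} (hT : T.OK K) {k : ℕ} (hk : k ≤ 4) (B : Bx4) (D : LD) (d : BD)
    (h : T.chk k B D d = true) : Good K k B := by
  unfold TmL.chk at h
  rw [Bool.and_eq_true] at h
  obtain ⟨h1, h2⟩ := h
  refine cellL hk K (T.T.S d) (hT.cl d) (T.bk d) B D (T.T.cd d) h2 (Tm.stat_cd hT.stt d) T.bf (T.T.cn.map CT.fct) (T.T.pp.map PN.fct) (T.T.pn.map PN.neg)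
    (hT.bf d) (zp_fct _ _ h1) rfl rfl ?_ (hT.sk d) (hT.bk d) (hT.vd d)
  have hs : (T.T.S d).sysL T.bf (T.T.cn.map CT.fct) (T.T.pp.map PN.fct) (T.T.pn.map PN.neg) = T.sys := by
    unfold TmL.sys SysT.sysL
    rw [← hT.sf d]
    congr 1
    funext i j
    exact hT.vx d i j
  rw [hs]
  exact hT.ok

end Pool.Agent.Work.MP_88b7aa_gt.Kc
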