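/-!
# Second order Taylor models in four variables, packed (kernel friendly): definitions

Only `Nat` operations are used (they are fast in the kernel).  A signed integer `z` is represented by a natural number
congruent to `z` modulo `MM = 2 ^ 20800`.  `D = 2 ^ 160`, `B = D ^ 10 = 2 ^ 1600`, `MM = B ^ 13`.

`P2` = polynomial `v + ∑ a_i x_i + ∑_{i≤j} h_ij x_i x_j` (integer coefficients, `x_i ∈ [-1,1]`) with a remainder `r`; it
represents a real `y` (at the point `x`) if `|y 2^e - (v + ∑ a_i x_i + ∑ h_ij x_i x_j)| ≤ r`.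
Packing: `g = a_1 + a_2 B + a_3 B^4 + a_4 B^6`, `h = ∑ h_ij B^(w_i + w_j)` with `w = (0, 1, 4, 6)`, both modulo `MM`.
Norms: `n0 ≥ |v|`, `n1 ≥ ∑ |a_i|`, `n2 ≥ ∑ |h_ij|` (true natural numbers).
-/

set_option autoImplicit false

namespace Pool.Agent.Work.MP_88b7aa_gt.Kc

/-- force the evaluation of a natural number (`ev n k = k n`) -/
@[reducible] noncomputable def ev {α : Type} (n : Nat) (k : Nat → α) : α :=
  Nat.rec (motive := fun _ => α) (k (nat_lit 0)) (fun m _ => k (Nat.succ m)) n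

/-- `2 ^ 20800` -/
def MM : Nat := Nat.pow (nat_lit 2) (nat_lit 20800)
/-- `-1` modulo `MM` -/
def M1 : Nat := Nat.sub MM (nat_lit 1)
/-- `2 ^ 1600` -/
def BB : Nat := Nat.pow (nat_lit 2) (nat_lit 1600)
/-- `2 ^ 1599` -/
def Bh : Nat := Nat.pow (nat_lit 2) (nat_lit 1599)
/-- `2 ^ 160` -/
def DD : Nat := Nat.pow (nat_lit 2) (nat_lit 160)
/-- `2 ^ 159` -/
def Dh : Nat := Nat.pow (nat_lit 2) (nat_lit 159)

structure P2 where
  v : Nat
  g : Nat
  h : Nat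
  n0 : Nat
  n1 : Nat
  n2 : Nat
  r : Nat
  e : Nat

namespace P2

/-- evaluate all fields -/
noncomputable def frc (x : P2) : P2 :=
  ev x.v fun v => ev x.g fun g => ev x.h fun h => ev x.n0 fun n0 => ev x.n1 fun n1 => ev x.n2 fun n2 => ev x.r fun r =>
    ev x.e fun e => ⟨v, g, h, n0, n1, n2, r, e⟩

/-- the constant `s / 2^e`: `s` = residue, `n = |s|` -/
def cst (s n e : Nat) : P2 := ⟨s, nat_lit 0, nat_lit 0, n, nat_lit 0, nat_lit 0, nat_lit 0, e⟩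

/-- zero -/
def zero : P2 := cst (nat_lit 0) (nat_lit 0) (nat_lit 0)

/-- multiplication by the integer with residue `s` and absolute value `≤ n`, and by `2^-e'` -/
def smul (s n e' : Nat) (x : P2) : P2 :=
  ⟨Nat.mod (Nat.mul s x.v) MM, Nat.mod (Nat.mul s x.g) MM, Nat.mod (Nat.mul s x.h) MM, Nat.mul n x.n0, Nat.mul n x.n1,
    Nat.mul n x.n2, Nat.mul n x.r, Nat.add x.e e'⟩

/-- the same number at the scale `e + k` -/
def up (k : Nat) (x : P2) : P2 := smul (Nat.pow (nat_lit 2) k) (Nat.pow (nat_lit 2) k) k x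

/-- negation -/
def neg (x : P2) : P2 := smul M1 (nat_lit 1) (nat_lit 0) x

/-- twice -/
def dbl (x : P2) : P2 := smul (nat_lit 2) (nat_lit 2) (nat_lit 0) x

/-- sum of two models at the same scale -/
def add0 (x y : P2) : P2 :=
  ⟨Nat.mod (Nat.add x.v y.v) MM, Nat.mod (Nat.add x.g y.g) MM, Nat.mod (Nat.add x.h y.h) MM, Nat.add x.n0 y.n0,
    Nat.add x.n1 y.n1, Nat.add x.n2 y.n2, Nat.add x.r y.r, x.e⟩

def add (x y : P2) : P2 :=
  cond (Nat.beq x.e y.e) (add0 x y) (cond (Nat.ble x.e y.e) (add0 (up (Nat.sub y.e x.e) x) y) (add0 x (up (Nat.sub x.e y.e) y)))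

def sub (x y : P2) : P2 := add x (neg y)

def mul (x y : P2) : P2 :=
  ⟨Nat.mod (Nat.mul x.v y.v) MM,
   Nat.mod (Nat.add (Nat.mul x.v y.g) (Nat.mul x.g y.v)) MM,
   Nat.mod (Nat.add (Nat.add (Nat.mul x.v y.h) (Nat.mul x.h y.v)) (Nat.mul x.g y.g)) MM,
   Nat.mul x.n0 y.n0,
   Nat.add (Nat.mul x.n0 y.n1) (Nat.mul x.n1 y.n0),
   Nat.add (Nat.add (Nat.mul x.n0 y.n2) (Nat.mul x.n2 y.n0)) (Nat.mul x.n1 y.n1),
   Nat.add (Nat.add (Nat.mul x.n1 y.n2) (Nat.mul x.n2 (Nat.add y.n1 y.n2)))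
     (Nat.add (Nat.mul (Nat.add (Nat.add x.n0 x.n1) x.n2) y.r) (Nat.mul (Nat.add (Nat.add y.n0 y.n1) (Nat.add y.n2 y.r)) x.r)),
   Nat.add x.e y.e⟩

end P2

/-- complex model -/
structure C2 where
  x : P2
  y : P2

namespace C2
def add (z w : C2) : C2 := ⟨P2.add z.x w.x, P2.add z.y w.y⟩
def sub (z w : C2) : C2 := ⟨P2.sub z.x w.x, P2.sub z.y w.y⟩
def dbl (z : C2) : C2 := ⟨P2.dbl z.x, P2.dbl z.y⟩
def neg (z : C2) : C2 := ⟨P2.neg z.x, P2.neg z.y⟩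
def conj (z : C2) : C2 := ⟨z.x, P2.neg z.y⟩
def mul (z w : C2) : C2 := ⟨P2.sub (P2.mul z.x w.x) (P2.mul z.y w.y), P2.add (P2.mul z.x w.y) (P2.mul z.y w.x)⟩
/-- `conj z * w` -/
def cmul (z w : C2) : C2 := ⟨P2.add (P2.mul z.x w.x) (P2.mul z.y w.y), P2.sub (P2.mul z.x w.y) (P2.mul z.y w.x)⟩
/-- `Re (conj z * w)` -/
def re (z w : C2) : P2 := P2.add (P2.mul z.x w.x) (P2.mul z.y w.y)
/-- real times complex -/
def rmul (x : P2) (w : C2) : C2 := ⟨P2.mul x w.x, P2.mul x w.y⟩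
end C2

/-- Hermitian matrix: diagonal `d0 d1 d2`, entries `a = M01`, `b = M02`, `c = M12`. -/
structure H2 where
  d0 : P2
  d1 : P2
  d2 : P2
  a : C2
  b : C2
  c : C2

namespace H2

noncomputable def frc (M : H2) : H2 :=
  ⟨M.d0.frc, M.d1.frc, M.d2.frc, ⟨M.a.x.frc, M.a.y.frc⟩, ⟨M.b.x.frc, M.b.y.frc⟩, ⟨M.c.x.frc, M.c.y.frc⟩⟩

/-- `X_jj + 4 Re (conj g (X_ii g - X_ij))` -/
def dg (Xjj : P2) (g z : C2) : P2 := P2.add Xjj (P2.dbl (P2.dbl (C2.re g z)))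

/-- `X_jk + 2 conj g_j z_k + 2 conj z_j g_k` -/
def od (Xjk gj gk zj zk : C2) : C2 := C2.add Xjk (C2.dbl (C2.add (C2.cmul gj zk) (C2.cmul zj gk)))

/-- `X_ij + 2 z_j` where `z_j = X_ii g_j - X_ij` -/
def of (Xij z : C2) : C2 := C2.add Xij (C2.dbl z)

def cmp0 (G X : H2) : H2 :=
  let z1 := C2.sub (C2.rmul X.d0 G.a) X.a
  let z2 := C2.sub (C2.rmul X.d0 G.b) X.b
  ⟨X.d0, dg X.d1 G.a z1, dg X.d2 G.b z2, of X.a z1, of X.b z2, od X.c G.a G.b z1 z2⟩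

def cmp1 (G X : H2) : H2 :=
  let g0 := C2.conj G.a
  let x0 := C2.conj X.a
  let z0 := C2.sub (C2.rmul X.d1 g0) x0
  let z2 := C2.sub (C2.rmul X.d1 G.c) X.c
  ⟨dg X.d0 g0 z0, X.d1, dg X.d2 G.c z2, C2.conj (of x0 z0), od X.b g0 G.c z0 z2, of X.c z2⟩

def cmp2 (G X : H2) : H2 :=
  let g0 := C2.conj G.b
  let g1 := C2.conj G.c
  let x0 := C2.conj X.b
  let x1 := C2.conj X.c
  let z0 := C2.sub (C2.rmul X.d2 g0) x0
  let z1 := C2.sub (C2.rmul X.d2 g1) x1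
  ⟨dg X.d0 g0 z0, dg X.d1 g1 z1, X.d2, od X.a g0 g1 z0 z1, C2.conj (of x0 z0), C2.conj (of x1 z1)⟩

/-- composition with the reflection number `i` -/
def cmp (G X : H2) (i : Nat) : H2 := cond (Nat.beq i (nat_lit 0)) (cmp0 G X) (cond (Nat.beq i (nat_lit 1)) (cmp1 G X) (cmp2 G X))

/-- `c * u` for the real constant `c = s/2^e'` -/
def csm (s n e' : Nat) (z : C2) : C2 := ⟨P2.smul s n e' z.x, P2.smul s n e' z.y⟩

end H2

/-- packed Hermitian matrix: in every field the entry number `k` (order `d0 d1 d2 Re a, Im a, Re b, Im b, Re c, Im c`) times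
`D^k`; `t` = bound for the sum over the nine entries of `n0 + n1 + n2 + r`. -/
structure HP where
  v : Nat
  g : Nat
  h : Nat
  n0 : Nat
  n1 : Nat
  n2 : Nat
  r : Nat
  e : Nat
  t : Nat

namespace HP

noncomputable def frc (x : HP) : HP :=
  ev x.v fun v => ev x.g fun g => ev x.h fun h => ev x.n0 fun n0 => ev x.n1 fun n1 => ev x.n2 fun n2 => ev x.r fun r =>
    ev x.e fun e => ev x.t fun t => ⟨v, g, h, n0, n1, n2, r, e, t⟩

def pk (a0 a1 a2 a3 a4 a5 a6 a7 a8 : Nat) : Nat :=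
  Nat.add a0 (Nat.shiftLeft (Nat.add a1 (Nat.shiftLeft (Nat.add a2 (Nat.shiftLeft (Nat.add a3 (Nat.shiftLeft (Nat.add a4
    (Nat.shiftLeft (Nat.add a5 (Nat.shiftLeft (Nat.add a6 (Nat.shiftLeft (Nat.add a7 (Nat.shiftLeft a8
    (nat_lit 160))) (nat_lit 160))) (nat_lit 160))) (nat_lit 160))) (nat_lit 160))) (nat_lit 160))) (nat_lit 160))) (nat_lit 160))

def nn (x : P2) : Nat := Nat.add (Nat.add x.n0 x.n1) (Nat.add x.n2 x.r)

/-- packing; all entries must have the scale `e` -/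
def of0 (M : H2) : HP :=
  ⟨Nat.mod (pk M.d0.v M.d1.v M.d2.v M.a.x.v M.a.y.v M.b.x.v M.b.y.v M.c.x.v M.c.y.v) MM,
   Nat.mod (pk M.d0.g M.d1.g M.d2.g M.a.x.g M.a.y.g M.b.x.g M.b.y.g M.c.x.g M.c.y.g) MM,
   Nat.mod (pk M.d0.h M.d1.h M.d2.h M.a.x.h M.a.y.h M.b.x.h M.b.y.h M.c.x.h M.c.y.h) MM,
   pk M.d0.n0 M.d1.n0 M.d2.n0 M.a.x.n0 M.a.y.n0 M.b.x.n0 M.b.y.n0 M.c.x.n0 M.c.y.n0,
   pk M.d0.n1 M.d1.n1 M.d2.n1 M.a.x.n1 M.a.y.n1 M.b.x.n1 M.b.y.n1 M.c.x.n1 M.c.y.n1,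
   pk M.d0.n2 M.d1.n2 M.d2.n2 M.a.x.n2 M.a.y.n2 M.b.x.n2 M.b.y.n2 M.c.x.n2 M.c.y.n2,
   pk M.d0.r M.d1.r M.d2.r M.a.x.r M.a.y.r M.b.x.r M.b.y.r M.c.x.r M.c.y.r,
   M.d0.e,
   Nat.add (Nat.add (Nat.add (nn M.d0) (nn M.d1)) (Nat.add (nn M.d2) (nn M.a.x)))
     (Nat.add (Nat.add (nn M.a.y) (nn M.b.x)) (Nat.add (nn M.b.y) (Nat.add (nn M.c.x) (nn M.c.y))))⟩

/-- maximum -/
def mx (a b : Nat) : Nat := cond (Nat.ble a b) b a

/-- the largest scale of the entries -/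
def emx (M : H2) : Nat :=
  mx (mx (mx M.d0.e M.d1.e) (mx M.d2.e M.a.x.e)) (mx (mx M.a.y.e M.b.x.e) (mx M.b.y.e (mx M.c.x.e M.c.y.e)))

/-- scale `x` to `E` (`x.e ≤ E`) -/
def al (E : Nat) (x : P2) : P2 := cond (Nat.beq x.e E) x (P2.up (Nat.sub E x.e) x)

def al2 (E : Nat) (M : H2) : H2 :=
  ⟨al E M.d0, al E M.d1, al E M.d2, ⟨al E M.a.x, al E M.a.y⟩, ⟨al E M.b.x, al E M.b.y⟩, ⟨al E M.c.x, al E M.c.y⟩⟩

/-- packing of a Hermitian matrix -/
noncomputable def ofH (M : H2) : HP := ev (emx M) fun E => of0 (al2 E M)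

/-- multiplication by the integer with residue `s` and absolute value `≤ n`, and by `2^-e'` -/
def smul (s n e' : Nat) (x : HP) : HP :=
  ⟨Nat.mod (Nat.mul s x.v) MM, Nat.mod (Nat.mul s x.g) MM, Nat.mod (Nat.mul s x.h) MM, Nat.mul n x.n0, Nat.mul n x.n1,
    Nat.mul n x.n2, Nat.mul n x.r, Nat.add x.e e', Nat.mul n x.t⟩

def up (k : Nat) (x : HP) : HP := smul (Nat.pow (nat_lit 2) k) (Nat.pow (nat_lit 2) k) k x

/-- negation -/
def neg (x : HP) : HP := smul M1 (nat_lit 1) (nat_lit 0) x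

/-- multiplication by a real model -/
def mul (s : P2) (x : HP) : HP :=
  ⟨Nat.mod (Nat.mul s.v x.v) MM,
   Nat.mod (Nat.add (Nat.mul s.v x.g) (Nat.mul s.g x.v)) MM,
   Nat.mod (Nat.add (Nat.add (Nat.mul s.v x.h) (Nat.mul s.h x.v)) (Nat.mul s.g x.g)) MM,
   Nat.mul s.n0 x.n0,
   Nat.add (Nat.mul s.n0 x.n1) (Nat.mul s.n1 x.n0),
   Nat.add (Nat.add (Nat.mul s.n0 x.n2) (Nat.mul s.n2 x.n0)) (Nat.mul s.n1 x.n1),
   Nat.add (Nat.add (Nat.mul s.n1 x.n2) (Nat.mul s.n2 (Nat.add x.n1 x.n2)))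
     (Nat.add (Nat.mul (Nat.add (Nat.add s.n0 s.n1) s.n2) x.r) (Nat.mul (Nat.add (Nat.add x.n0 x.n1) (Nat.add x.n2 x.r)) s.r)),
   Nat.add s.e x.e,
   Nat.mul (nn s) x.t⟩

def add0 (x y : HP) : HP :=
  ⟨Nat.mod (Nat.add x.v y.v) MM, Nat.mod (Nat.add x.g y.g) MM, Nat.mod (Nat.add x.h y.h) MM, Nat.add x.n0 y.n0, Nat.add x.n1 y.n1,
    Nat.add x.n2 y.n2, Nat.add x.r y.r, x.e, Nat.add x.t y.t⟩

def add (x y : HP) : HP :=
  cond (Nat.beq x.e y.e) (add0 x y) (cond (Nat.ble x.e y.e) (add0 (up (Nat.sub y.e x.e) x) y) (add0 x (up (Nat.sub x.e y.e) y)))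

end HP

/-- `2 ^ 768` -/
def PP : Nat := Nat.pow (nat_lit 2) (nat_lit 768)
def P1 : Nat := Nat.sub PP (nat_lit 1)
/-- `2 ^ 767 - 1` -/
def Ph : Nat := Nat.sub (Nat.pow (nat_lit 2) (nat_lit 767)) (nat_lit 1)

/-- second part of the semidefiniteness test: `0 < A`, `0 ≤ A C - b1² - b2²` -/
def psd2 (A C b1 b2 : Nat) : Bool :=
  and (and (Nat.ble (nat_lit 1) A) (Nat.ble A Ph))
    (Nat.ble (Nat.mod (Nat.add (Nat.mul A C) (Nat.mul P1 (Nat.add (Nat.mul b1 b1) (Nat.mul b2 b2)))) PP) Ph)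

/-- semidefiniteness of an integer Hermitian matrix with positive `d0` (entries = numbers congruent to them modulo `PP`) -/
def psd (d0 d1 d2 p q r s t w : Nat) : Bool :=
  psd2
    (Nat.mod (Nat.add (Nat.mul d0 d1) (Nat.mul P1 (Nat.add (Nat.mul p p) (Nat.mul q q)))) PP)
    (Nat.add (Nat.mul d0 d2) (Nat.mul P1 (Nat.add (Nat.mul r r) (Nat.mul s s))))
    (Nat.add (Nat.mul d0 t) (Nat.mul P1 (Nat.add (Nat.mul p r) (Nat.mul q s))))
    (Nat.add (Nat.add (Nat.mul d0 w) (Nat.mul q r)) (Nat.mul P1 (Nat.mul p s)))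

/-- offset `∑_{k<9} (D/2) D^k` -/
def O9 : Nat := HP.pk Dh Dh Dh Dh Dh Dh Dh Dh Dh
/-- `PP - D/2` -/
def Os : Nat := Nat.sub PP Dh

/-- digit at the bit position `s` (multiple of 160) -/
def dgt (N s : Nat) : Nat := Nat.mod (Nat.shiftRight N s) DD

/-- signed digit modulo `PP` -/
def sd (N s : Nat) : Nat := Nat.add (dgt N s) Os

def leaf1 (N : Nat) : Bool :=
  cond (Nat.ble (dgt N (nat_lit 0)) Dh) false
  (psd (sd N (nat_lit 0)) (sd N (nat_lit 160)) (sd N (nat_lit 320)) (sd N (nat_lit 480)) (sd N (nat_lit 640))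
    (sd N (nat_lit 800)) (sd N (nat_lit 960)) (sd N (nat_lit 1120)) (sd N (nat_lit 1280)))

/-- test at a corner: `V` = packed entries, residue modulo `BB` -/
noncomputable def f0 (V : Nat) : Bool := ev (Nat.mod (Nat.add V O9) BB) leaf1

/-- sum and difference modulo `BB` -/
def ad (x y : Nat) : Nat := Nat.mod (Nat.add x y) BB
def sb (x y : Nat) : Nat := Nat.mod (Nat.add x (Nat.sub BB y)) BB

noncomputable def f1 (V A : Nat) : Bool := and (f0 (ad V A)) (f0 (sb V A))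

noncomputable def f2 (V A B H : Nat) : Bool :=
  and (ev (ad V B) fun V' => ev (ad A H) fun A' => f1 V' A')
    (ev (sb V B) fun V' => ev (sb A H) fun A' => f1 V' A')

noncomputable def f3 (V A B C Hab Hac Hbc : Nat) : Bool :=
  and (ev (ad V C) fun V' => ev (ad A Hac) fun A' => ev (ad B Hbc) fun B' => f2 V' A' B' Hab)
    (ev (sb V C) fun V' => ev (sb A Hac) fun A' => ev (sb B Hbc) fun B' => f2 V' A' B' Hab)

noncomputable def f4 (V A B C E Hab Hac Hae Hbc Hbe Hce : Nat) : Bool :=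
  and (ev (ad V E) fun V' => ev (ad A Hae) fun A' => ev (ad B Hbe) fun B' => ev (ad C Hce) fun C' => f3 V' A' B' C' Hab Hac Hbc)
    (ev (sb V E) fun V' => ev (sb A Hae) fun A' => ev (sb B Hbe) fun B' => ev (sb C Hce) fun C' => f3 V' A' B' C' Hab Hac Hbc)

/-- offsets `(B/2) B^k` at the used positions -/
def OG : Nat := Nat.add (Nat.add Bh (Nat.shiftLeft Bh (nat_lit 1600))) (Nat.add (Nat.shiftLeft Bh (nat_lit 6400)) (Nat.shiftLeft Bh (nat_lit 9600)))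
def OH : Nat := Nat.add (Nat.add (Nat.add Bh (Nat.shiftLeft Bh (nat_lit 1600))) (Nat.add (Nat.shiftLeft Bh (nat_lit 3200)) (Nat.shiftLeft Bh (nat_lit 6400))))
  (Nat.add (Nat.add (Nat.shiftLeft Bh (nat_lit 8000)) (Nat.shiftLeft Bh (nat_lit 9600))) (Nat.add (Nat.add (Nat.shiftLeft Bh (nat_lit 11200))
  (Nat.shiftLeft Bh (nat_lit 12800))) (Nat.add (Nat.shiftLeft Bh (nat_lit 16000)) (Nat.shiftLeft Bh (nat_lit 19200)))))


/-- block (unsigned, offset `B/2`) at the bit position `s`, shifted right by `k` -/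
def ub (N s k : Nat) : Nat := Nat.shiftRight (Nat.mod (Nat.shiftRight N s) BB) k

/-- `|u - o|` -/
def ds (u o : Nat) : Nat := Nat.add (Nat.sub u o) (Nat.sub o u)

/-- ones at the positions of the linear part -/
def IG : Nat := Nat.add (Nat.add (nat_lit 1) (Nat.shiftLeft (nat_lit 1) (nat_lit 1600))) (Nat.add (Nat.shiftLeft (nat_lit 1) (nat_lit 6400)) (Nat.shiftLeft (nat_lit 1) (nat_lit 9600)))
/-- ones at the positions of the quadratic part -/
def IH : Nat := Nat.add (Nat.add (Nat.add (nat_lit 1) (Nat.shiftLeft (nat_lit 1) (nat_lit 1600))) (Nat.add (Nat.shiftLeft (nat_lit 1) (nat_lit 3200)) (Nat.shiftLeft (nat_lit 1) (nat_lit 6400))))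
  (Nat.add (Nat.add (Nat.shiftLeft (nat_lit 1) (nat_lit 8000)) (Nat.shiftLeft (nat_lit 1) (nat_lit 9600))) (Nat.add (Nat.add (Nat.shiftLeft (nat_lit 1) (nat_lit 11200))
  (Nat.shiftLeft (nat_lit 1) (nat_lit 12800))) (Nat.add (Nat.shiftLeft (nat_lit 1) (nat_lit 16000)) (Nat.shiftLeft (nat_lit 1) (nat_lit 19200)))))

/-- floor of all digits at once: `N` = number with the offsets, `I` = ones at the positions -/
def pfl (I k N : Nat) : Nat := Nat.land (Nat.shiftRight N k) (Nat.mul I (Nat.sub (Nat.shiftRight BB k) (nat_lit 1)))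
/-- residue without the offsets -/
def pfr (O k N : Nat) : Nat := Nat.mod (Nat.add N (Nat.sub MM (Nat.shiftRight O k))) MM
/-- the sum of the absolute values of the digits (without the offsets) -/
noncomputable def pfn (I O k N : Nat) : Nat :=
  ev (Nat.land (Nat.shiftRight N (Nat.sub (nat_lit 1599) k)) I) fun S =>
    Nat.mod (Nat.add (Nat.xor N (Nat.add (Nat.sub (Nat.shiftRight O k) I) S)) (Nat.sub I S)) (Nat.sub BB (nat_lit 1))

/-- round to the scale `e - k`, the norms become exact (nothing happens if the norms are too large or if `k > e`) -/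
noncomputable def P2.rnd (k : Nat) (x : P2) : P2 :=
  cond (and (Nat.ble (Nat.add (Nat.add x.n0 x.n1) x.n2) (Nat.sub Bh (nat_lit 1))) (and (Nat.ble k x.e) (Nat.ble k (nat_lit 1000))))
    (ev (Nat.shiftRight (Nat.mod (Nat.add x.v Bh) MM) k) fun v =>
     ev (pfl IG k (Nat.mod (Nat.add x.g OG) MM)) fun g =>
     ev (pfl IH k (Nat.mod (Nat.add x.h OH) MM)) fun h =>
      ⟨Nat.mod (Nat.add v (Nat.sub MM (Nat.shiftRight Bh k))) MM, pfr OG k g, pfr OH k h, ds v (Nat.shiftRight Bh k), pfn IG OG k g,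
        pfn IH OH k h, Nat.add (Nat.shiftRight x.r k) (nat_lit 16), Nat.sub x.e k⟩) x

noncomputable def C2.rnd (k : Nat) (z : C2) : C2 := ⟨P2.rnd k z.x, P2.rnd k z.y⟩


noncomputable def H2.rnd (k : Nat) (M : H2) : H2 :=
  ⟨P2.rnd k M.d0, P2.rnd k M.d1, P2.rnd k M.d2, C2.rnd k M.a, C2.rnd k M.b, C2.rnd k M.c⟩

/-- real 2x2 matrix of models: `altS i j l z = (-1)^l z + (p x_i + q x_j') c_i + (r x_i + s x_j') c_j'` -/
structure R4 where
  p : P2
  q : P2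
  r : P2
  s : P2

/-- `2 (-1)^l` (`par = l mod 2`) -/
def tw (par : Nat) : P2 := cond (Nat.beq par (nat_lit 0)) (P2.cst (nat_lit 2) (nat_lit 2) (nat_lit 0)) (P2.cst (Nat.sub MM (nat_lit 2)) (nat_lit 2) (nat_lit 0))

/-- one more letter: from the word of length `l` (parity `par`) starting with `j` to the word of length `l + 1` starting with `i`;
`a = |⟨c_i, c_j⟩|`; rounding to the scale `e - k` -/
noncomputable def R4.step (a : P2) (k par : Nat) (Q : R4) : R4 :=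
  ⟨P2.rnd k (P2.sub (P2.add Q.s (tw par)) (P2.dbl (P2.mul a Q.q))), P2.rnd k (P2.sub Q.r (P2.dbl (P2.mul a Q.p))), P2.neg Q.q, P2.neg Q.p⟩

/-- signed block at the bit position `s`, doubled, modulo `BB` -/
def bl2 (N s : Nat) : Nat := Nat.mod (Nat.mul (nat_lit 2) (Nat.add (Nat.mod (Nat.shiftRight N s) BB) Bh)) BB
/-- signed block at the bit position `s`, modulo `BB` -/
def bl (N s : Nat) : Nat := Nat.mod (Nat.add (Nat.mod (Nat.shiftRight N s) BB) Bh) BB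

/-- absolute value of the signed digit -/
noncomputable def ad1 (N s : Nat) : Nat := ev (dgt N s) fun u => Nat.add (Nat.sub u Dh) (Nat.sub Dh u)

/-- sum of the absolute values of the digits of the four diagonal blocks -/
noncomputable def sq (N1 N2 N3 N4 s : Nat) : Nat := Nat.add (Nat.add (ad1 N1 s) (ad1 N2 s)) (Nat.add (ad1 N3 s) (ad1 N4 s))

/-- reductions: `x k = ∑ |h_ii| + 2 r` of the entry number `k` -/
def red (x0 x1 x2 x3 x4 x5 x6 x7 x8 : Nat) : Nat :=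
  Nat.add (Nat.add x0 (Nat.add (Nat.add x3 x4) (Nat.add x5 x6)))
    (Nat.shiftLeft (Nat.add (Nat.add x1 (Nat.add (Nat.add x3 x4) (Nat.add x7 x8)))
      (Nat.shiftLeft (Nat.add x2 (Nat.add (Nat.add x5 x6) (Nat.add x7 x8))) (nat_lit 160))) (nat_lit 160))

noncomputable def rd (N1 N2 N3 N4 R s : Nat) : Nat := Nat.add (sq N1 N2 N3 N4 s) (Nat.mul (nat_lit 2) (dgt R s))

/-- total reduction (packed in the digits 0, 1, 2) -/
noncomputable def rdd (N1 N2 N3 N4 R : Nat) : Nat :=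
  red (rd N1 N2 N3 N4 R (nat_lit 0)) (rd N1 N2 N3 N4 R (nat_lit 160)) (rd N1 N2 N3 N4 R (nat_lit 320)) (rd N1 N2 N3 N4 R (nat_lit 480))
    (rd N1 N2 N3 N4 R (nat_lit 640)) (rd N1 N2 N3 N4 R (nat_lit 800)) (rd N1 N2 N3 N4 R (nat_lit 960)) (rd N1 N2 N3 N4 R (nat_lit 1120))
    (rd N1 N2 N3 N4 R (nat_lit 1280))

/-- The test: semidefinite on the whole box, `k` active variables (the first `k` ones; the others are 0). -/
noncomputable def tst (k : Nat) (X : HP) : Bool :=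
  ev (Nat.mod (Nat.add X.g OG) MM) fun N => ev (Nat.mod (Nat.add X.h OH) MM) fun K =>
  ev (bl K (nat_lit 0)) fun h11 => ev (bl K (nat_lit 3200)) fun h22 => ev (bl K (nat_lit 12800)) fun h33 => ev (bl K (nat_lit 19200)) fun h44 =>
  ev (rdd (ad h11 O9) (ad h22 O9) (ad h33 O9) (ad h44 O9) X.r) fun R =>
  ev (sb (Nat.mod (Nat.add (Nat.mul (nat_lit 2) X.v) (Nat.add (Nat.add h11 h22) (Nat.add h33 h44))) BB) R) fun V =>
  and (Nat.ble (Nat.mul (nat_lit 4) X.t) (Nat.sub Dh (nat_lit 1)))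
  (cond (Nat.beq k (nat_lit 4))
    (f4 V (bl2 N (nat_lit 0)) (bl2 N (nat_lit 1600)) (bl2 N (nat_lit 6400)) (bl2 N (nat_lit 9600)) (bl2 K (nat_lit 1600)) (bl2 K (nat_lit 6400))
      (bl2 K (nat_lit 9600)) (bl2 K (nat_lit 8000)) (bl2 K (nat_lit 11200)) (bl2 K (nat_lit 16000)))
  (cond (Nat.beq k (nat_lit 3))
    (f3 V (bl2 N (nat_lit 0)) (bl2 N (nat_lit 1600)) (bl2 N (nat_lit 6400)) (bl2 K (nat_lit 1600)) (bl2 K (nat_lit 6400)) (bl2 K (nat_lit 8000)))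
  (cond (Nat.beq k (nat_lit 2))
    (f2 V (bl2 N (nat_lit 0)) (bl2 N (nat_lit 1600)) (bl2 K (nat_lit 1600)))
    (f1 V (bl2 N (nat_lit 0))))))

end Pool.Agent.Work.MP_88b7aa_gt.Kc
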