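import Mathlib
import Pool.Agent.Work.MP_88b7aa_gt.Kc.T2

/-!
# Kernel evaluation of `cos` and `sin` at the points `v / 2^48`

`horA v n j k` is the Horner scheme for `e^{it}`, `t = v / 2^48`, at the scale `2^56`, in continuation passing style (only `Nat`
operations).  `cosN v`, `sinN v` are within 2 units of `2^48 cos t`, `2^48 sin t` for `|t| ≤ 3/5`; `cosPiN m` is within 4 units of
`2^48 cos (π / m)` for `3 ≤ m ≤ 20`.
-/

set_option autoImplicit false

namespace Pool.Agent.Work.MP_88b7aa_gt.Kc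

/-- `2^56` -/
def W56 : Nat := nat_lit 72057594037927936
/-- `2^48` -/
def W48 : Nat := nat_lit 281474976710656

/-- Horner scheme for `e^{it}`, `t = v / 2^48`, `n` terms, starting with the factor `1 / (j + 1)`. -/
noncomputable def horA {α : Type} (v : Nat) (n : Nat) : Nat → (Nat → Nat → α) → α :=
  Nat.rec (motive := fun _ => Nat → (Nat → Nat → α) → α) (fun _ k => k (nat_lit 0) (nat_lit 0))
    (fun _ ih j k => ev (Nat.succ j) fun j' => ih j' fun X Y =>
      ev (Nat.sub W56 (Nat.div (Nat.mul v Y) (Nat.mul j' W48))) fun X' =>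
      ev (Nat.div (Nat.mul v X) (Nat.mul j' W48)) fun Y' => k X' Y') n

/-- absolute value of an integer -/
noncomputable def nbI (z : Int) : Nat := Int.rec (motive := fun _ => Nat) (fun n => n) (fun n => Nat.succ n) z

/-- `2^48 cos (v / 2^48)` -/
noncomputable def cosN (v : Int) : Int := Int.ofNat (horA (nbI v) (nat_lit 16) (nat_lit 0) fun X _ => Nat.div X (nat_lit 256))

/-- `2^48 sin (v / 2^48)` -/
noncomputable def sinN (v : Int) : Int :=
  Int.rec (motive := fun _ => Int) (fun n => Int.ofNat (horA n (nat_lit 16) (nat_lit 0) fun _ Y => Nat.div Y (nat_lit 256)))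
    (fun n => Int.neg (Int.ofNat (horA (Nat.succ n) (nat_lit 16) (nat_lit 0) fun _ Y => Nat.div Y (nat_lit 256)))) v

/-! ### The recursion -/

theorem ev_eq' {α : Type} (n : ℕ) (k : ℕ → α) : ev n k = k n := by
  cases n <;> rfl

/-- the values of the Horner scheme -/
def hXY (v : ℕ) : ℕ → ℕ → ℕ × ℕ
  | 0, _ => (0, 0)
  | n + 1, j => (W56 - (v * (hXY v n (j + 1)).2) / ((j + 1) * W48), (v * (hXY v n (j + 1)).1) / ((j + 1) * W48))

theorem horA_eq {α : Type} (v n : ℕ) : ∀ (j : ℕ) (k : ℕ → ℕ → α), horA v n j k = k (hXY v n j).1 (hXY v n j).2 := by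
  induction n with
  | zero => intro j k; rfl
  | succ n ih =>
    intro j k
    show ev (Nat.succ j) (fun j' => horA v n j' fun X Y =>
      ev (Nat.sub W56 (Nat.div (Nat.mul v Y) (Nat.mul j' W48))) fun X' =>
      ev (Nat.div (Nat.mul v X) (Nat.mul j' W48)) fun Y' => k X' Y') = _
    rw [ev_eq', ih, ev_eq', ev_eq']
    rfl

/-- the real Horner scheme -/
noncomputable def RI (t : ℝ) : ℕ → ℕ → ℝ × ℝ
  | 0, _ => (0, 0)
  | n + 1, j => (1 - t / (j + 1) * (RI t n (j + 1)).2, t / (j + 1) * (RI t n (j + 1)).1)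

theorem frac_mem {t : ℝ} (h0 : 0 ≤ t) (h1 : t ≤ 1) (j : ℕ) : 0 ≤ t / (j + 1) ∧ t / (j + 1) ≤ 1 := by
  have hj : (0 : ℝ) < j + 1 := by positivity
  refine ⟨by positivity, ?_⟩
  rw [div_le_one hj]
  have : (0 : ℝ) ≤ j := Nat.cast_nonneg j
  linarith

theorem RI_mem {t : ℝ} (h0 : 0 ≤ t) (h1 : t ≤ 1) (n : ℕ) : ∀ j, (0 ≤ (RI t n j).1 ∧ (RI t n j).1 ≤ 1) ∧
    (0 ≤ (RI t n j).2 ∧ (RI t n j).2 ≤ 1) := by
  induction n with
  | zero => intro j; simp [RI]
  | succ n ih =>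
    intro j
    obtain ⟨⟨a1, a2⟩, ⟨b1, b2⟩⟩ := ih (j + 1)
    obtain ⟨f0, f1⟩ := frac_mem h0 h1 j
    refine ⟨⟨?_, ?_⟩, ⟨?_, ?_⟩⟩
    · show 0 ≤ 1 - t / (j + 1) * (RI t n (j + 1)).2
      nlinarith
    · show 1 - t / (j + 1) * (RI t n (j + 1)).2 ≤ 1
      nlinarith
    · show 0 ≤ t / (j + 1) * (RI t n (j + 1)).1
      positivity
    · show t / (j + 1) * (RI t n (j + 1)).1 ≤ 1
      nlinarith

theorem W48_pos : 0 < W48 := by decide
theorem W56_pos : 0 < W56 := by decide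

theorem W48_cast : (W48 : ℝ) = 281474976710656 := rfl
theorem W56_cast : (W56 : ℝ) = 72057594037927936 := rfl

/-- One division. -/
theorem div_step {v : ℕ} (hv : v ≤ W48) (j : ℕ) {Z : ℕ} (hZ : Z ≤ W56) {z ε : ℝ} (hz : |(Z : ℝ) - W56 * z| ≤ ε) :
    (v * Z / ((j + 1) * W48) ≤ W56) ∧ |((v * Z / ((j + 1) * W48) : ℕ) : ℝ) - W56 * ((v : ℝ) / W48 / (j + 1) * z)| ≤ ε + 1 := by
  have hd : 0 < (j + 1) * W48 := Nat.mul_pos (Nat.succ_pos j) W48_pos
  constructor
  · refine Nat.div_le_of_le_mul ?_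
    calc v * Z ≤ W48 * W56 := Nat.mul_le_mul hv hZ
      _ ≤ (j + 1) * W48 * W56 := by nlinarith [Nat.zero_le (j * W48 * W56)]
  · set q := v * Z / ((j + 1) * W48) with hq
    have h1 : ((j + 1) * W48) * q ≤ v * Z := Nat.mul_div_le _ _
    have h2 : v * Z < ((j + 1) * W48) * (q + 1) := by
      have := Nat.lt_mul_div_succ (v * Z) hd
      simpa [hq] using this
    have hD : (0 : ℝ) < ((j : ℝ) + 1) * W48 := by exact_mod_cast hd
    have h1' : (((j : ℝ) + 1) * W48) * q ≤ v * Z := by exact_mod_cast h1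
    have h2' : (v : ℝ) * Z < (((j : ℝ) + 1) * W48) * (q + 1) := by exact_mod_cast h2
    have e1 : (v : ℝ) / W48 / (j + 1) * Z = v * Z / ((j + 1) * W48) := by
      field_simp
    have g1 : (q : ℝ) ≤ (v : ℝ) / W48 / (j + 1) * Z := by
      rw [e1, le_div_iff₀ hD]
      linarith
    have g2 : (v : ℝ) / W48 / (j + 1) * Z < q + 1 := by
      rw [e1, div_lt_iff₀ hD]
      linarith
    have hW : (0 : ℝ) < W48 := by exact_mod_cast W48_pos
    have f := frac_mem (t := (v : ℝ) / W48) (by positivity) (by rw [div_le_one hW]; exact_mod_cast hv) j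
    have h3 : |(v : ℝ) / W48 / (j + 1) * (Z - W56 * z)| ≤ ε := by
      rw [abs_mul, abs_of_nonneg f.1]
      have := abs_nonneg ((Z : ℝ) - W56 * z)
      nlinarith [f.2]
    have h4 := abs_le.mp h3
    rw [abs_le]
    constructor <;> nlinarith [h4.1, h4.2]

theorem hXY_approx {v : ℕ} (hv : v ≤ W48) (n : ℕ) : ∀ j,
    ((hXY v n j).1 ≤ W56 ∧ |((hXY v n j).1 : ℝ) - W56 * (RI ((v : ℝ) / W48) n j).1| ≤ n) ∧
    ((hXY v n j).2 ≤ W56 ∧ |((hXY v n j).2 : ℝ) - W56 * (RI ((v : ℝ) / W48) n j).2| ≤ n) := by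
  induction n with
  | zero => intro j; simp [hXY, RI]
  | succ n ih =>
    intro j
    obtain ⟨⟨a1, a2⟩, ⟨b1, b2⟩⟩ := ih (j + 1)
    obtain ⟨c1, c2⟩ := div_step hv j b1 b2
    obtain ⟨d1, d2⟩ := div_step hv j a1 a2
    refine ⟨⟨Nat.sub_le _ _, ?_⟩, ⟨d1, ?_⟩⟩
    · show |((W56 - (v * (hXY v n (j + 1)).2) / ((j + 1) * W48) : ℕ) : ℝ) - W56 * (1 - (v : ℝ) / W48 / (j + 1) *
        (RI ((v : ℝ) / W48) n (j + 1)).2)| ≤ ((n + 1 : ℕ) : ℝ)
      rw [Nat.cast_sub c1]
      have e1 : (W56 : ℝ) - ((v * (hXY v n (j + 1)).2 / ((j + 1) * W48) : ℕ) : ℝ) - W56 * (1 - (v : ℝ) / W48 / (j + 1) *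
          (RI ((v : ℝ) / W48) n (j + 1)).2) = -(((v * (hXY v n (j + 1)).2 / ((j + 1) * W48) : ℕ) : ℝ) -
          W56 * ((v : ℝ) / W48 / (j + 1) * (RI ((v : ℝ) / W48) n (j + 1)).2)) := by ring
      rw [e1, abs_neg]
      push_cast at c2 ⊢
      exact c2
    · show |((v * (hXY v n (j + 1)).1 / ((j + 1) * W48) : ℕ) : ℝ) - W56 * ((v : ℝ) / W48 / (j + 1) *
        (RI ((v : ℝ) / W48) n (j + 1)).1)| ≤ ((n + 1 : ℕ) : ℝ)
      push_cast at d2 ⊢
      exact d2

/-! ### The Taylor polynomial -/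

/-- partial sums of the exponential series with shifted factorials -/
noncomputable def TT (x : ℂ) (n j : ℕ) : ℂ := ∑ m ∈ Finset.range n, x ^ m * ((j.factorial : ℂ) / ((j + m).factorial : ℂ))

theorem TT_zero (x : ℂ) (j : ℕ) : TT x 0 j = 0 := by simp [TT]

theorem TT_succ (x : ℂ) (n j : ℕ) : TT x (n + 1) j = 1 + x / (j + 1) * TT x n (j + 1) := by
  unfold TT
  rw [Finset.sum_range_succ', Finset.mul_sum]
  have h0 : ((j.factorial : ℕ) : ℂ) ≠ 0 := by exact_mod_cast Nat.factorial_ne_zero j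
  rw [add_comm]
  congr 1
  · simp [h0]
  · refine Finset.sum_congr rfl fun m _ => ?_
    have h1 : (((j + (m + 1)).factorial : ℕ) : ℂ) ≠ 0 := by exact_mod_cast Nat.factorial_ne_zero _
    have h2 : ((j + 1 : ℕ) : ℂ) ≠ 0 := by exact_mod_cast Nat.succ_ne_zero j
    have e1 : ((j + 1).factorial : ℂ) = (j + 1) * j.factorial := by
      rw [Nat.factorial_succ]
      push_cast
      ring
    have e2 : j + 1 + m = j + (m + 1) := by ring
    push_cast at h2
    rw [e2, e1, pow_succ]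
    field_simp

theorem TT_RI (t : ℝ) (n : ℕ) : ∀ j, TT (Complex.I * t) n j = ((RI t n j).1 : ℂ) + Complex.I * ((RI t n j).2 : ℂ) := by
  induction n with
  | zero => intro j; rw [TT_zero]; simp [RI]
  | succ n ih =>
    intro j
    rw [TT_succ, ih]
    have e1 : (RI t (n + 1) j).1 = 1 - t / (j + 1) * (RI t n (j + 1)).2 := rfl
    have e2 : (RI t (n + 1) j).2 = t / (j + 1) * (RI t n (j + 1)).1 := rfl
    rw [e1, e2]
    push_cast
    have hI : Complex.I * Complex.I = -1 := Complex.I_mul_I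
    linear_combination (t : ℂ) / (j + 1) * ((RI t n (j + 1)).2 : ℂ) * hI

theorem exp_TT {t : ℝ} (h0 : 0 ≤ t) (h1 : t ≤ 1) {n : ℕ} (hn : 0 < n) :
    |Real.cos t - (RI t n 0).1| ≤ t ^ n * ((n.succ : ℝ) * ((n.factorial : ℝ) * n)⁻¹) ∧
    |Real.sin t - (RI t n 0).2| ≤ t ^ n * ((n.succ : ℝ) * ((n.factorial : ℝ) * n)⁻¹) := by
  have hx : ‖Complex.I * (t : ℂ)‖ = t := by
    rw [norm_mul, Complex.norm_I, one_mul, Complex.norm_real, Real.norm_eq_abs, abs_of_nonneg h0]
  have h2 := Complex.exp_bound (x := Complex.I * (t : ℂ)) (by rw [hx]; exact h1) hn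
  rw [hx] at h2
  have e1 : ∑ m ∈ Finset.range n, (Complex.I * (t : ℂ)) ^ m / (m.factorial : ℂ) = TT (Complex.I * t) n 0 := by
    unfold TT
    refine Finset.sum_congr rfl fun m _ => ?_
    simp [div_eq_mul_inv]
  rw [e1, TT_RI] at h2
  have e2 : Complex.exp (Complex.I * t) = (Real.cos t : ℂ) + Complex.I * (Real.sin t : ℂ) := by
    rw [mul_comm Complex.I (t : ℂ), Complex.exp_mul_I, ← Complex.ofReal_cos, ← Complex.ofReal_sin]
    ring
  rw [e2] at h2
  set D : ℂ := (Real.cos t : ℂ) + Complex.I * (Real.sin t : ℂ) - (((RI t n 0).1 : ℂ) + Complex.I * ((RI t n 0).2 : ℂ)) with hD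
  have k1 : ∀ a b c d : ℝ, ((a : ℂ) + Complex.I * (b : ℂ) - ((c : ℂ) + Complex.I * (d : ℂ))).re = a - c := by
    intro a b c d
    simp
  have k2 : ∀ a b c d : ℝ, ((a : ℂ) + Complex.I * (b : ℂ) - ((c : ℂ) + Complex.I * (d : ℂ))).im = b - d := by
    intro a b c d
    simp
  have hre : D.re = Real.cos t - (RI t n 0).1 := k1 _ _ _ _
  have him : D.im = Real.sin t - (RI t n 0).2 := k2 _ _ _ _
  rw [← hre, ← him]
  exact ⟨(Complex.abs_re_le_norm D).trans h2, (Complex.abs_im_le_norm D).trans h2⟩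

/-! ### Sixteen terms -/

theorem tail16 {t : ℝ} (h0 : 0 ≤ t) (h1 : t ≤ 3 / 5) :
    (W56 : ℝ) * (t ^ 16 * (((16 : ℕ).succ : ℝ) * (((16 : ℕ).factorial : ℝ) * (16 : ℕ))⁻¹)) ≤ 2 := by
  have h2 : t ^ 16 ≤ (3 / 5 : ℝ) ^ 16 := pow_le_pow_left₀ h0 h1 16
  have h3 : (((16 : ℕ).succ : ℝ) * (((16 : ℕ).factorial : ℝ) * (16 : ℕ))⁻¹) = 17 / (20922789888000 * 16) := by
    norm_num [Nat.factorial]
  rw [h3, W56_cast]
  have h4 : (72057594037927936 : ℝ) * (t ^ 16 * (17 / (20922789888000 * 16))) ≤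
      72057594037927936 * ((3 / 5 : ℝ) ^ 16 * (17 / (20922789888000 * 16))) := by gcongr
  refine h4.trans ?_
  norm_num

/-- The values of the Horner scheme with sixteen terms. -/
theorem hor16 {v : ℕ} (hv : (v : ℝ) ≤ 3 / 5 * 281474976710656) :
    |(W56 : ℝ) * Real.cos ((v : ℝ) / 281474976710656) - (hXY v 16 0).1| ≤ 18 ∧
    |(W56 : ℝ) * Real.sin ((v : ℝ) / 281474976710656) - (hXY v 16 0).2| ≤ 18 := by
  set t : ℝ := (v : ℝ) / 281474976710656 with ht
  have h0 : 0 ≤ t := by positivity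
  have h1 : t ≤ 3 / 5 := by
    rw [ht, div_le_iff₀ (by norm_num)]
    exact hv
  have hvW : v ≤ W48 := by
    have : (v : ℝ) ≤ W48 := by
      rw [W48_cast]
      linarith
    exact_mod_cast this
  obtain ⟨c1, c2⟩ := exp_TT h0 (by linarith) (by norm_num : 0 < 16)
  obtain ⟨⟨_, a2⟩, ⟨_, b2⟩⟩ := hXY_approx hvW 16 0
  have e : (v : ℝ) / W48 = t := by rw [W48_cast]
  rw [e] at a2 b2
  have tl := tail16 h0 h1
  have hW : (0 : ℝ) ≤ W56 := by rw [W56_cast]; norm_num
  have d1 := mul_le_mul_of_nonneg_left c1 hW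
  have d2 := mul_le_mul_of_nonneg_left c2 hW
  have key : ∀ c R X T : ℝ, (W56 : ℝ) * |c - R| ≤ (W56 : ℝ) * T → (W56 : ℝ) * T ≤ 2 → |X - W56 * R| ≤ ((16 : ℕ) : ℝ) →
      |(W56 : ℝ) * c - X| ≤ 18 := by
    intro c R X T g1 g2 g3
    have g4 : (W56 : ℝ) * |c - R| = |W56 * (c - R)| := by rw [abs_mul, abs_of_nonneg hW]
    rw [g4] at g1
    have g5 := abs_le.mp (g1.trans g2)
    have g6 := abs_le.mp g3
    rw [abs_le]
    push_cast at g6
    constructor <;> nlinarith [g5.1, g5.2, g6.1, g6.2]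
  exact ⟨key _ _ _ _ d1 tl a2, key _ _ _ _ d2 tl b2⟩

theorem shift8 {X : ℕ} {y : ℝ} (h : |(W56 : ℝ) * y - X| ≤ 18) : |y * 281474976710656 - ((X / 256 : ℕ) : ℝ)| ≤ 2 := by
  have h1 : 256 * (X / 256) ≤ X := Nat.mul_div_le _ _
  have h2 : X < 256 * (X / 256 + 1) := by omega
  have h1' : (256 : ℝ) * ((X / 256 : ℕ) : ℝ) ≤ X := by exact_mod_cast h1
  have h2' : (X : ℝ) < 256 * (((X / 256 : ℕ) : ℝ) + 1) := by exact_mod_cast h2
  rw [W56_cast] at h
  have h3 := abs_le.mp h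
  rw [abs_le]
  constructor <;> linarith [h3.1, h3.2]

theorem nbI_eq (z : ℤ) : nbI z = z.natAbs := by
  cases z <;> rfl

theorem cosN_eq (v : ℤ) : cosN v = (((hXY v.natAbs 16 0).1 / 256 : ℕ) : ℤ) := by
  unfold cosN
  rw [horA_eq, nbI_eq]
  rfl

theorem sinN_nat (n : ℕ) : sinN (Int.ofNat n) = (((hXY n 16 0).2 / 256 : ℕ) : ℤ) := by
  unfold sinN
  show Int.ofNat (horA n 16 0 fun _ Y => Nat.div Y (nat_lit 256)) = _
  rw [horA_eq]
  rfl

theorem sinN_neg (n : ℕ) : sinN (Int.negSucc n) = -(((hXY (n + 1) 16 0).2 / 256 : ℕ) : ℤ) := by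
  unfold sinN
  show Int.neg (Int.ofNat (horA (n + 1) 16 0 fun _ Y => Nat.div Y (nat_lit 256))) = _
  rw [horA_eq]
  rfl

theorem cosN_ok (v : ℤ) (h : |(v : ℝ)| ≤ 3 / 5 * 281474976710656) :
    |Real.cos ((v : ℝ) / 281474976710656) * 281474976710656 - (cosN v : ℝ)| ≤ 2 := by
  have h1 : ((v.natAbs : ℕ) : ℝ) = |(v : ℝ)| := by
    rw [Nat.cast_natAbs, Int.cast_abs]
  have h2 := (hor16 (v := v.natAbs) (by rw [h1]; exact h)).1
  rw [cosN_eq]
  have e : Real.cos ((v : ℝ) / 281474976710656) = Real.cos ((v.natAbs : ℝ) / 281474976710656) := by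
    rw [h1, ← Real.cos_abs ((v : ℝ) / 281474976710656), abs_div, abs_of_pos (by norm_num : (0 : ℝ) < 281474976710656)]
  rw [e, Int.cast_natCast]
  exact shift8 h2

theorem sinN_ok (v : ℤ) (h : |(v : ℝ)| ≤ 3 / 5 * 281474976710656) :
    |Real.sin ((v : ℝ) / 281474976710656) * 281474976710656 - (sinN v : ℝ)| ≤ 2 := by
  cases v with
  | ofNat n =>
    have h1 : ((Int.ofNat n : ℤ) : ℝ) = (n : ℝ) := rfl
    rw [h1] at h ⊢
    rw [abs_of_nonneg (Nat.cast_nonneg n)] at h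
    rw [sinN_nat, Int.cast_natCast]
    exact shift8 (hor16 h).2
  | negSucc n =>
    have h1 : ((Int.negSucc n : ℤ) : ℝ) = -((n + 1 : ℕ) : ℝ) := by rw [Int.cast_negSucc]
    rw [h1] at h ⊢
    rw [abs_neg, abs_of_nonneg (Nat.cast_nonneg _)] at h
    rw [sinN_neg, Int.cast_neg, Int.cast_natCast, neg_div, Real.sin_neg]
    have h2 := shift8 (hor16 h).2
    have e : -Real.sin (((n + 1 : ℕ) : ℝ) / 281474976710656) * 281474976710656 - -(((hXY (n + 1) 16 0).2 / 256 : ℕ) : ℝ) =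
        -(Real.sin (((n + 1 : ℕ) : ℝ) / 281474976710656) * 281474976710656 - (((hXY (n + 1) 16 0).2 / 256 : ℕ) : ℝ)) := by
      ring
    rw [e, abs_neg]
    exact h2

/-! ### The table of `cos (π / m)` -/

/-- `2^48 cos (π / m)`, `3 ≤ m ≤ 20` -/
def cosPiN : Nat → Int
  | 3 => 140737488355328
  | 4 => 199032864766430
  | 5 => 227718039650213
  | 6 => 243764480361061
  | 7 => 253600191109860
  | 8 => 260048969897066
  | 9 => 264499958550889
  | 10 => 267698610774696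
  | 11 => 270073262402179
  | 12 => 271883949458937
  | 13 => 273295825447400
  | 14 => 274417811375947
  | 15 => 275324073136132
  | 16 => 276066513959654
  | 17 => 276682330340728
  | 18 => 277198739343585
  | 19 => 277636024903574
  | 20 => 278009552666403
  | _ => 0

theorem cosPi_of {m : ℕ} (q T : ℤ) (hq : |Real.pi / m * 281474976710656 - q| ≤ 51 / 100)
    (hq' : |(q : ℝ)| ≤ 3 / 5 * 281474976710656) (hT : |cosN q - T| ≤ 1) :
    |Real.cos (Real.pi / m) * 281474976710656 - T| ≤ 4 := by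
  have h1 := cosN_ok q hq'
  have h2 := Real.abs_cos_sub_cos_le (Real.pi / m) ((q : ℝ) / 281474976710656)
  have h3 : |Real.pi / m - (q : ℝ) / 281474976710656| * 281474976710656 ≤ 51 / 100 := by
    have e : Real.pi / m * 281474976710656 - q = (Real.pi / m - (q : ℝ) / 281474976710656) * 281474976710656 := by ring
    rw [e, abs_mul, abs_of_pos (by norm_num : (0 : ℝ) < 281474976710656)] at hq
    exact hq
  have h4 : |(cosN q : ℝ) - T| ≤ 1 := by exact_mod_cast hT
  have h5 : |(Real.cos (Real.pi / m) - Real.cos ((q : ℝ) / 281474976710656)) * 281474976710656| ≤ 51 / 100 := by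
    rw [abs_mul, abs_of_pos (by norm_num : (0 : ℝ) < 281474976710656)]
    exact (mul_le_mul_of_nonneg_right h2 (by norm_num)).trans h3
  have a1 := abs_le.mp h1
  have a4 := abs_le.mp h4
  have a5 := abs_le.mp h5
  rw [abs_le]
  constructor <;> linarith [a1.1, a1.2, a4.1, a4.2, a5.1, a5.2]

theorem pi_div {m : ℕ} (hm : 0 < m) (q : ℤ) (h1 : (q : ℝ) * m - 51 / 100 * m ≤ 3.14159265358979323846 * 281474976710656)
    (h2 : 3.14159265358979323847 * 281474976710656 ≤ (q : ℝ) * m + 51 / 100 * m) :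
    |Real.pi / m * 281474976710656 - q| ≤ 51 / 100 := by
  have g1 := Real.pi_gt_d20
  have g2 := Real.pi_lt_d20
  have hm' : (0 : ℝ) < m := by exact_mod_cast hm
  have e : Real.pi / m * 281474976710656 = Real.pi * 281474976710656 / m := by ring
  rw [e, abs_le]
  constructor
  · rw [le_sub_iff_add_le, le_div_iff₀ hm']
    linarith
  · rw [sub_le_iff_le_add, div_le_iff₀ hm']
    linarith

theorem cosPi_6 : |Real.cos (Real.pi / (6 : ℕ)) * 281474976710656 - (cosPiN 6 : ℝ)| ≤ 4 :=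
  cosPi_of 147379953167259 243764480361061 (pi_div (by norm_num) _ (by norm_num) (by norm_num)) (by norm_num) (by decide +kernel)

theorem cosPi_7 : |Real.cos (Real.pi / (7 : ℕ)) * 281474976710656 - (cosPiN 7 : ℝ)| ≤ 4 :=
  cosPi_of 126325674143365 253600191109860 (pi_div (by norm_num) _ (by norm_num) (by norm_num)) (by norm_num) (by decide +kernel)

theorem cosPi_8 : |Real.cos (Real.pi / (8 : ℕ)) * 281474976710656 - (cosPiN 8 : ℝ)| ≤ 4 :=
  cosPi_of 110534964875444 260048969897066 (pi_div (by norm_num) _ (by norm_num) (by norm_num)) (by norm_num) (by decide +kernel)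

theorem cosPi_9 : |Real.cos (Real.pi / (9 : ℕ)) * 281474976710656 - (cosPiN 9 : ℝ)| ≤ 4 :=
  cosPi_of 98253302111506 264499958550889 (pi_div (by norm_num) _ (by norm_num) (by norm_num)) (by norm_num) (by decide +kernel)

theorem cosPi_10 : |Real.cos (Real.pi / (10 : ℕ)) * 281474976710656 - (cosPiN 10 : ℝ)| ≤ 4 :=
  cosPi_of 88427971900356 267698610774696 (pi_div (by norm_num) _ (by norm_num) (by norm_num)) (by norm_num) (by decide +kernel)

theorem cosPi_11 : |Real.cos (Real.pi / (11 : ℕ)) * 281474976710656 - (cosPiN 11 : ℝ)| ≤ 4 :=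
  cosPi_of 80389065363960 270073262402179 (pi_div (by norm_num) _ (by norm_num) (by norm_num)) (by norm_num) (by decide +kernel)

theorem cosPi_12 : |Real.cos (Real.pi / (12 : ℕ)) * 281474976710656 - (cosPiN 12 : ℝ)| ≤ 4 :=
  cosPi_of 73689976583630 271883949458937 (pi_div (by norm_num) _ (by norm_num) (by norm_num)) (by norm_num) (by decide +kernel)

theorem cosPi_13 : |Real.cos (Real.pi / (13 : ℕ)) * 281474976710656 - (cosPiN 13 : ℝ)| ≤ 4 :=
  cosPi_of 68021516846427 273295825447400 (pi_div (by norm_num) _ (by norm_num) (by norm_num)) (by norm_num) (by decide +kernel)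

theorem cosPi_14 : |Real.cos (Real.pi / (14 : ℕ)) * 281474976710656 - (cosPiN 14 : ℝ)| ≤ 4 :=
  cosPi_of 63162837071683 274417811375947 (pi_div (by norm_num) _ (by norm_num) (by norm_num)) (by norm_num) (by decide +kernel)

theorem cosPi_15 : |Real.cos (Real.pi / (15 : ℕ)) * 281474976710656 - (cosPiN 15 : ℝ)| ≤ 4 :=
  cosPi_of 58951981266904 275324073136132 (pi_div (by norm_num) _ (by norm_num) (by norm_num)) (by norm_num) (by decide +kernel)

theorem cosPi_16 : |Real.cos (Real.pi / (16 : ℕ)) * 281474976710656 - (cosPiN 16 : ℝ)| ≤ 4 :=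
  cosPi_of 55267482437722 276066513959654 (pi_div (by norm_num) _ (by norm_num) (by norm_num)) (by norm_num) (by decide +kernel)

theorem cosPi_17 : |Real.cos (Real.pi / (17 : ℕ)) * 281474976710656 - (cosPiN 17 : ℝ)| ≤ 4 :=
  cosPi_of 52016454059033 276682330340728 (pi_div (by norm_num) _ (by norm_num) (by norm_num)) (by norm_num) (by decide +kernel)

theorem cosPi_18 : |Real.cos (Real.pi / (18 : ℕ)) * 281474976710656 - (cosPiN 18 : ℝ)| ≤ 4 :=
  cosPi_of 49126651055753 277198739343585 (pi_div (by norm_num) _ (by norm_num) (by norm_num)) (by norm_num) (by decide +kernel)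

theorem cosPi_19 : |Real.cos (Real.pi / (19 : ℕ)) * 281474976710656 - (cosPiN 19 : ℝ)| ≤ 4 :=
  cosPi_of 46541037842292 277636024903574 (pi_div (by norm_num) _ (by norm_num) (by norm_num)) (by norm_num) (by decide +kernel)

theorem cosPi_20 : |Real.cos (Real.pi / (20 : ℕ)) * 281474976710656 - (cosPiN 20 : ℝ)| ≤ 4 :=
  cosPi_of 44213985950178 278009552666403 (pi_div (by norm_num) _ (by norm_num) (by norm_num)) (by norm_num) (by decide +kernel)

theorem cosPi_3 : |Real.cos (Real.pi / (3 : ℕ)) * 281474976710656 - (cosPiN 3 : ℝ)| ≤ 4 := by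
  have e : (cosPiN 3 : ℝ) = 140737488355328 := by
    show ((140737488355328 : ℤ) : ℝ) = _
    norm_num
  rw [e]
  push_cast
  rw [Real.cos_pi_div_three]
  norm_num

theorem cosPi_4 : |Real.cos (Real.pi / (4 : ℕ)) * 281474976710656 - (cosPiN 4 : ℝ)| ≤ 4 := by
  have e : (cosPiN 4 : ℝ) = 199032864766430 := by
    show ((199032864766430 : ℤ) : ℝ) = _
    norm_num
  rw [e]
  push_cast
  rw [Real.cos_pi_div_four]
  have h1 : (1.414213562373095 : ℝ) ≤ √2 := Real.le_sqrt_of_sq_le (by norm_num)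
  have h2 : √2 ≤ (1.4142135623730951 : ℝ) := Real.sqrt_le_iff.mpr ⟨by norm_num, by norm_num⟩
  rw [abs_le]
  constructor <;> linarith

theorem cosPi_5 : |Real.cos (Real.pi / (5 : ℕ)) * 281474976710656 - (cosPiN 5 : ℝ)| ≤ 4 := by
  have e : (cosPiN 5 : ℝ) = 227718039650213 := by
    show ((227718039650213 : ℤ) : ℝ) = _
    norm_num
  rw [e]
  push_cast
  rw [Real.cos_pi_div_five]
  have h1 : (2.236067977499789 : ℝ) ≤ √5 := Real.le_sqrt_of_sq_le (by norm_num)
  have h2 : √5 ≤ (2.23606797749979 : ℝ) := Real.sqrt_le_iff.mpr ⟨by norm_num, by norm_num⟩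
  rw [abs_le]
  constructor <;> linarith

theorem cosPi_ok (m : ℕ) (h3 : 3 ≤ m) (h : m ≤ 20) :
    |Real.cos (Real.pi / m) * 281474976710656 - (cosPiN m : ℝ)| ≤ 4 := by
  interval_cases m
  · exact cosPi_3
  · exact cosPi_4
  · exact cosPi_5
  · exact cosPi_6
  · exact cosPi_7
  · exact cosPi_8
  · exact cosPi_9
  · exact cosPi_10
  · exact cosPi_11
  · exact cosPi_12
  · exact cosPi_13
  · exact cosPi_14
  · exact cosPi_15
  · exact cosPi_16
  · exact cosPi_17
  · exact cosPi_18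
  · exact cosPi_19
  · exact cosPi_20

end Pool.Agent.Work.MP_88b7aa_gt.Kc
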