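import Pool.Agent.Work.MP_88b7aa_gt.Kc.Ari
import Pool.Agent.Work.MP_88b7aa_gt.Kc.Trg
import Pool.Agent.Work.MP_88b7aa_gt.PQ.Lin

/-!
# The environment of a cell in the packed arithmetic (definitions)

`envC La Lb Lc Lt k = k e`, `e` the environment of `a, b, c, h = e^{i t}`, `t = θ / 6`, with the extra parameters `x 0, ..., x 3` and
the centre `o = adj G (1, 1, 1)`.  All entries are rounded to the scale 26 (the centre: 20).
-/

set_option autoImplicit false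

namespace Pool.Agent.Work.MP_88b7aa_gt.Kc

open Pool.Agent.Work.MP_88b7aa_gt.PQ

/-- residue of an integer -/
noncomputable def rsI (z : Int) : Nat :=
  Int.rec (motive := fun _ => Nat) (fun n => n) (fun n => Nat.sub MM (Nat.mod (Nat.succ n) MM)) z
/-- absolute value -/
noncomputable def abI (z : Int) : Nat := Int.rec (motive := fun _ => Nat) (fun n => n) (fun n => Nat.succ n) z

/-- the linear model -/
noncomputable def linP (L : Lin) : P2 :=
  ⟨rsI L.v, Nat.mod (Nat.add (Nat.add (rsI L.a1) (Nat.shiftLeft (rsI L.a2) (nat_lit 1600)))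
      (Nat.add (Nat.shiftLeft (rsI L.a3) (nat_lit 6400)) (Nat.shiftLeft (rsI L.a4) (nat_lit 9600)))) MM,
    nat_lit 0, abI L.v, Nat.add (Nat.add (abI L.a1) (abI L.a2)) (Nat.add (abI L.a3) (abI L.a4)), nat_lit 0, L.r, nat_lit 48⟩

/-- rounding to the scale `s` -/
noncomputable def rto (s : Nat) (x : P2) : P2 := P2.rnd (Nat.sub x.e s) x

/-- `2 ^ 48` -/
def T48 : Nat := nat_lit 281474976710656

/-- `cos (x / 2^48)` and `sin (x / 2^48)` times `2^40`, with an error at most 2, for `x ≤ 2^48` -/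
noncomputable def cs40 (x : Nat) : Nat := horA x (nat_lit 20) (nat_lit 0) fun X _ => Nat.div X (nat_lit 65536)
noncomputable def sn40 (x : Nat) : Nat := horA x (nat_lit 20) (nat_lit 0) fun _ Y => Nat.div Y (nat_lit 65536)

/-- model of a number of absolute value at most 1 -/
def triv : P2 := ⟨nat_lit 0, nat_lit 0, nat_lit 0, nat_lit 0, nat_lit 0, nat_lit 0, nat_lit 1, nat_lit 0⟩

/-- the linear part -/
noncomputable def dlt (L : Lin) : P2 := linP ⟨Int.ofNat (nat_lit 0), L.a1, L.a2, L.a3, L.a4, L.r⟩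

/-- bound of the linear part, times `2^48` -/
noncomputable def dbd (L : Lin) : Nat := Nat.add (Nat.add (Nat.add (abI L.a1) (abI L.a2)) (Nat.add (abI L.a3) (abI L.a4))) L.r

/-- enlarge the remainder -/
def adr (r : Nat) (x : P2) : P2 := ⟨x.v, x.g, x.h, x.n0, x.n1, x.n2, Nat.add x.r r, x.e⟩

/-- `cos` of the linear part `d`: `1 - d²/2`, error `5/96 D⁴` -/
noncomputable def csD (d : P2) (D : Nat) : P2 :=
  adr (Nat.succ (Nat.div (Nat.mul (nat_lit 5) (Nat.pow D (nat_lit 4))) (Nat.mul (nat_lit 96) (Nat.pow (nat_lit 2) (nat_lit 95)))))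
    (P2.add (P2.cst (nat_lit 1) (nat_lit 1) (nat_lit 0)) (P2.smul M1 (nat_lit 1) (nat_lit 1) (P2.mul d d)))

/-- `sin` of the linear part `d`: `d`, error `D³/6 + 5/96 D⁴` -/
noncomputable def snD (d : P2) (D : Nat) : P2 :=
  adr (Nat.add (Nat.add (Nat.div (Nat.pow D (nat_lit 3)) (Nat.mul (nat_lit 6) (Nat.pow (nat_lit 2) (nat_lit 96))))
    (Nat.div (Nat.mul (nat_lit 5) (Nat.pow D (nat_lit 4))) (Nat.mul (nat_lit 96) (Nat.pow (nat_lit 2) (nat_lit 144))))) (nat_lit 2)) d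

/-- `cos t0`, `sin t0` -/
noncomputable def cs0 (v : Int) : P2 := ev (cs40 (abI v)) fun c => ⟨c, nat_lit 0, nat_lit 0, c, nat_lit 0, nat_lit 0, nat_lit 2, nat_lit 40⟩
noncomputable def sn0 (v : Int) : P2 :=
  ev (sn40 (abI v)) fun s => ⟨Int.rec (motive := fun _ => Nat) (fun _ => s) (fun _ => Nat.sub MM (Nat.mod s MM)) v, nat_lit 0, nat_lit 0, s,
    nat_lit 0, nat_lit 0, nat_lit 2, nat_lit 40⟩

/-- the model of `e^{i t}`, rounded to the scale 26 -/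
noncomputable def hK (L : Lin) : Cx P2 :=
  cond (and (Nat.ble (abI L.v) T48) (Nat.ble (dbd L) T48))
    ⟨rto (nat_lit 26) (P2.sub (mulA (cs0 L.v) (csD (dlt L) (dbd L))) (mulA (sn0 L.v) (snD (dlt L) (dbd L)))),
     rto (nat_lit 26) (P2.add (mulA (cs0 L.v) (snD (dlt L) (dbd L))) (mulA (sn0 L.v) (csD (dlt L) (dbd L))))⟩
    ⟨triv, triv⟩

/-- rounding of a complex number -/
noncomputable def rtoC (s : Nat) (z : Cx P2) : Cx P2 := ⟨rto s z.re, rto s z.im⟩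

/-- the centre `adj G (1, 1, 1)` -/
def ctr {R : Type} (O : Ops R) (g : Gm R) : Rw R :=
  ⟨((((one' O).sub O (g.g12.cml O g.g12)).add O ((g.g12.cml O g.g02).sub O g.g01)).add O ((g.g01.mul O g.g12).sub O g.g02)),
   ((((g.g02.cml O g.g12).sub O (g.g01.cj O)).add O ((one' O).sub O (g.g02.cml O g.g02))).add O ((g.g01.cml O g.g02).sub O g.g12)),
   ((((g.g01.mul O g.g12).cj O).sub O (g.g02.cj O)).add O ((g.g02.cml O g.g01).sub O (g.g12.cj O))).add O ((one' O).sub O (g.g01.cml O g.g01))⟩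

/-- the variable `x i` (`s` = bit position) -/
def vrK (s : Nat) : P2 := ⟨nat_lit 0, Nat.shiftLeft (nat_lit 1) s, nat_lit 0, nat_lit 0, nat_lit 1, nat_lit 0, nat_lit 0, nat_lit 0⟩

/-- the real extra parameters -/
noncomputable def exR (g : Gm ℝ) (x : Fin 4 → ℝ) : List (Cx ℝ) :=
  [⟨x 0, OR.cst 0⟩, ⟨x 1, OR.cst 0⟩, ⟨x 2, OR.cst 0⟩, ⟨x 3, OR.cst 0⟩, (ctr OR g).a, (ctr OR g).b, (ctr OR g).c]

/-- The environment of a cell, forced. -/
noncomputable def envC (La Lb Lc Lt : Lin) (k : Ev P2 → Bool) : Bool :=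
  P2.ekA (rto (nat_lit 26) (linP La)) fun a => P2.ekA (rto (nat_lit 26) (linP Lb)) fun b => P2.ekA (rto (nat_lit 26) (linP Lc)) fun c =>
  cxK (hK Lt) fun h => cxK (rtoC (nat_lit 26) ((h.cj OP).mul OP (h.cj OP))) fun w =>
  cxK (rtoC (nat_lit 26) ((w.smul OP b).neg OP)) fun g01 => cxK (rtoC (nat_lit 26) (((w.cj OP).smul OP c).neg OP)) fun g02 =>
  cxK (rtoC (nat_lit 26) ((w.smul OP a).neg OP)) fun g12 =>
  cxK (rtoC (nat_lit 20) (ctr OP ⟨g01, g02, g12⟩).a) fun o0 => cxK (rtoC (nat_lit 20) (ctr OP ⟨g01, g02, g12⟩).b) fun o1 =>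
  cxK (rtoC (nat_lit 20) (ctr OP ⟨g01, g02, g12⟩).c) fun o2 =>
  P2.ekA (vrK (nat_lit 0)) fun x0 => P2.ekA (vrK (nat_lit 1600)) fun x1 => P2.ekA (vrK (nat_lit 6400)) fun x2 => P2.ekA (vrK (nat_lit 9600)) fun x3 =>
  k ⟨⟨g01, g02, g12⟩, [⟨a, P2.zero⟩, ⟨b, P2.zero⟩, ⟨c, P2.zero⟩, h, w, ⟨x0, P2.zero⟩, ⟨x1, P2.zero⟩, ⟨x2, P2.zero⟩, ⟨x3, P2.zero⟩, o0, o1, o2]⟩

end Pool.Agent.Work.MP_88b7aa_gt.Kc
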