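import Pool.Agent.Work.MP_88b7aa_gt.Kc.LinP

/-!
# Soundness of the packed environment of a cell
-/

set_option autoImplicit false

namespace Pool.Agent.Work.MP_88b7aa_gt.Kc

open Pool.Agent.Work.MP_88b7aa_gt.PQ
open ComplexConjugate Complex Matrix

seal MM BB Bh DD Dh M1 OG OH HP.pk PP P1 Ph Os O9 Mh

/-! ### Elementary models -/

theorem Rep.rto {x : Fin 4 → ℝ} (hx : ∀ i, |x i| ≤ 1) {y : ℝ} {X : P2} (h : Rep x y X) (s : ℕ) : Rep x y (rto s X) :=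
  h.rnd hx _

theorem Rep.adr {x : Fin 4 → ℝ} {y y' : ℝ} {X : P2} (h : Rep x y X) (k : ℕ) (hk : |y' - y| * 2 ^ X.e ≤ k) :
    Rep x y' (adr k X) := by
  obtain ⟨v, a, q, h⟩ := h
  refine ⟨v, a, q, ⟨h.hv, h.hg, h.hh, h.n0, h.n1, h.n2, ?_⟩⟩
  show |y' * 2 ^ X.e - (v + a.ev x + q.ev x)| ≤ ((X.r + k : ℕ) : ℝ)
  have e : y' * 2 ^ X.e - (v + a.ev x + q.ev x) = (y * 2 ^ X.e - (v + a.ev x + q.ev x)) + (y' - y) * 2 ^ X.e := by ring
  rw [e, Nat.cast_add]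
  refine (abs_add_le _ _).trans (add_le_add h.er ?_)
  rw [abs_mul, abs_of_pos (by positivity : (0 : ℝ) < 2 ^ X.e)]
  exact hk

theorem Rep.triv {x : Fin 4 → ℝ} {y : ℝ} (hy : |y| ≤ 1) : Rep x y triv := by
  refine ⟨0, ⟨0, 0, 0, 0⟩, ⟨0, 0, 0, 0, 0, 0, 0, 0, 0, 0⟩, ⟨?_, ?_, ?_, ?_, ?_, ?_, ?_⟩⟩
  · rfl
  · show ((0 : ℕ) : ℤ) ≡ (⟨0, 0, 0, 0⟩ : L4).pk [ZMOD MM]
    rw [L4.pk_zero]
    rfl
  · show ((0 : ℕ) : ℤ) ≡ (⟨0, 0, 0, 0, 0, 0, 0, 0, 0, 0⟩ : Q10).pk [ZMOD MM]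
    rw [Q10.pk_zero]
    rfl
  · simp
  · simp [L4.nrm]
  · simp [Q10.nrm]
  · show |y * 2 ^ 0 - _| ≤ ((1 : ℕ) : ℝ)
    simpa [L4.ev, Q10.ev] using hy

/-- a constant with a remainder -/
theorem Rep.con {x : Fin 4 → ℝ} {y : ℝ} (t : ℤ) (s n r e : ℕ) (hs : (s : ℤ) ≡ t [ZMOD MM]) (hn : |t| ≤ n)
    (hr : |y * 2 ^ e - t| ≤ r) : Rep x y ⟨s, 0, 0, n, 0, 0, r, e⟩ := by
  refine ⟨t, ⟨0, 0, 0, 0⟩, ⟨0, 0, 0, 0, 0, 0, 0, 0, 0, 0⟩, ⟨hs, ?_, ?_, hn, ?_, ?_, ?_⟩⟩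
  · show ((0 : ℕ) : ℤ) ≡ (⟨0, 0, 0, 0⟩ : L4).pk [ZMOD MM]
    rw [L4.pk_zero]
    rfl
  · show ((0 : ℕ) : ℤ) ≡ (⟨0, 0, 0, 0, 0, 0, 0, 0, 0, 0⟩ : Q10).pk [ZMOD MM]
    rw [Q10.pk_zero]
    rfl
  · simp [L4.nrm]
  · simp [Q10.nrm]
  · show |y * 2 ^ e - _| ≤ (r : ℝ)
    simpa [L4.ev, Q10.ev] using hr

/-! ### Twenty terms -/

theorem tail20 {t : ℝ} (h0 : 0 ≤ t) (h1 : t ≤ 1) :
    (W56 : ℝ) * (t ^ 20 * (((20 : ℕ).succ : ℝ) * (((20 : ℕ).factorial : ℝ) * (20 : ℕ))⁻¹)) ≤ 2 := by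
  have h2 : t ^ 20 ≤ 1 := pow_le_one₀ h0 h1
  have h3 : (((20 : ℕ).succ : ℝ) * (((20 : ℕ).factorial : ℝ) * (20 : ℕ))⁻¹) = 21 / (2432902008176640000 * 20) := by
    norm_num [Nat.factorial]
  rw [h3, W56_cast]
  have h4 : (72057594037927936 : ℝ) * (t ^ 20 * (21 / (2432902008176640000 * 20))) ≤
      72057594037927936 * (1 * (21 / (2432902008176640000 * 20))) := by gcongr
  refine h4.trans ?_
  norm_num

/-- The values of the Horner scheme with twenty terms. -/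
theorem hor20 {v : ℕ} (hv : v ≤ W48) :
    |(W56 : ℝ) * Real.cos ((v : ℝ) / 281474976710656) - (hXY v 20 0).1| ≤ 22 ∧
    |(W56 : ℝ) * Real.sin ((v : ℝ) / 281474976710656) - (hXY v 20 0).2| ≤ 22 := by
  set t : ℝ := (v : ℝ) / 281474976710656 with ht
  have h0 : 0 ≤ t := by positivity
  have hvR : (v : ℝ) ≤ 281474976710656 := by
    rw [← W48_cast]
    exact_mod_cast hv
  have h1 : t ≤ 1 := by
    rw [ht, div_le_iff₀ (by norm_num)]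
    linarith
  obtain ⟨c1, c2⟩ := exp_TT h0 h1 (by norm_num : 0 < 20)
  obtain ⟨⟨_, a2⟩, ⟨_, b2⟩⟩ := hXY_approx hv 20 0
  have e : (v : ℝ) / W48 = t := by rw [W48_cast]
  rw [e] at a2 b2
  have tl := tail20 h0 h1
  have hW : (0 : ℝ) ≤ W56 := by rw [W56_cast]; norm_num
  have d1 := mul_le_mul_of_nonneg_left c1 hW
  have d2 := mul_le_mul_of_nonneg_left c2 hW
  have key : ∀ c R X T : ℝ, (W56 : ℝ) * |c - R| ≤ (W56 : ℝ) * T → (W56 : ℝ) * T ≤ 2 → |X - W56 * R| ≤ ((20 : ℕ) : ℝ) →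
      |(W56 : ℝ) * c - X| ≤ 22 := by
    intro c R X T g1 g2 g3
    have g4 : (W56 : ℝ) * |c - R| = |W56 * (c - R)| := by rw [abs_mul, abs_of_nonneg hW]
    rw [g4] at g1
    have g5 := abs_le.mp (g1.trans g2)
    have g6 := abs_le.mp g3
    rw [abs_le]
    push_cast at g6
    constructor <;> nlinarith [g5.1, g5.2, g6.1, g6.2]
  exact ⟨key _ _ _ _ d1 tl a2, key _ _ _ _ d2 tl b2⟩

theorem shift16 {X : ℕ} {y : ℝ} (h : |(W56 : ℝ) * y - X| ≤ 22) : |y * 2 ^ 40 - ((X / 65536 : ℕ) : ℝ)| ≤ 2 := by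
  have h1 : 65536 * (X / 65536) ≤ X := Nat.mul_div_le _ _
  have h2 : X < 65536 * (X / 65536 + 1) := by omega
  have h1' : (65536 : ℝ) * ((X / 65536 : ℕ) : ℝ) ≤ X := by exact_mod_cast h1
  have h2' : (X : ℝ) < 65536 * (((X / 65536 : ℕ) : ℝ) + 1) := by exact_mod_cast h2
  rw [W56_cast] at h
  have h3 := abs_le.mp h
  rw [abs_le]
  constructor <;> linarith [h3.1, h3.2]

theorem cs40_ok {v : ℕ} (hv : v ≤ W48) : |Real.cos ((v : ℝ) / 281474976710656) * 2 ^ 40 - (cs40 v : ℝ)| ≤ 2 := by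
  have e : cs40 v = (hXY v 20 0).1 / 65536 := by
    unfold cs40
    rw [horA_eq]
    rfl
  rw [e]
  exact shift16 (hor20 hv).1

theorem sn40_ok {v : ℕ} (hv : v ≤ W48) : |Real.sin ((v : ℝ) / 281474976710656) * 2 ^ 40 - (sn40 v : ℝ)| ≤ 2 := by
  have e : sn40 v = (hXY v 20 0).2 / 65536 := by
    unfold sn40
    rw [horA_eq]
    rfl
  rw [e]
  exact shift16 (hor20 hv).2

theorem T48_eq : T48 = W48 := rfl

theorem cs0_ok (x : Fin 4 → ℝ) {v : ℤ} (hv : abI v ≤ T48) : Rep x (Real.cos ((v : ℝ) / 281474976710656)) (cs0 v) := by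
  unfold cs0
  rw [ev_eq]
  have h1 : ((v.natAbs : ℕ) : ℝ) = |(v : ℝ)| := by rw [Nat.cast_natAbs, Int.cast_abs]
  have e : Real.cos ((v : ℝ) / 281474976710656) = Real.cos (((abI v : ℕ) : ℝ) / 281474976710656) := by
    rw [abI_eq, h1, ← Real.cos_abs ((v : ℝ) / 281474976710656), abs_div, abs_of_pos (by norm_num : (0 : ℝ) < 281474976710656)]
  rw [e]
  exact Rep.con ((cs40 (abI v) : ℕ) : ℤ) _ _ _ _ rfl (by rw [abs_of_nonneg (Int.natCast_nonneg _)])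
    (by rw [Int.cast_natCast]; exact cs40_ok hv)

theorem sn0_ok (x : Fin 4 → ℝ) {v : ℤ} (hv : abI v ≤ T48) : Rep x (Real.sin ((v : ℝ) / 281474976710656)) (sn0 v) := by
  unfold sn0
  rw [ev_eq]
  cases v with
  | ofNat n =>
    have h2 := sn40_ok (v := n) hv
    exact Rep.con ((sn40 n : ℕ) : ℤ) _ _ _ _ rfl (by rw [abs_of_nonneg (Int.natCast_nonneg _)]; rfl)
      (by rw [Int.cast_natCast]; exact h2)
  | negSucc n =>
    have h2 := sn40_ok (v := n + 1) hv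
    have e : Real.sin (((Int.negSucc n : ℤ) : ℝ) / 281474976710656) = -Real.sin (((n + 1 : ℕ) : ℝ) / 281474976710656) := by
      rw [Int.cast_negSucc, neg_div, Real.sin_neg]
    rw [e]
    refine Rep.con (-((sn40 (n + 1) : ℕ) : ℤ)) _ _ _ _ ?_ ?_ ?_
    · show ((MM - sn40 (n + 1) % MM : ℕ) : ℤ) ≡ _ [ZMOD MM]
      rw [Nat.cast_sub (Nat.mod_lt _ MM_pos).le, Int.natCast_mod]
      have h1 : ((sn40 (n + 1) : ℕ) : ℤ) % MM ≡ ((sn40 (n + 1) : ℕ) : ℤ) [ZMOD MM] := Int.mod_modEq _ _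
      have h3 : (MM : ℤ) - ((sn40 (n + 1) : ℕ) : ℤ) % MM ≡ 0 - ((sn40 (n + 1) : ℕ) : ℤ) [ZMOD MM] := by
        refine Int.ModEq.sub ?_ h1
        rw [Int.modEq_iff_dvd]
        exact ⟨-1, by ring⟩
      rwa [zero_sub] at h3
    · rw [abs_neg, abs_of_nonneg (Int.natCast_nonneg _)]
      exact le_refl _
    · rw [Int.cast_neg, Int.cast_natCast]
      have e3 : -Real.sin (((n + 1 : ℕ) : ℝ) / 281474976710656) * 2 ^ 40 - -((sn40 (n + 1) : ℕ) : ℝ) =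
          -(Real.sin (((n + 1 : ℕ) : ℝ) / 281474976710656) * 2 ^ 40 - ((sn40 (n + 1) : ℕ) : ℝ)) := by ring
      show |-Real.sin (((n + 1 : ℕ) : ℝ) / 281474976710656) * 2 ^ 40 - -((sn40 (n + 1) : ℕ) : ℝ)| ≤ ((2 : ℕ) : ℝ)
      rw [e3, abs_neg]
      exact h2

/-! ### The linear part -/

theorem dlt_ok {x : Fin 4 → ℝ} {L : Lin} {t : ℝ} (h : L.Holds x t) :
    Rep x (t - (L.v : ℝ) / 281474976710656) (dlt L) := by
  refine linP_ok ?_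
  show |(t - (L.v : ℝ) / 281474976710656) * 281474976710656 - (((0 : ℤ) : ℝ) + L.a1 * x 0 + L.a2 * x 1 + L.a3 * x 2 +
    L.a4 * x 3)| ≤ L.r
  have e : (t - (L.v : ℝ) / 281474976710656) * 281474976710656 - (((0 : ℤ) : ℝ) + L.a1 * x 0 + L.a2 * x 1 + L.a3 * x 2 +
      L.a4 * x 3) = t * 281474976710656 - (L.v + L.a1 * x 0 + L.a2 * x 1 + L.a3 * x 2 + L.a4 * x 3) := by
    push_cast
    ring
  rw [e]
  exact h

theorem dbd_ok {x : Fin 4 → ℝ} (hx : ∀ i, |x i| ≤ 1) {L : Lin} {t : ℝ} (h : L.Holds x t) :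
    |t - (L.v : ℝ) / 281474976710656| * 281474976710656 ≤ dbd L := by
  have e1 : ((dbd L : ℕ) : ℝ) = ((|L.a1| : ℤ) : ℝ) + ((|L.a2| : ℤ) : ℝ) + (((|L.a3| : ℤ) : ℝ) + ((|L.a4| : ℤ) : ℝ)) + L.r := by
    rw [← abI_abs, ← abI_abs, ← abI_abs, ← abI_abs]
    show (((abI L.a1 + abI L.a2 + (abI L.a3 + abI L.a4)) + L.r : ℕ) : ℝ) = _
    push_cast
    ring
  have h0 := abs_le.mp h
  have h1 := abs_le.mp (abs_mul_le_of_one L.a1 (x 0) (hx 0))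
  have h2 := abs_le.mp (abs_mul_le_of_one L.a2 (x 1) (hx 1))
  have h3 := abs_le.mp (abs_mul_le_of_one L.a3 (x 2) (hx 2))
  have h4 := abs_le.mp (abs_mul_le_of_one L.a4 (x 3) (hx 3))
  have e2 : |t - (L.v : ℝ) / 281474976710656| * 281474976710656 = |t * 281474976710656 - L.v| := by
    have e3 : t * 281474976710656 - L.v = (t - (L.v : ℝ) / 281474976710656) * 281474976710656 := by ring
    rw [e3, abs_mul, abs_of_pos (by norm_num : (0 : ℝ) < 281474976710656)]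
  rw [e2, e1, abs_le]
  constructor <;> linarith [h0.1, h0.2, h1.1, h1.2, h2.1, h2.2, h3.1, h3.2, h4.1, h4.2]

theorem floor_succ (n d : ℕ) (hd : 0 < d) : (n : ℝ) / d ≤ ((n / d + 1 : ℕ) : ℝ) := by
  have h2 : n < d * (n / d + 1) := Nat.lt_mul_div_succ n hd
  have hd' : (0 : ℝ) < d := by exact_mod_cast hd
  rw [div_le_iff₀ hd']
  have h3 : (n : ℝ) < d * ((n / d + 1 : ℕ) : ℝ) := by exact_mod_cast h2
  linarith

theorem csD_ok {x : Fin 4 → ℝ} (hx : ∀ i, |x i| ≤ 1) {y : ℝ} {d : P2} (h : Rep x y d) (he : d.e = 48) {D : ℕ} (hD : D ≤ T48)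
    (hy : |y| * 281474976710656 ≤ D) : Rep x (Real.cos y) (csD d D) := by
  have hD' : (D : ℝ) ≤ 281474976710656 := by
    have h1 : (D : ℝ) ≤ T48 := by exact_mod_cast hD
    exact h1
  have hy1 : |y| ≤ 1 := by
    have : |y| * 281474976710656 ≤ 281474976710656 := hy.trans hD'
    linarith
  unfold csD
  have h1 := (Rep.cst x 1 1 1 0 rfl (by simp)).add ((h.mul hx h).smul (-1) M1 1 1 M1_eq (by simp))
  have e1 : ((1 : ℤ) : ℝ) / 2 ^ 0 + ((-1 : ℤ) : ℝ) * (y * y) / 2 ^ 1 = 1 - y ^ 2 / 2 := by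
    push_cast
    ring
  rw [e1] at h1
  have e2 : (P2.add (P2.cst 1 1 0) (P2.smul M1 1 1 (P2.mul d d))).e = 97 := by
    unfold P2.add
    rw [cond_beq, cond_ble]
    have e3 : (P2.smul M1 1 1 (P2.mul d d)).e = 97 := by
      show d.e + d.e + 1 = 97
      rw [he]
    have e4 : (P2.cst 1 1 0).e = 0 := rfl
    rw [e3, e4, if_neg (by norm_num), if_pos (by norm_num)]
    show 0 + (97 - 0) = 97
    norm_num
  refine h1.adr _ ?_
  rw [e2]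
  have h2 := Real.cos_bound hy1
  have h3 : |Real.cos y - (1 - y ^ 2 / 2)| * 2 ^ 97 ≤ |y| ^ 4 * (5 / 96) * 2 ^ 97 := mul_le_mul_of_nonneg_right h2 (by positivity)
  refine h3.trans ?_
  have h4 : |y| ≤ (D : ℝ) / 281474976710656 := by
    rw [le_div_iff₀ (by norm_num)]
    exact hy
  have h5 : |y| ^ 4 ≤ ((D : ℝ) / 281474976710656) ^ 4 := pow_le_pow_left₀ (abs_nonneg _) h4 4
  have h6 : |y| ^ 4 * (5 / 96) * 2 ^ 97 ≤ ((D : ℝ) / 281474976710656) ^ 4 * (5 / 96) * 2 ^ 97 := by gcongr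
  refine h6.trans ?_
  have h7 : ((D : ℝ) / 281474976710656) ^ 4 * (5 / 96) * 2 ^ 97 = ((5 * D ^ 4 : ℕ) : ℝ) / ((96 * 2 ^ 95 : ℕ) : ℝ) := by
    push_cast
    rw [div_pow]
    have e5 : (281474976710656 : ℝ) ^ 4 = 2 ^ 192 := by norm_num
    rw [e5]
    field_simp
    ring
  rw [h7]
  exact floor_succ (5 * D ^ 4) (96 * 2 ^ 95) (by positivity)

theorem snD_ok {x : Fin 4 → ℝ} {y : ℝ} {d : P2} (h : Rep x y d) (he : d.e = 48) {D : ℕ}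
    (hy : |y| * 281474976710656 ≤ D) : Rep x (Real.sin y) (snD d D) := by
  unfold snD
  refine h.adr _ ?_
  rw [he]
  have h1 := Real.abs_sub_sin_le y
  rw [abs_sub_comm] at h1
  have h4 : |y| ≤ (D : ℝ) / 281474976710656 := by
    rw [le_div_iff₀ (by norm_num)]
    exact hy
  have h5 : |y| ^ 3 ≤ ((D : ℝ) / 281474976710656) ^ 3 := pow_le_pow_left₀ (abs_nonneg _) h4 3
  have h6 : |Real.sin y - y| * 2 ^ 48 ≤ ((D : ℝ) / 281474976710656) ^ 3 / 6 * 2 ^ 48 := by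
    refine mul_le_mul_of_nonneg_right (h1.trans ?_) (by positivity)
    linarith
  refine h6.trans ?_
  have h7 : ((D : ℝ) / 281474976710656) ^ 3 / 6 * 2 ^ 48 = ((D ^ 3 : ℕ) : ℝ) / ((6 * 2 ^ 96 : ℕ) : ℝ) := by
    push_cast
    rw [div_pow]
    have e5 : (281474976710656 : ℝ) ^ 3 = 2 ^ 144 := by norm_num
    rw [e5]
    field_simp
    ring
  rw [h7]
  refine (floor_succ (D ^ 3) (6 * 2 ^ 96) (by positivity)).trans ?_
  have h8 : D ^ 3 / (6 * 2 ^ 96) + 1 ≤ D ^ 3 / (6 * 2 ^ 96) + 5 * D ^ 4 / (96 * 2 ^ 144) + 2 := by omega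
  exact_mod_cast h8

/-- The model of `e^{it}`. -/
theorem hK_ok {x : Fin 4 → ℝ} (hx : ∀ i, |x i| ≤ 1) {L : Lin} {t : ℝ} (h : L.Holds x t) :
    RC (Rep x) ⟨Real.cos t, Real.sin t⟩ (hK L) := by
  unfold hK
  cases hb : and (Nat.ble (abI L.v) T48) (Nat.ble (dbd L) T48) with
  | false =>
    rw [cond_false' rfl]
    exact ⟨Rep.triv (Real.abs_cos_le_one t), Rep.triv (Real.abs_sin_le_one t)⟩
  | true =>
    rw [cond_true' rfl]
    rw [Bool.and_eq_true, Nat.ble_eq, Nat.ble_eq] at hb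
    obtain ⟨hb1, hb2⟩ := hb
    set t0 : ℝ := (L.v : ℝ) / 281474976710656 with ht0
    set d : ℝ := t - t0 with hd
    have c0 := cs0_ok x hb1
    have s0 := sn0_ok x hb1
    have hd1 := dlt_ok h
    have hd2 := dbd_ok hx h
    have c1 := csD_ok hx hd1 rfl hb2 hd2
    have s1 := snD_ok hd1 rfl hd2
    rw [← ht0] at c0 s0 c1 s1
    have e : t = t0 + d := by rw [hd]; ring
    constructor
    · show Rep x (Real.cos t) _
      rw [e, Real.cos_add]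
      exact ((c0.mulA hx c1).sub (s0.mulA hx s1)).rto hx _
    · show Rep x (Real.sin t) _
      rw [e, Real.sin_add, add_comm]
      exact ((c0.mulA hx s1).add (s0.mulA hx c1)).rto hx _

/-! ### The environment -/

theorem cxK_eq {α : Type} (z : Cx P2) (k : Cx P2 → α) : cxK z k = k z := by
  unfold cxK
  rw [P2.ekA_eq, P2.ekA_eq]

theorem RC.rtoC {x : Fin 4 → ℝ} (hx : ∀ i, |x i| ≤ 1) {y : Cx ℝ} {z : Cx P2} (h : RC (Rep x) y z) (s : ℕ) :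
    RC (Rep x) y (rtoC s z) := ⟨h.re.rto hx s, h.im.rto hx s⟩

/-- The variable `x i`. -/
theorem vrK_ok (x : Fin 4 → ℝ) : Rep x (x 0) (vrK 0) ∧ Rep x (x 1) (vrK 1600) ∧ Rep x (x 2) (vrK 6400) ∧
    Rep x (x 3) (vrK 9600) := by
  refine ⟨?_, ?_, ?_, ?_⟩
  · unfold vrK
    refine ⟨0, ⟨1, 0, 0, 0⟩, ⟨0, 0, 0, 0, 0, 0, 0, 0, 0, 0⟩, ⟨rfl, ?_, ?_, by simp, by simp [L4.nrm], by simp [Q10.nrm], ?_⟩⟩
    · rw [shl_BB 1 0 0 rfl]
      refine modEq_of_eq ?_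
      unfold L4.pk
      push_cast
      ring
    · refine modEq_of_eq ?_
      rw [Q10.pk_zero]
      rfl
    · simp [L4.ev, Q10.ev]
  · unfold vrK
    refine ⟨0, ⟨0, 1, 0, 0⟩, ⟨0, 0, 0, 0, 0, 0, 0, 0, 0, 0⟩, ⟨rfl, ?_, ?_, by simp, by simp [L4.nrm], by simp [Q10.nrm], ?_⟩⟩
    · rw [shl_BB 1 1 1600 rfl]
      refine modEq_of_eq ?_
      unfold L4.pk
      push_cast
      ring
    · refine modEq_of_eq ?_
      rw [Q10.pk_zero]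
      rfl
    · simp [L4.ev, Q10.ev]
  · unfold vrK
    refine ⟨0, ⟨0, 0, 1, 0⟩, ⟨0, 0, 0, 0, 0, 0, 0, 0, 0, 0⟩, ⟨rfl, ?_, ?_, by simp, by simp [L4.nrm], by simp [Q10.nrm], ?_⟩⟩
    · rw [shl_BB 1 4 6400 rfl]
      refine modEq_of_eq ?_
      unfold L4.pk
      push_cast
      ring
    · refine modEq_of_eq ?_
      rw [Q10.pk_zero]
      rfl
    · simp [L4.ev, Q10.ev]
  · unfold vrK
    refine ⟨0, ⟨0, 0, 0, 1⟩, ⟨0, 0, 0, 0, 0, 0, 0, 0, 0, 0⟩, ⟨rfl, ?_, ?_, by simp, by simp [L4.nrm], by simp [Q10.nrm], ?_⟩⟩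
    · rw [shl_BB 1 6 9600 rfl]
      refine modEq_of_eq ?_
      unfold L4.pk
      push_cast
      ring
    · refine modEq_of_eq ?_
      rw [Q10.pk_zero]
      rfl
    · simp [L4.ev, Q10.ev]

theorem RRw.ctr {R : Type} {O : Ops R} {Rel : ℝ → R → Prop} (h : OpsRel O Rel) {g : Gm ℝ} {g' : Gm R} (hg : RG Rel g g') :
    RRw Rel (Kc.ctr OR g) (Kc.ctr O g') := by
  have u := RC.one h
  have a := hg.g01
  have b := hg.g02
  have c := hg.g12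
  exact ⟨.add h (.add h (.sub h u (.cml h c c)) (.sub h (.cml h c b) a)) (.sub h (.mul h a c) b),
    .add h (.add h (.sub h (.cml h b c) (.cj h a)) (.sub h u (.cml h b b))) (.sub h (.cml h a b) c),
    .add h (.add h (.sub h (.cj h (.mul h a c)) (.cj h b)) (.sub h (.cml h b a) (.cj h c))) (.sub h u (.cml h a a))⟩

/-- The environment of a cell, without forcing. -/
noncomputable def envE (La Lb Lc Lt : Lin) : Ev P2 :=
  let a := rto (nat_lit 26) (linP La)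
  let b := rto (nat_lit 26) (linP Lb)
  let c := rto (nat_lit 26) (linP Lc)
  let h := hK Lt
  let w := rtoC (nat_lit 26) ((h.cj OP).mul OP (h.cj OP))
  let g01 := rtoC (nat_lit 26) ((w.smul OP b).neg OP)
  let g02 := rtoC (nat_lit 26) (((w.cj OP).smul OP c).neg OP)
  let g12 := rtoC (nat_lit 26) ((w.smul OP a).neg OP)
  ⟨⟨g01, g02, g12⟩, [⟨a, P2.zero⟩, ⟨b, P2.zero⟩, ⟨c, P2.zero⟩, h, w, ⟨vrK (nat_lit 0), P2.zero⟩, ⟨vrK (nat_lit 1600), P2.zero⟩,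
    ⟨vrK (nat_lit 6400), P2.zero⟩, ⟨vrK (nat_lit 9600), P2.zero⟩, rtoC (nat_lit 20) (ctr OP ⟨g01, g02, g12⟩).a,
    rtoC (nat_lit 20) (ctr OP ⟨g01, g02, g12⟩).b, rtoC (nat_lit 20) (ctr OP ⟨g01, g02, g12⟩).c]⟩

theorem envC_eq (La Lb Lc Lt : Lin) (k : Ev P2 → Bool) : envC La Lb Lc Lt k = k (envE La Lb Lc Lt) := by
  unfold envC envE
  simp only [P2.ekA_eq, cxK_eq]

theorem Rep.zero' (x : Fin 4 → ℝ) : Rep x (OR.cst 0) P2.zero := by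
  rw [OR_zero]
  exact Rep.zero x

/-- Soundness of the environment. -/
theorem envE_ok {x : Fin 4 → ℝ} (hx : ∀ i, |x i| ≤ 1) {La Lb Lc Lt : Lin} {a b c t : ℝ} (ha : La.Holds x a)
    (hb : Lb.Holds x b) (hc : Lc.Holds x c) (ht : Lt.Holds x t) :
    REv (Rep x) (mkEv OR a b c ⟨Real.cos t, Real.sin t⟩
      (exR (mkEv OR a b c ⟨Real.cos t, Real.sin t⟩ []).g x)) (envE La Lb Lc Lt) := by
  have hO := OP_rel hx
  have ra := (linP_ok ha).rto hx (nat_lit 26)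
  have rb := (linP_ok hb).rto hx (nat_lit 26)
  have rc := (linP_ok hc).rto hx (nat_lit 26)
  have rh := hK_ok hx ht
  have rw' := RC.rtoC hx (RC.mul hO (RC.cj hO rh) (RC.cj hO rh)) (nat_lit 26)
  have r01 := RC.rtoC hx (RC.neg hO (RC.smul hO rb rw')) (nat_lit 26)
  have r02 := RC.rtoC hx (RC.neg hO (RC.smul hO rc (RC.cj hO rw'))) (nat_lit 26)
  have r12 := RC.rtoC hx (RC.neg hO (RC.smul hO ra rw')) (nat_lit 26)
  have rg : RG (Rep x) (mkEv OR a b c ⟨Real.cos t, Real.sin t⟩ []).g (envE La Lb Lc Lt).g := ⟨r01, r02, r12⟩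
  have rt := RRw.ctr hO rg
  obtain ⟨v0, v1, v2, v3⟩ := vrK_ok x
  have z := Rep.zero' x
  refine ⟨⟨r01, r02, r12⟩, ?_⟩
  exact .cons ⟨ra, z⟩ (.cons ⟨rb, z⟩ (.cons ⟨rc, z⟩ (.cons rh (.cons rw' (.cons ⟨v0, z⟩ (.cons ⟨v1, z⟩ (.cons ⟨v2, z⟩
    (.cons ⟨v3, z⟩ (.cons (RC.rtoC hx rt.a _) (.cons (RC.rtoC hx rt.b _) (.cons (RC.rtoC hx rt.c _) .nil)))))))))))

theorem envC_ok {x : Fin 4 → ℝ} (hx : ∀ i, |x i| ≤ 1) {La Lb Lc Lt : Lin} {a b c t : ℝ} (ha : La.Holds x a)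
    (hb : Lb.Holds x b) (hc : Lc.Holds x c) (ht : Lt.Holds x t) :
    ∃ e' : Ev P2, REv (Rep x) (mkEv OR a b c ⟨Real.cos t, Real.sin t⟩
      (exR (mkEv OR a b c ⟨Real.cos t, Real.sin t⟩ []).g x)) e' ∧ ∀ k, envC La Lb Lc Lt k = k e' :=
  ⟨envE La Lb Lc Lt, envE_ok hx ha hb hc ht, envC_eq La Lb Lc Lt⟩

end Pool.Agent.Work.MP_88b7aa_gt.Kc
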