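import Pool.Agent.Work.MP_88b7aa_gt.Kc.EnvS
import Pool.Agent.Work.MP_88b7aa_gt.PQ.Out

/-!
# The packed arithmetic in the cover theorem
-/

set_option autoImplicit false

namespace Pool.Agent.Work.MP_88b7aa_gt.Kc

open Pool.Agent.Work.MP_88b7aa_gt.PQ

/-- the extra parameters of the environment of a box -/
noncomputable def exK (a b c t : ℝ) (x : Fin 4 → ℝ) : List (Cx ℝ) := exR (mkEv OR a b c (zz t) []).g x

/-- the environment of a box -/
noncomputable def envB (B : Bx4) : Ev P2 := envE B.a B.b B.c B.t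

/-- the environment of a box, forced -/
noncomputable def envK (B : Bx4) (k : Ev P2 → Bool) : Bool := envC B.a B.b B.c B.t k

theorem envK_eq (B : Bx4) (k : Ev P2 → Bool) : envK B k = k (envB B) := envC_eq _ _ _ _ k

theorem AK_cub {k : ℕ} (hk : k ≤ 4) : ∀ x, Cub k x → ArpOK (AK k) (Rep x) (RelP x) := fun _ hx => AK_ok hk hx.le hx.zr

theorem envB_ok (k : ℕ) : EnvOK (fun x => Rep x) k (fun _ => true) envB exK :=
  ⟨fun _ _ _ hx _ _ _ _ hB => envE_ok hx.le hB.a hB.b hB.c hB.t⟩

/-- A box which is outside. -/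
theorem outK {k : ℕ} (hk : k ≤ 4) (K : ℕ → ℕ → ℕ → Prop) (B : Bx4) (m : ℕ)
    (h : envK B (fun e => outc (AK k) e m) = true) : Outs K k B := by
  refine outc_sound (AK_cub hk) (envB_ok k) K B m ?_
  rw [envK_eq] at h
  rw [Bool.true_and]
  exact h

end Pool.Agent.Work.MP_88b7aa_gt.Kc
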