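import Pool.Agent.Work.MP_88b7aa_gt.Kc.S6
import Pool.Agent.Work.MP_88b7aa_gt.Kc.Env

/-!
# Linear models in the packed arithmetic
-/

set_option autoImplicit false

namespace Pool.Agent.Work.MP_88b7aa_gt.Kc

open Pool.Agent.Work.MP_88b7aa_gt.PQ

seal MM BB Bh DD Dh M1 OG OH HP.pk PP P1 Ph Os O9 Mh

theorem rsI_mod (z : ℤ) : (rsI z : ℤ) ≡ z [ZMOD MM] := by
  cases z with
  | ofNat n => exact Int.ModEq.refl _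
  | negSucc n =>
    show ((MM - (n + 1) % MM : ℕ) : ℤ) ≡ _ [ZMOD MM]
    rw [Nat.cast_sub (Nat.mod_lt _ MM_pos).le, Int.natCast_mod]
    have h1 : (((n + 1 : ℕ) : ℤ) % MM) ≡ ((n + 1 : ℕ) : ℤ) [ZMOD MM] := Int.mod_modEq _ _
    have h2 : (MM : ℤ) - ((n + 1 : ℕ) : ℤ) % MM ≡ 0 - ((n + 1 : ℕ) : ℤ) [ZMOD MM] := by
      refine Int.ModEq.sub ?_ h1
      rw [Int.modEq_iff_dvd]
      exact ⟨-1, by ring⟩
    rw [zero_sub] at h2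
    exact h2

theorem nbI_abs (z : ℤ) : ((nbI z : ℕ) : ℤ) = |z| := by rw [nbI_eq, Int.natCast_natAbs]

theorem abI_eq (z : ℤ) : abI z = z.natAbs := by
  cases z <;> rfl

theorem abI_abs (z : ℤ) : ((abI z : ℕ) : ℤ) = |z| := by rw [abI_eq, Int.natCast_natAbs]

/-- The linear model with residues of the coefficients. -/
theorem Rep.linA {x : Fin 4 → ℝ} {y : ℝ} (V A1 A2 A3 A4 : ℤ) (v nv a1 a2 a3 a4 n1 r e : ℕ) (hv : (v : ℤ) ≡ V [ZMOD MM])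
    (h1 : (a1 : ℤ) ≡ A1 [ZMOD MM]) (h2 : (a2 : ℤ) ≡ A2 [ZMOD MM]) (h3 : (a3 : ℤ) ≡ A3 [ZMOD MM])
    (h4 : (a4 : ℤ) ≡ A4 [ZMOD MM]) (hn0 : |V| ≤ nv) (hn1 : |A1| + |A2| + |A3| + |A4| ≤ n1)
    (her : |y * 2 ^ e - (V + A1 * x 0 + A2 * x 1 + A3 * x 2 + A4 * x 3)| ≤ r) :
    Rep x y (Kc.linA v nv a1 a2 a3 a4 n1 r e) := by
  unfold Kc.linA
  rw [shl_BB a2 1 (nat_lit 1600) rfl, shl_BB a3 4 (nat_lit 6400) rfl, shl_BB a4 6 (nat_lit 9600) rfl]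
  refine ⟨V, ⟨A1, A2, A3, A4⟩, ⟨0, 0, 0, 0, 0, 0, 0, 0, 0, 0⟩, ⟨hv, ?_, ?_, hn0, hn1, ?_, ?_⟩⟩
  · refine (modM _).trans ?_
    show ((a1 + a2 * BB ^ 1 + (a3 * BB ^ 4 + a4 * BB ^ 6) : ℕ) : ℤ) ≡ _ [ZMOD MM]
    push_cast
    have := (h1.add (h2.mul_right ((BB : ℤ) ^ 1))).add ((h3.mul_right ((BB : ℤ) ^ 4)).add (h4.mul_right ((BB : ℤ) ^ 6)))
    refine this.trans (modEq_of_eq ?_)
    unfold L4.pk
    ring
  · show ((0 : ℕ) : ℤ) ≡ (⟨0, 0, 0, 0, 0, 0, 0, 0, 0, 0⟩ : Q10).pk [ZMOD MM]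
    rw [Q10.pk_zero]
    rfl
  · simp [Kc.linA, Q10.nrm]
  · have e1 : (V : ℝ) + (⟨A1, A2, A3, A4⟩ : L4).ev x + (⟨0, 0, 0, 0, 0, 0, 0, 0, 0, 0⟩ : Q10).ev x =
        V + A1 * x 0 + A2 * x 1 + A3 * x 2 + A4 * x 3 := by
      unfold L4.ev Q10.ev
      push_cast
      ring
    rw [e1]
    exact her

theorem linP_eq (L : Lin) : linP L = Kc.linA (rsI L.v) (abI L.v) (rsI L.a1) (rsI L.a2) (rsI L.a3) (rsI L.a4)
    (Nat.add (Nat.add (abI L.a1) (abI L.a2)) (Nat.add (abI L.a3) (abI L.a4))) L.r (nat_lit 48) := by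
  unfold linP Kc.linA
  rfl

theorem linP_ok {x : Fin 4 → ℝ} {L : Lin} {y : ℝ} (h : L.Holds x y) : Rep x y (linP L) := by
  rw [linP_eq]
  refine Rep.linA L.v L.a1 L.a2 L.a3 L.a4 _ _ _ _ _ _ _ _ _ (rsI_mod _) (rsI_mod _) (rsI_mod _) (rsI_mod _) (rsI_mod _)
    (abI_abs _).ge ?_ ?_
  · show _ ≤ (((abI L.a1 + abI L.a2) + (abI L.a3 + abI L.a4) : ℕ) : ℤ)
    push_cast
    rw [abI_abs, abI_abs, abI_abs, abI_abs]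
    linarith
  · have e : (2 : ℝ) ^ 48 = 281474976710656 := by norm_num
    show |y * 2 ^ 48 - _| ≤ _
    rw [e]
    exact h

/-- The builder. -/
noncomputable def BP : Bld P2 := ⟨OP, linP⟩

theorem BP_ok {x : Fin 4 → ℝ} (hx : ∀ i, |x i| ≤ 1) : BldOK BP (Rep x) x := ⟨OP_rel hx, fun h => linP_ok h⟩

end Pool.Agent.Work.MP_88b7aa_gt.Kc
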