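import Pool.Agent.Work.MP_88b7aa_gt.Kc.Mod
import Pool.Agent.Work.MP_88b7aa_gt.Kc.CellL

/-!
# The check functions of the modules (packed arithmetic)
-/

set_option autoImplicit false

namespace Pool.Agent.Work.MP_88b7aa_gt.Kc

open Pool.Agent.Work.MP_88b7aa_gt.CH
open Pool.Agent.Work.MP_88b7aa_gt.PQ

theorem cosNP : CosN cosPiN := fun m h3 h => cosPi_ok m h3 h

/-- The data of a cell: without or with B forms. -/
inductive Dt
  | s (d : BD)
  | b (D : LD) (d : BD)

/-- The check function of a template. -/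
noncomputable def fS (k : ℕ) (T : Tm) (B : Bx4) : Dt → Bool
  | .s d => T.chk k B d
  | .b _ _ => false

/-- The check function of a template with B forms. -/
noncomputable def fB (k : ℕ) (T : TmL) (B : Bx4) : Dt → Bool
  | .s _ => false
  | .b D d => T.chk k B D d

/-- A valid check function. -/
def FOK (K : ℕ → ℕ → ℕ → Prop) (k : ℕ) {D : Type} (f : Bx4 → D → Bool) : Prop := ∀ B d, f B d = true → Good K k B

theorem fS_ok {T : Tm} {K : ℕ → ℕ → ℕ → Prop} (hT : T.OK K) {k : ℕ} (hk : k ≤ 4) : FOK K k (fS k T) := by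
  intro B d h
  rcases d with d | ⟨D, d⟩
  · exact Tm.good hT hk B d h
  · exact absurd h Bool.false_ne_true

theorem fB_ok {T : TmL} {K : ℕ → ℕ → ℕ → Prop} (hT : T.OK K) {k : ℕ} (hk : k ≤ 4) : FOK K k (fB k T) := by
  intro B d h
  rcases d with d | ⟨D, d⟩
  · exact absurd h Bool.false_ne_true
  · exact TmL.good hT hk B D d h

/-- All functions of the list are valid. -/
def LF (K : ℕ → ℕ → ℕ → Prop) (k : ℕ) {D : Type} (l : List (Bx4 → D → Bool)) : Prop := ∀ f ∈ l, FOK K k f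

theorem LF.nil {K : ℕ → ℕ → ℕ → Prop} {k : ℕ} {D : Type} : LF K k (D := D) [] := by
  intro g hg
  exact absurd hg List.not_mem_nil

theorem LF.cons {K : ℕ → ℕ → ℕ → Prop} {k : ℕ} {D : Type} {f : Bx4 → D → Bool} {l : List (Bx4 → D → Bool)} (h : FOK K k f) (t : LF K k l) :
    LF K k (f :: l) := by
  intro g hg
  rcases List.mem_cons.mp hg with rfl | hg
  · exact h
  · exact t g hg

/-- The test that a box is outside. -/
noncomputable def oK (k : ℕ) (B : Bx4) (m : ℕ) : Bool := Kd.outQ k B m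

theorem oK_ok (K : ℕ → ℕ → ℕ → Prop) {k : ℕ} (hk : k ≤ 4) (B : Bx4) (m : ℕ) (h : oK k B m = true) : Outs K k B := Kd.outQ_ok hk K B m h

/-- The check functions of a class. -/
noncomputable def mkH (k : ℕ) (F : List (Bx4 → Dt → Bool)) : Chs Dt := ⟨k, F, oK k⟩

theorem mkH_ok {K : ℕ → ℕ → ℕ → Prop} {k : ℕ} {F : List (Bx4 → Dt → Bool)} (h0 : 0 < k) (hk : k ≤ 4) (hF : LF K k F) : (mkH k F).OK K :=
  ⟨h0, hF, fun B m h => oK_ok K hk B m h⟩

/-- The end of a class. -/
theorem fin {SP SQ SR : Side} {D : Type} {H : Chs D} {A B C : Lin}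
    (h : (SP.chk cosPiN 3 H.k A && (SQ.chk cosPiN 2 H.k B && SR.chk cosPiN 1 H.k C)) = true)
    (hC : CGood (KS SP SQ SR) H.k A B C ⟨0, 0, 0, 0, 0, 0⟩) : Done (KS SP SQ SR) := by
  simp only [Bool.and_eq_true] at h
  exact CGood.done cosNP h.1 h.2.1 h.2.2 hC

end Pool.Agent.Work.MP_88b7aa_gt.Kc
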