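import Pool.Agent.Work.MP_88b7aa_gt.Kc.Opn

/-!
# Modules of data

A column (`Ct`) or a tree of cells (`Tr Lf`) with holes: the parts of the class supplied by other modules.  A leaf refers to a check
function by its number in a list, a hole refers to a box (column) by its number in a list.
-/

set_option autoImplicit false

namespace Pool.Agent.Work.MP_88b7aa_gt.Kc

open Pool.Agent.Work.MP_88b7aa_gt.CH
open Pool.Agent.Work.MP_88b7aa_gt.PQ

/-- The test `f` for the entry number `i`; false if there is none. -/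
noncomputable def tk {α : Type} (f : α → Bool) (L : List α) : ℕ → Bool :=
  List.rec (motive := fun _ => ℕ → Bool) (fun _ => false) (fun T _ ih n => Nat.rec (motive := fun _ => Bool) (f T) (fun m _ => ih m) n) L

theorem tk_mem {α : Type} {f : α → Bool} {L : List α} : ∀ {n : ℕ}, tk f L n = true → ∃ T ∈ L, f T = true := by
  induction L with
  | nil => intro n h; exact absurd h (by simp [tk])
  | cons T L ih =>
    intro n h
    cases n with
    | zero => exact ⟨T, List.mem_cons_self, h⟩
    | succ n =>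
      obtain ⟨T', h1, h2⟩ := ih (n := n) h
      exact ⟨T', List.mem_cons_of_mem _ h1, h2⟩

/-- The leaves: a cell (check function `i`, data `d`), or the box number `i` of a list. -/
inductive Lf (D : Type)
  | c (i : ℕ) (d : D)
  | h (i : ℕ)

def bxEq (B' B : Bx4) : Bool := linEq B'.a B.a && (linEq B'.b B.b && (linEq B'.c B.c && linEq B'.t B.t))

theorem bxEq_eq {B' B : Bx4} (h : bxEq B' B = true) : B' = B := by
  unfold bxEq at h
  simp only [Bool.and_eq_true] at h
  obtain ⟨h1, h2, h3, h4⟩ := h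
  cases B'
  cases B
  simp only at h1 h2 h3 h4
  rw [linEq_eq h1, linEq_eq h2, linEq_eq h3, linEq_eq h4]

noncomputable def Lf.chk {D : Type} (F : List (Bx4 → D → Bool)) (HB : List Bx4) (B : Bx4) : Lf D → Bool
  | .c i d => tk (fun f => f B d) F i
  | .h i => tk (fun B' => bxEq B' B) HB i

theorem Lf.good {D : Type} {K : ℕ → ℕ → ℕ → Prop} {k : ℕ} {F : List (Bx4 → D → Bool)} (hF : ∀ f ∈ F, ∀ B d, f B d = true → Good K k B)
    {HB : List Bx4} (hB : ∀ B ∈ HB, Good K k B) (B : Bx4) (l : Lf D) (h : l.chk F HB B = true) : Good K k B := by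
  rcases l with ⟨i, d⟩ | i
  · obtain ⟨f, h1, h2⟩ := tk_mem (show tk (fun f => f B d) F i = true from h)
    exact hF f h1 B d h2
  · obtain ⟨B', h1, h2⟩ := tk_mem (show tk (fun B' => bxEq B' B) HB i = true from h)
    have e : B' = B := bxEq_eq h2
    rw [← e]
    exact hB _ h1

/-- The sides and the bottom of an open column. -/
structure Hc where
  A : Lin
  B : Lin
  C : Lin
  P : Lin

def Hc.chk (x : Hc) (A B C P : Lin) : Bool := linEq x.A A && (linEq x.B B && (linEq x.C C && linLe x.P P))

/-- Columns. -/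
inductive Ct (D : Type)
  | hole (i : ℕ)
  | top (T : Tr ℕ)
  | slab (L : Lin) (S : Tr (Lf D)) (rest : Ct D)
  | node (j : Fin 4) (l r : Ct D)

noncomputable def Ct.chk {D : Type} (k : ℕ) (f : Bx4 → Lf D → Bool) (g : Bx4 → ℕ → Bool) (HC : List Hc) : Ct D → Lin → Lin → Lin → Lin → Bool
  | .hole i, A, B, C, P => tk (fun x => x.chk A B C P) HC i
  | .top T, A, B, C, P => P.nng && T.chk k g ⟨A, B, C, P⟩
  | .slab L S rest, A, B, C, P => L.bot P && (S.chk k f ⟨A, B, C, L⟩ && rest.chk k f g HC A B C L.top)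
  | .node j l r, A, B, C, P => Nat.blt j.val k &&
      (l.chk k f g HC (A.half j false) (B.half j false) (C.half j false) (P.halfD j false) &&
      r.chk k f g HC (A.half j true) (B.half j true) (C.half j true) (P.halfD j true))

theorem Ct.good {D : Type} {K : ℕ → ℕ → ℕ → Prop} {k : ℕ} (hk : 0 < k) {f : Bx4 → Lf D → Bool} {g : Bx4 → ℕ → Bool} {HC : List Hc}
    (hf : ∀ B d, f B d = true → Good K k B) (hg : ∀ B m, g B m = true → Outs K k B) (hC : ∀ x ∈ HC, CGood K k x.A x.B x.C x.P) (T : Ct D) :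
    ∀ A B C P : Lin, A.a1 = 0 → B.a1 = 0 → C.a1 = 0 → T.chk k f g HC A B C P = true → CGood K k A B C P := by
  induction T with
  | hole i =>
    intro A B C P _ _ _ h
    obtain ⟨x, h0, h⟩ := tk_mem (show tk (fun x => x.chk A B C P) HC i = true from h)
    unfold Hc.chk at h
    simp only [Bool.and_eq_true] at h
    obtain ⟨h1, h2, h3, h4⟩ := h
    rw [← linEq_eq h1, ← linEq_eq h2, ← linEq_eq h3]
    exact CGood.le h4 (hC _ h0)
  | top T =>
    intro A B C P hA hB hC h
    exact stk_good (D := Lf D) (f := f) hk hf hg hA hB hC T [] P h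
  | slab L S rest ih =>
    intro A B C P hA hB hC h
    unfold Ct.chk at h
    simp only [Bool.and_eq_true] at h
    exact CGood.cons hk hA hB hC h.1 (Tr.good hf S _ h.2.1) (ih _ _ _ _ hA hB hC h.2.2)
  | node j l r ihl ihr =>
    intro A B C P hA hB hC h
    unfold Ct.chk at h
    simp only [Bool.and_eq_true] at h
    obtain ⟨h1, h2, h3⟩ := h
    exact CGood.nodeP j (by simpa using h1)
      (ihl _ _ _ _ (Lin.half_a1 hA j false) (Lin.half_a1 hB j false) (Lin.half_a1 hC j false) h2)
      (ihr _ _ _ _ (Lin.half_a1 hA j true) (Lin.half_a1 hB j true) (Lin.half_a1 hC j true) h3)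

/-! ### The modules -/

/-- The check functions of a class: the number of variables, the cells, the boxes outside. -/
structure Chs (D : Type) where
  k : ℕ
  F : List (Bx4 → D → Bool)
  o : Bx4 → ℕ → Bool

/-- Valid check functions for the class `K`. -/
structure Chs.OK {D : Type} (H : Chs D) (K : ℕ → ℕ → ℕ → Prop) : Prop where
  k : 0 < H.k
  F : ∀ f ∈ H.F, ∀ B d, f B d = true → Good K H.k B
  o : ∀ B m, H.o B m = true → Outs K H.k B

/-- All boxes of the list are good. -/
def LB (K : ℕ → ℕ → ℕ → Prop) (k : ℕ) (l : List Bx4) : Prop := ∀ B ∈ l, Good K k B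

theorem LB.nil {K : ℕ → ℕ → ℕ → Prop} {k : ℕ} : LB K k [] := by
  intro g hg
  exact absurd hg List.not_mem_nil

theorem LB.cons {K : ℕ → ℕ → ℕ → Prop} {k : ℕ} {B : Bx4} {l : List Bx4} (h : Good K k B) (t : LB K k l) : LB K k (B :: l) := by
  intro g hg
  rcases List.mem_cons.mp hg with rfl | hg
  · exact h
  · exact t g hg

/-- All open columns of the list are good. -/
def LC (K : ℕ → ℕ → ℕ → Prop) (k : ℕ) (l : List Hc) : Prop := ∀ x ∈ l, CGood K k x.A x.B x.C x.P

theorem LC.nil {K : ℕ → ℕ → ℕ → Prop} {k : ℕ} : LC K k [] := by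
  intro g hg
  exact absurd hg List.not_mem_nil

theorem LC.cons {K : ℕ → ℕ → ℕ → Prop} {k : ℕ} {A B C P : Lin} {l : List Hc} (h : CGood K k A B C P) (t : LC K k l) :
    LC K k (⟨A, B, C, P⟩ :: l) := by
  intro g hg
  rcases List.mem_cons.mp hg with rfl | hg
  · exact h
  · exact t g hg

/-- The check of a module which is a part of a column. -/
noncomputable def mC {D : Type} (H : Chs D) (HB : List Bx4) (HC : List Hc) (T : Ct D) (A B C P : Lin) : Bool :=
  decide (A.a1 = 0) && (decide (B.a1 = 0) && (decide (C.a1 = 0) && T.chk H.k (Lf.chk H.F HB) H.o HC A B C P))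

theorem mC_good {D : Type} {H : Chs D} {K : ℕ → ℕ → ℕ → Prop} (hH : H.OK K) {HB : List Bx4} {HC : List Hc} {T : Ct D} {A B C P : Lin}
    (h : mC H HB HC T A B C P = true) (hB : LB K H.k HB) (hC : LC K H.k HC) : CGood K H.k A B C P := by
  unfold mC at h
  simp only [Bool.and_eq_true, decide_eq_true_eq] at h
  obtain ⟨h1, h2, h3, h4⟩ := h
  exact Ct.good hH.k (fun B d hd => Lf.good hH.F hB B d hd) hH.o hC T A B C P h1 h2 h3 h4

/-- The check of a module which is a part of a tree of cells. -/
noncomputable def mB {D : Type} (H : Chs D) (HB : List Bx4) (T : Tr (Lf D)) (B : Bx4) : Bool := T.chk H.k (Lf.chk H.F HB) B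

theorem mB_good {D : Type} {H : Chs D} {K : ℕ → ℕ → ℕ → Prop} (hH : H.OK K) {HB : List Bx4} {T : Tr (Lf D)} {B : Bx4}
    (h : mB H HB T B = true) (hB : LB K H.k HB) : Good K H.k B :=
  Tr.good (fun B d hd => Lf.good hH.F hB B d hd) T B h

end Pool.Agent.Work.MP_88b7aa_gt.Kc
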