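import Pool.Agent.Work.MP_88b7aa_gt.Kc.Slb
import Pool.Agent.Work.MP_88b7aa_gt.PQ.Col4

/-!
# Open columns

A column whose ends (holes) are supplied by other modules.
-/

set_option autoImplicit false

namespace Pool.Agent.Work.MP_88b7aa_gt.Kc

open Pool.Agent.Work.MP_88b7aa_gt.CH
open Pool.Agent.Work.MP_88b7aa_gt.PQ
open ComplexConjugate Complex Matrix

/-- Open columns. -/
inductive Co (D : Type)
  | hole (A B C P : Lin)
  | slab (L : Lin) (S : Tr D) (rest : Co D)
  | node (j : Fin 4) (l r : Co D)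

/-- Equality of linear models. -/
def linEq (A B : Lin) : Bool :=
  decide (A.v = B.v) && (decide (A.a1 = B.a1) && (decide (A.a2 = B.a2) && (decide (A.a3 = B.a3) && (decide (A.a4 = B.a4) &&
    decide (A.r = B.r)))))

theorem linEq_eq {A B : Lin} (h : linEq A B = true) : A = B := by
  unfold linEq at h
  simp only [Bool.and_eq_true, decide_eq_true_eq] at h
  obtain ⟨h1, h2, h3, h4, h5, h6⟩ := h
  cases A
  cases B
  simp only at h1 h2 h3 h4 h5 h6
  subst h1 h2 h3 h4 h5 h6
  rfl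

/-- `P' ≤ P` on the cube. -/
def linLe (P' P : Lin) : Bool :=
  decide (P.a1 = 0) && (decide (P'.a1 = 0) && decide (P'.v - P.v + |P'.a2 - P.a2| + |P'.a3 - P.a3| + |P'.a4 - P.a4| ≤ 0))

private theorem abs_mul_le {a : Int} {y : ℝ} (hy : |y| ≤ 1) : |(a : ℝ) * y| ≤ ((|a| : Int) : ℝ) := by
  rw [abs_mul]
  push_cast
  nlinarith [abs_nonneg (a : ℝ)]

theorem linLe_val {P' P : Lin} (h : linLe P' P = true) {x : Fin 4 → ℝ} (hx : ∀ i, |x i| ≤ 1) : P'.val x ≤ P.val x := by
  unfold linLe at h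
  simp only [Bool.and_eq_true, decide_eq_true_eq] at h
  obtain ⟨h1, h2, h3⟩ := h
  have e1 := abs_mul_le (a := P'.a2 - P.a2) (hx 1)
  have e2 := abs_mul_le (a := P'.a3 - P.a3) (hx 2)
  have e3 := abs_mul_le (a := P'.a4 - P.a4) (hx 3)
  have e4 : ((P'.v - P.v + |P'.a2 - P.a2| + |P'.a3 - P.a3| + |P'.a4 - P.a4| : Int) : ℝ) ≤ 0 := by exact_mod_cast h3
  unfold Lin.val
  rw [h1, h2]
  rw [abs_le] at e1 e2 e3
  push_cast at e1 e2 e3 e4
  nlinarith [e1.2, e2.2, e3.2]

/-- A smaller bottom. -/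
theorem CGood.le {K : ℕ → ℕ → ℕ → Prop} {k : ℕ} {A B C P P' : Lin} (h : linLe P' P = true) (hG : CGood K k A B C P') :
    CGood K k A B C P := by
  intro p q r hp hpq hqr hr hK x hx ha hb hc θ n hθ hθπ hT hfA hfB
  exact hG p q r hp hpq hqr hr hK x hx ha hb hc θ n
    (le_trans (div_le_div_of_nonneg_right (linLe_val h hx.le) (by norm_num)) hθ) hθπ hT hfA hfB

theorem CGood.mono {K K' : ℕ → ℕ → ℕ → Prop} (h : ∀ p q r, K' p q r → K p q r) {k : ℕ} {A B C P : Lin} (hG : CGood K k A B C P) :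
    CGood K' k A B C P := by
  intro p q r hp hpq hqr hr hK x hx ha hb hc θ n hθ hθπ hT hfA hfB
  exact hG p q r hp hpq hqr hr (h _ _ _ hK) x hx ha hb hc θ n hθ hθπ hT hfA hfB

theorem CGood.union {K K' : ℕ → ℕ → ℕ → Prop} {k : ℕ} {A B C P : Lin} (h1 : CGood K k A B C P) (h2 : CGood K' k A B C P) :
    CGood (fun p q r => K p q r ∨ K' p q r) k A B C P := by
  intro p q r hp hpq hqr hr hK x hx ha hb hc θ n hθ hθπ hT hfA hfB
  rcases hK with hK | hK
  · exact h1 p q r hp hpq hqr hr hK x hx ha hb hc θ n hθ hθπ hT hfA hfB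
  · exact h2 p q r hp hpq hqr hr hK x hx ha hb hc θ n hθ hθπ hT hfA hfB

/-- Halving at any height. -/
theorem CGood.nodeP {K : ℕ → ℕ → ℕ → Prop} {k : ℕ} {A B C P : Lin} (j : Fin 4) (hj : (j : ℕ) < k)
    (g0 : CGood K k (A.half j false) (B.half j false) (C.half j false) (P.halfD j false))
    (g1 : CGood K k (A.half j true) (B.half j true) (C.half j true) (P.halfD j true)) : CGood K k A B C P := by
  intro p q r hp hpq hqr hr hK x hx ha hb hc θ n hθ hθπ hT hfA hfB
  obtain ⟨s, hs⟩ := hx_cub hx hj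
  have hle := Lin.halfD_val P x j s (hx.le j)
  have hle' : (P.halfD j s).val (PQ.hx j s x) / 281474976710656 ≤ θ / 6 :=
    le_trans (div_le_div_of_nonneg_right hle (by norm_num)) hθ
  cases s
  · exact g0 p q r hp hpq hqr hr hK _ hs (Lin.half_holds j false (hx.le j) ha) (Lin.half_holds j false (hx.le j) hb)
      (Lin.half_holds j false (hx.le j) hc) θ n hle' hθπ hT hfA hfB
  · exact g1 p q r hp hpq hqr hr hK _ hs (Lin.half_holds j true (hx.le j) ha) (Lin.half_holds j true (hx.le j) hb)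
      (Lin.half_holds j true (hx.le j) hc) θ n hle' hθπ hT hfA hfB

def Co.chk {D : Type} (k : ℕ) (f : Bx4 → D → Bool) : Co D → Lin → Lin → Lin → Lin → Bool
  | .hole A' B' C' P', A, B, C, P => linEq A' A && (linEq B' B && (linEq C' C && linLe P' P))
  | .slab L S rest, A, B, C, P => L.bot P && (S.chk k f ⟨A, B, C, L⟩ && rest.chk k f A B C L.top)
  | .node j l r, A, B, C, P => Nat.blt j.val k &&
      (l.chk k f (A.half j false) (B.half j false) (C.half j false) (P.halfD j false) &&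
      r.chk k f (A.half j true) (B.half j true) (C.half j true) (P.halfD j true))

/-- What the holes need. -/
def Co.goals {D : Type} (K : ℕ → ℕ → ℕ → Prop) (k : ℕ) : Co D → Prop
  | .hole A B C P => CGood K k A B C P
  | .slab _ _ rest => rest.goals K k
  | .node _ l r => l.goals K k ∧ r.goals K k

theorem Co.good {D : Type} {K : ℕ → ℕ → ℕ → Prop} {k : ℕ} (hk : 0 < k) {f : Bx4 → D → Bool}
    (hf : ∀ B d, f B d = true → Good K k B) (T : Co D) :
    ∀ A B C P : Lin, A.a1 = 0 → B.a1 = 0 → C.a1 = 0 → T.chk k f A B C P = true → T.goals K k → CGood K k A B C P := by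
  induction T with
  | hole A' B' C' P' =>
    intro A B C P _ _ _ h hG
    unfold Co.chk at h
    simp only [Bool.and_eq_true] at h
    obtain ⟨h1, h2, h3, h4⟩ := h
    rw [← linEq_eq h1, ← linEq_eq h2, ← linEq_eq h3]
    exact CGood.le h4 hG
  | slab L S rest ih =>
    intro A B C P hA hB hC h hG
    unfold Co.chk at h
    simp only [Bool.and_eq_true] at h
    exact CGood.cons hk hA hB hC h.1 (Tr.good hf S _ h.2.1) (ih _ _ _ _ hA hB hC h.2.2 hG)
  | node j l r ihl ihr =>
    intro A B C P hA hB hC h hG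
    unfold Co.chk at h
    simp only [Bool.and_eq_true] at h
    obtain ⟨h1, h2, h3⟩ := h
    exact CGood.nodeP j (by simpa using h1)
      (ihl _ _ _ _ (Lin.half_a1 hA j false) (Lin.half_a1 hB j false) (Lin.half_a1 hC j false) h2 hG.1)
      (ihr _ _ _ _ (Lin.half_a1 hA j true) (Lin.half_a1 hB j true) (Lin.half_a1 hC j true) h3 hG.2)

end Pool.Agent.Work.MP_88b7aa_gt.Kc
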