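import Mathlib
import Pool.Agent.Work.MP_88b7aa_gt.Kc.T2

/-!
# Soundness of the packed Taylor models, part 1: ghost coefficients and the operations of `P2`
-/

set_option autoImplicit false

namespace Pool.Agent.Work.MP_88b7aa_gt.Kc

theorem one_le_MM : 1 ≤ MM := Nat.one_le_two_pow

seal MM BB Bh DD Dh

theorem M1_def : M1 = MM - 1 := by
  unfold M1
  exact rfl

seal M1

/-- coefficients of a linear form in four variables -/
structure L4 where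
  c1 : ℤ
  c2 : ℤ
  c3 : ℤ
  c4 : ℤ

/-- coefficients of a quadratic form in four variables -/
structure Q10 where
  c11 : ℤ
  c12 : ℤ
  c13 : ℤ
  c14 : ℤ
  c22 : ℤ
  c23 : ℤ
  c24 : ℤ
  c33 : ℤ
  c34 : ℤ
  c44 : ℤ

namespace L4

def pk (a : L4) : ℤ := a.c1 + a.c2 * (BB : ℤ) + a.c3 * (BB : ℤ) ^ 4 + a.c4 * (BB : ℤ) ^ 6
def nrm (a : L4) : ℤ := |a.c1| + |a.c2| + |a.c3| + |a.c4|
noncomputable def ev (a : L4) (x : Fin 4 → ℝ) : ℝ := a.c1 * x 0 + a.c2 * x 1 + a.c3 * x 2 + a.c4 * x 3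
def add (a b : L4) : L4 := ⟨a.c1 + b.c1, a.c2 + b.c2, a.c3 + b.c3, a.c4 + b.c4⟩
def smul (t : ℤ) (a : L4) : L4 := ⟨t * a.c1, t * a.c2, t * a.c3, t * a.c4⟩
/-- product of two linear forms -/
def mul (a b : L4) : Q10 :=
  ⟨a.c1 * b.c1, a.c1 * b.c2 + a.c2 * b.c1, a.c1 * b.c3 + a.c3 * b.c1, a.c1 * b.c4 + a.c4 * b.c1,
    a.c2 * b.c2, a.c2 * b.c3 + a.c3 * b.c2, a.c2 * b.c4 + a.c4 * b.c2, a.c3 * b.c3, a.c3 * b.c4 + a.c4 * b.c3,
    a.c4 * b.c4⟩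

end L4

namespace Q10

def pk (h : Q10) : ℤ :=
  h.c11 + h.c12 * (BB : ℤ) + h.c22 * (BB : ℤ) ^ 2 + h.c13 * (BB : ℤ) ^ 4 + h.c23 * (BB : ℤ) ^ 5 + h.c14 * (BB : ℤ) ^ 6 +
    h.c24 * (BB : ℤ) ^ 7 + h.c33 * (BB : ℤ) ^ 8 + h.c34 * (BB : ℤ) ^ 10 + h.c44 * (BB : ℤ) ^ 12
def nrm (h : Q10) : ℤ :=
  |h.c11| + |h.c12| + |h.c13| + |h.c14| + |h.c22| + |h.c23| + |h.c24| + |h.c33| + |h.c34| + |h.c44|
noncomputable def ev (h : Q10) (x : Fin 4 → ℝ) : ℝ :=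
  h.c11 * (x 0 * x 0) + h.c12 * (x 0 * x 1) + h.c13 * (x 0 * x 2) + h.c14 * (x 0 * x 3) + h.c22 * (x 1 * x 1) +
    h.c23 * (x 1 * x 2) + h.c24 * (x 1 * x 3) + h.c33 * (x 2 * x 2) + h.c34 * (x 2 * x 3) + h.c44 * (x 3 * x 3)
def add (a b : Q10) : Q10 :=
  ⟨a.c11 + b.c11, a.c12 + b.c12, a.c13 + b.c13, a.c14 + b.c14, a.c22 + b.c22, a.c23 + b.c23, a.c24 + b.c24, a.c33 + b.c33,
    a.c34 + b.c34, a.c44 + b.c44⟩
def smul (t : ℤ) (a : Q10) : Q10 :=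
  ⟨t * a.c11, t * a.c12, t * a.c13, t * a.c14, t * a.c22, t * a.c23, t * a.c24, t * a.c33, t * a.c34, t * a.c44⟩

end Q10

/-! ### Algebra of the ghosts -/

theorem L4.pk_add (a b : L4) : (a.add b).pk = a.pk + b.pk := by unfold L4.pk L4.add; ring
theorem L4.pk_smul (t : ℤ) (a : L4) : (a.smul t).pk = t * a.pk := by unfold L4.pk L4.smul; ring
theorem L4.pk_mul (a b : L4) : (a.mul b).pk = a.pk * b.pk := by unfold L4.pk L4.mul Q10.pk; ring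
theorem Q10.pk_add (a b : Q10) : (a.add b).pk = a.pk + b.pk := by unfold Q10.pk Q10.add; ring
theorem Q10.pk_smul (t : ℤ) (a : Q10) : (a.smul t).pk = t * a.pk := by unfold Q10.pk Q10.smul; ring

theorem L4.pk_zero : (⟨0, 0, 0, 0⟩ : L4).pk = 0 := by unfold L4.pk; ring
theorem Q10.pk_zero : (⟨0, 0, 0, 0, 0, 0, 0, 0, 0, 0⟩ : Q10).pk = 0 := by unfold Q10.pk; ring

theorem L4.ev_add (a b : L4) (x : Fin 4 → ℝ) : (a.add b).ev x = a.ev x + b.ev x := by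
  unfold L4.ev L4.add; push_cast; ring
theorem L4.ev_smul (t : ℤ) (a : L4) (x : Fin 4 → ℝ) : (a.smul t).ev x = t * a.ev x := by
  unfold L4.ev L4.smul; push_cast; ring
theorem L4.ev_mul (a b : L4) (x : Fin 4 → ℝ) : (a.mul b).ev x = a.ev x * b.ev x := by
  unfold L4.ev L4.mul Q10.ev; push_cast; ring
theorem Q10.ev_add (a b : Q10) (x : Fin 4 → ℝ) : (a.add b).ev x = a.ev x + b.ev x := by
  unfold Q10.ev Q10.add; push_cast; ring
theorem Q10.ev_smul (t : ℤ) (a : Q10) (x : Fin 4 → ℝ) : (a.smul t).ev x = t * a.ev x := by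
  unfold Q10.ev Q10.smul; push_cast; ring

theorem L4.nrm_nonneg (a : L4) : 0 ≤ a.nrm := by unfold L4.nrm; positivity
theorem Q10.nrm_nonneg (a : Q10) : 0 ≤ a.nrm := by unfold Q10.nrm; positivity

theorem L4.nrm_add (a b : L4) : (a.add b).nrm ≤ a.nrm + b.nrm := by
  unfold L4.nrm L4.add
  linarith [abs_add_le a.c1 b.c1, abs_add_le a.c2 b.c2, abs_add_le a.c3 b.c3, abs_add_le a.c4 b.c4]
theorem Q10.nrm_add (a b : Q10) : (a.add b).nrm ≤ a.nrm + b.nrm := by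
  unfold Q10.nrm Q10.add
  linarith [abs_add_le a.c11 b.c11, abs_add_le a.c12 b.c12, abs_add_le a.c13 b.c13, abs_add_le a.c14 b.c14,
    abs_add_le a.c22 b.c22, abs_add_le a.c23 b.c23, abs_add_le a.c24 b.c24, abs_add_le a.c33 b.c33,
    abs_add_le a.c34 b.c34, abs_add_le a.c44 b.c44]
theorem L4.nrm_smul (t : ℤ) (a : L4) : (a.smul t).nrm = |t| * a.nrm := by
  unfold L4.nrm L4.smul
  simp only [abs_mul]
  ring
theorem Q10.nrm_smul (t : ℤ) (a : Q10) : (a.smul t).nrm = |t| * a.nrm := by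
  unfold Q10.nrm Q10.smul
  simp only [abs_mul]
  ring

theorem abs2 (a b c d : ℤ) : |a * b + c * d| ≤ |a| * |b| + |c| * |d| := by
  rw [← abs_mul, ← abs_mul]
  exact abs_add_le _ _

theorem L4.nrm_mul (a b : L4) : (a.mul b).nrm ≤ a.nrm * b.nrm := by
  unfold L4.nrm L4.mul Q10.nrm
  simp only [abs_mul a.c1 b.c1, abs_mul a.c2 b.c2, abs_mul a.c3 b.c3, abs_mul a.c4 b.c4]
  have h1 := abs2 a.c1 b.c2 a.c2 b.c1
  have h2 := abs2 a.c1 b.c3 a.c3 b.c1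
  have h3 := abs2 a.c1 b.c4 a.c4 b.c1
  have h4 := abs2 a.c2 b.c3 a.c3 b.c2
  have h5 := abs2 a.c2 b.c4 a.c4 b.c2
  have h6 := abs2 a.c3 b.c4 a.c4 b.c3
  linarith

theorem abs_mul_le_of_one (n : ℤ) (y : ℝ) (hy : |y| ≤ 1) : |(n : ℝ) * y| ≤ ((|n| : ℤ) : ℝ) := by
  rw [abs_mul, Int.cast_abs]
  have := abs_nonneg (n : ℝ)
  nlinarith

theorem L4.ev_le (a : L4) (x : Fin 4 → ℝ) (hx : ∀ i, |x i| ≤ 1) : |a.ev x| ≤ (a.nrm : ℝ) := by
  unfold L4.ev L4.nrm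
  push_cast only [Int.cast_add]
  refine (abs_add_le _ _).trans (add_le_add ((abs_add_le _ _).trans (add_le_add ((abs_add_le _ _).trans
    (add_le_add ?_ ?_)) ?_)) ?_)
  all_goals exact abs_mul_le_of_one _ _ (hx _)

theorem one_mul_abs {y z : ℝ} (hy : |y| ≤ 1) (hz : |z| ≤ 1) : |y * z| ≤ 1 := by
  rw [abs_mul]
  have := abs_nonneg y
  have := abs_nonneg z
  nlinarith

theorem Q10.ev_le (a : Q10) (x : Fin 4 → ℝ) (hx : ∀ i, |x i| ≤ 1) : |a.ev x| ≤ (a.nrm : ℝ) := by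
  unfold Q10.ev Q10.nrm
  push_cast only [Int.cast_add]
  refine (abs_add_le _ _).trans (add_le_add ((abs_add_le _ _).trans (add_le_add ((abs_add_le _ _).trans
    (add_le_add ((abs_add_le _ _).trans (add_le_add ((abs_add_le _ _).trans (add_le_add ((abs_add_le _ _).trans
    (add_le_add ((abs_add_le _ _).trans (add_le_add ((abs_add_le _ _).trans (add_le_add ((abs_add_le _ _).trans
    (add_le_add ?_ ?_)) ?_)) ?_)) ?_)) ?_)) ?_)) ?_)) ?_)) ?_)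
  all_goals exact abs_mul_le_of_one _ _ (one_mul_abs (hx _) (hx _))

/-! ### The representation -/

/-- `X` represents the real number `y` at the point `x`, with the ghost coefficients `v, a, h`. -/
structure Rp (x : Fin 4 → ℝ) (y : ℝ) (X : P2) (v : ℤ) (a : L4) (h : Q10) : Prop where
  hv : (X.v : ℤ) ≡ v [ZMOD MM]
  hg : (X.g : ℤ) ≡ a.pk [ZMOD MM]
  hh : (X.h : ℤ) ≡ h.pk [ZMOD MM]
  n0 : |v| ≤ X.n0
  n1 : a.nrm ≤ X.n1
  n2 : h.nrm ≤ X.n2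
  er : |y * 2 ^ X.e - (v + a.ev x + h.ev x)| ≤ X.r

/-- `X` represents the real number `y` at the point `x`. -/
def Rep (x : Fin 4 → ℝ) (y : ℝ) (X : P2) : Prop := ∃ v a h, Rp x y X v a h

theorem modM (n : ℕ) : ((Nat.mod n MM : ℕ) : ℤ) ≡ n [ZMOD MM] := by
  show ((n % MM : ℕ) : ℤ) ≡ n [ZMOD MM]
  rw [Int.natCast_mod]
  exact Int.mod_modEq _ _

theorem ev_eq {α : Type} (n : ℕ) (k : ℕ → α) : ev n k = k n := by
  cases n <;> rfl

theorem P2.frc_eq (x : P2) : x.frc = x := by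
  unfold P2.frc
  simp only [ev_eq]

theorem Rep.frc {x : Fin 4 → ℝ} {y : ℝ} {X : P2} (h : Rep x y X) : Rep x y X.frc := by
  rw [P2.frc_eq]
  exact h

theorem Rep.cst (x : Fin 4 → ℝ) (t : ℤ) (s n e : ℕ) (hs : (s : ℤ) ≡ t [ZMOD MM]) (hn : |t| ≤ n) :
    Rep x ((t : ℝ) / 2 ^ e) (P2.cst s n e) := by
  refine ⟨t, ⟨0, 0, 0, 0⟩, ⟨0, 0, 0, 0, 0, 0, 0, 0, 0, 0⟩, ⟨hs, ?_, ?_, hn, ?_, ?_, ?_⟩⟩
  · show ((0 : ℕ) : ℤ) ≡ (⟨0, 0, 0, 0⟩ : L4).pk [ZMOD MM]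
    rw [L4.pk_zero]
    rfl
  · show ((0 : ℕ) : ℤ) ≡ (⟨0, 0, 0, 0, 0, 0, 0, 0, 0, 0⟩ : Q10).pk [ZMOD MM]
    rw [Q10.pk_zero]
    rfl
  · simp [P2.cst, L4.nrm]
  · simp [P2.cst, Q10.nrm]
  · show |(t : ℝ) / 2 ^ e * 2 ^ e - _| ≤ ((0 : ℕ) : ℝ)
    simp [L4.ev, Q10.ev]

theorem Rep.zero (x : Fin 4 → ℝ) : Rep x 0 P2.zero := by
  have h := Rep.cst x 0 0 0 0 (by rfl) (by simp)
  have e1 : ((0 : ℤ) : ℝ) / 2 ^ 0 = 0 := by simp
  rw [e1] at h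
  exact h

theorem Rep.smul {x : Fin 4 → ℝ} {y : ℝ} {X : P2} (h : Rep x y X) (t : ℤ) (s n e' : ℕ) (hs : (s : ℤ) ≡ t [ZMOD MM])
    (hn : |t| ≤ n) : Rep x ((t : ℝ) * y / 2 ^ e') (P2.smul s n e' X) := by
  obtain ⟨v, a, q, hX⟩ := h
  have hn' : (0 : ℤ) ≤ n := Int.natCast_nonneg n
  refine ⟨t * v, a.smul t, q.smul t, ⟨?_, ?_, ?_, ?_, ?_, ?_, ?_⟩⟩
  · refine (modM _).trans ?_
    show ((s * X.v : ℕ) : ℤ) ≡ _ [ZMOD MM]
    rw [Nat.cast_mul]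
    exact hs.mul hX.hv
  · refine (modM _).trans ?_
    show ((s * X.g : ℕ) : ℤ) ≡ _ [ZMOD MM]
    rw [Nat.cast_mul, L4.pk_smul]
    exact hs.mul hX.hg
  · refine (modM _).trans ?_
    show ((s * X.h : ℕ) : ℤ) ≡ _ [ZMOD MM]
    rw [Nat.cast_mul, Q10.pk_smul]
    exact hs.mul hX.hh
  · show |t * v| ≤ ((n * X.n0 : ℕ) : ℤ)
    rw [abs_mul, Nat.cast_mul]
    exact mul_le_mul hn hX.n0 (abs_nonneg _) hn'
  · show (a.smul t).nrm ≤ ((n * X.n1 : ℕ) : ℤ)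
    rw [L4.nrm_smul, Nat.cast_mul]
    exact mul_le_mul hn hX.n1 a.nrm_nonneg hn'
  · show (q.smul t).nrm ≤ ((n * X.n2 : ℕ) : ℤ)
    rw [Q10.nrm_smul, Nat.cast_mul]
    exact mul_le_mul hn hX.n2 q.nrm_nonneg hn'
  · show |(t : ℝ) * y / 2 ^ e' * 2 ^ (X.e + e') - _| ≤ ((n * X.r : ℕ) : ℝ)
    have e1 : (t : ℝ) * y / 2 ^ e' * 2 ^ (X.e + e') - (((t * v : ℤ) : ℝ) + (a.smul t).ev x + (q.smul t).ev x) =
        t * (y * 2 ^ X.e - (v + a.ev x + q.ev x)) := by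
      rw [L4.ev_smul, Q10.ev_smul, pow_add]
      push_cast
      field_simp
    rw [e1, abs_mul, Nat.cast_mul]
    have h1 : |(t : ℝ)| ≤ n := by exact_mod_cast hn
    exact mul_le_mul h1 hX.er (abs_nonneg _) (Nat.cast_nonneg _)

theorem Rep.up {x : Fin 4 → ℝ} {y : ℝ} {X : P2} (h : Rep x y X) (k : ℕ) : Rep x y (P2.up k X) := by
  have h1 := h.smul ((2 ^ k : ℕ) : ℤ) (2 ^ k) (2 ^ k) k rfl (by rw [abs_of_nonneg (Int.natCast_nonneg _)])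
  have e1 : (((2 ^ k : ℕ) : ℤ) : ℝ) * y / 2 ^ k = y := by
    push_cast
    field_simp
  rw [e1] at h1
  exact h1

theorem M1_eq : (M1 : ℤ) ≡ -1 [ZMOD MM] := by
  have h2 : (M1 : ℤ) = MM - 1 := by
    rw [M1_def, Nat.cast_sub one_le_MM, Nat.cast_one]
  rw [h2, Int.modEq_iff_dvd]
  exact ⟨-1, by ring⟩

theorem Rep.neg {x : Fin 4 → ℝ} {y : ℝ} {X : P2} (h : Rep x y X) : Rep x (-y) (P2.neg X) := by
  have h1 := h.smul (-1) M1 1 0 M1_eq (by simp)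
  have e1 : ((-1 : ℤ) : ℝ) * y / 2 ^ 0 = -y := by simp
  rw [e1] at h1
  exact h1

theorem Rep.dbl {x : Fin 4 → ℝ} {y : ℝ} {X : P2} (h : Rep x y X) : Rep x (2 * y) (P2.dbl X) := by
  have h1 := h.smul 2 2 2 0 rfl (by simp)
  have e1 : ((2 : ℤ) : ℝ) * y / 2 ^ 0 = 2 * y := by simp
  rw [e1] at h1
  exact h1

theorem Rep.add0 {x : Fin 4 → ℝ} {y z : ℝ} {X Y : P2} (h : Rep x y X) (k : Rep x z Y) (he : X.e = Y.e) :
    Rep x (y + z) (P2.add0 X Y) := by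
  obtain ⟨v, a, q, hX⟩ := h
  obtain ⟨w, b, p, hY⟩ := k
  refine ⟨v + w, a.add b, q.add p, ⟨?_, ?_, ?_, ?_, ?_, ?_, ?_⟩⟩
  · refine (modM _).trans ?_
    show ((X.v + Y.v : ℕ) : ℤ) ≡ _ [ZMOD MM]
    rw [Nat.cast_add]
    exact hX.hv.add hY.hv
  · refine (modM _).trans ?_
    show ((X.g + Y.g : ℕ) : ℤ) ≡ _ [ZMOD MM]
    rw [Nat.cast_add, L4.pk_add]
    exact hX.hg.add hY.hg
  · refine (modM _).trans ?_
    show ((X.h + Y.h : ℕ) : ℤ) ≡ _ [ZMOD MM]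
    rw [Nat.cast_add, Q10.pk_add]
    exact hX.hh.add hY.hh
  · show |v + w| ≤ ((X.n0 + Y.n0 : ℕ) : ℤ)
    rw [Nat.cast_add]
    exact (abs_add_le _ _).trans (add_le_add hX.n0 hY.n0)
  · show (a.add b).nrm ≤ ((X.n1 + Y.n1 : ℕ) : ℤ)
    rw [Nat.cast_add]
    exact (L4.nrm_add _ _).trans (add_le_add hX.n1 hY.n1)
  · show (q.add p).nrm ≤ ((X.n2 + Y.n2 : ℕ) : ℤ)
    rw [Nat.cast_add]
    exact (Q10.nrm_add _ _).trans (add_le_add hX.n2 hY.n2)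
  · show |(y + z) * 2 ^ X.e - _| ≤ ((X.r + Y.r : ℕ) : ℝ)
    have e1 : (y + z) * 2 ^ X.e - (((v + w : ℤ) : ℝ) + (a.add b).ev x + (q.add p).ev x) =
        (y * 2 ^ X.e - (v + a.ev x + q.ev x)) + (z * 2 ^ Y.e - (w + b.ev x + p.ev x)) := by
      rw [L4.ev_add, Q10.ev_add, ← he]
      push_cast
      ring
    rw [e1, Nat.cast_add]
    exact (abs_add_le _ _).trans (add_le_add hX.er hY.er)

theorem cond_beq {α : Type} (a b : ℕ) (u w : α) : cond (Nat.beq a b) u w = if a = b then u else w := by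
  by_cases h : a = b
  · rw [if_pos h, h, Nat.beq_refl]
    rfl
  · rw [if_neg h]
    have : Nat.beq a b = false := by
      rw [← Bool.not_eq_true, Nat.beq_eq]
      exact h
    rw [this]
    rfl

theorem cond_ble {α : Type} (a b : ℕ) (u w : α) : cond (Nat.ble a b) u w = if a ≤ b then u else w := by
  by_cases h : a ≤ b
  · rw [if_pos h, Nat.ble_eq_true_of_le h]
    rfl
  · rw [if_neg h]
    have : Nat.ble a b = false := by
      rw [← Bool.not_eq_true, Nat.ble_eq]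
      exact h
    rw [this]
    rfl

theorem Rep.add {x : Fin 4 → ℝ} {y z : ℝ} {X Y : P2} (h : Rep x y X) (k : Rep x z Y) : Rep x (y + z) (P2.add X Y) := by
  unfold P2.add
  rw [cond_beq, cond_ble]
  by_cases h1 : X.e = Y.e
  · rw [if_pos h1]
    exact h.add0 k h1
  · rw [if_neg h1]
    by_cases h2 : X.e ≤ Y.e
    · rw [if_pos h2]
      refine (h.up _).add0 k ?_
      show X.e + (Y.e - X.e) = Y.e
      omega
    · rw [if_neg h2]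
      refine h.add0 (k.up _) ?_
      show X.e = Y.e + (X.e - Y.e)
      omega

theorem Rep.sub {x : Fin 4 → ℝ} {y z : ℝ} {X Y : P2} (h : Rep x y X) (k : Rep x z Y) : Rep x (y - z) (P2.sub X Y) := by
  rw [sub_eq_add_neg]
  exact h.add k.neg

/-- The estimate for the remainder of a product. -/
theorem mul_err {y z E F v a h w b k r s n0 n1 n2 m0 m1 m2 : ℝ} (hy : |y * E - (v + a + h)| ≤ r)
    (hz : |z * F - (w + b + k)| ≤ s) (h0 : |v| ≤ n0) (h1 : |a| ≤ n1) (h2 : |h| ≤ n2) (k0 : |w| ≤ m0) (k1 : |b| ≤ m1)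
    (k2 : |k| ≤ m2) :
    |y * z * (E * F) - (v * w + (v * b + w * a) + (v * k + w * h + a * b))| ≤
      n1 * m2 + n2 * (m1 + m2) + ((n0 + n1 + n2) * s + (m0 + m1 + (m2 + s)) * r) := by
  have e1 : y * z * (E * F) - (v * w + (v * b + w * a) + (v * k + w * h + a * b)) =
      a * k + h * (b + k) + ((v + a + h) * (z * F - (w + b + k)) +
        (w + b + k + (z * F - (w + b + k))) * (y * E - (v + a + h))) := by ring
  rw [e1]
  have hr : 0 ≤ r := (abs_nonneg _).trans hy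
  have hs : 0 ≤ s := (abs_nonneg _).trans hz
  have g0 : 0 ≤ n0 := (abs_nonneg _).trans h0
  have g1 : 0 ≤ n1 := (abs_nonneg _).trans h1
  have g2 : 0 ≤ n2 := (abs_nonneg _).trans h2
  have l0 : 0 ≤ m0 := (abs_nonneg _).trans k0
  have l1 : 0 ≤ m1 := (abs_nonneg _).trans k1
  have l2 : 0 ≤ m2 := (abs_nonneg _).trans k2
  have s1 : |v + a + h| ≤ n0 + n1 + n2 :=
    (abs_add_le _ _).trans (add_le_add ((abs_add_le _ _).trans (add_le_add h0 h1)) h2)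
  have s2 : |w + b + k| ≤ m0 + m1 + m2 :=
    (abs_add_le _ _).trans (add_le_add ((abs_add_le _ _).trans (add_le_add k0 k1)) k2)
  have s3 : |w + b + k + (z * F - (w + b + k))| ≤ m0 + m1 + (m2 + s) := by
    refine (abs_add_le _ _).trans ?_
    linarith
  have t1 : |a * k| ≤ n1 * m2 := by
    rw [abs_mul]
    exact mul_le_mul h1 k2 (abs_nonneg _) g1
  have t2 : |h * (b + k)| ≤ n2 * (m1 + m2) := by
    rw [abs_mul]
    exact mul_le_mul h2 ((abs_add_le _ _).trans (add_le_add k1 k2)) (abs_nonneg _) g2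
  have t3 : |(v + a + h) * (z * F - (w + b + k))| ≤ (n0 + n1 + n2) * s := by
    rw [abs_mul]
    exact mul_le_mul s1 hz (abs_nonneg _) (by positivity)
  have t4 : |(w + b + k + (z * F - (w + b + k))) * (y * E - (v + a + h))| ≤ (m0 + m1 + (m2 + s)) * r := by
    rw [abs_mul]
    exact mul_le_mul s3 hy (abs_nonneg _) (by positivity)
  refine (abs_add_le _ _).trans (add_le_add ((abs_add_le _ _).trans (add_le_add t1 t2))
    ((abs_add_le _ _).trans (add_le_add t3 t4)))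

theorem Rep.mul {x : Fin 4 → ℝ} (hx : ∀ i, |x i| ≤ 1) {y z : ℝ} {X Y : P2} (h : Rep x y X) (k : Rep x z Y) :
    Rep x (y * z) (P2.mul X Y) := by
  obtain ⟨v, a, q, hX⟩ := h
  obtain ⟨w, b, p, hY⟩ := k
  refine ⟨v * w, (b.smul v).add (a.smul w), ((p.smul v).add (q.smul w)).add (a.mul b), ⟨?_, ?_, ?_, ?_, ?_, ?_, ?_⟩⟩
  · refine (modM _).trans ?_
    show ((X.v * Y.v : ℕ) : ℤ) ≡ _ [ZMOD MM]
    rw [Nat.cast_mul]
    exact hX.hv.mul hY.hv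
  · refine (modM _).trans ?_
    show ((X.v * Y.g + X.g * Y.v : ℕ) : ℤ) ≡ _ [ZMOD MM]
    rw [L4.pk_add, L4.pk_smul, L4.pk_smul, mul_comm w]
    push_cast
    exact (hX.hv.mul hY.hg).add (hX.hg.mul hY.hv)
  · refine (modM _).trans ?_
    show ((X.v * Y.h + X.h * Y.v + X.g * Y.g : ℕ) : ℤ) ≡ _ [ZMOD MM]
    rw [Q10.pk_add, Q10.pk_add, Q10.pk_smul, Q10.pk_smul, L4.pk_mul, mul_comm w]
    push_cast
    exact ((hX.hv.mul hY.hh).add (hX.hh.mul hY.hv)).add (hX.hg.mul hY.hg)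
  · show |v * w| ≤ ((X.n0 * Y.n0 : ℕ) : ℤ)
    rw [abs_mul, Nat.cast_mul]
    exact mul_le_mul hX.n0 hY.n0 (abs_nonneg _) (Int.natCast_nonneg _)
  · show ((b.smul v).add (a.smul w)).nrm ≤ ((X.n0 * Y.n1 + X.n1 * Y.n0 : ℕ) : ℤ)
    refine (L4.nrm_add _ _).trans ?_
    rw [L4.nrm_smul, L4.nrm_smul]
    push_cast
    refine add_le_add (mul_le_mul hX.n0 hY.n1 b.nrm_nonneg (Int.natCast_nonneg _)) ?_
    rw [mul_comm]
    exact mul_le_mul hX.n1 hY.n0 (abs_nonneg _) (Int.natCast_nonneg _)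
  · show (((p.smul v).add (q.smul w)).add (a.mul b)).nrm ≤ ((X.n0 * Y.n2 + X.n2 * Y.n0 + X.n1 * Y.n1 : ℕ) : ℤ)
    refine (Q10.nrm_add _ _).trans ?_
    push_cast
    refine add_le_add ((Q10.nrm_add _ _).trans ?_) ((L4.nrm_mul _ _).trans
      (mul_le_mul hX.n1 hY.n1 b.nrm_nonneg (Int.natCast_nonneg _)))
    rw [Q10.nrm_smul, Q10.nrm_smul]
    refine add_le_add (mul_le_mul hX.n0 hY.n2 p.nrm_nonneg (Int.natCast_nonneg _)) ?_
    rw [mul_comm]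
    exact mul_le_mul hX.n2 hY.n0 (abs_nonneg _) (Int.natCast_nonneg _)
  · show |y * z * 2 ^ (X.e + Y.e) - _| ≤ ((X.n1 * Y.n2 + X.n2 * (Y.n1 + Y.n2) + ((X.n0 + X.n1 + X.n2) * Y.r +
        (Y.n0 + Y.n1 + (Y.n2 + Y.r)) * X.r) : ℕ) : ℝ)
    have c0 : |(v : ℝ)| ≤ X.n0 := by exact_mod_cast hX.n0
    have c1 : |a.ev x| ≤ X.n1 := (a.ev_le x hx).trans (by exact_mod_cast hX.n1)
    have c2 : |q.ev x| ≤ X.n2 := (q.ev_le x hx).trans (by exact_mod_cast hX.n2)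
    have d0 : |(w : ℝ)| ≤ Y.n0 := by exact_mod_cast hY.n0
    have d1 : |b.ev x| ≤ Y.n1 := (b.ev_le x hx).trans (by exact_mod_cast hY.n1)
    have d2 : |p.ev x| ≤ Y.n2 := (p.ev_le x hx).trans (by exact_mod_cast hY.n2)
    have key := mul_err hX.er hY.er c0 c1 c2 d0 d1 d2
    rw [pow_add, L4.ev_add, Q10.ev_add, Q10.ev_add, L4.ev_smul, L4.ev_smul, Q10.ev_smul, Q10.ev_smul, L4.ev_mul]
    push_cast
    exact key

end Pool.Agent.Work.MP_88b7aa_gt.Kc
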