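import Pool.Agent.Work.MP_88b7aa_gt.Kc.S1
import Pool.Agent.Work.MP_88b7aa_gt.Kc.Bt

/-!
# Soundness of the packed Taylor models, part 2: digits, blocks, rounding
-/

set_option autoImplicit false

namespace Pool.Agent.Work.MP_88b7aa_gt.Kc

theorem modEq_of_eq {n a b : ℤ} (h : a = b) : a ≡ b [ZMOD n] := by rw [h]

/-! ### Digits -/

theorem dig_sum (b : ℕ) (hb : 0 < b) (n : ℕ) : ∀ (d : ℕ → ℕ), (∀ i, d i < b) → ∀ j, j < n →
    (∑ i ∈ Finset.range n, d i * b ^ i) / b ^ j % b = d j := by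
  induction n with
  | zero => intro d _ j hj; omega
  | succ n ih =>
    intro d hd j hj
    have e1 : ∑ i ∈ Finset.range (n + 1), d i * b ^ i = d 0 + b * ∑ i ∈ Finset.range n, d (i + 1) * b ^ i := by
      rw [Finset.sum_range_succ', Finset.mul_sum, add_comm]
      congr 1
      · simp
      · refine Finset.sum_congr rfl fun i _ => ?_
        rw [pow_succ]
        ring
    rw [e1]
    cases j with
    | zero => rw [pow_zero, Nat.div_one, Nat.add_mul_mod_self_left, Nat.mod_eq_of_lt (hd 0)]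
    | succ j =>
      rw [pow_succ, mul_comm (b ^ j) b, ← Nat.div_div_eq_div_mul, Nat.add_mul_div_left _ _ hb, Nat.div_eq_of_lt (hd 0),
        zero_add]
      exact ih (fun i => d (i + 1)) (fun i => hd _) j (by omega)

theorem sum_lt (b : ℕ) (hb : 0 < b) (n : ℕ) : ∀ (d : ℕ → ℕ), (∀ i, d i < b) →
    ∑ i ∈ Finset.range n, d i * b ^ i < b ^ n := by
  induction n with
  | zero => intro d _; simp
  | succ n ih =>
    intro d hd
    rw [Finset.sum_range_succ, pow_succ]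
    have h1 := ih d hd
    have h2 : d n * b ^ n ≤ (b - 1) * b ^ n := Nat.mul_le_mul_right _ (Nat.le_sub_one_of_lt (hd n))
    have h3 : (b - 1) * b ^ n + b ^ n = b ^ n * b := by
      rw [← Nat.succ_mul, Nat.succ_eq_add_one, Nat.sub_add_cancel hb, mul_comm]
    omega

/-! ### The constants -/

section consts

set_option exponentiation.threshold 30000

theorem BB_eq : BB = 2 ^ 1600 := by
  unfold BB
  exact Nat.pow_eq
theorem MM_eq : MM = 2 ^ 20800 := by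
  unfold MM
  exact Nat.pow_eq
theorem DD_eq : DD = 2 ^ 160 := by
  unfold DD
  exact Nat.pow_eq
theorem Bh_eq : Bh = 2 ^ 1599 := by
  unfold Bh
  exact Nat.pow_eq
theorem Dh_eq : Dh = 2 ^ 159 := by
  unfold Dh
  exact Nat.pow_eq

end consts

seal MM BB Bh DD Dh M1

theorem BB_pos : 0 < BB := by rw [BB_eq]; positivity
theorem MM_pos : 0 < MM := one_le_MM
theorem DD_pos : 0 < DD := by rw [DD_eq]; positivity
theorem Bh_pos : 0 < Bh := by rw [Bh_eq]; positivity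
theorem Dh_pos : 0 < Dh := by rw [Dh_eq]; positivity
theorem two_Bh : 2 * Bh = BB := by rw [Bh_eq, BB_eq, ← pow_succ']
theorem two_Dh : 2 * Dh = DD := by rw [Dh_eq, DD_eq, ← pow_succ']
theorem MM_BB : MM = BB ^ 13 := by rw [MM_eq, BB_eq, ← pow_mul]
theorem BB_DD : BB = DD ^ 10 := by rw [DD_eq, BB_eq, ← pow_mul]
theorem BB_dvd : BB ∣ MM := by
  rw [MM_BB]
  exact dvd_pow_self _ (by norm_num)

theorem shl_BB (a j s : ℕ) (h : s = 1600 * j) : Nat.shiftLeft a s = a * BB ^ j := by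
  rw [BB_eq, ← pow_mul, ← h]
  exact Nat.shiftLeft_eq a s
theorem shr_BB (a j s : ℕ) (h : s = 1600 * j) : Nat.shiftRight a s = a / BB ^ j := by
  rw [BB_eq, ← pow_mul, ← h]
  exact Nat.shiftRight_eq_div_pow a s
theorem shr_DD (a j s : ℕ) (h : s = 160 * j) : Nat.shiftRight a s = a / DD ^ j := by
  rw [DD_eq, ← pow_mul, ← h]
  exact Nat.shiftRight_eq_div_pow a s

theorem OG_eq : OG = Bh + Bh * BB ^ 1 + (Bh * BB ^ 4 + Bh * BB ^ 6) := by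
  unfold OG
  rw [shl_BB Bh 1 (nat_lit 1600) rfl, shl_BB Bh 4 (nat_lit 6400) rfl, shl_BB Bh 6 (nat_lit 9600) rfl]
  rfl

theorem OH_eq : OH = Bh + Bh * BB ^ 1 + (Bh * BB ^ 2 + Bh * BB ^ 4) +
    (Bh * BB ^ 5 + Bh * BB ^ 6 + (Bh * BB ^ 7 + Bh * BB ^ 8 + (Bh * BB ^ 10 + Bh * BB ^ 12))) := by
  unfold OH
  rw [shl_BB Bh 1 (nat_lit 1600) rfl, shl_BB Bh 2 (nat_lit 3200) rfl, shl_BB Bh 4 (nat_lit 6400) rfl,
    shl_BB Bh 5 (nat_lit 8000) rfl, shl_BB Bh 6 (nat_lit 9600) rfl, shl_BB Bh 7 (nat_lit 11200) rfl,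
    shl_BB Bh 8 (nat_lit 12800) rfl, shl_BB Bh 10 (nat_lit 16000) rfl, shl_BB Bh 12 (nat_lit 19200) rfl]
  rfl

seal OG OH

/-! ### Decoding the blocks -/

/-- A number smaller than `MM`, congruent to a sum of digits, is this sum. -/
theorem eq_sum (N : ℕ) (hN : N < MM) (d : ℕ → ℕ) (hd : ∀ i, d i < BB)
    (h : (N : ℤ) ≡ ((∑ i ∈ Finset.range 13, d i * BB ^ i : ℕ) : ℤ) [ZMOD MM]) :
    N = ∑ i ∈ Finset.range 13, d i * BB ^ i := by
  have h1 : ∑ i ∈ Finset.range 13, d i * BB ^ i < MM := by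
    rw [MM_BB]
    exact sum_lt BB BB_pos 13 d hd
  have h2 := (Int.natCast_modEq_iff.mp h)
  exact Nat.ModEq.eq_of_lt_of_lt h2 hN h1

theorem blk (N : ℕ) (hN : N < MM) (d : ℕ → ℕ) (hd : ∀ i, d i < BB)
    (h : (N : ℤ) ≡ ((∑ i ∈ Finset.range 13, d i * BB ^ i : ℕ) : ℤ) [ZMOD MM]) (j s : ℕ) (hj : j < 13)
    (hs : s = 1600 * j) : Nat.mod (Nat.shiftRight N s) BB = d j := by
  rw [shr_BB N j s hs, eq_sum N hN d hd h]
  exact dig_sum BB BB_pos 13 d hd j hj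

/-- the offset digit -/
def od1 (c : ℤ) : ℕ := (c + Bh).toNat

theorem od1_cast {c : ℤ} (h : |c| < Bh) : (od1 c : ℤ) = c + Bh := by
  have := abs_lt.mp h
  exact Int.toNat_of_nonneg (by linarith)

theorem od1_lt {c : ℤ} (h : |c| < Bh) : od1 c < BB := by
  have h1 := abs_lt.mp h
  have h2 := od1_cast h
  have h3 : (BB : ℤ) = 2 * Bh := by exact_mod_cast two_Bh.symm
  have : (od1 c : ℤ) < BB := by linarith
  exact_mod_cast this

/-- digits of a linear form with offsets -/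
def dL (a : L4) : ℕ → ℕ
  | 0 => od1 a.c1
  | 1 => od1 a.c2
  | 4 => od1 a.c3
  | 6 => od1 a.c4
  | _ => 0

/-- digits of a quadratic form with offsets -/
def dQ (h : Q10) : ℕ → ℕ
  | 0 => od1 h.c11
  | 1 => od1 h.c12
  | 2 => od1 h.c22
  | 4 => od1 h.c13
  | 5 => od1 h.c23
  | 6 => od1 h.c14
  | 7 => od1 h.c24
  | 8 => od1 h.c33
  | 10 => od1 h.c34
  | 12 => od1 h.c44
  | _ => 0

/-- all coefficients are small -/
structure L4.Sm (a : L4) : Prop where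
  c1 : |a.c1| < Bh
  c2 : |a.c2| < Bh
  c3 : |a.c3| < Bh
  c4 : |a.c4| < Bh

structure Q10.Sm (h : Q10) : Prop where
  c11 : |h.c11| < Bh
  c12 : |h.c12| < Bh
  c13 : |h.c13| < Bh
  c14 : |h.c14| < Bh
  c22 : |h.c22| < Bh
  c23 : |h.c23| < Bh
  c24 : |h.c24| < Bh
  c33 : |h.c33| < Bh
  c34 : |h.c34| < Bh
  c44 : |h.c44| < Bh

theorem L4.sm_of (a : L4) (h : a.nrm < Bh) : a.Sm := by
  unfold L4.nrm at h
  have h1 := abs_nonneg a.c1
  have h2 := abs_nonneg a.c2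
  have h3 := abs_nonneg a.c3
  have h4 := abs_nonneg a.c4
  constructor <;> linarith

theorem Q10.sm_of (a : Q10) (h : a.nrm < Bh) : a.Sm := by
  unfold Q10.nrm at h
  have h1 := abs_nonneg a.c11
  have h2 := abs_nonneg a.c12
  have h3 := abs_nonneg a.c13
  have h4 := abs_nonneg a.c14
  have h5 := abs_nonneg a.c22
  have h6 := abs_nonneg a.c23
  have h7 := abs_nonneg a.c24
  have h8 := abs_nonneg a.c33
  have h9 := abs_nonneg a.c34
  have h10 := abs_nonneg a.c44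
  constructor <;> linarith

theorem dL_lt (a : L4) (h : a.Sm) (i : ℕ) : dL a i < BB := by
  unfold dL
  split
  · exact od1_lt h.c1
  · exact od1_lt h.c2
  · exact od1_lt h.c3
  · exact od1_lt h.c4
  · exact BB_pos

theorem dQ_lt (a : Q10) (h : a.Sm) (i : ℕ) : dQ a i < BB := by
  unfold dQ
  split
  · exact od1_lt h.c11
  · exact od1_lt h.c12
  · exact od1_lt h.c22
  · exact od1_lt h.c13
  · exact od1_lt h.c23
  · exact od1_lt h.c14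
  · exact od1_lt h.c24
  · exact od1_lt h.c33
  · exact od1_lt h.c34
  · exact od1_lt h.c44
  · exact BB_pos

theorem dL_sum (a : L4) (h : a.Sm) : ((∑ i ∈ Finset.range 13, dL a i * BB ^ i : ℕ) : ℤ) = a.pk + OG := by
  rw [OG_eq]
  simp only [Finset.sum_range_succ, Finset.sum_range_zero, dL]
  push_cast
  rw [od1_cast h.c1, od1_cast h.c2, od1_cast h.c3, od1_cast h.c4]
  unfold L4.pk
  ring

theorem dQ_sum (a : Q10) (h : a.Sm) : ((∑ i ∈ Finset.range 13, dQ a i * BB ^ i : ℕ) : ℤ) = a.pk + OH := by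
  rw [OH_eq]
  simp only [Finset.sum_range_succ, Finset.sum_range_zero, dQ]
  push_cast
  rw [od1_cast h.c11, od1_cast h.c12, od1_cast h.c22, od1_cast h.c13, od1_cast h.c23, od1_cast h.c14, od1_cast h.c24,
    od1_cast h.c33, od1_cast h.c34, od1_cast h.c44]
  unfold Q10.pk
  ring

theorem modM_lt (n : ℕ) : Nat.mod n MM < MM := Nat.mod_lt _ MM_pos

/-- The blocks of the linear part. -/
theorem blkL (g : ℕ) (a : L4) (hg : (g : ℤ) ≡ a.pk [ZMOD MM]) (h : a.Sm) (j s : ℕ) (hj : j < 13) (hs : s = 1600 * j) :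
    Nat.mod (Nat.shiftRight (Nat.mod (Nat.add g OG) MM) s) BB = dL a j := by
  refine blk _ (modM_lt _) (dL a) (dL_lt a h) ?_ j s hj hs
  rw [dL_sum a h]
  refine (modM _).trans ?_
  show ((g + OG : ℕ) : ℤ) ≡ _ [ZMOD MM]
  rw [Nat.cast_add]
  exact hg.add rfl

theorem blkQ (g : ℕ) (a : Q10) (hg : (g : ℤ) ≡ a.pk [ZMOD MM]) (h : a.Sm) (j s : ℕ) (hj : j < 13) (hs : s = 1600 * j) :
    Nat.mod (Nat.shiftRight (Nat.mod (Nat.add g OH) MM) s) BB = dQ a j := by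
  refine blk _ (modM_lt _) (dQ a) (dQ_lt a h) ?_ j s hj hs
  rw [dQ_sum a h]
  refine (modM _).trans ?_
  show ((g + OH : ℕ) : ℤ) ≡ _ [ZMOD MM]
  rw [Nat.cast_add]
  exact hg.add rfl

theorem BB_lt_MM : BB ≤ MM := Nat.le_of_dvd MM_pos BB_dvd

/-- The constant part. -/
theorem blkV (g : ℕ) (v : ℤ) (hg : (g : ℤ) ≡ v [ZMOD MM]) (h : |v| < Bh) :
    Nat.mod (Nat.shiftRight (Nat.mod (Nat.add g Bh) MM) 0) BB = od1 v := by
  have h1 : Nat.mod (Nat.add g Bh) MM = od1 v := by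
    have h2 : ((Nat.mod (Nat.add g Bh) MM : ℕ) : ℤ) ≡ (od1 v : ℤ) [ZMOD MM] := by
      rw [od1_cast h]
      refine (modM _).trans ?_
      show ((g + Bh : ℕ) : ℤ) ≡ _ [ZMOD MM]
      rw [Nat.cast_add]
      exact hg.add rfl
    exact Nat.ModEq.eq_of_lt_of_lt (Int.natCast_modEq_iff.mp h2) (modM_lt _) ((od1_lt h).trans_le BB_lt_MM)
  rw [h1]
  show od1 v % BB = _
  exact Nat.mod_eq_of_lt (od1_lt h)

/-! ### Rounding -/

theorem two_pow_dvd_Bh {k : ℕ} (hk : k ≤ 1000) : 2 ^ k ∣ Bh := by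
  rw [Bh_eq]
  exact pow_dvd_pow 2 (by omega)

/-- the shifted offset digit -/
theorem shr_od1 {c : ℤ} (h : |c| < Bh) {k : ℕ} (hk : k ≤ 1000) :
    ((Nat.shiftRight (od1 c) k : ℕ) : ℤ) = c / 2 ^ k + ((Nat.shiftRight Bh k : ℕ) : ℤ) := by
  have e1 : Nat.shiftRight (od1 c) k = od1 c / 2 ^ k := Nat.shiftRight_eq_div_pow _ _
  have e2 : Nat.shiftRight Bh k = Bh / 2 ^ k := Nat.shiftRight_eq_div_pow _ _
  rw [e1, e2, Int.natCast_div, Int.natCast_div, od1_cast h]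
  push_cast
  exact Int.add_ediv_of_dvd_right (by exact_mod_cast two_pow_dvd_Bh hk)

theorem ds_cast (u o : ℕ) : ((ds u o : ℕ) : ℤ) = |(u : ℤ) - o| := by
  have : ds u o = (u - o) + (o - u) := rfl
  rw [this]
  rcases le_total u o with h | h
  · rw [abs_of_nonpos (by linarith [(Nat.cast_le (α := ℤ)).mpr h]), Nat.sub_eq_zero_of_le h, zero_add, Nat.cast_sub h]
    ring
  · rw [abs_of_nonneg (by linarith [(Nat.cast_le (α := ℤ)).mpr h]), Nat.sub_eq_zero_of_le h, add_zero, Nat.cast_sub h]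

theorem shr_OG {k : ℕ} (hk : k ≤ 1000) : Nat.shiftRight OG k =
    Nat.shiftRight Bh k + Nat.shiftRight Bh k * BB ^ 1 + (Nat.shiftRight Bh k * BB ^ 4 + Nat.shiftRight Bh k * BB ^ 6) := by
  obtain ⟨o, ho⟩ := two_pow_dvd_Bh hk
  have e1 : Nat.shiftRight OG k = OG / 2 ^ k := Nat.shiftRight_eq_div_pow _ _
  have e2 : Nat.shiftRight Bh k = Bh / 2 ^ k := Nat.shiftRight_eq_div_pow _ _
  have h2 : 0 < 2 ^ k := by positivity
  rw [e1, e2, OG_eq, ho, Nat.mul_div_cancel_left _ h2]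
  have : 2 ^ k * o + 2 ^ k * o * BB ^ 1 + (2 ^ k * o * BB ^ 4 + 2 ^ k * o * BB ^ 6) =
      2 ^ k * (o + o * BB ^ 1 + (o * BB ^ 4 + o * BB ^ 6)) := by ring
  rw [this, Nat.mul_div_cancel_left _ h2]

theorem shr_OH {k : ℕ} (hk : k ≤ 1000) : Nat.shiftRight OH k =
    Nat.shiftRight Bh k + Nat.shiftRight Bh k * BB ^ 1 + (Nat.shiftRight Bh k * BB ^ 2 + Nat.shiftRight Bh k * BB ^ 4) +
    (Nat.shiftRight Bh k * BB ^ 5 + Nat.shiftRight Bh k * BB ^ 6 + (Nat.shiftRight Bh k * BB ^ 7 +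
    Nat.shiftRight Bh k * BB ^ 8 + (Nat.shiftRight Bh k * BB ^ 10 + Nat.shiftRight Bh k * BB ^ 12))) := by
  obtain ⟨o, ho⟩ := two_pow_dvd_Bh hk
  have e1 : Nat.shiftRight OH k = OH / 2 ^ k := Nat.shiftRight_eq_div_pow _ _
  have e2 : Nat.shiftRight Bh k = Bh / 2 ^ k := Nat.shiftRight_eq_div_pow _ _
  have h2 : 0 < 2 ^ k := by positivity
  rw [e1, e2, OH_eq, ho, Nat.mul_div_cancel_left _ h2]
  have : 2 ^ k * o + 2 ^ k * o * BB ^ 1 + (2 ^ k * o * BB ^ 2 + 2 ^ k * o * BB ^ 4) +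
      (2 ^ k * o * BB ^ 5 + 2 ^ k * o * BB ^ 6 + (2 ^ k * o * BB ^ 7 +
      2 ^ k * o * BB ^ 8 + (2 ^ k * o * BB ^ 10 + 2 ^ k * o * BB ^ 12))) =
      2 ^ k * (o + o * BB ^ 1 + (o * BB ^ 2 + o * BB ^ 4) +
      (o * BB ^ 5 + o * BB ^ 6 + (o * BB ^ 7 + o * BB ^ 8 + (o * BB ^ 10 + o * BB ^ 12)))) := by ring
  rw [this, Nat.mul_div_cancel_left _ h2]

theorem OG_lt : OG ≤ MM := by
  have h1 := dL_sum ⟨0, 0, 0, 0⟩ ⟨by simpa using Bh_pos, by simpa using Bh_pos, by simpa using Bh_pos, by simpa using Bh_pos⟩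
  rw [L4.pk_zero, zero_add] at h1
  have h2 : ∑ i ∈ Finset.range 13, dL ⟨0, 0, 0, 0⟩ i * BB ^ i < BB ^ 13 := sum_lt BB BB_pos 13 _ (dL_lt _
    ⟨by simpa using Bh_pos, by simpa using Bh_pos, by simpa using Bh_pos, by simpa using Bh_pos⟩)
  have h3 : ∑ i ∈ Finset.range 13, dL ⟨0, 0, 0, 0⟩ i * BB ^ i = OG := by exact_mod_cast h1
  rw [h3, ← MM_BB] at h2
  exact h2.le

theorem OH_lt : OH ≤ MM := by
  have hs : (⟨0, 0, 0, 0, 0, 0, 0, 0, 0, 0⟩ : Q10).Sm := by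
    constructor <;> simpa using Bh_pos
  have h1 := dQ_sum _ hs
  rw [Q10.pk_zero, zero_add] at h1
  have h2 : ∑ i ∈ Finset.range 13, dQ ⟨0, 0, 0, 0, 0, 0, 0, 0, 0, 0⟩ i * BB ^ i < BB ^ 13 :=
    sum_lt BB BB_pos 13 _ (dQ_lt _ hs)
  have h3 : ∑ i ∈ Finset.range 13, dQ ⟨0, 0, 0, 0, 0, 0, 0, 0, 0, 0⟩ i * BB ^ i = OH := by exact_mod_cast h1
  rw [h3, ← MM_BB] at h2
  exact h2.le

theorem shr_le (a k : ℕ) : Nat.shiftRight a k ≤ a := by
  have e1 : Nat.shiftRight a k = a / 2 ^ k := Nat.shiftRight_eq_div_pow _ _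
  rw [e1]
  exact Nat.div_le_self _ _

/-- `n + (MM - o)` modulo `MM` is `n - o`. -/
theorem addsub (n o : ℕ) (h : o ≤ MM) : ((Nat.mod (Nat.add n (Nat.sub MM o)) MM : ℕ) : ℤ) ≡ (n : ℤ) - o [ZMOD MM] := by
  refine (modM _).trans ?_
  show ((n + (MM - o) : ℕ) : ℤ) ≡ _ [ZMOD MM]
  rw [Nat.cast_add, Nat.cast_sub h, Int.modEq_iff_dvd]
  exact ⟨-1, by ring⟩

def L4.div (a : L4) (k : ℕ) : L4 := ⟨a.c1 / 2 ^ k, a.c2 / 2 ^ k, a.c3 / 2 ^ k, a.c4 / 2 ^ k⟩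
def Q10.div (a : Q10) (k : ℕ) : Q10 :=
  ⟨a.c11 / 2 ^ k, a.c12 / 2 ^ k, a.c13 / 2 ^ k, a.c14 / 2 ^ k, a.c22 / 2 ^ k, a.c23 / 2 ^ k, a.c24 / 2 ^ k,
    a.c33 / 2 ^ k, a.c34 / 2 ^ k, a.c44 / 2 ^ k⟩

theorem div_err (c : ℤ) (k : ℕ) (y : ℝ) (hy : |y| ≤ 1) :
    |(c : ℝ) * y - 2 ^ k * (((c / 2 ^ k : ℤ) : ℝ) * y)| ≤ 2 ^ k := by
  have h1 : (0 : ℤ) < 2 ^ k := by positivity
  have h2 := Int.emod_nonneg c h1.ne'
  have h3 := Int.emod_lt_of_pos c h1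
  have h4 : (c : ℝ) = 2 ^ k * ((c / 2 ^ k : ℤ) : ℝ) + ((c % 2 ^ k : ℤ) : ℝ) := by
    have := Int.mul_ediv_add_emod c (2 ^ k)
    have h5 : (c : ℝ) = ((2 ^ k * (c / 2 ^ k) + c % 2 ^ k : ℤ) : ℝ) := by rw [this]
    rw [h5]
    push_cast
    ring
  have e1 : (c : ℝ) * y - 2 ^ k * (((c / 2 ^ k : ℤ) : ℝ) * y) = ((c % 2 ^ k : ℤ) : ℝ) * y := by
    rw [h4]
    have : ((2 ^ k * ((c / 2 ^ k : ℤ) : ℝ) + ((c % 2 ^ k : ℤ) : ℝ))) * y - 2 ^ k * (((c / 2 ^ k : ℤ) : ℝ) * y) =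
      ((c % 2 ^ k : ℤ) : ℝ) * y := by ring
    rw [← h4] at this
    rw [← h4]
    exact this
  rw [e1, abs_mul]
  have h6 : |((c % 2 ^ k : ℤ) : ℝ)| ≤ 2 ^ k := by
    rw [abs_of_nonneg (by exact_mod_cast h2)]
    exact_mod_cast h3.le
  have := abs_nonneg ((c % 2 ^ k : ℤ) : ℝ)
  have := abs_nonneg y
  nlinarith

theorem L4.div_ev (a : L4) (k : ℕ) (x : Fin 4 → ℝ) (hx : ∀ i, |x i| ≤ 1) :
    |a.ev x - 2 ^ k * (a.div k).ev x| ≤ 4 * 2 ^ k := by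
  unfold L4.ev L4.div
  have h1 := abs_le.mp (div_err a.c1 k _ (hx 0))
  have h2 := abs_le.mp (div_err a.c2 k _ (hx 1))
  have h3 := abs_le.mp (div_err a.c3 k _ (hx 2))
  have h4 := abs_le.mp (div_err a.c4 k _ (hx 3))
  rw [abs_le]
  constructor <;> linarith [h1.1, h1.2, h2.1, h2.2, h3.1, h3.2, h4.1, h4.2]

theorem Q10.div_ev (a : Q10) (k : ℕ) (x : Fin 4 → ℝ) (hx : ∀ i, |x i| ≤ 1) :
    |a.ev x - 2 ^ k * (a.div k).ev x| ≤ 10 * 2 ^ k := by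
  unfold Q10.ev Q10.div
  have h1 := abs_le.mp (div_err a.c11 k _ (one_mul_abs (hx 0) (hx 0)))
  have h2 := abs_le.mp (div_err a.c12 k _ (one_mul_abs (hx 0) (hx 1)))
  have h3 := abs_le.mp (div_err a.c13 k _ (one_mul_abs (hx 0) (hx 2)))
  have h4 := abs_le.mp (div_err a.c14 k _ (one_mul_abs (hx 0) (hx 3)))
  have h5 := abs_le.mp (div_err a.c22 k _ (one_mul_abs (hx 1) (hx 1)))
  have h6 := abs_le.mp (div_err a.c23 k _ (one_mul_abs (hx 1) (hx 2)))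
  have h7 := abs_le.mp (div_err a.c24 k _ (one_mul_abs (hx 1) (hx 3)))
  have h8 := abs_le.mp (div_err a.c33 k _ (one_mul_abs (hx 2) (hx 2)))
  have h9 := abs_le.mp (div_err a.c34 k _ (one_mul_abs (hx 2) (hx 3)))
  have h10 := abs_le.mp (div_err a.c44 k _ (one_mul_abs (hx 3) (hx 3)))
  rw [abs_le]
  constructor <;> linarith [h1.1, h1.2, h2.1, h2.2, h3.1, h3.2, h4.1, h4.2, h5.1, h5.2, h6.1, h6.2, h7.1, h7.2,
    h8.1, h8.2, h9.1, h9.2, h10.1, h10.2]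

/-! ### Packed rounding -/

theorem vV (g : ℕ) (v : ℤ) (hg : (g : ℤ) ≡ v [ZMOD MM]) (h : |v| < Bh) : Nat.mod (Nat.add g Bh) MM = od1 v := by
  have h2 : ((Nat.mod (Nat.add g Bh) MM : ℕ) : ℤ) ≡ (od1 v : ℤ) [ZMOD MM] := by
    rw [od1_cast h]
    refine (modM _).trans ?_
    show ((g + Bh : ℕ) : ℤ) ≡ _ [ZMOD MM]
    rw [Nat.cast_add]
    exact hg.add rfl
  exact Nat.ModEq.eq_of_lt_of_lt (Int.natCast_modEq_iff.mp h2) (modM_lt _) ((od1_lt h).trans_le BB_lt_MM)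

/-- used positions of the linear part -/
def eL : ℕ → ℕ
  | 0 => 1
  | 1 => 1
  | 4 => 1
  | 6 => 1
  | _ => 0

/-- used positions of the quadratic part -/
def eQ : ℕ → ℕ
  | 0 => 1
  | 1 => 1
  | 2 => 1
  | 4 => 1
  | 5 => 1
  | 6 => 1
  | 7 => 1
  | 8 => 1
  | 10 => 1
  | 12 => 1
  | _ => 0

theorem eL_le (i : ℕ) : eL i ≤ 1 := by
  unfold eL
  split <;> norm_num

theorem eQ_le (i : ℕ) : eQ i ≤ 1 := by
  unfold eQ
  split <;> norm_num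

theorem IG_eq' : IG = 1 + BB ^ 1 + (BB ^ 4 + BB ^ 6) := by
  unfold IG
  rw [shl_BB (nat_lit 1) 1 (nat_lit 1600) rfl, shl_BB (nat_lit 1) 4 (nat_lit 6400) rfl, shl_BB (nat_lit 1) 6 (nat_lit 9600) rfl]
  show 1 + 1 * BB ^ 1 + (1 * BB ^ 4 + 1 * BB ^ 6) = _
  ring

theorem IH_eq' : IH = 1 + BB ^ 1 + (BB ^ 2 + BB ^ 4) + (BB ^ 5 + BB ^ 6 + (BB ^ 7 + BB ^ 8 + (BB ^ 10 + BB ^ 12))) := by
  unfold IH
  rw [shl_BB (nat_lit 1) 1 (nat_lit 1600) rfl, shl_BB (nat_lit 1) 2 (nat_lit 3200) rfl, shl_BB (nat_lit 1) 4 (nat_lit 6400) rfl,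
    shl_BB (nat_lit 1) 5 (nat_lit 8000) rfl, shl_BB (nat_lit 1) 6 (nat_lit 9600) rfl, shl_BB (nat_lit 1) 7 (nat_lit 11200) rfl,
    shl_BB (nat_lit 1) 8 (nat_lit 12800) rfl, shl_BB (nat_lit 1) 10 (nat_lit 16000) rfl, shl_BB (nat_lit 1) 12 (nat_lit 19200) rfl]
  show 1 + 1 * BB ^ 1 + (1 * BB ^ 2 + 1 * BB ^ 4) + (1 * BB ^ 5 + 1 * BB ^ 6 + (1 * BB ^ 7 + 1 * BB ^ 8 +
    (1 * BB ^ 10 + 1 * BB ^ 12))) = _
  ring

seal IG IH

theorem dgs_BB (d : ℕ → ℕ) : dgs 1600 d 13 = ∑ i ∈ Finset.range 13, d i * BB ^ i := by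
  unfold dgs
  rw [BB_eq]

theorem IG_eq : IG = dgs 1600 eL 13 := by
  rw [IG_eq', dgs_BB]
  simp only [Finset.sum_range_succ, Finset.sum_range_zero, eL]
  ring

theorem IH_eq : IH = dgs 1600 eQ 13 := by
  rw [IH_eq', dgs_BB]
  simp only [Finset.sum_range_succ, Finset.sum_range_zero, eQ]
  ring

theorem dL_dgs (g : ℕ) (a : L4) (hg : (g : ℤ) ≡ a.pk [ZMOD MM]) (h : a.Sm) :
    Nat.mod (Nat.add g OG) MM = dgs 1600 (dL a) 13 := by
  rw [dgs_BB]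
  refine eq_sum _ (modM_lt _) (dL a) (dL_lt a h) ?_
  rw [dL_sum a h]
  refine (modM _).trans ?_
  show ((g + OG : ℕ) : ℤ) ≡ _ [ZMOD MM]
  rw [Nat.cast_add]
  exact hg.add rfl

theorem dQ_dgs (g : ℕ) (a : Q10) (hg : (g : ℤ) ≡ a.pk [ZMOD MM]) (h : a.Sm) :
    Nat.mod (Nat.add g OH) MM = dgs 1600 (dQ a) 13 := by
  rw [dgs_BB]
  refine eq_sum _ (modM_lt _) (dQ a) (dQ_lt a h) ?_
  rw [dQ_sum a h]
  refine (modM _).trans ?_
  show ((g + OH : ℕ) : ℤ) ≡ _ [ZMOD MM]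
  rw [Nat.cast_add]
  exact hg.add rfl

theorem shr_pow (a k : ℕ) : Nat.shiftRight a k = a / 2 ^ k := Nat.shiftRight_eq_div_pow _ _

theorem shr_Bh {k : ℕ} (hk : k ≤ 1000) : Nat.shiftRight Bh k = 2 ^ (1599 - k) := by
  rw [shr_pow, Bh_eq, Nat.pow_div (by omega) (by norm_num)]

theorem shr_BBk {k : ℕ} (hk : k ≤ 1000) : Nat.shiftRight BB k = 2 ^ (1600 - k) := by
  rw [shr_pow, BB_eq, Nat.pow_div (by omega) (by norm_num)]

theorem shr_OG' {k : ℕ} (hk : k ≤ 1000) : Nat.shiftRight OG k = 2 ^ (1599 - k) * IG := by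
  rw [shr_OG hk, shr_Bh hk, IG_eq']
  ring

theorem shr_OH' {k : ℕ} (hk : k ≤ 1000) : Nat.shiftRight OH k = 2 ^ (1599 - k) * IH := by
  rw [shr_OH hk, shr_Bh hk, IH_eq']
  ring

theorem pfl_eq {I k : ℕ} {u e : ℕ → ℕ} (hk : k ≤ 1000) (hu : ∀ i, u i < BB) (he : ∀ i, e i ≤ 1) (hI : I = dgs 1600 e 13) :
    pfl I k (dgs 1600 u 13) = dgs 1600 (fun i => e i * (u i / 2 ^ k)) 13 := by
  unfold pfl
  rw [shr_pow, shr_BBk hk, hI]
  rw [BB_eq] at hu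
  exact pk_floor (by omega) hu he

theorem pfn_eq {I O k : ℕ} {u e : ℕ → ℕ} (hk : k ≤ 1000) (hu : ∀ i, u i < 2 ^ (1600 - k)) (he : ∀ i, e i ≤ 1)
    (hI : I = dgs 1600 e 13) (hO : Nat.shiftRight O k = 2 ^ (1599 - k) * I)
    (hs : ∑ i ∈ Finset.range 13, e i * ds (u i) (2 ^ (1599 - k)) < BB - 1) :
    pfn I O k (dgs 1600 (fun i => e i * u i) 13) = ∑ i ∈ Finset.range 13, e i * ds (u i) (2 ^ (1599 - k)) := by
  unfold pfn
  rw [ev_eq, hO, shr_pow]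
  have e1 : 1600 - k = 1599 - k + 1 := by omega
  rw [e1] at hu
  have h := pk_norm (w := 1600) (m := 1599 - k) (n := 13) (u := u) (e := e) (by omega) hu he (by
    have h1 := hs
    rw [BB_eq] at h1
    exact h1) rfl rfl
  rw [← hI, ← BB_eq] at h
  exact h

theorem abs_div_le (c : ℤ) (k : ℕ) : |c / 2 ^ k| ≤ |c| := by
  have := Int.natAbs_ediv_le_natAbs c (2 ^ k)
  rw [Int.abs_eq_natAbs, Int.abs_eq_natAbs]
  exact_mod_cast this

theorem L4.div_nrm (a : L4) (k : ℕ) : (a.div k).nrm ≤ a.nrm := by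
  unfold L4.nrm L4.div
  linarith [abs_div_le a.c1 k, abs_div_le a.c2 k, abs_div_le a.c3 k, abs_div_le a.c4 k]

theorem Q10.div_nrm (a : Q10) (k : ℕ) : (a.div k).nrm ≤ a.nrm := by
  unfold Q10.nrm Q10.div
  linarith [abs_div_le a.c11 k, abs_div_le a.c12 k, abs_div_le a.c13 k, abs_div_le a.c14 k, abs_div_le a.c22 k,
    abs_div_le a.c23 k, abs_div_le a.c24 k, abs_div_le a.c33 k, abs_div_le a.c34 k, abs_div_le a.c44 k]

theorem div_small {c : ℕ} (hc : c < BB) {k : ℕ} (hk : k ≤ 1000) : c / 2 ^ k < 2 ^ (1600 - k) := by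
  rw [Nat.div_lt_iff_lt_mul (by positivity), ← pow_add]
  have : 1600 - k + k = 1600 := by omega
  rw [this, ← BB_eq]
  exact hc

theorem ds_od1 {c : ℤ} (h : |c| < Bh) {k : ℕ} (hk : k ≤ 1000) :
    ((ds (od1 c / 2 ^ k) (2 ^ (1599 - k)) : ℕ) : ℤ) = |c / 2 ^ k| := by
  rw [ds_cast, ← shr_pow, shr_od1 h hk, shr_Bh hk, add_sub_cancel_right]

theorem nrmL {a : L4} (ha : a.Sm) {k : ℕ} (hk : k ≤ 1000) :
    ((∑ i ∈ Finset.range 13, eL i * ds (dL a i / 2 ^ k) (2 ^ (1599 - k)) : ℕ) : ℤ) = (a.div k).nrm := by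
  simp only [Finset.sum_range_succ, Finset.sum_range_zero, eL, dL, zero_mul, one_mul, add_zero, zero_add]
  push_cast
  have h1 := ds_od1 ha.c1 hk
  have h2 := ds_od1 ha.c2 hk
  have h3 := ds_od1 ha.c3 hk
  have h4 := ds_od1 ha.c4 hk
  unfold L4.nrm L4.div
  linarith

theorem nrmQ {a : Q10} (ha : a.Sm) {k : ℕ} (hk : k ≤ 1000) :
    ((∑ i ∈ Finset.range 13, eQ i * ds (dQ a i / 2 ^ k) (2 ^ (1599 - k)) : ℕ) : ℤ) = (a.div k).nrm := by
  simp only [Finset.sum_range_succ, Finset.sum_range_zero, eQ, dQ, zero_mul, one_mul, add_zero, zero_add]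
  push_cast
  have h1 := ds_od1 ha.c11 hk
  have h2 := ds_od1 ha.c12 hk
  have h3 := ds_od1 ha.c13 hk
  have h4 := ds_od1 ha.c14 hk
  have h5 := ds_od1 ha.c22 hk
  have h6 := ds_od1 ha.c23 hk
  have h7 := ds_od1 ha.c24 hk
  have h8 := ds_od1 ha.c33 hk
  have h9 := ds_od1 ha.c34 hk
  have h10 := ds_od1 ha.c44 hk
  unfold Q10.nrm Q10.div
  linarith

theorem pkL {a : L4} (ha : a.Sm) {k : ℕ} (hk : k ≤ 1000) :
    ((dgs 1600 (fun i => eL i * (dL a i / 2 ^ k)) 13 : ℕ) : ℤ) - ((Nat.shiftRight OG k : ℕ) : ℤ) = (a.div k).pk := by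
  rw [dgs_BB, shr_OG hk]
  simp only [Finset.sum_range_succ, Finset.sum_range_zero, eL, dL, zero_mul, one_mul, add_zero, zero_add]
  simp only [← shr_pow]
  push_cast only [Nat.cast_add, Nat.cast_mul, Nat.cast_pow]
  rw [shr_od1 ha.c1 hk, shr_od1 ha.c2 hk, shr_od1 ha.c3 hk, shr_od1 ha.c4 hk]
  unfold L4.pk L4.div
  ring

theorem pkQ {a : Q10} (ha : a.Sm) {k : ℕ} (hk : k ≤ 1000) :
    ((dgs 1600 (fun i => eQ i * (dQ a i / 2 ^ k)) 13 : ℕ) : ℤ) - ((Nat.shiftRight OH k : ℕ) : ℤ) = (a.div k).pk := by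
  rw [dgs_BB, shr_OH hk]
  simp only [Finset.sum_range_succ, Finset.sum_range_zero, eQ, dQ, zero_mul, one_mul, add_zero, zero_add]
  simp only [← shr_pow]
  push_cast only [Nat.cast_add, Nat.cast_mul, Nat.cast_pow]
  rw [shr_od1 ha.c11 hk, shr_od1 ha.c12 hk, shr_od1 ha.c22 hk, shr_od1 ha.c13 hk, shr_od1 ha.c23 hk, shr_od1 ha.c14 hk,
    shr_od1 ha.c24 hk, shr_od1 ha.c33 hk, shr_od1 ha.c34 hk, shr_od1 ha.c44 hk]
  unfold Q10.pk Q10.div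
  ring

theorem Rep.rnd {x : Fin 4 → ℝ} (hx : ∀ i, |x i| ≤ 1) {y : ℝ} {X : P2} (h : Rep x y X) (k : ℕ) : Rep x y (P2.rnd k X) := by
  unfold P2.rnd
  by_cases hc : (X.n0 + X.n1 + X.n2 ≤ Bh - 1 ∧ k ≤ X.e ∧ k ≤ 1000)
  swap
  · have : (and (Nat.ble (Nat.add (Nat.add X.n0 X.n1) X.n2) (Nat.sub Bh (nat_lit 1)))
        (and (Nat.ble k X.e) (Nat.ble k (nat_lit 1000)))) = false := by
      rw [← Bool.not_eq_true, Bool.and_eq_true, Bool.and_eq_true, Nat.ble_eq, Nat.ble_eq, Nat.ble_eq]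
      exact hc
    rw [this, cond_false]
    exact h
  obtain ⟨hn, hke, hk⟩ := hc
  have hB := Bh_pos
  have : (and (Nat.ble (Nat.add (Nat.add X.n0 X.n1) X.n2) (Nat.sub Bh (nat_lit 1)))
      (and (Nat.ble k X.e) (Nat.ble k (nat_lit 1000)))) = true := by
    rw [Bool.and_eq_true, Bool.and_eq_true, Nat.ble_eq, Nat.ble_eq, Nat.ble_eq]
    exact ⟨hn, hke, hk⟩
  rw [this, cond_true]
  obtain ⟨v, a, q, hX⟩ := h
  have hn' : X.n0 + X.n1 + X.n2 < Bh := by omega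
  have hnZ : (X.n0 : ℤ) + X.n1 + X.n2 < Bh := by exact_mod_cast hn'
  have hv : |v| < Bh := by
    have := hX.n0
    have h1 : (0 : ℤ) ≤ X.n1 := Int.natCast_nonneg _
    have h2 : (0 : ℤ) ≤ X.n2 := Int.natCast_nonneg _
    linarith
  have ha : a.Sm := a.sm_of (by
    have := hX.n1
    have h1 : (0 : ℤ) ≤ X.n0 := Int.natCast_nonneg _
    have h2 : (0 : ℤ) ≤ X.n2 := Int.natCast_nonneg _
    linarith)
  have hq : q.Sm := q.sm_of (by
    have := hX.n2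
    have h1 : (0 : ℤ) ≤ X.n0 := Int.natCast_nonneg _
    have h2 : (0 : ℤ) ≤ X.n1 := Int.natCast_nonneg _
    linarith)
  simp only [ev_eq]
  rw [vV X.v v hX.hv hv, dL_dgs X.g a hX.hg ha, dQ_dgs X.h q hX.hh hq, pfl_eq hk (dL_lt a ha) eL_le IG_eq,
    pfl_eq hk (dQ_lt q hq) eQ_le IH_eq]
  have hsL : ∑ i ∈ Finset.range 13, eL i * ds (dL a i / 2 ^ k) (2 ^ (1599 - k)) < BB - 1 := by
    have h1 := nrmL ha hk
    have h2 := a.div_nrm k
    have h3 : ((∑ i ∈ Finset.range 13, eL i * ds (dL a i / 2 ^ k) (2 ^ (1599 - k)) : ℕ) : ℤ) < Bh := by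
      rw [h1]
      have := hX.n1
      have h5 : (0 : ℤ) ≤ X.n0 := Int.natCast_nonneg _
      have h6 : (0 : ℤ) ≤ X.n2 := Int.natCast_nonneg _
      linarith
    have h4 : ∑ i ∈ Finset.range 13, eL i * ds (dL a i / 2 ^ k) (2 ^ (1599 - k)) < Bh := by exact_mod_cast h3
    have h5 := two_Bh
    omega
  have hsQ : ∑ i ∈ Finset.range 13, eQ i * ds (dQ q i / 2 ^ k) (2 ^ (1599 - k)) < BB - 1 := by
    have h1 := nrmQ hq hk
    have h2 := q.div_nrm k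
    have h3 : ((∑ i ∈ Finset.range 13, eQ i * ds (dQ q i / 2 ^ k) (2 ^ (1599 - k)) : ℕ) : ℤ) < Bh := by
      rw [h1]
      have := hX.n2
      have h5 : (0 : ℤ) ≤ X.n0 := Int.natCast_nonneg _
      have h6 : (0 : ℤ) ≤ X.n1 := Int.natCast_nonneg _
      linarith
    have h4 : ∑ i ∈ Finset.range 13, eQ i * ds (dQ q i / 2 ^ k) (2 ^ (1599 - k)) < Bh := by exact_mod_cast h3
    have h5 := two_Bh
    omega
  rw [pfn_eq hk (fun i => div_small (dL_lt a ha i) hk) eL_le IG_eq (shr_OG' hk) hsL,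
    pfn_eq hk (fun i => div_small (dQ_lt q hq i) hk) eQ_le IH_eq (shr_OH' hk) hsQ]
  set o := Nat.shiftRight Bh k with ho
  have hoM : o ≤ MM := (shr_le _ _).trans (by
    have := two_Bh
    have := BB_lt_MM
    omega)
  refine ⟨v / 2 ^ k, a.div k, q.div k, ⟨?_, ?_, ?_, ?_, ?_, ?_, ?_⟩⟩
  · refine (addsub _ _ hoM).trans ?_
    rw [shr_od1 hv hk]
    rw [add_sub_cancel_right]
  · refine (addsub _ _ ((shr_le _ _).trans OG_lt)).trans ?_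
    exact modEq_of_eq (pkL ha hk)
  · refine (addsub _ _ ((shr_le _ _).trans OH_lt)).trans ?_
    exact modEq_of_eq (pkQ hq hk)
  · refine le_of_eq ?_
    show |v / 2 ^ k| = ((ds (Nat.shiftRight (od1 v) k) o : ℕ) : ℤ)
    rw [ds_cast, shr_od1 hv hk, ← ho, add_sub_cancel_right]
  · exact (nrmL ha hk).ge
  · exact (nrmQ hq hk).ge
  · show |y * 2 ^ (X.e - k) - (((v / 2 ^ k : ℤ) : ℝ) + (a.div k).ev x + (q.div k).ev x)| ≤
      ((Nat.shiftRight X.r k + 16 : ℕ) : ℝ)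
    have hp : (0 : ℝ) < 2 ^ k := by positivity
    have e1 : (2 : ℝ) ^ k * (y * 2 ^ (X.e - k)) = y * 2 ^ X.e := by
      have : X.e = (X.e - k) + k := by omega
      conv_rhs => rw [this, pow_add]
      ring
    have b0 := abs_le.mp (div_err v k 1 (by simp))
    have b1 := abs_le.mp (a.div_ev k x hx)
    have b2 := abs_le.mp (q.div_ev k x hx)
    have b3 := abs_le.mp hX.er
    have e2 : Nat.shiftRight X.r k = X.r / 2 ^ k := Nat.shiftRight_eq_div_pow _ _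
    have b4 : (X.r : ℝ) ≤ 2 ^ k * ((Nat.shiftRight X.r k : ℕ) : ℝ) + 2 ^ k := by
      rw [e2]
      have h1 := Nat.div_add_mod X.r (2 ^ k)
      have h2 := Nat.mod_lt X.r (show 0 < 2 ^ k by positivity)
      have h3 : X.r ≤ 2 ^ k * (X.r / 2 ^ k) + 2 ^ k := by omega
      exact_mod_cast h3
    have e3 : (2 : ℝ) ^ k * (y * 2 ^ (X.e - k) - (((v / 2 ^ k : ℤ) : ℝ) + (a.div k).ev x + (q.div k).ev x)) =
        y * 2 ^ X.e - 2 ^ k * ((v / 2 ^ k : ℤ) : ℝ) - 2 ^ k * (a.div k).ev x - 2 ^ k * (q.div k).ev x := by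
      rw [← e1]
      ring
    have e4 : |(2 : ℝ) ^ k * (y * 2 ^ (X.e - k) - (((v / 2 ^ k : ℤ) : ℝ) + (a.div k).ev x + (q.div k).ev x))| ≤
        2 ^ k * ((Nat.shiftRight X.r k + 16 : ℕ) : ℝ) := by
      rw [e3]
      push_cast
      rw [abs_le]
      constructor <;> linarith [b0.1, b0.2, b1.1, b1.2, b2.1, b2.2, b3.1, b3.2]
    rw [abs_mul, abs_of_pos hp] at e4
    exact le_of_mul_le_mul_left e4 hp

end Pool.Agent.Work.MP_88b7aa_gt.Kc
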