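import Pool.Agent.Work.MP_88b7aa_gt.Kc.S2

/-!
# Soundness of the packed Taylor models, part 3: packed Hermitian matrices

`RepH x M X`: there are nine models `E k` of the numbers `M k` (order `d0 d1 d2 Re a, Im a, Re b, Im b, Re c, Im c`), all with the
scale of `X`, whose packing is `X`.
-/

set_option autoImplicit false

namespace Pool.Agent.Work.MP_88b7aa_gt.Kc

seal MM BB Bh DD Dh M1 OG OH

/-- packing of nine numbers -/
def pk9 (f : Fin 9 → ℕ) : ℕ := ∑ k : Fin 9, f k * DD ^ (k : ℕ)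

theorem pk9_add (f g : Fin 9 → ℕ) : (pk9 fun k => f k + g k) = pk9 f + pk9 g := by
  unfold pk9
  rw [← Finset.sum_add_distrib]
  exact Finset.sum_congr rfl fun k _ => by ring

theorem pk9_mul (c : ℕ) (f : Fin 9 → ℕ) : (pk9 fun k => c * f k) = c * pk9 f := by
  unfold pk9
  rw [Finset.mul_sum]
  exact Finset.sum_congr rfl fun k _ => by ring

theorem pk9_mul' (c : ℕ) (f : Fin 9 → ℕ) : (pk9 fun k => f k * c) = pk9 f * c := by
  unfold pk9
  rw [Finset.sum_mul]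
  exact Finset.sum_congr rfl fun k _ => by ring

theorem pk9_congr {f g : Fin 9 → ℕ} (h : ∀ k, f k ≡ g k [MOD MM]) : pk9 f ≡ pk9 g [MOD MM] := by
  unfold pk9
  have : ∀ s : Finset (Fin 9), ∑ k ∈ s, f k * DD ^ (k : ℕ) ≡ ∑ k ∈ s, g k * DD ^ (k : ℕ) [MOD MM] := by
    intro s
    classical
    induction s using Finset.induction_on with
    | empty => rfl
    | insert a s ha ih =>
      rw [Finset.sum_insert ha, Finset.sum_insert ha]
      exact ((h a).mul_right _).add ih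
  exact this _

structure RpH (x : Fin 4 → ℝ) (M : Fin 9 → ℝ) (X : HP) (E : Fin 9 → P2) : Prop where
  rep : ∀ k, Rep x (M k) (E k)
  sc : ∀ k, (E k).e = X.e
  v : X.v ≡ (pk9 fun k => (E k).v) [MOD MM]
  g : X.g ≡ (pk9 fun k => (E k).g) [MOD MM]
  h : X.h ≡ (pk9 fun k => (E k).h) [MOD MM]
  n0 : X.n0 = pk9 fun k => (E k).n0
  n1 : X.n1 = pk9 fun k => (E k).n1
  n2 : X.n2 = pk9 fun k => (E k).n2
  r : X.r = pk9 fun k => (E k).r
  t : ∑ k, HP.nn (E k) ≤ X.t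

def RepH (x : Fin 4 → ℝ) (M : Fin 9 → ℝ) (X : HP) : Prop := ∃ E, RpH x M X E

theorem modM' (n : ℕ) : Nat.mod n MM ≡ n [MOD MM] := Nat.mod_modEq _ _

theorem nn_smul (s n e' : ℕ) (X : P2) : HP.nn (P2.smul s n e' X) = n * HP.nn X := by
  show n * X.n0 + n * X.n1 + (n * X.n2 + n * X.r) = n * (X.n0 + X.n1 + (X.n2 + X.r))
  ring

theorem RepH.smul {x : Fin 4 → ℝ} {M : Fin 9 → ℝ} {X : HP} (h : RepH x M X) (t : ℤ) (s n e' : ℕ)
    (hs : (s : ℤ) ≡ t [ZMOD MM]) (hn : |t| ≤ n) : RepH x (fun k => (t : ℝ) * M k / 2 ^ e') (HP.smul s n e' X) := by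
  obtain ⟨E, h⟩ := h
  refine ⟨fun k => P2.smul s n e' (E k), ⟨fun k => (h.rep k).smul t s n e' hs hn, ?_, ?_, ?_, ?_, ?_, ?_, ?_, ?_, ?_⟩⟩
  · intro k
    show (E k).e + e' = X.e + e'
    rw [h.sc k]
  · refine (modM' _).trans ?_
    refine Nat.ModEq.trans (h.v.mul_left s) ?_
    rw [← pk9_mul]
    exact (pk9_congr fun k => (modM' _)).symm
  · refine (modM' _).trans ?_
    refine Nat.ModEq.trans (h.g.mul_left s) ?_
    rw [← pk9_mul]
    exact (pk9_congr fun k => (modM' _)).symm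
  · refine (modM' _).trans ?_
    refine Nat.ModEq.trans (h.h.mul_left s) ?_
    rw [← pk9_mul]
    exact (pk9_congr fun k => (modM' _)).symm
  · show n * X.n0 = _
    rw [h.n0, ← pk9_mul]
    rfl
  · show n * X.n1 = _
    rw [h.n1, ← pk9_mul]
    rfl
  · show n * X.n2 = _
    rw [h.n2, ← pk9_mul]
    rfl
  · show n * X.r = _
    rw [h.r, ← pk9_mul]
    rfl
  · show _ ≤ n * X.t
    have h1 := Nat.mul_le_mul_left n h.t
    rw [Finset.mul_sum] at h1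
    simp only [nn_smul]
    exact h1

theorem RepH.up {x : Fin 4 → ℝ} {M : Fin 9 → ℝ} {X : HP} (h : RepH x M X) (k : ℕ) : RepH x M (HP.up k X) := by
  have h1 := h.smul ((2 ^ k : ℕ) : ℤ) (2 ^ k) (2 ^ k) k rfl (by rw [abs_of_nonneg (Int.natCast_nonneg _)])
  have e1 : (fun j => (((2 ^ k : ℕ) : ℤ) : ℝ) * M j / 2 ^ k) = M := by
    funext j
    push_cast
    field_simp
  rw [e1] at h1
  exact h1

theorem RepH.neg {x : Fin 4 → ℝ} {M : Fin 9 → ℝ} {X : HP} (h : RepH x M X) : RepH x (fun k => -M k) (HP.neg X) := by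
  have h1 := h.smul (-1) M1 1 0 M1_eq (by simp)
  have e1 : (fun j => ((-1 : ℤ) : ℝ) * M j / 2 ^ 0) = fun k => -M k := by
    funext j
    simp
  rw [e1] at h1
  exact h1

theorem nn_add0 (X Y : P2) : HP.nn (P2.add0 X Y) = HP.nn X + HP.nn Y := by
  show X.n0 + Y.n0 + (X.n1 + Y.n1) + (X.n2 + Y.n2 + (X.r + Y.r)) = X.n0 + X.n1 + (X.n2 + X.r) + (Y.n0 + Y.n1 + (Y.n2 + Y.r))
  ring

theorem RepH.add0 {x : Fin 4 → ℝ} {M N : Fin 9 → ℝ} {X Y : HP} (h : RepH x M X) (k : RepH x N Y) (he : X.e = Y.e) :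
    RepH x (fun k => M k + N k) (HP.add0 X Y) := by
  obtain ⟨E, h⟩ := h
  obtain ⟨F, k⟩ := k
  refine ⟨fun j => P2.add0 (E j) (F j), ⟨fun j => (h.rep j).add0 (k.rep j) ?_, ?_, ?_, ?_, ?_, ?_, ?_, ?_, ?_, ?_⟩⟩
  · rw [h.sc, k.sc, he]
  · intro j
    exact h.sc j
  · refine (modM' _).trans ?_
    refine Nat.ModEq.trans (h.v.add k.v) ?_
    rw [← pk9_add]
    exact (pk9_congr fun j => (modM' _)).symm
  · refine (modM' _).trans ?_
    refine Nat.ModEq.trans (h.g.add k.g) ?_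
    rw [← pk9_add]
    exact (pk9_congr fun j => (modM' _)).symm
  · refine (modM' _).trans ?_
    refine Nat.ModEq.trans (h.h.add k.h) ?_
    rw [← pk9_add]
    exact (pk9_congr fun j => (modM' _)).symm
  · show X.n0 + Y.n0 = _
    rw [h.n0, k.n0, ← pk9_add]
    rfl
  · show X.n1 + Y.n1 = _
    rw [h.n1, k.n1, ← pk9_add]
    rfl
  · show X.n2 + Y.n2 = _
    rw [h.n2, k.n2, ← pk9_add]
    rfl
  · show X.r + Y.r = _
    rw [h.r, k.r, ← pk9_add]
    rfl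
  · show _ ≤ X.t + Y.t
    simp only [nn_add0]
    rw [Finset.sum_add_distrib]
    exact add_le_add h.t k.t

theorem RepH.add {x : Fin 4 → ℝ} {M N : Fin 9 → ℝ} {X Y : HP} (h : RepH x M X) (k : RepH x N Y) :
    RepH x (fun k => M k + N k) (HP.add X Y) := by
  unfold HP.add
  rw [cond_beq, cond_ble]
  by_cases h1 : X.e = Y.e
  · rw [if_pos h1]
    exact h.add0 k h1
  · rw [if_neg h1]
    by_cases h2 : X.e ≤ Y.e
    · rw [if_pos h2]
      refine (h.up _).add0 k ?_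
      show X.e + (Y.e - X.e) = Y.e
      omega
    · rw [if_neg h2]
      refine h.add0 (k.up _) ?_
      show X.e = Y.e + (X.e - Y.e)
      omega

theorem nn_mul (X Y : P2) : HP.nn (P2.mul X Y) = HP.nn X * HP.nn Y := by
  show X.n0 * Y.n0 + (X.n0 * Y.n1 + X.n1 * Y.n0) + (X.n0 * Y.n2 + X.n2 * Y.n0 + X.n1 * Y.n1 +
    (X.n1 * Y.n2 + X.n2 * (Y.n1 + Y.n2) + ((X.n0 + X.n1 + X.n2) * Y.r + (Y.n0 + Y.n1 + (Y.n2 + Y.r)) * X.r))) =
    (X.n0 + X.n1 + (X.n2 + X.r)) * (Y.n0 + Y.n1 + (Y.n2 + Y.r))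
  ring

theorem RepH.mul {x : Fin 4 → ℝ} (hx : ∀ i, |x i| ≤ 1) {y : ℝ} {M : Fin 9 → ℝ} {s : P2} {X : HP} (hs : Rep x y s)
    (h : RepH x M X) : RepH x (fun k => y * M k) (HP.mul s X) := by
  obtain ⟨E, h⟩ := h
  refine ⟨fun k => P2.mul s (E k), ⟨fun k => hs.mul hx (h.rep k), ?_, ?_, ?_, ?_, ?_, ?_, ?_, ?_, ?_⟩⟩
  · intro k
    show s.e + (E k).e = s.e + X.e
    rw [h.sc k]
  · refine (modM' _).trans ?_
    refine Nat.ModEq.trans (h.v.mul_left s.v) ?_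
    rw [← pk9_mul]
    exact (pk9_congr fun k => (modM' _)).symm
  · refine (modM' _).trans ?_
    refine Nat.ModEq.trans ((h.g.mul_left s.v).add (h.v.mul_left s.g)) ?_
    rw [← pk9_mul, ← pk9_mul, ← pk9_add]
    exact (pk9_congr fun k => (modM' _)).symm
  · refine (modM' _).trans ?_
    refine Nat.ModEq.trans (((h.h.mul_left s.v).add (h.v.mul_left s.h)).add (h.g.mul_left s.g)) ?_
    rw [← pk9_mul, ← pk9_mul, ← pk9_mul, ← pk9_add, ← pk9_add]
    exact (pk9_congr fun k => (modM' _)).symm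
  · show s.n0 * X.n0 = _
    rw [h.n0, ← pk9_mul]
    rfl
  · show s.n0 * X.n1 + s.n1 * X.n0 = _
    rw [h.n0, h.n1, ← pk9_mul, ← pk9_mul, ← pk9_add]
    rfl
  · show s.n0 * X.n2 + s.n2 * X.n0 + s.n1 * X.n1 = _
    rw [h.n0, h.n1, h.n2, ← pk9_mul, ← pk9_mul, ← pk9_mul, ← pk9_add, ← pk9_add]
    rfl
  · show s.n1 * X.n2 + s.n2 * (X.n1 + X.n2) + ((s.n0 + s.n1 + s.n2) * X.r + (X.n0 + X.n1 + (X.n2 + X.r)) * s.r) = _
    rw [h.n0, h.n1, h.n2, h.r, ← pk9_add, ← pk9_add, ← pk9_add, ← pk9_add, ← pk9_mul, ← pk9_mul, ← pk9_mul, ← pk9_mul', ← pk9_add,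
      ← pk9_add, ← pk9_add]
    rfl
  · show _ ≤ HP.nn s * X.t
    simp only [nn_mul]
    rw [← Finset.mul_sum]
    exact Nat.mul_le_mul_left _ h.t

theorem shl_DD (a : ℕ) : Nat.shiftLeft a (nat_lit 160) = a * DD := by
  rw [DD_eq]
  exact Nat.shiftLeft_eq a 160

theorem pk_eq (a0 a1 a2 a3 a4 a5 a6 a7 a8 : ℕ) : HP.pk a0 a1 a2 a3 a4 a5 a6 a7 a8 = pk9 ![a0, a1, a2, a3, a4, a5, a6, a7, a8] := by
  unfold HP.pk pk9
  simp only [shl_DD]
  show a0 + (a1 + (a2 + (a3 + (a4 + (a5 + (a6 + (a7 + a8 * DD) * DD) * DD) * DD) * DD) * DD) * DD) * DD = _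
  simp [Fin.sum_univ_succ]
  ring

seal HP.pk

/-- the nine entries -/
def ents (M : H2) : Fin 9 → P2 := ![M.d0, M.d1, M.d2, M.a.x, M.a.y, M.b.x, M.b.y, M.c.x, M.c.y]

theorem vec9 {α β : Type} (f : α → β) (a0 a1 a2 a3 a4 a5 a6 a7 a8 : α) :
    (fun k => f ((![a0, a1, a2, a3, a4, a5, a6, a7, a8] : Fin 9 → α) k)) =
      ![f a0, f a1, f a2, f a3, f a4, f a5, f a6, f a7, f a8] := by
  funext k
  fin_cases k <;> rfl

theorem RepH.of0 {x : Fin 4 → ℝ} {M : Fin 9 → ℝ} {H : H2} (h : ∀ k, Rep x (M k) (ents H k))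
    (he : ∀ k, (ents H k).e = H.d0.e) : RepH x M (HP.of0 H) := by
  refine ⟨ents H, ⟨h, he, ?_, ?_, ?_, ?_, ?_, ?_, ?_, ?_⟩⟩
  · refine (modM' _).trans ?_
    rw [pk_eq, ents, vec9]
  · refine (modM' _).trans ?_
    rw [pk_eq, ents, vec9]
  · refine (modM' _).trans ?_
    rw [pk_eq, ents, vec9]
  · show HP.pk _ _ _ _ _ _ _ _ _ = _
    rw [pk_eq, ents, vec9]
  · show HP.pk _ _ _ _ _ _ _ _ _ = _
    rw [pk_eq, ents, vec9]
  · show HP.pk _ _ _ _ _ _ _ _ _ = _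
    rw [pk_eq, ents, vec9]
  · show HP.pk _ _ _ _ _ _ _ _ _ = _
    rw [pk_eq, ents, vec9]
  · refine le_of_eq ?_
    show ∑ k, (fun j => HP.nn (ents H j)) k = HP.nn H.d0 + HP.nn H.d1 + (HP.nn H.d2 + HP.nn H.a.x) + (HP.nn H.a.y +
      HP.nn H.b.x + (HP.nn H.b.y + (HP.nn H.c.x + HP.nn H.c.y)))
    rw [ents, vec9]
    simp [Fin.sum_univ_succ]
    ring

theorem mx_eq (a b : ℕ) : HP.mx a b = max a b := by
  unfold HP.mx
  rw [cond_ble]
  split
  · rename_i h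
    exact (max_eq_right h).symm
  · rename_i h
    exact (max_eq_left (not_le.mp h).le).symm

theorem Rep.al {x : Fin 4 → ℝ} {y : ℝ} {X : P2} (h : Rep x y X) (E : ℕ) : Rep x y (HP.al E X) := by
  unfold HP.al
  rw [cond_beq]
  split
  · exact h
  · exact h.up _

theorem al_e (E : ℕ) (X : P2) (h : X.e ≤ E) : (HP.al E X).e = E := by
  unfold HP.al
  rw [cond_beq]
  split
  · assumption
  · show X.e + (E - X.e) = E
    omega

theorem RepH.ofH {x : Fin 4 → ℝ} {M : Fin 9 → ℝ} {H : H2} (h : ∀ k, Rep x (M k) (ents H k)) : RepH x M (HP.ofH H) := by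
  unfold HP.ofH
  rw [ev_eq]
  set E := HP.emx H with hE
  have hle : ∀ k, (ents H k).e ≤ E := by
    intro k
    rw [hE]
    unfold HP.emx
    simp only [mx_eq]
    fin_cases k
    · show H.d0.e ≤ _
      omega
    · show H.d1.e ≤ _
      omega
    · show H.d2.e ≤ _
      omega
    · show H.a.x.e ≤ _
      omega
    · show H.a.y.e ≤ _
      omega
    · show H.b.x.e ≤ _
      omega
    · show H.b.y.e ≤ _
      omega
    · show H.c.x.e ≤ _
      omega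
    · show H.c.y.e ≤ _
      omega
  have hs : ∀ k, ents (HP.al2 E H) k = HP.al E (ents H k) := by
    intro k
    fin_cases k <;> rfl
  refine RepH.of0 (fun k => ?_) fun k => ?_
  · rw [hs]
    exact (h k).al E
  · rw [hs, al_e E _ (hle k)]
    exact (al_e E _ (hle 0)).symm

end Pool.Agent.Work.MP_88b7aa_gt.Kc
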