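import Pool.Agent.Work.MP_88b7aa_gt.Kc.S3
import Pool.Agent.Work.MP_88b7aa_gt.PQ.Psd

/-!
# Soundness of the packed Taylor models, part 4: the test
-/

set_option autoImplicit false

namespace Pool.Agent.Work.MP_88b7aa_gt.Kc

open Pool.Agent.Work.MP_88b7aa_gt.PQ

set_option exponentiation.threshold 1000

seal MM BB Bh DD Dh M1 OG OH HP.pk

/-! ### The quadratic form of nine real numbers -/

/-- the value of the Hermitian form with the nine real entries `m` -/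
noncomputable def QF (m : Fin 9 → ℝ) (u : Fin 3 → ℂ) : ℝ := qf (Hm (m 0) (m 1) (m 2) (m 3) (m 4) (m 5) (m 6) (m 7) (m 8)) u

theorem QF_lin (m n : Fin 9 → ℝ) (a b : ℝ) (u : Fin 3 → ℂ) :
    QF (fun k => a * m k + b * n k) u = a * QF m u + b * QF n u := by
  unfold QF
  rw [qf_Hm, qf_Hm, qf_Hm]
  ring

theorem two_ab (p a b c d : ℝ) : -(|p| * (a ^ 2 + b ^ 2 + (c ^ 2 + d ^ 2))) ≤ 2 * (p * (a * c + b * d)) := by
  have h1 : |2 * (p * (a * c + b * d))| ≤ |p| * (a ^ 2 + b ^ 2 + (c ^ 2 + d ^ 2)) := by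
    have e : 2 * (p * (a * c + b * d)) = p * (2 * (a * c + b * d)) := by ring
    rw [e, abs_mul]
    refine mul_le_mul_of_nonneg_left ?_ (abs_nonneg _)
    rw [abs_le]
    constructor <;> nlinarith [sq_nonneg (a + c), sq_nonneg (b + d), sq_nonneg (a - c), sq_nonneg (b - d)]
  exact (abs_le.mp h1).1

/-- The errors are dominated by the reductions. -/
theorem QF_err (m ρ : Fin 9 → ℝ) (h : ∀ k, |m k| ≤ ρ k) (R : Fin 9 → ℝ)
    (h0 : R 0 = ρ 0 + (ρ 3 + ρ 4 + (ρ 5 + ρ 6))) (h1 : R 1 = ρ 1 + (ρ 3 + ρ 4 + (ρ 7 + ρ 8)))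
    (h2 : R 2 = ρ 2 + (ρ 5 + ρ 6 + (ρ 7 + ρ 8))) (h3 : ∀ k : Fin 9, 3 ≤ (k : ℕ) → R k = 0) (u : Fin 3 → ℂ) :
    0 ≤ QF (fun k => m k + R k) u := by
  unfold QF
  rw [qf_Hm]
  simp only
  rw [h3 3 (by decide), h3 4 (by decide), h3 5 (by decide), h3 6 (by decide), h3 7 (by decide), h3 8 (by decide), h0, h1, h2]
  set a0 := (u 0).re
  set b0 := (u 0).im
  set a1 := (u 1).re
  set b1 := (u 1).im
  set a2 := (u 2).re
  set b2 := (u 2).im
  have t3 := two_ab (m 3) a0 b0 a1 b1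
  have t4 := two_ab (m 4) b0 (-a0) a1 b1
  have t5 := two_ab (m 5) a0 b0 a2 b2
  have t6 := two_ab (m 6) b0 (-a0) a2 b2
  have t7 := two_ab (m 7) a1 b1 a2 b2
  have t8 := two_ab (m 8) b1 (-a1) a2 b2
  have q0 : 0 ≤ a0 ^ 2 + b0 ^ 2 := by positivity
  have q1 : 0 ≤ a1 ^ 2 + b1 ^ 2 := by positivity
  have q2 : 0 ≤ a2 ^ 2 + b2 ^ 2 := by positivity
  have s0 := mul_le_mul_of_nonneg_right ((neg_le_of_abs_le (h 0))) q0
  have s1 := mul_le_mul_of_nonneg_right ((neg_le_of_abs_le (h 1))) q1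
  have s2 := mul_le_mul_of_nonneg_right ((neg_le_of_abs_le (h 2))) q2
  have r3 := mul_le_mul_of_nonneg_right (h 3) (add_nonneg q0 q1)
  have r4 := mul_le_mul_of_nonneg_right (h 4) (add_nonneg q0 q1)
  have r5 := mul_le_mul_of_nonneg_right (h 5) (add_nonneg q0 q2)
  have r6 := mul_le_mul_of_nonneg_right (h 6) (add_nonneg q0 q2)
  have r7 := mul_le_mul_of_nonneg_right (h 7) (add_nonneg q1 q2)
  have r8 := mul_le_mul_of_nonneg_right (h 8) (add_nonneg q1 q2)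
  have e4 : (-a0) ^ 2 = a0 ^ 2 := by ring
  have e8 : (-a1) ^ 2 = a1 ^ 2 := by ring
  rw [e4] at t4 t6
  rw [e8] at t8
  linarith

/-! ### Packed integers modulo `BB` -/

/-- packing of nine integers -/
def pz (w : Fin 9 → ℤ) : ℤ := ∑ k : Fin 9, w k * (DD : ℤ) ^ (k : ℕ)

/-- sum of the absolute values -/
def nz (w : Fin 9 → ℤ) : ℤ := ∑ k : Fin 9, |w k|

theorem pz_lin (a b : ℤ) (v w : Fin 9 → ℤ) : pz (fun k => a * v k + b * w k) = a * pz v + b * pz w := by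
  unfold pz
  rw [Finset.mul_sum, Finset.mul_sum, ← Finset.sum_add_distrib]
  exact Finset.sum_congr rfl fun k _ => by ring

theorem pz_add (v w : Fin 9 → ℤ) : pz (fun k => v k + w k) = pz v + pz w := by
  have := pz_lin 1 1 v w
  simpa using this

theorem pz_sub (v w : Fin 9 → ℤ) : pz (fun k => v k - w k) = pz v - pz w := by
  have := pz_lin 1 (-1) v w
  simpa [sub_eq_add_neg] using this

theorem nz_add (v w : Fin 9 → ℤ) : nz (fun k => v k + w k) ≤ nz v + nz w := by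
  unfold nz
  rw [← Finset.sum_add_distrib]
  exact Finset.sum_le_sum fun k _ => abs_add_le _ _

theorem nz_sub (v w : Fin 9 → ℤ) : nz (fun k => v k - w k) ≤ nz v + nz w := by
  unfold nz
  rw [← Finset.sum_add_distrib]
  exact Finset.sum_le_sum fun k _ => abs_sub _ _

theorem nz_nonneg (w : Fin 9 → ℤ) : 0 ≤ nz w := Finset.sum_nonneg fun _ _ => abs_nonneg _

theorem le_nz (w : Fin 9 → ℤ) (k : Fin 9) : |w k| ≤ nz w :=
  Finset.single_le_sum (f := fun k => |w k|) (fun _ _ => abs_nonneg _) (Finset.mem_univ k)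

/-- `V` is the residue of the packing of `w` modulo `BB`. -/
structure Ok (V : ℕ) (w : Fin 9 → ℤ) : Prop where
  eq : (V : ℤ) ≡ pz w [ZMOD BB]
  lt : V < BB

theorem modB (n : ℕ) : ((Nat.mod n BB : ℕ) : ℤ) ≡ n [ZMOD BB] := by
  show ((n % BB : ℕ) : ℤ) ≡ n [ZMOD BB]
  rw [Int.natCast_mod]
  exact Int.mod_modEq _ _

theorem Ok.ad {V W : ℕ} {v w : Fin 9 → ℤ} (h : Ok V v) (k : Ok W w) : Ok (ad V W) fun j => v j + w j := by
  refine ⟨?_, Nat.mod_lt _ BB_pos⟩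
  refine (modB _).trans ?_
  show ((V + W : ℕ) : ℤ) ≡ _ [ZMOD BB]
  rw [Nat.cast_add, pz_add]
  exact h.eq.add k.eq

theorem Ok.sb {V W : ℕ} {v w : Fin 9 → ℤ} (h : Ok V v) (k : Ok W w) : Ok (sb V W) fun j => v j - w j := by
  refine ⟨?_, Nat.mod_lt _ BB_pos⟩
  refine (modB _).trans ?_
  show ((V + (BB - W) : ℕ) : ℤ) ≡ _ [ZMOD BB]
  rw [Nat.cast_add, Nat.cast_sub k.lt.le, pz_sub]
  have h1 : ((V : ℤ) + (BB - W)) ≡ (V : ℤ) - W [ZMOD BB] := by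
    rw [Int.modEq_iff_dvd]
    exact ⟨-1, by ring⟩
  exact h1.trans (h.eq.sub k.eq)

/-! ### Signed digits -/

theorem O9_eq : O9 = ∑ k : Fin 9, Dh * DD ^ (k : ℕ) := by
  unfold O9
  rw [pk_eq]
  unfold pk9
  refine Finset.sum_congr rfl fun k _ => ?_
  fin_cases k <;> rfl

/-- the digit with offset -/
def odd1 (c : ℤ) : ℕ := (c + Dh).toNat

theorem odd1_cast {c : ℤ} (h : |c| < Dh) : (odd1 c : ℤ) = c + Dh := by
  have := abs_lt.mp h
  exact Int.toNat_of_nonneg (by linarith)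

theorem odd1_lt {c : ℤ} (h : |c| < Dh) : odd1 c < DD := by
  have h1 := abs_lt.mp h
  have h2 := odd1_cast h
  have h3 : (DD : ℤ) = 2 * Dh := by exact_mod_cast two_Dh.symm
  have : (odd1 c : ℤ) < DD := by linarith
  exact_mod_cast this

theorem sum9 (f : Fin 9 → ℕ) (n : ℕ) (hn : 9 ≤ n) :
    ∑ i ∈ Finset.range n, (if h : i < 9 then f ⟨i, h⟩ else 0) * DD ^ i = ∑ k : Fin 9, f k * DD ^ (k : ℕ) := by
  rw [← Finset.sum_subset (Finset.range_subset_range.mpr hn), ← Fin.sum_univ_eq_sum_range]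
  · exact Finset.sum_congr rfl fun k _ => by simp
  · intro i _ hi
    rw [Finset.mem_range] at hi
    rw [dif_neg hi, zero_mul]

theorem dgt9 (f : Fin 9 → ℕ) (hf : ∀ k, f k < DD) (k : Fin 9) (s : ℕ) (hs : s = 160 * (k : ℕ)) :
    dgt (∑ k : Fin 9, f k * DD ^ (k : ℕ)) s = f k := by
  unfold dgt
  rw [shr_DD _ k s hs, ← sum9 f 9 le_rfl]
  have h1 := dig_sum DD DD_pos 9 (fun i => if h : i < 9 then f ⟨i, h⟩ else 0) (fun i => by
    split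
    · exact hf _
    · exact DD_pos) k k.isLt
  refine Eq.trans h1 ?_
  simp

theorem Ok.offs {V : ℕ} {w : Fin 9 → ℤ} (h : Ok V w) (hw : nz w < Dh) (N : ℕ) (hN : N = Nat.mod (Nat.add V O9) BB) :
    N = ∑ k : Fin 9, odd1 (w k) * DD ^ (k : ℕ) := by
  have hk : ∀ k, |w k| < Dh := fun k => (le_nz w k).trans_lt hw
  have h1 : (N : ℤ) ≡ ((∑ k : Fin 9, odd1 (w k) * DD ^ (k : ℕ) : ℕ) : ℤ) [ZMOD BB] := by
    rw [hN]
    refine (modB _).trans ?_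
    show ((V + O9 : ℕ) : ℤ) ≡ _ [ZMOD BB]
    rw [Nat.cast_add]
    have e : ((∑ k : Fin 9, odd1 (w k) * DD ^ (k : ℕ) : ℕ) : ℤ) = pz w + (O9 : ℤ) := by
      rw [O9_eq]
      unfold pz
      push_cast
      rw [← Finset.sum_add_distrib]
      refine Finset.sum_congr rfl fun k _ => ?_
      rw [odd1_cast (hk k)]
      ring
    rw [e]
    exact h.eq.add rfl
  have h2 : ∑ k : Fin 9, odd1 (w k) * DD ^ (k : ℕ) < BB := by
    rw [← sum9 _ 10 (by norm_num), BB_DD]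
    exact sum_lt DD DD_pos 10 _ fun i => by
      split
      · exact odd1_lt (hk _)
      · exact DD_pos
  have h3 : N < BB := by
    rw [hN]
    exact Nat.mod_lt _ BB_pos
  exact Nat.ModEq.eq_of_lt_of_lt (Int.natCast_modEq_iff.mp h1) h3 h2

theorem Ok.dgt {V : ℕ} {w : Fin 9 → ℤ} (h : Ok V w) (hw : nz w < Dh) (N : ℕ) (hN : N = Nat.mod (Nat.add V O9) BB)
    (k : Fin 9) (s : ℕ) (hs : s = 160 * (k : ℕ)) : dgt N s = odd1 (w k) := by
  rw [h.offs hw N hN]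
  exact dgt9 (fun k => odd1 (w k)) (fun k => odd1_lt ((le_nz w k).trans_lt hw)) k s hs

/-! ### The leaf -/

theorem PP_eq : PP = 2 ^ 768 := by
  unfold PP
  exact Nat.pow_eq

seal PP

theorem Ph_eq : Ph = 2 ^ 767 - 1 := by
  unfold Ph
  rfl

theorem P1_eq : P1 = PP - 1 := by
  unfold P1
  rfl

theorem Os_eq : Os = PP - Dh := by
  unfold Os
  rfl

seal P1 Ph Os O9

theorem PP_pos : 0 < PP := by rw [PP_eq]; positivity
theorem P1_mod : (P1 : ℤ) ≡ -1 [ZMOD PP] := by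
  rw [P1_eq, Nat.cast_sub (by have := PP_pos; omega), Nat.cast_one, Int.modEq_iff_dvd]
  exact ⟨-1, by ring⟩

theorem Dh_le_PP : Dh ≤ PP := by
  rw [Dh_eq, PP_eq]
  exact Nat.pow_le_pow_right (by norm_num) (by norm_num)

theorem sd_mod {V : ℕ} {w : Fin 9 → ℤ} (h : Ok V w) (hw : nz w < Dh) (N : ℕ) (hN : N = Nat.mod (Nat.add V O9) BB)
    (k : Fin 9) (s : ℕ) (hs : s = 160 * (k : ℕ)) : ((sd N s : ℕ) : ℤ) ≡ w k [ZMOD PP] := by
  have e : sd N s = odd1 (w k) + (PP - Dh) := by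
    unfold sd
    rw [h.dgt hw N hN k s hs, Os_eq]
    rfl
  rw [e, Nat.cast_add, Nat.cast_sub Dh_le_PP, odd1_cast ((le_nz w k).trans_lt hw), Int.modEq_iff_dvd]
  exact ⟨-1, by ring⟩

theorem modP (n : ℕ) : ((Nat.mod n PP : ℕ) : ℤ) ≡ n [ZMOD PP] := by
  show ((n % PP : ℕ) : ℤ) ≡ n [ZMOD PP]
  rw [Int.natCast_mod]
  exact Int.mod_modEq _ _

/-- A small residue is the number itself. -/
theorem res_eq {r : ℕ} {T : ℤ} (h : (r : ℤ) ≡ T [ZMOD PP]) (hr : r ≤ Ph) (hT : |T| < 2 ^ 767) : T = r := by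
  have h1 := (Int.modEq_iff_dvd.mp h)
  have h2 : (PP : ℤ) = 2 * 2 ^ 767 := by
    rw [PP_eq]
    push_cast
  rw [Ph_eq] at hr
  have h3 : (r : ℤ) ≤ 2 ^ 767 - 1 := by
    have h4 : r + 1 ≤ 2 ^ 767 := by
      have : 0 < 2 ^ 767 := by positivity
      omega
    have h5 : ((r + 1 : ℕ) : ℤ) ≤ ((2 ^ 767 : ℕ) : ℤ) := Int.ofNat_le.mpr h4
    push_cast at h5
    linarith
  have h6 := abs_lt.mp hT
  have h7 : (0 : ℤ) ≤ r := Int.natCast_nonneg _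
  have h8 : |T - r| < PP := by
    rw [h2, abs_lt]
    constructor <;> linarith
  have h9 := Int.eq_zero_of_abs_lt_dvd h1 h8
  linarith

theorem mul_abs_lt {a b : ℤ} {A B : ℤ} (ha : |a| ≤ A) (hb : |b| ≤ B) : |a * b| ≤ A * B := by
  rw [abs_mul]
  exact mul_le_mul ha hb (abs_nonneg _) ((abs_nonneg _).trans ha)

theorem leaf_sound (d0 d1 d2 p q r s t w : ℕ) (D0 D1 D2 P Q R S T W : ℤ) (g0 : (d0 : ℤ) ≡ D0 [ZMOD PP])
    (g1 : (d1 : ℤ) ≡ D1 [ZMOD PP]) (g2 : (d2 : ℤ) ≡ D2 [ZMOD PP]) (gp : (p : ℤ) ≡ P [ZMOD PP])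
    (gq : (q : ℤ) ≡ Q [ZMOD PP]) (gr : (r : ℤ) ≡ R [ZMOD PP]) (gs : (s : ℤ) ≡ S [ZMOD PP])
    (gt : (t : ℤ) ≡ T [ZMOD PP]) (gw : (w : ℤ) ≡ W [ZMOD PP]) (b0 : |D0| ≤ Dh) (b1 : |D1| ≤ Dh) (b2 : |D2| ≤ Dh)
    (bp : |P| ≤ Dh) (bq : |Q| ≤ Dh) (br : |R| ≤ Dh) (bs : |S| ≤ Dh) (bt : |T| ≤ Dh) (bw : |W| ≤ Dh) (hD : 0 < D0)
    (h : psd d0 d1 d2 p q r s t w = true) (u : Fin 3 → ℂ) : 0 ≤ qf (Hm D0 D1 D2 P Q R S T W) u := by
  have hDh : (Dh : ℤ) = 2 ^ 159 := by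
    rw [Dh_eq]
    norm_num
  rw [hDh] at b0 b1 b2 bp bq br bs bt bw
  unfold psd psd2 at h
  rw [Bool.and_eq_true, Bool.and_eq_true, Nat.ble_eq, Nat.ble_eq, Nat.ble_eq] at h
  obtain ⟨⟨hA1, hA2⟩, hC⟩ := h
  -- the residues
  have eA : ((Nat.mod (Nat.add (Nat.mul d0 d1) (Nat.mul P1 (Nat.add (Nat.mul p p) (Nat.mul q q)))) PP : ℕ) : ℤ) ≡
      D0 * D1 - (P ^ 2 + Q ^ 2) [ZMOD PP] := by
    refine (modP _).trans ?_
    show ((d0 * d1 + P1 * (p * p + q * q) : ℕ) : ℤ) ≡ _ [ZMOD PP]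
    push_cast
    have := (g0.mul g1).add (P1_mod.mul ((gp.mul gp).add (gq.mul gq)))
    refine this.trans (modEq_of_eq (by ring))
  have eC : ((Nat.add (Nat.mul d0 d2) (Nat.mul P1 (Nat.add (Nat.mul r r) (Nat.mul s s))) : ℕ) : ℤ) ≡
      D0 * D2 - (R ^ 2 + S ^ 2) [ZMOD PP] := by
    show ((d0 * d2 + P1 * (r * r + s * s) : ℕ) : ℤ) ≡ _ [ZMOD PP]
    push_cast
    have := (g0.mul g2).add (P1_mod.mul ((gr.mul gr).add (gs.mul gs)))
    refine this.trans (modEq_of_eq (by ring))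
  have e1 : ((Nat.add (Nat.mul d0 t) (Nat.mul P1 (Nat.add (Nat.mul p r) (Nat.mul q s))) : ℕ) : ℤ) ≡
      D0 * T - (P * R + Q * S) [ZMOD PP] := by
    show ((d0 * t + P1 * (p * r + q * s) : ℕ) : ℤ) ≡ _ [ZMOD PP]
    push_cast
    have := (g0.mul gt).add (P1_mod.mul ((gp.mul gr).add (gq.mul gs)))
    refine this.trans (modEq_of_eq (by ring))
  have e2 : ((Nat.add (Nat.add (Nat.mul d0 w) (Nat.mul q r)) (Nat.mul P1 (Nat.mul p s)) : ℕ) : ℤ) ≡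
      D0 * W - (P * S - Q * R) [ZMOD PP] := by
    show ((d0 * w + q * r + P1 * (p * s) : ℕ) : ℤ) ≡ _ [ZMOD PP]
    push_cast
    have := ((g0.mul gw).add (gq.mul gr)).add (P1_mod.mul (gp.mul gs))
    refine this.trans (modEq_of_eq (by ring))
  -- bounds
  have k1 : ∀ {a b : ℤ}, |a| ≤ 2 ^ 159 → |b| ≤ 2 ^ 159 → |a * b| ≤ 2 ^ 318 := by
    intro a b ha hb
    have := mul_abs_lt ha hb
    rwa [← pow_add] at this
  have bA : |D0 * D1 - (P ^ 2 + Q ^ 2)| ≤ 3 * 2 ^ 318 := by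
    have x1 := abs_le.mp (k1 b0 b1)
    have x2 := abs_le.mp (k1 bp bp)
    have x3 := abs_le.mp (k1 bq bq)
    rw [abs_le]
    constructor <;> nlinarith
  have bC : |D0 * D2 - (R ^ 2 + S ^ 2)| ≤ 3 * 2 ^ 318 := by
    have x1 := abs_le.mp (k1 b0 b2)
    have x2 := abs_le.mp (k1 br br)
    have x3 := abs_le.mp (k1 bs bs)
    rw [abs_le]
    constructor <;> nlinarith
  have bB1 : |D0 * T - (P * R + Q * S)| ≤ 3 * 2 ^ 318 := by
    have x1 := abs_le.mp (k1 b0 bt)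
    have x2 := abs_le.mp (k1 bp br)
    have x3 := abs_le.mp (k1 bq bs)
    rw [abs_le]
    constructor <;> linarith [x1.1, x1.2, x2.1, x2.2, x3.1, x3.2]
  have bB2 : |D0 * W - (P * S - Q * R)| ≤ 3 * 2 ^ 318 := by
    have x1 := abs_le.mp (k1 b0 bw)
    have x2 := abs_le.mp (k1 bp bs)
    have x3 := abs_le.mp (k1 bq br)
    rw [abs_le]
    constructor <;> linarith [x1.1, x1.2, x2.1, x2.2, x3.1, x3.2]
  set A := D0 * D1 - (P ^ 2 + Q ^ 2) with hAd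
  set C := D0 * D2 - (R ^ 2 + S ^ 2) with hCd
  set B1 := D0 * T - (P * R + Q * S) with hB1
  set B2 := D0 * W - (P * S - Q * R) with hB2
  have c1 : (3 * 2 ^ 318 : ℤ) < 2 ^ 767 := by norm_num
  have hA : A = _ := res_eq eA hA2 (bA.trans_lt c1)
  have hApos : 0 < A := by
    rw [hA]
    have : 0 < Nat.mod (Nat.add (Nat.mul d0 d1) (Nat.mul P1 (Nat.add (Nat.mul p p) (Nat.mul q q)))) PP := hA1
    exact_mod_cast this
  have eT : ((Nat.mod (Nat.add (Nat.mul (Nat.mod (Nat.add (Nat.mul d0 d1) (Nat.mul P1 (Nat.add (Nat.mul p p) (Nat.mul q q)))) PP)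
      (Nat.add (Nat.mul d0 d2) (Nat.mul P1 (Nat.add (Nat.mul r r) (Nat.mul s s)))))
      (Nat.mul P1 (Nat.add (Nat.mul (Nat.add (Nat.mul d0 t) (Nat.mul P1 (Nat.add (Nat.mul p r) (Nat.mul q s))))
      (Nat.add (Nat.mul d0 t) (Nat.mul P1 (Nat.add (Nat.mul p r) (Nat.mul q s)))))
      (Nat.mul (Nat.add (Nat.add (Nat.mul d0 w) (Nat.mul q r)) (Nat.mul P1 (Nat.mul p s)))
      (Nat.add (Nat.add (Nat.mul d0 w) (Nat.mul q r)) (Nat.mul P1 (Nat.mul p s))))))) PP : ℕ) : ℤ) ≡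
      A * C - (B1 ^ 2 + B2 ^ 2) [ZMOD PP] := by
    refine (modP _).trans ?_
    generalize (Nat.mod (Nat.add (Nat.mul d0 d1) (Nat.mul P1 (Nat.add (Nat.mul p p) (Nat.mul q q)))) PP) = A' at eA ⊢
    generalize (Nat.add (Nat.mul d0 d2) (Nat.mul P1 (Nat.add (Nat.mul r r) (Nat.mul s s)))) = C' at eC ⊢
    generalize (Nat.add (Nat.mul d0 t) (Nat.mul P1 (Nat.add (Nat.mul p r) (Nat.mul q s)))) = X' at e1 ⊢
    generalize (Nat.add (Nat.add (Nat.mul d0 w) (Nat.mul q r)) (Nat.mul P1 (Nat.mul p s))) = Y' at e2 ⊢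
    show ((A' * C' + P1 * (X' * X' + Y' * Y') : ℕ) : ℤ) ≡ _ [ZMOD PP]
    push_cast
    have := (eA.mul eC).add (P1_mod.mul ((e1.mul e1).add (e2.mul e2)))
    refine this.trans (modEq_of_eq (by ring))
  have k2 : ∀ {a b : ℤ}, |a| ≤ 3 * 2 ^ 318 → |b| ≤ 3 * 2 ^ 318 → |a * b| ≤ 9 * 2 ^ 636 := by
    intro a b ha hb
    have := mul_abs_lt ha hb
    refine this.trans (le_of_eq ?_)
    norm_num
  have bT : |A * C - (B1 ^ 2 + B2 ^ 2)| ≤ 27 * 2 ^ 636 := by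
    have x1 := abs_le.mp (k2 bA bC)
    have x2 := abs_le.mp (k2 bB1 bB1)
    have x3 := abs_le.mp (k2 bB2 bB2)
    rw [abs_le]
    constructor <;> nlinarith
  have c2 : (27 * 2 ^ 636 : ℤ) < 2 ^ 767 := by norm_num
  have hT := res_eq eT hC (bT.trans_lt c2)
  have hTpos : 0 ≤ A * C - (B1 ^ 2 + B2 ^ 2) := by
    rw [hT]
    exact Int.natCast_nonneg _
  refine psd_Hm _ _ _ _ _ _ _ _ _ (by exact_mod_cast hD) (by exact_mod_cast hApos) ?_ u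
  have : B1 ^ 2 + B2 ^ 2 ≤ A * C := by linarith
  rw [hB1, hB2, hAd, hCd] at this
  exact_mod_cast this

theorem f0_sound {V : ℕ} {w : Fin 9 → ℤ} (h : Ok V w) (hw : nz w < Dh) (hf : f0 V = true) (u : Fin 3 → ℂ) :
    0 ≤ QF (fun k => (w k : ℝ)) u := by
  unfold f0 at hf
  rw [ev_eq] at hf
  unfold leaf1 at hf
  set N := Nat.mod (Nat.add V O9) BB with hN
  have hk : ∀ k, |w k| < Dh := fun k => (le_nz w k).trans_lt hw
  rw [cond_ble] at hf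
  split at hf
  · exact absurd hf (by simp)
  rename_i h0
  have hD : 0 < w 0 := by
    have h1 := h.dgt hw N hN 0 (nat_lit 0) rfl
    rw [h1] at h0
    have h2 := odd1_cast (hk 0)
    have h3 : (Dh : ℤ) < odd1 (w 0) := by exact_mod_cast (not_le.mp h0)
    linarith
  exact leaf_sound _ _ _ _ _ _ _ _ _ (w 0) (w 1) (w 2) (w 3) (w 4) (w 5) (w 6) (w 7) (w 8)
    (sd_mod h hw N hN 0 _ rfl) (sd_mod h hw N hN 1 _ rfl) (sd_mod h hw N hN 2 _ rfl) (sd_mod h hw N hN 3 _ rfl)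
    (sd_mod h hw N hN 4 _ rfl) (sd_mod h hw N hN 5 _ rfl) (sd_mod h hw N hN 6 _ rfl) (sd_mod h hw N hN 7 _ rfl)
    (sd_mod h hw N hN 8 _ rfl) (hk 0).le (hk 1).le (hk 2).le (hk 3).le (hk 4).le (hk 5).le (hk 6).le (hk 7).le (hk 8).le
    hD hf u

end Pool.Agent.Work.MP_88b7aa_gt.Kc
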