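import Pool.Agent.Work.MP_88b7aa_gt.Kc.S4

/-!
# Soundness of the packed Taylor models, part 5: the test on the whole box
-/

set_option autoImplicit false

namespace Pool.Agent.Work.MP_88b7aa_gt.Kc

open Pool.Agent.Work.MP_88b7aa_gt.PQ

set_option exponentiation.threshold 1000

seal MM BB Bh DD Dh M1 OG OH HP.pk PP P1 Ph Os O9

/-! ### The corners -/

theorem QF_conv {m n w : Fin 9 → ℝ} {x : ℝ} (hx : |x| ≤ 1) (u : Fin 3 → ℂ) (h1 : 0 ≤ QF m u) (h2 : 0 ≤ QF n u)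
    (hw : ∀ k, w k = (1 + x) / 2 * m k + (1 - x) / 2 * n k) : 0 ≤ QF w u := by
  have e : w = fun k => (1 + x) / 2 * m k + (1 - x) / 2 * n k := funext hw
  rw [e, QF_lin]
  have := abs_le.mp hx
  exact add_nonneg (mul_nonneg (by linarith) h1) (mul_nonneg (by linarith) h2)

theorem f1_sound {V A : ℕ} {v a : Fin 9 → ℤ} (hv : Ok V v) (ha : Ok A a) (hn : nz v + nz a < Dh) (hf : f1 V A = true)
    {x : ℝ} (hx : |x| ≤ 1) (u : Fin 3 → ℂ) : 0 ≤ QF (fun k => (v k : ℝ) + x * a k) u := by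
  unfold f1 at hf
  rw [Bool.and_eq_true] at hf
  refine QF_conv hx u (f0_sound (hv.ad ha) ((nz_add v a).trans_lt hn) hf.1 u)
    (f0_sound (hv.sb ha) ((nz_sub v a).trans_lt hn) hf.2 u) fun k => ?_
  push_cast
  ring

theorem f2_sound {V A B H : ℕ} {v a b h : Fin 9 → ℤ} (hv : Ok V v) (ha : Ok A a) (hb : Ok B b) (hh : Ok H h)
    (hn : nz v + nz a + nz b + nz h < Dh) (hf : f2 V A B H = true) {x y : ℝ} (hx : |x| ≤ 1) (hy : |y| ≤ 1)
    (u : Fin 3 → ℂ) : 0 ≤ QF (fun k => (v k : ℝ) + x * a k + y * b k + x * y * h k) u := by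
  unfold f2 at hf
  simp only [ev_eq] at hf
  rw [Bool.and_eq_true] at hf
  refine QF_conv hy u (f1_sound (hv.ad hb) (ha.ad hh) ?_ hf.1 hx u) (f1_sound (hv.sb hb) (ha.sb hh) ?_ hf.2 hx u)
    fun k => ?_
  · linarith [nz_add v b, nz_add a h]
  · linarith [nz_sub v b, nz_sub a h]
  · push_cast
    ring

theorem f3_sound {V A B C Hab Hac Hbc : ℕ} {v a b c hab hac hbc : Fin 9 → ℤ} (hv : Ok V v) (ha : Ok A a) (hb : Ok B b)
    (hc : Ok C c) (h1 : Ok Hab hab) (h2 : Ok Hac hac) (h3 : Ok Hbc hbc)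
    (hn : nz v + nz a + nz b + nz c + nz hab + nz hac + nz hbc < Dh) (hf : f3 V A B C Hab Hac Hbc = true) {x y z : ℝ}
    (hx : |x| ≤ 1) (hy : |y| ≤ 1) (hz : |z| ≤ 1) (u : Fin 3 → ℂ) :
    0 ≤ QF (fun k => (v k : ℝ) + x * a k + y * b k + z * c k + x * y * hab k + x * z * hac k + y * z * hbc k) u := by
  unfold f3 at hf
  simp only [ev_eq] at hf
  rw [Bool.and_eq_true] at hf
  refine QF_conv hz u (f2_sound (hv.ad hc) (ha.ad h2) (hb.ad h3) h1 ?_ hf.1 hx hy u)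
    (f2_sound (hv.sb hc) (ha.sb h2) (hb.sb h3) h1 ?_ hf.2 hx hy u) fun k => ?_
  · linarith [nz_add v c, nz_add a hac, nz_add b hbc]
  · linarith [nz_sub v c, nz_sub a hac, nz_sub b hbc]
  · push_cast
    ring

theorem f4_sound {V A B C E Hab Hac Hae Hbc Hbe Hce : ℕ} {v a b c e hab hac hae hbc hbe hce : Fin 9 → ℤ} (hv : Ok V v)
    (ha : Ok A a) (hb : Ok B b) (hc : Ok C c) (he : Ok E e) (h1 : Ok Hab hab) (h2 : Ok Hac hac) (h3 : Ok Hae hae)
    (h4 : Ok Hbc hbc) (h5 : Ok Hbe hbe) (h6 : Ok Hce hce)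
    (hn : nz v + nz a + nz b + nz c + nz e + nz hab + nz hac + nz hae + nz hbc + nz hbe + nz hce < Dh)
    (hf : f4 V A B C E Hab Hac Hae Hbc Hbe Hce = true) {x y z t : ℝ}
    (hx : |x| ≤ 1) (hy : |y| ≤ 1) (hz : |z| ≤ 1) (ht : |t| ≤ 1) (u : Fin 3 → ℂ) :
    0 ≤ QF (fun k => (v k : ℝ) + x * a k + y * b k + z * c k + t * e k + x * y * hab k + x * z * hac k + x * t * hae k +
      y * z * hbc k + y * t * hbe k + z * t * hce k) u := by
  unfold f4 at hf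
  simp only [ev_eq] at hf
  rw [Bool.and_eq_true] at hf
  refine QF_conv ht u (f3_sound (hv.ad he) (ha.ad h3) (hb.ad h5) (hc.ad h6) h1 h2 h4 ?_ hf.1 hx hy hz u)
    (f3_sound (hv.sb he) (ha.sb h3) (hb.sb h5) (hc.sb h6) h1 h2 h4 ?_ hf.2 hx hy hz u) fun k => ?_
  · linarith [nz_add v e, nz_add a hae, nz_add b hbe, nz_add c hce]
  · linarith [nz_sub v e, nz_sub a hae, nz_sub b hbe, nz_sub c hce]
  · push_cast
    ring

/-! ### The reductions -/

/-- the reduction of one entry -/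
def rho (q : Q10) (r : ℕ) : ℤ := |q.c11| + |q.c22| + (|q.c33| + |q.c44|) + 2 * r

theorem rho_nonneg (q : Q10) (r : ℕ) : 0 ≤ rho q r := by
  unfold rho
  positivity

/-- the total reduction -/
def RR (ρ : Fin 9 → ℤ) : Fin 9 → ℤ :=
  ![ρ 0 + ((ρ 3 + ρ 4) + (ρ 5 + ρ 6)), ρ 1 + ((ρ 3 + ρ 4) + (ρ 7 + ρ 8)), ρ 2 + ((ρ 5 + ρ 6) + (ρ 7 + ρ 8)), 0, 0, 0, 0, 0, 0]

theorem sq_err (c : ℤ) (y : ℝ) (hy : |y| ≤ 1) : |(c : ℝ) * (2 * (y * y) - 1)| ≤ ((|c| : ℤ) : ℝ) := by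
  refine abs_mul_le_of_one c _ ?_
  have h1 := abs_le.mp (one_mul_abs hy hy)
  have h2 : 0 ≤ y * y := mul_self_nonneg y
  rw [abs_le]
  constructor <;> linarith

/-- The real number inequality behind the test. -/
theorem core {x : Fin 4 → ℝ} (hx : ∀ i, |x i| ≤ 1) {e : ℕ} {M : Fin 9 → ℝ} {v : Fin 9 → ℤ} {a : Fin 9 → L4}
    {q : Fin 9 → Q10} {r : Fin 9 → ℕ} (her : ∀ k, |M k * 2 ^ e - (v k + (a k).ev x + (q k).ev x)| ≤ r k)
    (u : Fin 3 → ℂ) (W : Fin 9 → ℝ) (hW1 : ∀ k, W k = 2 * v k + ((q k).c11 + (q k).c22 + ((q k).c33 + (q k).c44)) -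
      (RR (fun k => rho (q k) (r k)) k : ℝ) + 2 * (a k).ev x + 2 * ((q k).c12 * (x 0 * x 1) + (q k).c13 * (x 0 * x 2) +
        (q k).c14 * (x 0 * x 3) + (q k).c23 * (x 1 * x 2) + (q k).c24 * (x 1 * x 3) + (q k).c34 * (x 2 * x 3)))
    (hW : 0 ≤ QF W u) : 0 ≤ QF M u := by
  set ρ : Fin 9 → ℤ := fun k => rho (q k) (r k) with hρ
  set er : Fin 9 → ℝ := fun k => 2 * (M k * 2 ^ e - (v k + (a k).ev x + (q k).ev x)) + ((q k).c11 * (2 * (x 0 * x 0) - 1) +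
    (q k).c22 * (2 * (x 1 * x 1) - 1) + ((q k).c33 * (2 * (x 2 * x 2) - 1) + (q k).c44 * (2 * (x 3 * x 3) - 1))) with her'
  have h1 : ∀ k, |er k| ≤ (ρ k : ℝ) := by
    intro k
    have e1 : (ρ k : ℝ) = 2 * (r k : ℝ) + (((|(q k).c11| : ℤ) : ℝ) + ((|(q k).c22| : ℤ) : ℝ) + (((|(q k).c33| : ℤ) : ℝ) +
        ((|(q k).c44| : ℤ) : ℝ))) := by
      rw [hρ]
      unfold rho
      push_cast
      ring
    rw [e1, her']
    refine (abs_add_le _ _).trans (add_le_add ?_ ((abs_add_le _ _).trans (add_le_add ((abs_add_le _ _).trans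
      (add_le_add (sq_err _ _ (hx 0)) (sq_err _ _ (hx 1)))) ((abs_add_le _ _).trans
      (add_le_add (sq_err _ _ (hx 2)) (sq_err _ _ (hx 3)))))))
    rw [abs_mul, abs_of_pos (by norm_num : (0 : ℝ) < 2)]
    exact mul_le_mul_of_nonneg_left (her k) (by norm_num)
  have h2 := QF_err er (fun k => (ρ k : ℝ)) h1 (fun k => ((RR ρ k : ℤ) : ℝ)) (by simp [RR]) (by simp [RR]) (by simp [RR])
    (by intro k hk; fin_cases k <;> simp_all [RR]) u
  have h3 := QF_lin W (fun k => er k + ((RR ρ k : ℤ) : ℝ)) 1 1 u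
  have h4 := QF_lin M M (2 * 2 ^ e) 0 u
  have h5 : (fun k => 2 * 2 ^ e * M k + 0 * M k) = fun k => 1 * W k + 1 * (er k + ((RR ρ k : ℤ) : ℝ)) := by
    funext k
    rw [hW1, her']
    unfold Q10.ev
    push_cast
    ring
  rw [h5, h3] at h4
  have h6 : 0 < (2 : ℝ) * 2 ^ e := by positivity
  have h7 : 0 ≤ 2 * 2 ^ e * QF M u := by linarith
  exact nonneg_of_mul_nonneg_right h7 h6

/-! ### Extraction of the packed coefficient vectors -/

theorem Bh_DD : Bh = Dh * DD ^ 9 := by rw [Bh_eq, Dh_eq, DD_eq, ← pow_mul, ← pow_add]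

theorem pz_abs_lt {w : Fin 9 → ℤ} (h : nz w < Dh) : |pz w| < Bh := by
  have hD : (1 : ℤ) ≤ DD := by exact_mod_cast DD_pos
  have h1 : |pz w| ≤ ∑ k : Fin 9, |w k| * (DD : ℤ) ^ 9 := by
    unfold pz
    refine (Finset.abs_sum_le_sum_abs _ _).trans (Finset.sum_le_sum fun k _ => ?_)
    rw [abs_mul, abs_of_nonneg (by positivity : (0 : ℤ) ≤ (DD : ℤ) ^ (k : ℕ))]
    exact mul_le_mul_of_nonneg_left (pow_le_pow_right₀ hD (by omega)) (abs_nonneg _)
  rw [← Finset.sum_mul] at h1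
  have h2 : (Bh : ℤ) = Dh * DD ^ 9 := by exact_mod_cast Bh_DD
  have h3 : (0 : ℤ) < (DD : ℤ) ^ 9 := by positivity
  rw [h2]
  exact h1.trans_lt (mul_lt_mul_of_pos_right h h3)

theorem BB_cast : (BB : ℤ) = 2 * Bh := by exact_mod_cast two_Bh.symm

theorem pz_two (c : Fin 9 → ℤ) : pz (fun k => 2 * c k) = 2 * pz c := by
  have := pz_lin 2 0 c c
  simpa using this

theorem nz_two (c : Fin 9 → ℤ) : nz (fun k => 2 * c k) = 2 * nz c := by
  unfold nz
  rw [Finset.mul_sum]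
  refine Finset.sum_congr rfl fun k _ => ?_
  rw [abs_mul]
  norm_num

theorem ok_bl {c : Fin 9 → ℤ} (hc : nz c < Dh) (N s : ℕ) (h : Nat.mod (Nat.shiftRight N s) BB = od1 (pz c)) :
    Ok (bl N s) c := by
  refine ⟨?_, Nat.mod_lt _ BB_pos⟩
  unfold bl
  rw [h]
  refine (modB _).trans ?_
  show ((od1 (pz c) + Bh : ℕ) : ℤ) ≡ _ [ZMOD BB]
  rw [Nat.cast_add, od1_cast (pz_abs_lt hc), Int.modEq_iff_dvd]
  exact ⟨-1, by rw [BB_cast]; ring⟩

theorem ok_bl2 {c : Fin 9 → ℤ} (hc : nz c < Dh) (N s : ℕ) (h : Nat.mod (Nat.shiftRight N s) BB = od1 (pz c)) :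
    Ok (bl2 N s) fun k => 2 * c k := by
  refine ⟨?_, Nat.mod_lt _ BB_pos⟩
  unfold bl2
  rw [h, pz_two]
  refine (modB _).trans ?_
  show ((2 * (od1 (pz c) + Bh) : ℕ) : ℤ) ≡ _ [ZMOD BB]
  rw [Nat.cast_mul, Nat.cast_add, od1_cast (pz_abs_lt hc), Int.modEq_iff_dvd]
  exact ⟨-2, by rw [BB_cast]; push_cast; ring⟩

theorem ad1_eq {c : Fin 9 → ℤ} {H : ℕ} (hH : Ok H c) (hc : nz c < Dh) (k : Fin 9) (s : ℕ) (hs : s = 160 * (k : ℕ)) :
    ((ad1 (ad H O9) s : ℕ) : ℤ) = |c k| := by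
  unfold ad1
  rw [ev_eq]
  have h1 : dgt (ad H O9) s = odd1 (c k) := hH.dgt hc _ rfl k s hs
  rw [h1]
  have h2 := ds_cast (odd1 (c k)) Dh
  rw [odd1_cast ((le_nz c k).trans_lt hc), add_sub_cancel_right] at h2
  exact h2

theorem rd_eq {c1 c2 c3 c4 : Fin 9 → ℤ} {H1 H2 H3 H4 : ℕ} (g1 : Ok H1 c1) (g2 : Ok H2 c2) (g3 : Ok H3 c3) (g4 : Ok H4 c4)
    (b1 : nz c1 < Dh) (b2 : nz c2 < Dh) (b3 : nz c3 < Dh) (b4 : nz c4 < Dh) (r : Fin 9 → ℕ) (hr : ∀ k, r k < DD) (R : ℕ)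
    (hR : R = pk9 r) (k : Fin 9) (s : ℕ) (hs : s = 160 * (k : ℕ)) :
    ((rd (ad H1 O9) (ad H2 O9) (ad H3 O9) (ad H4 O9) R s : ℕ) : ℤ) = |c1 k| + |c2 k| + (|c3 k| + |c4 k|) + 2 * r k := by
  have e1 : dgt R s = r k := by
    rw [hR]
    exact dgt9 r hr k s hs
  show ((ad1 (ad H1 O9) s + ad1 (ad H2 O9) s + (ad1 (ad H3 O9) s + ad1 (ad H4 O9) s) + 2 * dgt R s : ℕ) : ℤ) = _
  push_cast
  rw [ad1_eq g1 b1 k s hs, ad1_eq g2 b2 k s hs, ad1_eq g3 b3 k s hs, ad1_eq g4 b4 k s hs, e1]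

theorem red_eq (x0 x1 x2 x3 x4 x5 x6 x7 x8 : ℕ) (ρ : Fin 9 → ℤ) (h0 : (x0 : ℤ) = ρ 0) (h1 : (x1 : ℤ) = ρ 1)
    (h2 : (x2 : ℤ) = ρ 2) (h3 : (x3 : ℤ) = ρ 3) (h4 : (x4 : ℤ) = ρ 4) (h5 : (x5 : ℤ) = ρ 5) (h6 : (x6 : ℤ) = ρ 6)
    (h7 : (x7 : ℤ) = ρ 7) (h8 : (x8 : ℤ) = ρ 8) : ((red x0 x1 x2 x3 x4 x5 x6 x7 x8 : ℕ) : ℤ) = pz (RR ρ) := by
  unfold red
  rw [shl_DD, shl_DD]
  show ((x0 + ((x3 + x4) + (x5 + x6)) + (x1 + ((x3 + x4) + (x7 + x8)) + (x2 + ((x5 + x6) + (x7 + x8))) * DD) * DD : ℕ) : ℤ) = _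
  push_cast
  rw [h0, h1, h2, h3, h4, h5, h6, h7, h8]
  unfold pz RR
  simp [Fin.sum_univ_succ]
  ring

theorem nz_RR (ρ : Fin 9 → ℤ) (h : ∀ k, 0 ≤ ρ k) : nz (RR ρ) ≤ 2 * ∑ k, ρ k := by
  unfold nz RR
  simp only [Fin.sum_univ_succ, Fin.sum_univ_zero]
  simp only [Matrix.cons_val_zero, Matrix.cons_val_succ]
  have a0 := h 0
  have a1 := h 1
  have a2 := h 2
  have a3 := h 3
  have a4 := h 4
  have a5 := h 5
  have a6 := h 6
  have a7 := h 7
  have a8 := h 8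
  rw [abs_of_nonneg (by positivity : 0 ≤ ρ 0 + ((ρ 3 + ρ 4) + (ρ 5 + ρ 6))),
    abs_of_nonneg (by positivity : 0 ≤ ρ 1 + ((ρ 3 + ρ 4) + (ρ 7 + ρ 8))),
    abs_of_nonneg (by positivity : 0 ≤ ρ 2 + ((ρ 5 + ρ 6) + (ρ 7 + ρ 8)))]
  simp only [abs_zero]
  show _ ≤ 2 * (ρ 0 + (ρ 1 + (ρ 2 + (ρ 3 + (ρ 4 + (ρ 5 + (ρ 6 + (ρ 7 + (ρ 8 + 0)))))))))
  linarith

theorem pk9_pz {n : ℕ} {f : Fin 9 → ℕ} {w : Fin 9 → ℤ} (h : ∀ k, (f k : ℤ) ≡ w k [ZMOD n]) :
    ((pk9 f : ℕ) : ℤ) ≡ pz w [ZMOD n] := by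
  unfold pk9 pz
  push_cast
  have : ∀ s : Finset (Fin 9), ∑ k ∈ s, (f k : ℤ) * (DD : ℤ) ^ (k : ℕ) ≡ ∑ k ∈ s, w k * (DD : ℤ) ^ (k : ℕ) [ZMOD n] := by
    intro s
    classical
    induction s using Finset.induction_on with
    | empty => rfl
    | insert a s ha ih =>
      rw [Finset.sum_insert ha, Finset.sum_insert ha]
      exact ((h a).mul_right _).add ih
  exact this _

theorem pz_L4 (a : Fin 9 → L4) : pz (fun k => (a k).pk) =
    (⟨pz fun k => (a k).c1, pz fun k => (a k).c2, pz fun k => (a k).c3, pz fun k => (a k).c4⟩ : L4).pk := by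
  unfold pz L4.pk
  simp only [Finset.sum_mul, ← Finset.sum_add_distrib]
  exact Finset.sum_congr rfl fun k _ => by ring

theorem pz_Q10 (q : Fin 9 → Q10) : pz (fun k => (q k).pk) =
    (⟨pz fun k => (q k).c11, pz fun k => (q k).c12, pz fun k => (q k).c13, pz fun k => (q k).c14, pz fun k => (q k).c22,
      pz fun k => (q k).c23, pz fun k => (q k).c24, pz fun k => (q k).c33, pz fun k => (q k).c34,
      pz fun k => (q k).c44⟩ : Q10).pk := by
  unfold pz Q10.pk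
  simp only [Finset.sum_mul, ← Finset.sum_add_distrib]
  exact Finset.sum_congr rfl fun k _ => by ring

/-! ### The test -/

/-- Soundness of the test. -/
theorem tst_sound {k : ℕ} (hk : k ≤ 4) {x : Fin 4 → ℝ} (hx : ∀ i, |x i| ≤ 1) (hx0 : ∀ i : Fin 4, k ≤ (i : ℕ) → x i = 0)
    {M : Fin 9 → ℝ} {X : HP} (h : RepH x M X) (ht : tst k X = true) (u : Fin 3 → ℂ) : 0 ≤ QF M u := by
  obtain ⟨E, h⟩ := h
  choose v a q hq using h.rep
  unfold tst at ht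
  simp only [ev_eq] at ht
  rw [Bool.and_eq_true, Nat.ble_eq] at ht
  obtain ⟨ht1, ht2⟩ := ht
  set r : Fin 9 → ℕ := fun j => (E j).r with hr
  set c1 : Fin 9 → ℤ := fun j => (a j).c1 with hc1
  set c2 : Fin 9 → ℤ := fun j => (a j).c2 with hc2
  set c3 : Fin 9 → ℤ := fun j => (a j).c3 with hc3
  set c4 : Fin 9 → ℤ := fun j => (a j).c4 with hc4
  set c11 : Fin 9 → ℤ := fun j => (q j).c11 with hc11
  set c12 : Fin 9 → ℤ := fun j => (q j).c12 with hc12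
  set c13 : Fin 9 → ℤ := fun j => (q j).c13 with hc13
  set c14 : Fin 9 → ℤ := fun j => (q j).c14 with hc14
  set c22 : Fin 9 → ℤ := fun j => (q j).c22 with hc22
  set c23 : Fin 9 → ℤ := fun j => (q j).c23 with hc23
  set c24 : Fin 9 → ℤ := fun j => (q j).c24 with hc24
  set c33 : Fin 9 → ℤ := fun j => (q j).c33 with hc33
  set c34 : Fin 9 → ℤ := fun j => (q j).c34 with hc34
  set c44 : Fin 9 → ℤ := fun j => (q j).c44 with hc44
  -- the norms
  have hnn : ∀ j, |v j| + (a j).nrm + (q j).nrm + (r j : ℤ) ≤ (HP.nn (E j) : ℤ) := by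
    intro j
    have e1 : ((HP.nn (E j) : ℕ) : ℤ) = ((E j).n0 + (E j).n1 + ((E j).n2 + (E j).r) : ℕ) := rfl
    rw [e1]
    push_cast
    linarith [(hq j).n0, (hq j).n1, (hq j).n2]
  have hT0 : ∑ j, (|v j| + (a j).nrm + (q j).nrm + (r j : ℤ)) ≤ (X.t : ℤ) := by
    refine (Finset.sum_le_sum fun j _ => hnn j).trans ?_
    exact_mod_cast h.t
  have hT : nz v + (nz c1 + nz c2 + nz c3 + nz c4) + (nz c11 + nz c12 + nz c13 + nz c14 + nz c22 + nz c23 + nz c24 +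
      nz c33 + nz c34 + nz c44) + ∑ j, (r j : ℤ) ≤ (X.t : ℤ) := by
    refine le_trans (le_of_eq ?_) hT0
    unfold nz
    simp only [← Finset.sum_add_distrib]
    exact Finset.sum_congr rfl fun j _ => by unfold L4.nrm Q10.nrm; ring
  have h4 : 4 * (X.t : ℤ) < Dh := by
    have h5 : 4 * X.t ≤ Dh - 1 := ht1
    have h6 := Dh_pos
    have h7 : 4 * X.t < Dh := by omega
    exact_mod_cast h7
  have n0 := nz_nonneg v
  have n1 := nz_nonneg c1
  have n2 := nz_nonneg c2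
  have n3 := nz_nonneg c3
  have n4 := nz_nonneg c4
  have n11 := nz_nonneg c11
  have n12 := nz_nonneg c12
  have n13 := nz_nonneg c13
  have n14 := nz_nonneg c14
  have n22 := nz_nonneg c22
  have n23 := nz_nonneg c23
  have n24 := nz_nonneg c24
  have n33 := nz_nonneg c33
  have n34 := nz_nonneg c34
  have n44 := nz_nonneg c44
  have nr : 0 ≤ ∑ j, (r j : ℤ) := Finset.sum_nonneg fun j _ => Int.natCast_nonneg _
  have hXt : (0 : ℤ) ≤ X.t := Int.natCast_nonneg _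
  -- the packed ghosts
  have hgP : (X.g : ℤ) ≡ (⟨pz c1, pz c2, pz c3, pz c4⟩ : L4).pk [ZMOD MM] := by
    rw [hc1, hc2, hc3, hc4, ← pz_L4]
    exact (Int.natCast_modEq_iff.mpr h.g).trans (pk9_pz fun j => (hq j).hg)
  have hhP : (X.h : ℤ) ≡ (⟨pz c11, pz c12, pz c13, pz c14, pz c22, pz c23, pz c24, pz c33, pz c34, pz c44⟩ : Q10).pk
      [ZMOD MM] := by
    rw [hc11, hc12, hc13, hc14, hc22, hc23, hc24, hc33, hc34, hc44, ← pz_Q10]
    exact (Int.natCast_modEq_iff.mpr h.h).trans (pk9_pz fun j => (hq j).hh)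
  have hvP : (X.v : ℤ) ≡ pz v [ZMOD BB] :=
    (((Int.natCast_modEq_iff.mpr h.v).trans (pk9_pz fun j => (hq j).hv))).of_dvd (by exact_mod_cast BB_dvd)
  have sL : (⟨pz c1, pz c2, pz c3, pz c4⟩ : L4).Sm :=
    ⟨pz_abs_lt (by linarith), pz_abs_lt (by linarith), pz_abs_lt (by linarith), pz_abs_lt (by linarith)⟩
  have sQ : (⟨pz c11, pz c12, pz c13, pz c14, pz c22, pz c23, pz c24, pz c33, pz c34, pz c44⟩ : Q10).Sm :=
    ⟨pz_abs_lt (by linarith), pz_abs_lt (by linarith), pz_abs_lt (by linarith), pz_abs_lt (by linarith),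
      pz_abs_lt (by linarith), pz_abs_lt (by linarith), pz_abs_lt (by linarith), pz_abs_lt (by linarith),
      pz_abs_lt (by linarith), pz_abs_lt (by linarith)⟩
  have L := fun j s hj hs => blkL X.g _ hgP sL j s hj hs
  have K := fun j s hj hs => blkQ X.h _ hhP sQ j s hj hs
  have o1 := ok_bl2 (c := c1) (by linarith) _ _ (L 0 (nat_lit 0) (by norm_num) rfl)
  have o2 := ok_bl2 (c := c2) (by linarith) _ _ (L 1 (nat_lit 1600) (by norm_num) rfl)
  have o3 := ok_bl2 (c := c3) (by linarith) _ _ (L 4 (nat_lit 6400) (by norm_num) rfl)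
  have o4 := ok_bl2 (c := c4) (by linarith) _ _ (L 6 (nat_lit 9600) (by norm_num) rfl)
  have o12 := ok_bl2 (c := c12) (by linarith) _ _ (K 1 (nat_lit 1600) (by norm_num) rfl)
  have o13 := ok_bl2 (c := c13) (by linarith) _ _ (K 4 (nat_lit 6400) (by norm_num) rfl)
  have o14 := ok_bl2 (c := c14) (by linarith) _ _ (K 6 (nat_lit 9600) (by norm_num) rfl)
  have o23 := ok_bl2 (c := c23) (by linarith) _ _ (K 5 (nat_lit 8000) (by norm_num) rfl)
  have o24 := ok_bl2 (c := c24) (by linarith) _ _ (K 7 (nat_lit 11200) (by norm_num) rfl)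
  have o34 := ok_bl2 (c := c34) (by linarith) _ _ (K 10 (nat_lit 16000) (by norm_num) rfl)
  have o11 := ok_bl (c := c11) (by linarith) _ _ (K 0 (nat_lit 0) (by norm_num) rfl)
  have o22 := ok_bl (c := c22) (by linarith) _ _ (K 2 (nat_lit 3200) (by norm_num) rfl)
  have o33 := ok_bl (c := c33) (by linarith) _ _ (K 8 (nat_lit 12800) (by norm_num) rfl)
  have o44 := ok_bl (c := c44) (by linarith) _ _ (K 12 (nat_lit 19200) (by norm_num) rfl)
  clear L K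
  generalize (Nat.mod (Nat.add X.g OG) MM) = N at *
  generalize (Nat.mod (Nat.add X.h OH) MM) = K at *
  generalize bl2 N (nat_lit 0) = A1 at *
  generalize bl2 N (nat_lit 1600) = A2 at *
  generalize bl2 N (nat_lit 6400) = A3 at *
  generalize bl2 N (nat_lit 9600) = A4 at *
  generalize bl2 K (nat_lit 1600) = A12 at *
  generalize bl2 K (nat_lit 6400) = A13 at *
  generalize bl2 K (nat_lit 9600) = A14 at *
  generalize bl2 K (nat_lit 8000) = A23 at *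
  generalize bl2 K (nat_lit 11200) = A24 at *
  generalize bl2 K (nat_lit 16000) = A34 at *
  generalize bl K (nat_lit 0) = A11 at *
  generalize bl K (nat_lit 3200) = A22 at *
  generalize bl K (nat_lit 12800) = A33 at *
  generalize bl K (nat_lit 19200) = A44 at *
  -- the reductions
  have hrr : ∀ j, r j < DD := by
    intro j
    have h5 : (r j : ℤ) ≤ ∑ j, (r j : ℤ) :=
      Finset.single_le_sum (f := fun j => (r j : ℤ)) (fun _ _ => Int.natCast_nonneg _) (Finset.mem_univ j)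
    have h6 : (DD : ℤ) = 2 * Dh := by exact_mod_cast two_Dh.symm
    have h7 : (r j : ℤ) < DD := by linarith
    exact_mod_cast h7
  have hRd := fun j s hs => rd_eq o11 o22 o33 o44 (by linarith) (by linarith) (by linarith) (by linarith) r hrr X.r h.r j s hs
  set ρ : Fin 9 → ℤ := fun j => rho (q j) (r j) with hρ
  have hR : ((rdd (ad A11 O9) (ad A22 O9) (ad A33 O9) (ad A44 O9) X.r : ℕ) : ℤ) = pz (RR ρ) := by
    unfold rdd
    exact red_eq _ _ _ _ _ _ _ _ _ ρ (hRd 0 _ rfl) (hRd 1 _ rfl) (hRd 2 _ rfl) (hRd 3 _ rfl) (hRd 4 _ rfl) (hRd 5 _ rfl)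
      (hRd 6 _ rfl) (hRd 7 _ rfl) (hRd 8 _ rfl)
  have hρs : ∑ j, ρ j = nz c11 + nz c22 + (nz c33 + nz c44) + 2 * ∑ j, (r j : ℤ) := by
    unfold nz
    rw [Finset.mul_sum]
    simp only [← Finset.sum_add_distrib]
    rfl
  have hRn := nz_RR ρ (fun j => rho_nonneg _ _)
  have oR : Ok (rdd (ad A11 O9) (ad A22 O9) (ad A33 O9) (ad A44 O9) X.r) (RR ρ) := by
    refine ⟨modEq_of_eq hR, ?_⟩
    have h5 := pz_abs_lt (w := RR ρ) (by linarith)
    rw [← hR] at h5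
    have h6 := (abs_lt.mp h5).2
    have h7 := BB_cast
    have h8 : (0 : ℤ) ≤ Bh := Int.natCast_nonneg _
    have h9 : ((rdd (ad A11 O9) (ad A22 O9) (ad A33 O9) (ad A44 O9) X.r : ℕ) : ℤ) < BB := by linarith
    exact_mod_cast h9
  generalize rdd (ad A11 O9) (ad A22 O9) (ad A33 O9) (ad A44 O9) X.r = R at *
  -- the constant part
  have oW : Ok (Nat.mod (Nat.add (Nat.mul (nat_lit 2) X.v) (Nat.add (Nat.add A11 A22) (Nat.add A33 A44))) BB)
      fun j => 2 * v j + (c11 j + c22 j + (c33 j + c44 j)) := by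
    refine ⟨?_, Nat.mod_lt _ BB_pos⟩
    refine (modB _).trans ?_
    show ((2 * X.v + (A11 + A22 + (A33 + A44)) : ℕ) : ℤ) ≡ _ [ZMOD BB]
    have e1 : pz (fun j => 2 * v j + (c11 j + c22 j + (c33 j + c44 j))) =
        2 * pz v + (pz c11 + pz c22 + (pz c33 + pz c44)) := by
      rw [pz_add (fun j => 2 * v j), pz_two, pz_add (fun j => c11 j + c22 j), pz_add c11, pz_add c33]
    rw [e1]
    push_cast
    exact (hvP.mul_left 2).add ((o11.eq.add o22.eq).add (o33.eq.add o44.eq))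
  have oV := oW.sb oR
  generalize sb (Nat.mod (Nat.add (Nat.mul (nat_lit 2) X.v) (Nat.add (Nat.add A11 A22) (Nat.add A33 A44))) BB) R = V at *
  have nV : nz (fun j => 2 * v j + (c11 j + c22 j + (c33 j + c44 j)) - RR ρ j) ≤
      2 * nz v + (nz c11 + nz c22 + (nz c33 + nz c44)) + nz (RR ρ) := by
    refine (nz_sub (fun j => 2 * v j + (c11 j + c22 j + (c33 j + c44 j))) (RR ρ)).trans (add_le_add ?_ le_rfl)
    refine (nz_add (fun j => 2 * v j) _).trans (add_le_add (nz_two v).le ?_)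
    exact (nz_add (fun j => c11 j + c22 j) _).trans (add_le_add (nz_add c11 c22) (nz_add c33 c44))
  have m1 := nz_two c1
  have m2 := nz_two c2
  have m3 := nz_two c3
  have m4 := nz_two c4
  have m12 := nz_two c12
  have m13 := nz_two c13
  have m14 := nz_two c14
  have m23 := nz_two c23
  have m24 := nz_two c24
  have m34 := nz_two c34
  rw [cond_beq, cond_beq, cond_beq] at ht2
  have fin : ∀ W : Fin 9 → ℝ, (∀ k, W k = 2 * v k + ((q k).c11 + (q k).c22 + ((q k).c33 + (q k).c44)) -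
      (RR ρ k : ℝ) + 2 * (a k).ev x + 2 * ((q k).c12 * (x 0 * x 1) + (q k).c13 * (x 0 * x 2) +
        (q k).c14 * (x 0 * x 3) + (q k).c23 * (x 1 * x 2) + (q k).c24 * (x 1 * x 3) + (q k).c34 * (x 2 * x 3))) →
      0 ≤ QF W u → 0 ≤ QF M u := by
    intro W hW1 hW
    refine core hx (e := X.e) (r := r) (fun j => ?_) u W hW1 hW
    rw [← h.sc j]
    exact (hq j).er
  by_cases k4 : k = (nat_lit 4)
  · rw [if_pos k4] at ht2
    refine fin _ (fun j => ?_) (f4_sound oV o1 o2 o3 o4 o12 o13 o14 o23 o24 o34 (by linarith) ht2 (hx 0) (hx 1) (hx 2) (hx 3) u)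
    unfold L4.ev
    push_cast
    simp only [hc1, hc2, hc3, hc4, hc11, hc12, hc13, hc14, hc22, hc23, hc24, hc33, hc34, hc44]
    ring
  rw [if_neg k4] at ht2
  by_cases k3 : k = (nat_lit 3)
  · rw [if_pos k3] at ht2
    have x3 : x 3 = 0 := hx0 3 (le_of_eq k3)
    refine fin _ (fun j => ?_) (f3_sound oV o1 o2 o3 o12 o13 o23 (by linarith) ht2 (hx 0) (hx 1) (hx 2) u)
    unfold L4.ev
    rw [x3]
    push_cast
    simp only [hc1, hc2, hc3, hc4, hc11, hc12, hc13, hc14, hc22, hc23, hc24, hc33, hc34, hc44]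
    ring
  rw [if_neg k3] at ht2
  by_cases k2 : k = (nat_lit 2)
  · rw [if_pos k2] at ht2
    have x3 : x 3 = 0 := hx0 3 (by rw [k2]; decide)
    have x2 : x 2 = 0 := hx0 2 (le_of_eq k2)
    refine fin _ (fun j => ?_) (f2_sound oV o1 o2 o12 (by linarith) ht2 (hx 0) (hx 1) u)
    unfold L4.ev
    rw [x3, x2]
    push_cast
    simp only [hc1, hc2, hc3, hc4, hc11, hc12, hc13, hc14, hc22, hc23, hc24, hc33, hc34, hc44]
    ring
  rw [if_neg k2] at ht2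
  have k1 : k ≤ 1 := by
    have k4' : k ≠ 4 := k4
    have k3' : k ≠ 3 := k3
    have k2' : k ≠ 2 := k2
    omega
  have x3 : x 3 = 0 := hx0 3 (k1.trans (by decide))
  have x2 : x 2 = 0 := hx0 2 (k1.trans (by decide))
  have x1 : x 1 = 0 := hx0 1 k1
  refine fin _ (fun j => ?_) (f1_sound oV o1 (by linarith) ht2 (hx 0) u)
  unfold L4.ev
  rw [x3, x2, x1]
  push_cast
  simp only [hc1, hc2, hc3, hc4, hc11, hc12, hc13, hc14, hc22, hc23, hc24, hc33, hc34, hc44]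
  ring

end Pool.Agent.Work.MP_88b7aa_gt.Kc
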