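import Pool.Agent.Work.MP_88b7aa_gt.Kc.S5
import Pool.Agent.Work.MP_88b7aa_gt.Kc.Ari

/-!
# Soundness of the packed Taylor models, part 6: the instance of the engine
-/

set_option autoImplicit false

namespace Pool.Agent.Work.MP_88b7aa_gt.Kc

open Pool.Agent.Work.MP_88b7aa_gt.PQ
open ComplexConjugate Complex Matrix

theorem Mh_eq : Mh = 2 ^ 20799 := by
  unfold Mh
  exact Nat.pow_eq

seal Mh

seal MM BB Bh DD Dh M1 OG OH HP.pk PP P1 Ph Os O9

theorem two_Mh : 2 * Mh = MM := by rw [Mh_eq, MM_eq, ← pow_succ']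

theorem Mh_pos : 0 < Mh := by
  have h1 := two_Mh
  have h2 := MM_pos
  omega

/-! ### Real operations -/

theorem Rep.isz {x : Fin 4 → ℝ} (hx : ∀ i, |x i| ≤ 1) {y : ℝ} {X : P2} (h : Rep x y X) (hz : P2.isz X = true) : y = 0 := by
  obtain ⟨v, a, q, h⟩ := h
  unfold P2.isz at hz
  rw [Nat.beq_eq] at hz
  have hz' : X.n0 + X.n1 + (X.n2 + X.r) = 0 := hz
  have e0 : X.n0 = 0 := by omega
  have e1 : X.n1 = 0 := by omega
  have e2 : X.n2 = 0 := by omega
  have e3 : X.r = 0 := by omega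
  have h0 := h.n0
  have h1 := h.n1
  have h2 := h.n2
  have h3 := h.er
  rw [e0] at h0
  rw [e1] at h1
  rw [e2] at h2
  rw [e3] at h3
  have hv : v = 0 := abs_nonpos_iff.mp (by exact_mod_cast h0)
  have ha : a.ev x = 0 := by
    have h4 := a.ev_le x hx
    have h5 : (a.nrm : ℝ) ≤ 0 := by exact_mod_cast h1
    exact abs_nonpos_iff.mp (h4.trans h5)
  have hq : q.ev x = 0 := by
    have h4 := q.ev_le x hx
    have h5 : (q.nrm : ℝ) ≤ 0 := by exact_mod_cast h2
    exact abs_nonpos_iff.mp (h4.trans h5)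
  rw [hv, ha, hq] at h3
  have h4 : y * 2 ^ X.e - (((0 : ℤ) : ℝ) + 0 + 0) = 0 := abs_nonpos_iff.mp (by simpa using h3)
  have h5 : y * 2 ^ X.e = 0 := by simpa using h4
  rcases mul_eq_zero.mp h5 with h6 | h6
  · exact h6
  · exact absurd h6 (by positivity)

theorem cond_true' {α : Type} {b : Bool} (h : b = true) (u w : α) : cond b u w = u := by rw [h]; rfl

theorem cond_false' {α : Type} {b : Bool} (h : b = false) (u w : α) : cond b u w = w := by rw [h]; rfl

theorem Rep.rndA {x : Fin 4 → ℝ} (hx : ∀ i, |x i| ≤ 1) {y : ℝ} {X : P2} (h : Rep x y X) : Rep x y (rndA X) := by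
  unfold Kc.rndA
  rw [cond_ble]
  split
  · exact h
  · exact h.rnd hx _

theorem Rep.mulA {x : Fin 4 → ℝ} (hx : ∀ i, |x i| ≤ 1) {y z : ℝ} {X Y : P2} (h : Rep x y X) (k : Rep x z Y) :
    Rep x (y * z) (mulA X Y) := by
  unfold Kc.mulA
  cases h1 : P2.isz X with
  | true =>
    rw [cond_true' rfl, h.isz hx h1, zero_mul]
    exact Rep.zero x
  | false =>
    rw [cond_false' rfl]
    cases h2 : P2.isz Y with
    | true =>
      rw [cond_true' rfl, k.isz hx h2, mul_zero]
      exact Rep.zero x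
    | false =>
      rw [cond_false' rfl]
      exact (h.mul hx k).rndA hx

theorem csm_pos (x : Fin 4 → ℝ) (m e : ℕ) : Rep x ((m : ℝ) / 2 ^ e) (csm true m e) := by
  have h := Rep.cst x (m : ℤ) m m e rfl (by rw [abs_of_nonneg (Int.natCast_nonneg _)])
  rw [Int.cast_natCast] at h
  exact h

theorem csm_neg (x : Fin 4 → ℝ) (m e : ℕ) : Rep x (-(m : ℝ) / 2 ^ e) (csm false m e) := by
  have h := Rep.cst x (-(m : ℤ)) (MM - m % MM) m e (by
    rw [Nat.cast_sub (Nat.mod_lt _ MM_pos).le, Int.natCast_mod]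
    have h1 : ((m : ℤ) % MM) ≡ m [ZMOD MM] := Int.mod_modEq _ _
    have h2 : (MM : ℤ) - (m : ℤ) % MM ≡ 0 - (m : ℤ) [ZMOD MM] := by
      refine Int.ModEq.sub ?_ h1
      rw [Int.modEq_iff_dvd]
      exact ⟨-1, by ring⟩
    rwa [zero_sub] at h2) (by rw [abs_neg, abs_of_nonneg (Int.natCast_nonneg _)])
  rw [Int.cast_neg, Int.cast_natCast] at h
  exact h

theorem div_case {n d : ℕ} (h : n % d = 0) : (n : ℝ) = ((n / d : ℕ) : ℝ) * d := by
  have h1 := Nat.div_add_mod n d
  rw [h, add_zero] at h1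
  have h2 : ((d * (n / d) : ℕ) : ℝ) = n := by rw [h1]
  rw [← h2]
  push_cast
  ring

theorem csn_pos (x : Fin 4 → ℝ) (n : ℕ) : Rep x ((n : ℝ) / 1073741824) (csn true n) := by
  unfold csn
  simp only [cond_beq]
  split
  · rename_i h
    split
    · rename_i h1
      have e1 : (n : ℝ) / 1073741824 = ((Nat.div n (nat_lit 1073741824) : ℕ) : ℝ) / 2 ^ 0 := by
        have := div_case (n := n) (d := 1073741824) h1
        have e2 : Nat.div n (nat_lit 1073741824) = n / 1073741824 := rfl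
        rw [e2, this]
        push_cast
        field_simp
      rw [e1]
      exact csm_pos x _ _
    · have e1 : (n : ℝ) / 1073741824 = ((Nat.div n (nat_lit 262144) : ℕ) : ℝ) / 2 ^ 12 := by
        have := div_case (n := n) (d := 262144) h
        have e2 : Nat.div n (nat_lit 262144) = n / 262144 := rfl
        rw [e2, this]
        push_cast
        ring
      rw [e1]
      exact csm_pos x _ _
  · split
    · rename_i h1
      have e1 : (n : ℝ) / 1073741824 = ((Nat.div n (nat_lit 1024) : ℕ) : ℝ) / 2 ^ 20 := by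
        have := div_case (n := n) (d := 1024) h1
        have e2 : Nat.div n (nat_lit 1024) = n / 1024 := rfl
        rw [e2, this]
        push_cast
        ring
      rw [e1]
      exact csm_pos x _ _
    · have e1 : (n : ℝ) / 1073741824 = (n : ℝ) / 2 ^ 30 := by norm_num
      rw [e1]
      exact csm_pos x _ _

theorem csn_neg (x : Fin 4 → ℝ) (n : ℕ) : Rep x (-(n : ℝ) / 1073741824) (csn false n) := by
  unfold csn
  simp only [cond_beq]
  split
  · rename_i h
    split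
    · rename_i h1
      have e1 : -(n : ℝ) / 1073741824 = -((Nat.div n (nat_lit 1073741824) : ℕ) : ℝ) / 2 ^ 0 := by
        have := div_case (n := n) (d := 1073741824) h1
        have e2 : Nat.div n (nat_lit 1073741824) = n / 1073741824 := rfl
        rw [e2, this]
        push_cast
        field_simp
      rw [e1]
      exact csm_neg x _ _
    · have e1 : -(n : ℝ) / 1073741824 = -((Nat.div n (nat_lit 262144) : ℕ) : ℝ) / 2 ^ 12 := by
        have := div_case (n := n) (d := 262144) h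
        have e2 : Nat.div n (nat_lit 262144) = n / 262144 := rfl
        rw [e2, this]
        push_cast
        ring
      rw [e1]
      exact csm_neg x _ _
  · split
    · rename_i h1
      have e1 : -(n : ℝ) / 1073741824 = -((Nat.div n (nat_lit 1024) : ℕ) : ℝ) / 2 ^ 20 := by
        have := div_case (n := n) (d := 1024) h1
        have e2 : Nat.div n (nat_lit 1024) = n / 1024 := rfl
        rw [e2, this]
        push_cast
        ring
      rw [e1]
      exact csm_neg x _ _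
    · have e1 : -(n : ℝ) / 1073741824 = -(n : ℝ) / 2 ^ 30 := by norm_num
      rw [e1]
      exact csm_neg x _ _

theorem Rep.cstI (x : Fin 4 → ℝ) (z : ℤ) : Rep x ((z : ℝ) / 1073741824) (cstI z) := by
  cases z with
  | ofNat n =>
    have h := csn_pos x n
    exact h
  | negSucc n =>
    have h := csn_neg x (n + 1)
    have e : ((Int.negSucc n : ℤ) : ℝ) = -((n + 1 : ℕ) : ℝ) := by
      rw [Int.cast_negSucc]
    rw [e]
    exact h

theorem Rep.nrmA {x : Fin 4 → ℝ} (hx : ∀ i, |x i| ≤ 1) {y : ℝ} {X : P2} (h : Rep x y X) : Rep x y (nrmA X) := by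
  unfold Kc.nrmA
  cases Nat.ble X.e (nat_lit 40)
  · exact h.rnd hx _
  · exact h

theorem OP_rel {x : Fin 4 → ℝ} (hx : ∀ i, |x i| ≤ 1) : OpsRel OP (Rep x) :=
  ⟨fun h k => h.add k, fun h k => h.sub k, fun h => h.neg, fun h k => h.mulA hx k, fun n => Rep.cstI x n, fun h => h.nrmA hx⟩

theorem Rep.posB {x : Fin 4 → ℝ} (hx : ∀ i, |x i| ≤ 1) {y : ℝ} {X : P2} (h : Rep x y X) (hp : Kc.posB X = true) : 0 < y := by
  obtain ⟨v, a, q, h⟩ := h
  unfold Kc.posB at hp
  rw [Bool.and_eq_true, Bool.and_eq_true, Nat.ble_eq, Nat.ble_eq, Nat.ble_eq] at hp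
  obtain ⟨h1, h2, h3⟩ := hp
  have h2' : X.n0 ≤ Mh - 1 := h2
  have h3' : X.n1 + X.n2 + X.r + 1 ≤ X.v := h3
  have hMp := Mh_pos
  have hv : v = X.v := by
    have g1 := Int.modEq_iff_dvd.mp h.hv
    have g2 : |v - X.v| < (MM : ℤ) := by
      have g3 : (MM : ℤ) = 2 * Mh := by exact_mod_cast two_Mh.symm
      have g4 : (X.n0 : ℤ) < Mh := by
        have : X.n0 < Mh := by omega
        exact_mod_cast this
      have g5 : (X.v : ℤ) ≤ X.n0 := by exact_mod_cast h1
      have g6 : (0 : ℤ) ≤ X.v := Int.natCast_nonneg _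
      have g7 := abs_le.mp h.n0
      rw [g3, abs_lt]
      constructor <;> linarith
    have g3 := Int.eq_zero_of_abs_lt_dvd g1 g2
    linarith
  have e1 := abs_le.mp h.er
  have e2 := abs_le.mp (a.ev_le x hx)
  have e3 := abs_le.mp (q.ev_le x hx)
  have e4 : (a.nrm : ℝ) ≤ X.n1 := by exact_mod_cast h.n1
  have e5 : (q.nrm : ℝ) ≤ X.n2 := by exact_mod_cast h.n2
  have e6 : (X.n1 : ℝ) + X.n2 + X.r + 1 ≤ X.v := by exact_mod_cast h3'
  have e7 : (v : ℝ) = X.v := by rw [hv, Int.cast_natCast]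
  have e8 : 0 < y * 2 ^ X.e := by linarith [e1.1, e2.1, e3.1]
  exact pos_of_mul_pos_left e8 (by positivity)

theorem Rep.pos {x : Fin 4 → ℝ} (hx : ∀ i, |x i| ≤ 1) {y : ℝ} {X : P2} (h : Rep x y X) (hp : posA X = true) : 0 < y := by
  unfold posA at hp
  cases h1 : Kc.posB X with
  | true => exact h.posB hx h1
  | false =>
    rw [h1] at hp
    exact (h.rnd hx _).posB hx hp

/-! ### Matrices -/

/-- the nine real entries -/
def v9 (Q : H9 ℝ) : Fin 9 → ℝ := ![Q.d0, Q.d1, Q.d2, Q.e01.re, Q.e01.im, Q.e02.re, Q.e02.im, Q.e12.re, Q.e12.im]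

/-- The relation for packed matrices. -/
def RelP (x : Fin 4 → ℝ) (M : H9 ℝ) (X : HP) : Prop := RepH x (v9 M) X

theorem QF_v9 (Q : H9 ℝ) (u : Fin 3 → ℂ) : QF (v9 Q) u = qf (hm Q) u := by
  show qf (Hm Q.d0 Q.d1 Q.d2 Q.e01.re Q.e01.im Q.e02.re Q.e02.im Q.e12.re Q.e12.im) u = _
  rw [qf_Hm, qf_hm]
  simp only [Cx.c, normSq_apply, Complex.mul_re, Complex.mul_im, Complex.conj_re, Complex.conj_im]
  ring

theorem RelP_pk {x : Fin 4 → ℝ} {Q : H9 ℝ} {t : H9 P2} (h : RH (Rep x) Q t) : RelP x Q (HP.ofH (toH2 t)) := by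
  refine RepH.ofH fun k => ?_
  fin_cases k
  · exact h.d0
  · exact h.d1
  · exact h.d2
  · exact h.e01.re
  · exact h.e01.im
  · exact h.e02.re
  · exact h.e02.im
  · exact h.e12.re
  · exact h.e12.im

theorem P2.ekA_eq {α : Type} (x : P2) (k : P2 → α) : P2.ekA x k = k x := by
  unfold P2.ekA
  simp only [ev_eq]

theorem HP.ekA_eq {α : Type} (x : HP) (k : HP → α) : HP.ekA x k = k x := by
  unfold HP.ekA
  simp only [ev_eq]

theorem fHA_eq (M : H9 P2) (k : H9 P2 → Bool) : fHA M k = k M := by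
  unfold fHA cxK
  simp only [P2.ekA_eq]

theorem tstA_sound {k : ℕ} (hk : k ≤ 4) {x : Fin 4 → ℝ} (hx : ∀ i, |x i| ≤ 1) (h0 : ∀ i : Fin 4, k ≤ (i : ℕ) → x i = 0)
    {T X G : H9 ℝ} {t s g : HP} {lam mu : ℝ} {l m : P2} (hT : RelP x T t) (hX : RelP x X s) (hG : RelP x G g)
    (hl : Rep x lam l) (hm' : Rep x mu m) (ht : tstA k t s g l m = true) (v : Fin 3 → ℂ) :
    0 ≤ qf (hm T) v - lam * qf (hm X) v + mu * qf (hm G) v := by
  unfold tstA at ht
  rw [P2.ekA_eq, P2.ekA_eq, HP.ekA_eq] at ht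
  have h1 := (hT.add (RepH.mul hx hl.neg hX)).add (RepH.mul hx hm' hG)
  have h2 := tst_sound hk hx h0 h1 ht v
  have h3 := QF_lin (v9 T) (v9 X) 1 (-lam) v
  have h4 := QF_lin (fun k => v9 T k + -lam * v9 X k) (v9 G) 1 mu v
  have e3 : (fun k => 1 * v9 T k + -lam * v9 X k) = fun k => v9 T k + -lam * v9 X k := by
    funext j
    ring
  have e4 : (fun k => 1 * (v9 T k + -lam * v9 X k) + mu * v9 G k) = fun k => v9 T k + -lam * v9 X k + mu * v9 G k := by
    funext j
    ring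
  rw [e3] at h3
  rw [e4, h3] at h4
  rw [h4, QF_v9, QF_v9, QF_v9] at h2
  linarith

/-- Soundness of the packed arithmetic. -/
theorem AK_ok {k : ℕ} (hk : k ≤ 4) {x : Fin 4 → ℝ} (hx : ∀ i, |x i| ≤ 1) (h0 : ∀ i : Fin 4, k ≤ (i : ℕ) → x i = 0) :
    ArpOK (AK k) (Rep x) (RelP x) :=
  ⟨OP_rel hx, fun h hp => h.pos hx hp, fun h => RelP_pk h, fun hT hX hG hl hm ht v => tstA_sound hk hx h0 hT hX hG hl hm ht v,
    fHA_eq, fun Q k => HP.ekA_eq Q k⟩

end Pool.Agent.Work.MP_88b7aa_gt.Kc
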