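import Pool.Agent.Work.MP_88b7aa_gt.Kc.Cel

/-!
# Lemmas for templates
-/

set_option autoImplicit false

namespace Pool.Agent.Work.MP_88b7aa_gt.Kc

open Pool.Agent.Work.MP_88b7aa_gt.PQ

/-- All special facts of a list are valid. -/
def SKA (fes : List FE) (lb oe : Fin 3 → Fin 3 → ℕ) (l : List SK) : Prop := ∀ s ∈ l, s.Ok fes lb oe

theorem SKA.nil {fes : List FE} {lb oe : Fin 3 → Fin 3 → ℕ} : SKA fes lb oe [] := by
  intro s hs
  exact absurd hs List.not_mem_nil

theorem SKA.cons {fes : List FE} {lb oe : Fin 3 → Fin 3 → ℕ} {s : SK} {l : List SK} (h : s.Ok fes lb oe) (t : SKA fes lb oe l) :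
    SKA fes lb oe (s :: l) := by
  intro s' hs
  rcases List.mem_cons.mp hs with rfl | hs
  · exact h
  · exact t s' hs

end Pool.Agent.Work.MP_88b7aa_gt.Kc
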